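import Mathlib.Analysis.Calculus.FDeriv.Symmetric
import Mathlib.Analysis.Calculus.Gradient.Basic
import Mathlib.RingTheory.RegularLocalRing.Defs
import Pool.Agent.MP_29b5d3_an.h35.Lin

-- ======== part 0: formerly Pool.Agent.MP_29b5d3_an.NC.Defs
section MrgPart0

/-! Project NEARCONF: definitions and basic lemmas. -/

set_option autoImplicit false

namespace Pool.Agent.MP_29b5d3_an.NC

open MeasureTheory Metric Filter Topology Module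
open scoped RealInnerProductSpace ContDiff

abbrev V (n : ℕ) : Type := EuclideanSpace ℝ (Fin n)

abbrev Mt (n : ℕ) : Type := V n →L[ℝ] V n

variable {n : ℕ}

/-- trace -/
noncomputable def tr (X : Mt n) : ℝ := LinearMap.trace ℝ (V n) (X : V n →ₗ[ℝ] V n)

/-- adjugate of an invertible operator, zero otherwise -/
noncomputable def adj (X : Mt n) : Mt n := X.det • X.inverse

/-- standard basis vector -/
noncomputable def ev (i : Fin n) : V n := EuclideanSpace.basisFun (Fin n) ℝ i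

/-- Hilbert-Schmidt inner product -/
noncomputable def hs (X Y : Mt n) : ℝ := ∑ i, ⟪X (ev i), Y (ev i)⟫

noncomputable def om (n : ℕ) (t : ℝ) : ℝ := t ^ 2 + t ^ n

noncomputable def dV (X Y : Mt n) : ℝ := (‖X‖ + ‖Y‖) ^ (n - 2) * ‖X - Y‖ ^ 2

noncomputable def Vm (X : Mt n) : Mt n := √(‖X‖ ^ (n - 2)) • X

/-- the distortion inequality for one operator -/
def Qr (K : ℝ) (X : Mt n) : Prop := ‖X‖ ^ n ≤ K * X.det

/-- `N` is `a` times a rotation -/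
def Conf (a : ℝ) (N : Mt n) : Prop := 0 < a ∧ (∀ v, ‖N v‖ = a * ‖v‖) ∧ N.det = a ^ n

/-- twice the traceless symmetric part of `X` has norm at most `c` -/
def Dev (X : Mt n) (c : ℝ) : Prop :=
  ∀ a b : V n, |⟪X a, b⟫ + ⟪a, X b⟫ - 2 * (tr X / n) * ⟪a, b⟫| ≤ c * ‖a‖ * ‖b‖

/-- the top eigenvalue of the traceless symmetric part of `X` is at most `c` -/
def Top (X : Mt n) (c : ℝ) : Prop := ∀ e : V n, ⟪X e, e⟫ - tr X / n * ‖e‖ ^ 2 ≤ c * ‖e‖ ^ 2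

def Sym (H : Mt n) : Prop := ∀ a b : V n, ⟪H a, b⟫ = ⟪a, H b⟫

/-- the smallest eigenvalue of a symmetric operator -/
noncomputable def lmin (H : Mt n) : ℝ := ⨅ e : sphere (0 : V n) 1, ⟪H e, (e : V n)⟫

/-- smooth, vanishing outside the open ball of radius `R` -/
def Test (θ : V n → ℝ) (R : ℝ) : Prop := ContDiff ℝ ∞ θ ∧ ∀ y, R ≤ ‖y‖ → θ y = 0

noncomputable def hess (θ : V n → ℝ) (x : V n) : Mt n := fderiv ℝ (gradient θ) x

noncomputable def lap (θ : V n → ℝ) (x : V n) : ℝ := tr (hess θ x)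

/-- continuous maps of the whole space with a measurable weak derivative of class `L^n_loc` -/
structure W (f : V n → V n) (F : V n → Mt n) : Prop where
  cont : Continuous f
  meas : StronglyMeasurable F
  lp : LocallyIntegrable (fun x => ‖F x‖ ^ n) volume
  weak : h48.WD volume f F

def QR (K : ℝ) (S : Set (V n)) (F : V n → Mt n) : Prop := ∀ᵐ x, x ∈ S → Qr K (F x)

/-- average of `g` against the kernel `θ` at the point `x` and the scale `r` -/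
noncomputable def av {U : Type} [NormedAddCommGroup U] [NormedSpace ℝ U] (θ : V n → ℝ)
    (g : V n → U) (x : V n) (r : ℝ) : U := ∫ y, θ y • g (x + r • y)

/-- scaled integral over the ball `ball x r` -/
noncomputable def Iv (g : V n → ℝ) (x : V n) (r : ℝ) : ℝ := ∫ y in ball (0 : V n) 1, g (x + r • y)

/-- the derivative of `av φ f x r` in `r` -/
noncomputable def Bv (φ : V n → ℝ) (F : V n → Mt n) (x : V n) (r : ℝ) : V n :=
  ∫ y, φ y • F (x + r • y) y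

noncomputable def En (F : V n → Mt n) (R : ℝ) : ℝ := ∫ x in ball (0 : V n) R, ‖F x‖ ^ n

noncomputable def Yv (ζ φ : V n → ℝ) (F : V n → Mt n) (ρ : ℝ) : ℝ :=
  ∫ x, ζ x * ∫ y, φ y * dV (F x) (F (x + ρ • y))

noncomputable def Tz (ζ φ : V n → ℝ) (f : V n → V n) (F : V n → Mt n) (ρ : ℝ) : ℝ :=
  ∫ x, fderiv ℝ ζ x (adj (F x) (av φ f x ρ - f x))

/-- a mollifier `φ` and its potential `ψ`, with gradient `-φ y • y` -/
structure Ker (φ ψ : V n → ℝ) : Prop where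
  tφ : Test φ 1
  tψ : Test ψ 1
  φ0 : ∀ y, 0 ≤ φ y
  ψ0 : ∀ y, 0 ≤ ψ y
  one : ∫ y, φ y = 1
  even : ∀ y, φ (-y) = φ y
  grad : ∀ y v, fderiv ℝ ψ y v = -(φ y * ⟪y, v⟫)
  lapψ : ∀ y, lap ψ y = -(fderiv ℝ φ y y + n * φ y)
  low : ∃ c, 0 < c ∧ ∀ y, ‖y‖ ≤ 1 / 2 → c ≤ φ y ∧ c ≤ ψ y

/-- at every point of `ball 0 10` and every scale up to `10` the map is close to conformal -/
def PP (C ε : ℝ) (F : V n → Mt n) : Prop :=
  ∀ x ∈ ball (0 : V n) 10, ∀ r, 0 < r → r ≤ 10 →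
    ∃ a N, Conf a N ∧ Iv (fun z => ‖N ∘L F z - 1‖ ^ 2) x r ≤ C * ε ^ 2

/-! ### basic lemmas -/

theorem fr : finrank ℝ (V n) = n := finrank_euclideanSpace_fin

theorem norm_ev (i : Fin n) : ‖ev i‖ = 1 := (EuclideanSpace.basisFun (Fin n) ℝ).orthonormal.1 i

theorem inner_ev_self (i : Fin n) : ⟪ev i, ev i⟫ = 1 := by
  rw [real_inner_self_eq_norm_sq, norm_ev, one_pow]

theorem sum_ev (v : V n) : ∑ i, ⟪ev i, v⟫ • ev i = v :=
  (EuclideanSpace.basisFun (Fin n) ℝ).sum_repr' v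

theorem sum_inner_ev (a b : V n) : ∑ i, ⟪a, ev i⟫ * ⟪ev i, b⟫ = ⟪a, b⟫ :=
  (EuclideanSpace.basisFun (Fin n) ℝ).sum_inner_mul_inner a b

theorem tr_basis (u : OrthonormalBasis (Fin n) ℝ (V n)) (X : Mt n) :
    tr X = ∑ i, ⟪u i, X (u i)⟫ := LinearMap.trace_eq_sum_inner (X : V n →ₗ[ℝ] V n) u

theorem tr_eq (X : Mt n) : tr X = ∑ i, ⟪ev i, X (ev i)⟫ := tr_basis _ X

/-- the trace as a continuous linear functional -/
noncomputable def trL (n : ℕ) : Mt n →L[ℝ] ℝ :=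
  LinearMap.toContinuousLinearMap
    ((LinearMap.trace ℝ (V n)).comp (ContinuousLinearMap.coeLM ℝ))

theorem trL_apply (X : Mt n) : trL n X = tr X := rfl

theorem continuous_tr : Continuous (tr : Mt n → ℝ) := (trL n).continuous

theorem tr_add (X Y : Mt n) : tr (X + Y) = tr X + tr Y := map_add (trL n) X Y

theorem tr_sub (X Y : Mt n) : tr (X - Y) = tr X - tr Y := map_sub (trL n) X Y

theorem tr_smul (c : ℝ) (X : Mt n) : tr (c • X) = c * tr X := map_smul (trL n) c X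

theorem tr_zero : tr (0 : Mt n) = 0 := map_zero (trL n)

theorem tr_one : tr (1 : Mt n) = n := by
  rw [tr_eq]
  simp [norm_ev]

theorem tr_comm (X Y : Mt n) : tr (X ∘L Y) = tr (Y ∘L X) :=
  LinearMap.trace_comp_comm' (Y : V n →ₗ[ℝ] V n) (X : V n →ₗ[ℝ] V n)

theorem abs_tr_le (X : Mt n) : |tr X| ≤ n * ‖X‖ := by
  rw [tr_eq]
  refine (Finset.abs_sum_le_sum_abs _ _).trans ?_
  calc _ ≤ ∑ _i : Fin n, ‖X‖ := Finset.sum_le_sum fun i _ =>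
        (abs_real_inner_le_norm _ _).trans (by
          simpa [norm_ev] using X.le_opNorm (ev i))
    _ = _ := by simp

theorem norm_one_le : ‖(1 : Mt n)‖ ≤ 1 := ContinuousLinearMap.norm_id_le

theorem norm_adj_le (hn : 1 ≤ n) (X : Mt n) : ‖adj X‖ ≤ ‖X‖ ^ (n - 1) :=
  ContinuousLinearMap.opNorm_le_bound _ (by positivity) fun y =>
    h48.adj_le (M := n - 1) (by rw [fr]; omega) X y

theorem abs_det_le (X : Mt n) : |X.det| ≤ ‖X‖ ^ n := by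
  simpa only [fr] using h48.abs_det_le X

theorem Test.mono {θ : V n → ℝ} {R R' : ℝ} (h : Test θ R) (hR : R ≤ R') : Test θ R' :=
  ⟨h.1, fun y hy => h.2 y (hR.trans hy)⟩

theorem Test.cont {θ : V n → ℝ} {R : ℝ} (h : Test θ R) : Continuous θ := h.1.continuous

theorem supp_of {U : Type} [Zero U] {g : V n → U} {R : ℝ} (h : ∀ y, R ≤ ‖y‖ → g y = 0) :
    HasCompactSupport g :=
  HasCompactSupport.intro (isCompact_closedBall 0 R) fun y hy =>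
    h y (le_of_lt (by simpa using hy))

theorem Test.supp {θ : V n → ℝ} {R : ℝ} (h : Test θ R) : HasCompactSupport θ := supp_of h.2

theorem Test.int {θ : V n → ℝ} {R : ℝ} (h : Test θ R) : Integrable θ volume :=
  h.cont.integrable_of_hasCompactSupport h.supp

theorem Test.bdd {θ : V n → ℝ} {R : ℝ} (h : Test θ R) : ∃ C, 0 < C ∧ ∀ y, |θ y| ≤ C := by
  obtain ⟨C, hC⟩ := h.cont.bounded_above_of_compact_support h.supp
  exact ⟨max C 1, by positivity, fun y => (hC y).trans (le_max_left _ _)⟩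

theorem fderiv_out {U : Type} [NormedAddCommGroup U] [NormedSpace ℝ U] {g : V n → U} {R : ℝ}
    (hg : ContDiff ℝ 1 g) (h : ∀ y, R ≤ ‖y‖ → g y = 0) (y : V n) (hy : R ≤ ‖y‖) :
    fderiv ℝ g y = 0 := by
  rcases subsingleton_or_nontrivial (V n) with hs | hs
  · ext1 v
    rw [Subsingleton.elim v 0, map_zero, map_zero]
  have c : IsClosed {y | fderiv ℝ g y = 0} :=
    isClosed_eq (hg.continuous_fderiv one_ne_zero) continuous_const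
  have s : {y : V n | R < ‖y‖} ⊆ {y | fderiv ℝ g y = 0} := fun z hz => by
    have e : g =ᶠ[𝓝 z] fun _ => 0 := by
      filter_upwards [(isOpen_lt continuous_const continuous_norm).mem_nhds hz] with w hw
      exact h w (le_of_lt hw)
    simp [e.fderiv_eq]
  refine closure_minimal s c ?_
  obtain ⟨u, hu⟩ : ∃ u : V n, u ≠ 0 ∧ ∀ t : ℝ, 0 < t → ‖y‖ < ‖y + t • u‖ := by
    rcases eq_or_ne y 0 with rfl | h0
    · obtain ⟨u, hu⟩ := exists_ne (0 : V n)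
      refine ⟨u, hu, fun t ht => ?_⟩
      rw [zero_add, norm_zero, norm_pos_iff]
      exact smul_ne_zero ht.ne' hu
    · refine ⟨y, h0, fun t ht => ?_⟩
      have : 0 < ‖y‖ := norm_pos_iff.2 h0
      rw [show y + t • y = (1 + t) • y by module, norm_smul, Real.norm_of_nonneg (by linarith)]
      nlinarith
  have t1 : Tendsto (fun t : ℝ => y + t • u) (𝓝[>] 0) (𝓝 y) := by
    have : Continuous fun t : ℝ => y + t • u := by fun_prop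
    simpa using (this.tendsto 0).mono_left nhdsWithin_le_nhds
  refine mem_closure_of_tendsto t1 ?_
  filter_upwards [self_mem_nhdsWithin] with t ht
  exact hy.trans_lt (hu.2 t ht)

theorem Test.c1 {θ : V n → ℝ} {R : ℝ} (h : Test θ R) : ContDiff ℝ 1 θ := h.1.of_le (by simp)

theorem Test.c2 {θ : V n → ℝ} {R : ℝ} (h : Test θ R) : ContDiff ℝ 2 θ :=
  h.1.of_le (WithTop.coe_le_coe.2 le_top)

theorem Test.fderiv_zero {θ : V n → ℝ} {R : ℝ} (h : Test θ R) (y : V n) (hy : R ≤ ‖y‖) :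
    fderiv ℝ θ y = 0 := fderiv_out h.c1 h.2 y hy

theorem Test.smooth_fderiv {θ : V n → ℝ} {R : ℝ} (h : Test θ R) : ContDiff ℝ ∞ (fderiv ℝ θ) :=
  h.1.fderiv_right (by simp)

theorem Test.der {θ : V n → ℝ} {R : ℝ} (h : Test θ R) (v : V n) :
    Test (fun y => fderiv ℝ θ y v) R :=
  ⟨h.smooth_fderiv.clm_apply contDiff_const, fun y hy => by
    simp only [h.fderiv_zero y hy, zero_apply]⟩

theorem Test.bdd_fderiv {θ : V n → ℝ} {R : ℝ} (h : Test θ R) :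
    ∃ C, 0 < C ∧ ∀ y, ‖fderiv ℝ θ y‖ ≤ C := by
  obtain ⟨C, hC⟩ := h.smooth_fderiv.continuous.bounded_above_of_compact_support
    (supp_of h.fderiv_zero)
  exact ⟨max C 1, by positivity, fun y => (hC y).trans (le_max_left _ _)⟩

theorem inner_gradient (θ : V n → ℝ) (y v : V n) : ⟪gradient θ y, v⟫ = fderiv ℝ θ y v :=
  InnerProductSpace.toDual_symm_apply

theorem Test.smooth_grad {θ : V n → ℝ} {R : ℝ} (h : Test θ R) : ContDiff ℝ ∞ (gradient θ) :=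
  (InnerProductSpace.toDual ℝ (V n)).symm.contDiff.comp h.smooth_fderiv

theorem Test.grad_zero {θ : V n → ℝ} {R : ℝ} (h : Test θ R) (y : V n) (hy : R ≤ ‖y‖) :
    gradient θ y = 0 := by
  rw [gradient, h.fderiv_zero y hy, map_zero]

theorem Test.smooth_hess {θ : V n → ℝ} {R : ℝ} (h : Test θ R) : ContDiff ℝ ∞ (hess θ) :=
  h.smooth_grad.fderiv_right (by simp)

theorem Test.hess_zero {θ : V n → ℝ} {R : ℝ} (h : Test θ R) (y : V n) (hy : R ≤ ‖y‖) :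
    hess θ y = 0 := fderiv_out (h.smooth_grad.of_le (by simp)) h.grad_zero y hy

theorem Test.bdd_hess {θ : V n → ℝ} {R : ℝ} (h : Test θ R) :
    ∃ C, 0 < C ∧ ∀ y, ‖hess θ y‖ ≤ C := by
  obtain ⟨C, hC⟩ := h.smooth_hess.continuous.bounded_above_of_compact_support
    (supp_of h.hess_zero)
  exact ⟨max C 1, by positivity, fun y => (hC y).trans (le_max_left _ _)⟩

theorem Test.lap {θ : V n → ℝ} {R : ℝ} (h : Test θ R) : Test (lap θ) R :=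
  ⟨(trL n).contDiff.comp h.smooth_hess, fun y hy => by rw [NC.lap, h.hess_zero y hy, tr_zero]⟩

theorem Test.inner_hess {θ : V n → ℝ} {R : ℝ} (h : Test θ R) (x a b : V n) :
    ⟪hess θ x a, b⟫ = fderiv ℝ (fun y => fderiv ℝ θ y b) x a := by
  have d := (h.smooth_grad.differentiable (by simp) x).hasFDerivAt
  have e : (fun y => fderiv ℝ θ y b) = fun y => innerSL ℝ b (gradient θ y) := by
    ext y
    rw [innerSL_apply_apply, real_inner_comm, inner_gradient]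
  have k : HasFDerivAt (fun y => innerSL ℝ b (gradient θ y))
      ((innerSL ℝ b).comp (fderiv ℝ (gradient θ) x)) x := (innerSL ℝ b).hasFDerivAt.comp x d
  rw [e, k.fderiv]
  simp only [ContinuousLinearMap.comp_apply, innerSL_apply_apply, hess, real_inner_comm]

theorem Test.sym_hess {θ : V n → ℝ} {R : ℝ} (h : Test θ R) (x : V n) : Sym (hess θ x) := by
  intro a b
  have d := (h.smooth_fderiv.differentiable (by simp) x).hasFDerivAt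
  have e : ∀ a b : V n, fderiv ℝ (fun y => fderiv ℝ θ y b) x a =
      fderiv ℝ (fderiv ℝ θ) x a b := fun a b => by
    have k : HasFDerivAt (fun y => fderiv ℝ θ y b)
        ((ContinuousLinearMap.apply ℝ ℝ b).comp (fderiv ℝ (fderiv ℝ θ) x)) x :=
      (ContinuousLinearMap.apply ℝ ℝ b).hasFDerivAt.comp x d
    rw [k.fderiv]
    rfl
  rw [real_inner_comm (hess θ x b), h.inner_hess, h.inner_hess, e, e]
  exact ((h.c2.contDiffAt (x := x)).isSymmSndFDerivAt (by simp)).eq a b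

theorem Test.lap_eq {θ : V n → ℝ} {R : ℝ} (h : Test θ R) (x : V n) :
    NC.lap θ x = ∑ i, fderiv ℝ (fun y => fderiv ℝ θ y (ev i)) x (ev i) := by
  rw [NC.lap, tr_eq]
  exact Finset.sum_congr rfl fun i _ => by rw [real_inner_comm, h.inner_hess]

theorem exists_cut {a b : ℝ} (ha : 0 < a) (hab : a < b) :
    ∃ χ : V n → ℝ, Test χ b ∧ (∀ y, 0 ≤ χ y ∧ χ y ≤ 1) ∧ ∀ y, ‖y‖ ≤ a → χ y = 1 := by
  let χ : ContDiffBump (0 : V n) := ⟨a, b, ha, hab⟩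
  exact ⟨χ, ⟨χ.contDiff, fun y hy => χ.zero_of_le_dist (by simpa using hy)⟩,
    fun y => ⟨χ.nonneg, χ.le_one⟩, fun y hy => χ.one_of_mem_closedBall (by simpa using hy)⟩

theorem om_nonneg {t : ℝ} (ht : 0 ≤ t) : 0 ≤ om n t := by unfold om; positivity

theorem dV_nonneg (X Y : Mt n) : 0 ≤ dV X Y := by unfold dV; positivity

theorem av_av {U : Type} [NormedAddCommGroup U] [NormedSpace ℝ U] (θ : V n → ℝ) (g : V n → U)
    (z x : V n) (s r : ℝ) : av θ (fun y => g (z + s • y)) x r = av θ g (z + s • x) (s * r) := by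
  unfold av
  simp only [smul_add, smul_smul, add_assoc]

theorem Iv_Iv (g : V n → ℝ) (z x : V n) (s r : ℝ) :
    Iv (fun y => g (z + s • y)) x r = Iv g (z + s • x) (s * r) := by
  unfold Iv
  simp only [smul_add, smul_smul, add_assoc]

theorem Iv_zero_one (g : V n → ℝ) : Iv g 0 1 = ∫ y in ball (0 : V n) 1, g y := by
  unfold Iv
  simp only [zero_add, one_smul]

/-! ### nearly conformal operators -/

theorem Qr.cases {K : ℝ} {X : Mt n} (hK : 0 < K) (h : Qr K X) : X = 0 ∨ 0 < X.det := by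
  rcases eq_or_ne X 0 with h0 | h0
  · exact Or.inl h0
  · have : 0 < ‖X‖ ^ n := pow_pos (norm_pos_iff.2 h0) n
    exact Or.inr ((mul_pos_iff_of_pos_left hK).1 (this.trans_le h))

theorem adj_apply {X : Mt n} (h : X.det ≠ 0) (v : V n) : adj X (X v) = X.det • v := by
  have i : X.IsInvertible := ⟨X.toContinuousLinearEquivOfDetNeZero h, by simp⟩
  rw [adj, smul_apply, i.inverse_apply_self]

theorem apply_adj {X : Mt n} (h : X.det ≠ 0) (v : V n) : X (adj X v) = X.det • v := by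
  rw [adj, smul_apply, map_smul, h48.apply_inverse h]

theorem adj_zero : adj (0 : Mt n) = 0 := by
  ext1 v
  rw [adj, smul_apply, ContinuousLinearMap.inverse_zero, zero_apply, smul_zero]

theorem Qr.lower (hn : 1 ≤ n) {K : ℝ} {X : Mt n} (hK : 0 < K) (h : Qr K X) (v : V n) :
    ‖X‖ * ‖v‖ ≤ K * ‖X v‖ := by
  rcases eq_or_ne X 0 with h0 | h0
  · simp [h0]
  have d := (h.cases hK).resolve_left h0
  have l0 : 0 < ‖X‖ := norm_pos_iff.2 h0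
  have k1 : X.det * ‖v‖ ≤ ‖X‖ ^ (n - 1) * ‖X v‖ := by
    have := (adj X).le_of_opNorm_le (norm_adj_le hn X) (X v)
    rwa [adj_apply d.ne', norm_smul, Real.norm_of_nonneg d.le] at this
  have k2 : ‖X‖ ^ n = ‖X‖ ^ (n - 1) * ‖X‖ := by rw [← pow_succ]; congr 1; omega
  have k3 := mul_le_mul_of_nonneg_right h (norm_nonneg v)
  refine le_of_mul_le_mul_left ?_ (pow_pos l0 (n - 1))
  rw [k2] at k3
  nlinarith [mul_le_mul_of_nonneg_left k1 hK.le]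

theorem form_bound {q : V n → V n → ℝ} {c : ℝ} (hs : ∀ (t : ℝ) a b, q (t • a) b = t * q a b)
    (hs' : ∀ (t : ℝ) a b, q a (t • b) = t * q a b)
    (h : ∀ a b, ‖a‖ = 1 → ‖b‖ = 1 → |q a b| ≤ c) (a b : V n) : |q a b| ≤ c * ‖a‖ * ‖b‖ := by
  rcases eq_or_ne a 0 with rfl | ha
  · have := hs 0 0 b
    simp only [smul_zero, zero_mul] at this
    simp [this]
  rcases eq_or_ne b 0 with rfl | hb
  · have := hs' 0 a 0
    simp only [smul_zero, zero_mul] at this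
    simp [this]
  have a0 : 0 < ‖a‖ := norm_pos_iff.2 ha
  have b0 : 0 < ‖b‖ := norm_pos_iff.2 hb
  have k := h (‖a‖⁻¹ • a) (‖b‖⁻¹ • b) (norm_smul_inv_norm ha) (norm_smul_inv_norm hb)
  rw [hs, hs', abs_mul, abs_mul, abs_of_pos (inv_pos.2 a0), abs_of_pos (inv_pos.2 b0),
    inv_mul_le_iff₀ a0, inv_mul_le_iff₀ b0] at k
  linarith

/-- a nearly conformal operator nearly preserves inner products up to a factor -/
theorem Qr.nc1 (hn : 1 ≤ n) {ε : ℝ} (h0 : 0 ≤ ε) {X : Mt n} (h : Qr (1 + ε) X) (a b : V n) :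
    |⟪X a, X b⟫ - ‖X‖ ^ 2 * ⟪a, b⟫| ≤ 2 * ε * ‖X‖ ^ 2 * ‖a‖ * ‖b‖ := by
  have k : ∀ v : V n, 0 ≤ ‖X‖ ^ 2 * ‖v‖ ^ 2 - ‖X v‖ ^ 2 ∧
      ‖X‖ ^ 2 * ‖v‖ ^ 2 - ‖X v‖ ^ 2 ≤ 2 * ε * ‖X‖ ^ 2 * ‖v‖ ^ 2 := fun v => by
    have k1 := X.le_opNorm v
    have k2 := h.lower hn (by linarith) v
    have k3 := norm_nonneg (X v)
    have k4 : ‖X‖ * ‖v‖ - ‖X v‖ ≤ ε * (‖X‖ * ‖v‖) := by nlinarith
    have k5 : 0 ≤ ‖X‖ * ‖v‖ := by positivity
    constructor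
    · nlinarith
    · nlinarith [mul_le_mul k4 (show ‖X‖ * ‖v‖ + ‖X v‖ ≤ 2 * (‖X‖ * ‖v‖) by linarith)
        (by positivity) (by positivity)]
  refine form_bound (q := fun a b => ⟪X a, X b⟫ - ‖X‖ ^ 2 * ⟪a, b⟫) (fun t a b => ?_)
    (fun t a b => ?_) (fun a b ha hb => ?_) a b
  · simp only [map_smul, real_inner_smul_left]; ring
  · simp only [map_smul, real_inner_smul_right]; ring
  · obtain ⟨p1, p2⟩ := k (a + b)
    obtain ⟨m1, m2⟩ := k (a - b)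
    have s1 : ‖a + b‖ ^ 2 ≤ 4 := by nlinarith [norm_add_le a b, norm_nonneg (a + b)]
    have s2 : ‖a - b‖ ^ 2 ≤ 4 := by nlinarith [norm_sub_le a b, norm_nonneg (a - b)]
    have e0 : 0 ≤ 2 * ε * ‖X‖ ^ 2 := by positivity
    have p3 := p2.trans (mul_le_mul_of_nonneg_left s1 e0)
    have m3 := m2.trans (mul_le_mul_of_nonneg_left s2 e0)
    rw [map_add, norm_add_sq_real, norm_add_sq_real] at p1 p3
    rw [map_sub, norm_sub_sq_real, norm_sub_sq_real] at m1 m3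
    rw [abs_le]
    constructor <;> nlinarith

/-- the adjugate of a nearly conformal operator is nearly a multiple of the transpose -/
theorem Qr.nc2 (hn : 2 ≤ n) {ε : ℝ} (h0 : 0 ≤ ε) (h1 : ε ≤ 1) {X : Mt n} (h : Qr (1 + ε) X)
    (a y : V n) :
    |⟪a, adj X y⟫ - ‖X‖ ^ (n - 2) * ⟪X a, y⟫| ≤ 6 * ε * ‖X‖ ^ (n - 1) * ‖a‖ * ‖y‖ := by
  rcases h.cases (by linarith) with rfl | d
  · simp only [adj_zero, zero_apply, inner_zero_right, inner_zero_left, mul_zero, sub_zero,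
      abs_zero]
    positivity
  obtain ⟨z, rfl⟩ : ∃ z, y = X z := ⟨_, (h48.apply_inverse d.ne' y).symm⟩
  obtain ⟨m, rfl⟩ : ∃ m, n = m + 2 := ⟨n - 2, by omega⟩
  have k1 := h.nc1 (by omega) h0 a z
  have k2 := h.lower (by omega) (by linarith) z
  have k3 := (le_abs_self _).trans (abs_det_le X)
  have k4 : ‖X‖ ^ (m + 2) - X.det ≤ ε * ‖X‖ ^ (m + 2) := by
    have : ‖X‖ ^ (m + 2) ≤ (1 + ε) * X.det := h
    nlinarith
  have k5 := abs_real_inner_le_norm a z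
  rw [adj_apply d.ne', real_inner_smul_right, Nat.add_sub_cancel, show m + 2 - 1 = m + 1 from rfl]
  have e : X.det * ⟪a, z⟫ - ‖X‖ ^ m * ⟪X a, X z⟫ = -((‖X‖ ^ (m + 2) - X.det) * ⟪a, z⟫) -
      ‖X‖ ^ m * (⟪X a, X z⟫ - ‖X‖ ^ 2 * ⟪a, z⟫) := by ring
  have k6 : ‖X‖ * ‖z‖ ≤ 2 * ‖X z‖ := k2.trans (by gcongr; linarith)
  calc _ ≤ ε * ‖X‖ ^ (m + 2) * (‖a‖ * ‖z‖) + ‖X‖ ^ m * (2 * ε * ‖X‖ ^ 2 * ‖a‖ * ‖z‖) := by
        rw [e]
        refine (abs_sub _ _).trans ?_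
        rw [abs_neg, abs_mul, abs_mul, abs_of_nonneg (sub_nonneg.2 k3),
          abs_of_nonneg (pow_nonneg (norm_nonneg X) m)]
        gcongr
    _ = 3 * ε * ‖X‖ ^ (m + 1) * ‖a‖ * (‖X‖ * ‖z‖) := by ring
    _ ≤ 3 * ε * ‖X‖ ^ (m + 1) * ‖a‖ * (2 * ‖X z‖) := by gcongr
    _ = _ := by ring

end Pool.Agent.MP_29b5d3_an.NC

end MrgPart0

-- ======== part 1: formerly Pool.Agent.MP_29b5d3_an.NC.Spec
section MrgPart1

/-! Project NEARCONF: the statements of the modules. Throughout `3 ≤ n`. -/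

set_option autoImplicit false

namespace Pool.Agent.MP_29b5d3_an.NC

open MeasureTheory Metric Filter Topology Module
open scoped RealInnerProductSpace ContDiff ENNReal

/-- two point inequalities for nearly conformal operators -/
structure MatA (n : ℕ) : Prop where
  pw1 : ∃ c C : ℝ, 0 < c ∧ 0 < C ∧ ∀ ε, 0 ≤ ε → ε ≤ 1 → ∀ X Y : Mt n, Qr (1 + ε) X → Qr (1 + ε) Y →
    ‖X‖ ^ n - ‖Y‖ ^ n + c * dV X Y - C * ε * (‖X‖ ^ n + ‖Y‖ ^ n) ≤ tr ((X - Y) ∘L adj X)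
  pw2 : ∃ C : ℝ, 0 < C ∧ ∀ ε, 0 ≤ ε → ε ≤ 1 → ∀ X Y : Mt n, Qr (1 + ε) X → Qr (1 + ε) Y →
    ∀ a b : V n, |⟪a, adj X (Y b)⟫ + ‖X‖ ^ (n - 2) * (⟪Y a, X b⟫ - hs Y X * ⟪a, b⟫)
      + ((n : ℝ) - 2) / n * ‖Y‖ ^ n * ⟪a, b⟫ - (2 - (n : ℝ)) * (1 - 1 / n) * ‖X‖ ^ n * ⟪a, b⟫| ≤
      C * ‖a‖ * ‖b‖ * (ε * (‖X‖ ^ n + ‖Y‖ ^ n) + dV X Y)
  dV_le : ∃ C : ℝ, 0 < C ∧ ∀ X Y : Mt n, dV X Y ≤ C * (‖X‖ ^ n + ‖Y‖ ^ n)
  vm_cont : Continuous (Vm : Mt n → Mt n)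
  vm_norm : ∀ X : Mt n, ‖Vm X‖ ^ 2 = ‖X‖ ^ n
  vm_eq : ∃ C : ℝ, 0 < C ∧ ∀ X Y : Mt n,
    ‖Vm X - Vm Y‖ ^ 2 ≤ C * dV X Y ∧ dV X Y ≤ C * ‖Vm X - Vm Y‖ ^ 2
  omv : ∃ C : ℝ, 0 < C ∧ ∀ ε, 0 ≤ ε → ε ≤ 1 → ∀ X Y N : Mt n, Conf ‖Y‖⁻¹ N → ‖N ∘L Y - 1‖ ≤ ε →
    om n ‖N ∘L X - 1‖ ≤ C * (ε ^ 2 + dV X Y / ‖Y‖ ^ n)

/-- one point inequalities, conformal approximation -/
structure MatB (n : ℕ) : Prop where
  pwc : ∃ ε₀ c C : ℝ, 0 < ε₀ ∧ 0 < c ∧ 0 < C ∧ ∀ ε, 0 ≤ ε → ε ≤ ε₀ → ∀ X : Mt n, Qr (1 + ε) X →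
    c * om n ‖X - 1‖ - C * ε ^ 2 ≤ tr ((X - 1) ∘L adj X) - tr (X - 1) ∧
    ‖adj X - 1‖ ≤ C * (ε + ‖X - 1‖ + ‖X - 1‖ ^ (n - 1))
  dev : ∃ C : ℝ, 0 < C ∧ ∀ ε, 0 ≤ ε → ε ≤ 1 → ∀ X : Mt n, Qr (1 + ε) X →
    Dev X (C * (ε + ‖X - 1‖ ^ 2))
  top : ∀ ε, 0 ≤ ε → ε ≤ 1 → ∀ X : Mt n, Qr (1 + ε) X →
    Top X (ε / n * (tr X / n) + ‖X - 1‖ ^ 2)
  pol1 : ∀ ε, 0 ≤ ε → ∀ X : Mt n, Qr (1 + ε) X → X ≠ 0 →
    ∃ N, Conf ‖X‖⁻¹ N ∧ ‖N ∘L X - 1‖ ≤ ε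
  pol2 : ∀ (A : Mt n) (d : ℝ), ‖A - 1‖ ≤ 1 / 4 → 0 ≤ d → d ≤ 1 / 4 → Dev A d →
    ∃ a N, Conf a N ∧ a ≤ 2 ∧ ‖N ∘L A - 1‖ ≤ 2 * (2 * d + ‖A - 1‖ ^ 2)
  conf_norm : ∀ (a : ℝ) (N X : Mt n), Conf a N → ‖N ∘L X‖ = a * ‖X‖
  conf_qr : ∀ (a K : ℝ) (N X : Mt n), Conf a N → Qr K X → Qr K (N ∘L X)
  conf_comp : ∀ (a b : ℝ) (N M : Mt n), Conf a N → Conf b M → Conf (a * b) (N ∘L M)
  conf_inv : ∀ (a : ℝ) (N : Mt n), Conf a N → ∃ M, Conf a⁻¹ M ∧ M ∘L N = 1 ∧ N ∘L M = 1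
  conf_one : Conf 1 (1 : Mt n)
  norm_le : ∀ (A : Mt n) (c d : ℝ), Top A c → 0 ≤ c → ‖A - 1‖ ≤ d → d ≤ 1 →
    ‖A‖ ≤ tr A / n + c + d ^ 2 / 2
  top_add : ∀ (A B : Mt n) (c : ℝ), Top A c → Top (A + B) (c + 2 * ‖B‖)
  dev_add : ∀ (A B : Mt n) (c : ℝ), Dev A c → Dev (A + B) (c + 4 * ‖B‖)
  top_sub_one : ∀ (A : Mt n) (c : ℝ), Top A c → Top (A - 1) c
  dev_sub_one : ∀ (A : Mt n) (c : ℝ), Dev A c → Dev (A - 1) c
  qr_cases : ∀ (K : ℝ) (X : Mt n), 0 < K → Qr K X → X = 0 ∨ 0 < X.det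

/-- the kernels -/
structure KerS (n : ℕ) : Prop where
  ker : ∃ φ ψ : V n → ℝ, Ker φ ψ
  pot : ∃ κ : V n → ℝ, Test κ 1 ∧ (∀ y, 0 ≤ κ y) ∧ ∫ y, κ y = 1 ∧ ∀ r : ℝ, 0 < r → r ≤ 1 →
    ∃ N : V n → ℝ, Test N 1 ∧ ∀ y, lap N y = (r ^ n)⁻¹ * κ (r⁻¹ • y) - κ y

/-- calculus of the averages -/
structure AvA (n : ℕ) : Prop where
  smooth : ∀ (U : Type) [NormedAddCommGroup U] [NormedSpace ℝ U] [CompleteSpace U]
    (θ : V n → ℝ) (R : ℝ) (g : V n → U), Test θ R → LocallyIntegrable g volume →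
    ContDiffOn ℝ ∞ (fun p : V n × ℝ => av θ g p.1 p.2) {p | 0 < p.2}
  deriv : ∀ (U : Type) [NormedAddCommGroup U] [NormedSpace ℝ U] [CompleteSpace U]
    (θ : V n → ℝ) (R : ℝ) (g : V n → U), Test θ R → LocallyIntegrable g volume →
    ∀ (x v : V n) (r s : ℝ), 0 < r →
      fderiv ℝ (fun p : V n × ℝ => av θ g p.1 p.2) (x, r) (v, s) =
        -(r⁻¹ • av (fun y => fderiv ℝ θ y (v + s • y) + n * s * θ y) g x r)
  loc : ∀ (U : Type) [NormedAddCommGroup U] (g : V n → U), LocallyIntegrable g volume →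
    ∀ (x : V n) (r : ℝ), r ≠ 0 → LocallyIntegrable (fun y => g (x + r • y)) volume
  ae : ∀ (P : V n → Prop) (x : V n) (r : ℝ), r ≠ 0 → (∀ᵐ z, P z) → ∀ᵐ y, P (x + r • y)
  Iv_eq : ∀ (g : V n → ℝ) (x : V n) (r : ℝ), 0 < r → Iv g x r = (r ^ n)⁻¹ * ∫ z in ball x r, g z
  ball_eq : ∀ (g : V n → ℝ) (x : V n) (r R : ℝ), 0 < r →
    ∫ y in ball (0 : V n) R, g (x + r • y) = (r ^ n)⁻¹ * ∫ z in ball x (r * R), g z
  Iv_mono : ∀ (g : V n → ℝ) (x x' : V n) (r r' : ℝ), LocallyIntegrable g volume → (∀ z, 0 ≤ g z) →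
    0 < r' → 0 < r → ball x' r' ⊆ ball x r → Iv g x' r' ≤ (r / r') ^ n * Iv g x r
  av_le : ∀ (U : Type) [NormedAddCommGroup U] [NormedSpace ℝ U] (θ : V n → ℝ) (g : V n → U)
    (C : ℝ), Test θ 1 → (∀ y, |θ y| ≤ C) → LocallyIntegrable g volume →
    ∀ (x : V n) (r : ℝ), 0 < r → ‖av θ g x r‖ ≤ C * Iv (fun z => ‖g z‖) x r
  lint : ∀ (g : V n → ℝ≥0∞) (x : V n) (r : ℝ), 0 < r →
    ∫⁻ z in ball x r, g z = ENNReal.ofReal (r ^ n) * ∫⁻ y in ball (0 : V n) 1, g (x + r • y)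
  unif : ∀ (φ : V n → ℝ) (f : V n → V n), Test φ 1 → (∀ y, 0 ≤ φ y) → ∫ y, φ y = 1 → Continuous f →
    ∀ R δ : ℝ, 0 < δ → ∃ r₀, 0 < r₀ ∧ ∀ x, ‖x‖ ≤ R → ∀ r, 0 < r → r ≤ r₀ →
      ‖av φ f x r - f x‖ ≤ δ
  leb : ∀ (φ : V n → ℝ) (g : V n → Mt n), Test φ 1 → ∫ y, φ y = 1 → LocallyIntegrable g volume →
    ∀ᵐ x, Tendsto (av φ g x) (𝓝[>] 0) (𝓝 (g x))
  prod : ∀ (g : V n → ℝ), LocallyIntegrable g volume → ∀ ρ a b : ℝ,
    IntegrableOn (fun p : V n × V n => g (p.1 + ρ • p.2)) (ball 0 a ×ˢ ball 0 b)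
      ((volume : Measure (V n)).prod volume)
  prod_le : ∀ (g : V n → ℝ), LocallyIntegrable g volume → (∀ z, 0 ≤ g z) → ∀ ρ a : ℝ, 0 ≤ ρ →
    ∫ x in ball (0 : V n) a, ∫ y in ball (0 : V n) 1, g (x + ρ • y) ≤
      (volume : Measure (V n)).real (ball 0 1) * ∫ z in ball (0 : V n) (a + ρ), g z
  swap : ∀ (g : V n → ℝ) (k : V n × V n → ℝ), LocallyIntegrable g volume → Continuous k →
    HasCompactSupport k → ∀ ρ : ℝ,
    ∫ x, ∫ y, k (x, y) * g (x + ρ • y) = ∫ z, g z * ∫ y, k (z - ρ • y, y)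
  mass : ∀ (θ g : V n → ℝ), Integrable θ volume → Integrable g volume →
    Integrable (fun x => av θ g x 1) volume ∧ ∫ x, av θ g x 1 = (∫ y, θ y) * ∫ z, g z

/-- calculus of weak derivatives, first half -/
structure AvB1 (n : ℕ) : Prop where
  locH : ∀ (U : Type) [NormedAddCommGroup U] (f : V n → V n) (F : V n → Mt n) (H : Mt n → U)
    (C : ℝ), W f F → Continuous H → (∀ X, ‖H X‖ ≤ C * (1 + ‖X‖ ^ n)) →
    LocallyIntegrable (fun x => H (F x)) volume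
  loc : ∀ (f : V n → V n) (F : V n → Mt n), W f F → LocallyIntegrable F volume
  loc_om : ∀ (f : V n → V n) (F : V n → Mt n) (N M : Mt n), W f F →
    LocallyIntegrable (fun x => om n ‖N ∘L F x - M‖) volume ∧
    LocallyIntegrable (fun x => ‖N ∘L F x - M‖ ^ 2) volume ∧
    LocallyIntegrable (fun x => ‖N ∘L F x - M‖) volume
  resc : ∀ (f : V n → V n) (F : V n → Mt n) (N : Mt n) (x : V n) (r : ℝ), W f F → r ≠ 0 →
    W (fun y => r⁻¹ • N (f (x + r • y))) (fun y => N ∘L F (x + r • y))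
  subL : ∀ (f : V n → V n) (F : V n → Mt n) (L : Mt n) (c : V n), W f F →
    W (fun y => f y - L y - c) (fun y => F y - L)
  ofC1 : ∀ w : V n → V n, ContDiff ℝ 1 w → W w (fderiv ℝ w)
  adj_meas : ∀ F : V n → Mt n, StronglyMeasurable F → StronglyMeasurable fun x => adj (F x)
  dav : ∀ (φ ψ : V n → ℝ) (f : V n → V n) (F : V n → Mt n), Ker φ ψ → W f F →
    ∀ (x : V n) (r : ℝ), 0 < r → HasFDerivAt (fun p : V n × ℝ => av φ f p.1 p.2)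
      (av φ F x r ∘L ContinuousLinearMap.fst ℝ (V n) ℝ +
        (ContinuousLinearMap.snd ℝ (V n) ℝ).smulRight (Bv φ F x r)) (x, r)
  Bv_cont : ∀ (φ ψ : V n → ℝ) (f : V n → V n) (F : V n → Mt n), Ker φ ψ → W f F →
    ContinuousOn (fun p : V n × ℝ => Bv φ F p.1 p.2) {p | 0 < p.2}
  Bv_le : ∀ (φ ψ : V n → ℝ) (F : V n → Mt n) (M : Mt n), Ker φ ψ → LocallyIntegrable F volume →
    ∀ (x : V n) (r : ℝ), 0 < r → ‖Bv φ F x r‖ ≤ ∫ y, φ y * ‖F (x + r • y) - M‖ ∧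
      ‖av φ F x r - M‖ ≤ ∫ y, φ y * ‖F (x + r • y) - M‖
  dr : ∀ (U : Type) [NormedAddCommGroup U] [NormedSpace ℝ U] [CompleteSpace U]
    (φ ψ : V n → ℝ) (g : V n → U), Ker φ ψ → LocallyIntegrable g volume →
    ∀ (x : V n) (r : ℝ), 0 < r → HasDerivAt (av φ g x) (r⁻¹ • av (lap ψ) g x r) r
  av_aff : ∀ (φ ψ : V n → ℝ) (f : V n → V n) (L : Mt n) (c : V n), Ker φ ψ → Continuous f →
    ∀ (x : V n) (r : ℝ), av φ (fun y => f y - L y - c) x r = av φ f x r - L x - c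

/-- calculus of weak derivatives, second half -/
structure AvB2 (n : ℕ) : Prop where
  curl : ∀ (θ : V n → ℝ) (R : ℝ) (f : V n → V n) (F : V n → Mt n), Test θ R → W f F →
    ∀ u v : V n, ∫ y, fderiv ℝ θ y u • F y v = ∫ y, fderiv ℝ θ y v • F y u
  dvg : ∀ (θ : V n → ℝ) (R : ℝ) (f : V n → V n) (F : V n → Mt n), Test θ R → W f F →
    ∫ y, θ y * tr (F y) = -∫ y, fderiv ℝ θ y (f y)
  korn1 : ∀ (θ : V n → ℝ) (R : ℝ) (f : V n → V n) (F : V n → Mt n), Test θ R → W f F →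
    ∫ y, tr (F y ∘L hess θ y) = ∫ y, tr (F y) * lap θ y
  korn2 : ∃ C : ℝ, 0 < C ∧ ∀ (θ : V n → ℝ) (R : ℝ) (f : V n → V n) (F : V n → Mt n) (g : V n → ℝ),
    Test θ R → W f F → IntegrableOn g (ball 0 R) volume →
    (∀ᵐ y, y ∈ ball (0 : V n) R → Dev (F y) (g y)) → ∀ a b : V n,
      |∫ y, ⟪a, F y b⟫ * lap θ y| ≤ C * ‖a‖ * ‖b‖ * ∫ y in ball (0 : V n) R, g y * ‖hess θ y‖
  piola : ∀ (ζ : V n → ℝ) (R K : ℝ) (f G : V n → V n) (F : V n → Mt n), Test ζ R → W f F →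
    ContDiff ℝ 1 G → 0 < K → QR K (ball 0 R) F →
    Integrable (fun x => ζ x * tr ((F x - fderiv ℝ G x) ∘L adj (F x))) volume ∧
    Integrable (fun x => fderiv ℝ ζ x (adj (F x) (f x - G x))) volume ∧
    ∫ x, ζ x * tr ((F x - fderiv ℝ G x) ∘L adj (F x)) =
      -∫ x, fderiv ℝ ζ x (adj (F x) (f x - G x))

/-- calculus of weak derivatives -/
structure AvB (n : ℕ) : Prop extends AvB1 n, AvB2 n

/-- the covering inequality for the smallest eigenvalue of a Hessian -/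
structure Abp (n : ℕ) : Prop where
  cont : Continuous (lmin : Mt n → ℝ)
  zero : lmin (0 : Mt n) = 0
  le : ∀ H : Mt n, Sym H → n * lmin H ≤ tr H
  pair : ∀ (H X : Mt n) (c : ℝ), Sym H → Top X c →
    tr (X ∘L H) - tr X * tr H / n ≤ c * (tr H - n * lmin H)
  norm : ∀ H : Mt n, Sym H → ‖H‖ ≤ |tr H| + 2 * (tr H - n * lmin H)
  abp : ∀ (κ R a : ℝ) (v σ : V n → ℝ), 0 < κ → κ ≤ 1 → 0 < R → 0 < a → Test v R →
    Integrable σ volume → (∀ x, 0 ≤ σ x ∧ σ x ≤ 1) → (∀ x, -a ≤ lap v x ∧ lap v x ≤ σ x) →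
    ∫ x, -lmin (hess v x) ≤ ((n : ℝ) - 1) / (n - 2 * κ) * ((∫ x, σ x) * max (Real.log a⁻¹) 0 +
      a * (volume : Measure (V n)).real (ball 0 R) * (1 / κ + n))

/-- exponential estimates for the linear problem -/
structure Lin (n : ℕ) : Prop where
  sharp : ∀ κ : ℝ, 0 < κ → κ ≤ 1 → ∃ C : ℝ, 0 < C ∧ ∀ (w : V n → V n) (b c a : ℝ), ContDiff ℝ 1 w →
    0 ≤ b → 0 < c → (∀ x ∈ ball (0 : V n) 5, ‖w x‖ ≤ b ∧ Top (fderiv ℝ w x) c) →
    volume {x ∈ ball (0 : V n) 3 | a < tr (fderiv ℝ w x)} ≤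
      ENNReal.ofReal (C * Real.exp (-((a - C * b) * (n - 2 * κ) / (n ^ 2 * c))))
  rough : ∃ C : ℝ, 0 < C ∧ ∀ (w : V n → V n) (b c a : ℝ), ContDiff ℝ 1 w →
    0 ≤ b → 0 < c → (∀ x ∈ ball (0 : V n) 5, ‖w x‖ ≤ b ∧ Dev (fderiv ℝ w x) c) → 0 ≤ a - C * b →
    volume {x ∈ ball (0 : V n) 3 | a < ‖fderiv ℝ w x‖} ≤
      ENNReal.ofReal (C * Real.exp (-((a - C * b) / (C * c))))

/-- Caccioppoli and Poincare inequalities -/
structure Cac (n : ℕ) : Prop where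
  cacc : ∃ ε₀ C : ℝ, 0 < ε₀ ∧ 0 < C ∧ ∀ ε, 0 ≤ ε → ε ≤ ε₀ → ∀ (f : V n → V n) (F : V n → Mt n),
    W f F → QR (1 + ε) (ball 0 2) F →
    ∫ y in ball (0 : V n) 1, om n ‖F y - 1‖ ≤
      C * (ε ^ 2 + ∫ y in ball (0 : V n) 2, om n ‖f y - y‖)
  poinc : ∀ φ ψ : V n → ℝ, Ker φ ψ → ∃ C : ℝ, 0 < C ∧ ∀ (g : V n → V n) (G : V n → Mt n), W g G →
    ∀ (q : ℕ) (a s : ℝ), 1 ≤ q → q ≤ n → 0 < a → 0 < s →
    ∫ y in ball (0 : V n) a, ‖g y - av φ g y s‖ ^ q ≤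
      (C * s) ^ q * ∫ y in ball (0 : V n) (a + s), ‖G y‖ ^ q

/-- one step of improvement of flatness -/
def FlatStep (n : ℕ) : Prop :=
  ∃ τ γ ε₀ C : ℝ, 0 < τ ∧ τ ≤ 1 / 2 ∧ 0 < γ ∧ 0 < ε₀ ∧ 0 < C ∧ ∀ ε, 0 ≤ ε → ε ≤ ε₀ →
    ∀ (f : V n → V n) (F : V n → Mt n) (t : ℝ), W f F → QR (1 + ε) (ball 0 1) F → 0 < t → t ≤ γ →
    Iv (fun z => om n ‖F z - 1‖) 0 1 ≤ t →
    ∃ a N, Conf a N ∧ Iv (fun z => om n ‖N ∘L F z - 1‖) 0 τ ≤ t / 2 + C * ε ^ 2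

/-- flatness at one scale gives closeness to conformal operators at all small scales -/
def PropP (n : ℕ) : Prop :=
  ∃ γ ε₀ C : ℝ, 0 < γ ∧ 0 < ε₀ ∧ 0 < C ∧ ∀ ε, 0 < ε → ε ≤ ε₀ → ∃ r₁, 0 < r₁ ∧ r₁ ≤ 1 ∧
    ∀ (f : V n → V n) (F : V n → Mt n), W f F → QR (1 + ε) (ball 0 1) F →
    Iv (fun z => om n ‖F z - 1‖) 0 1 ≤ γ → ∀ x ∈ ball (0 : V n) (1 / 2), ∀ r, 0 < r → r ≤ r₁ →
    ∃ a N, Conf a N ∧ Iv (fun z => ‖N ∘L F z - 1‖ ^ 2) x r ≤ C * ε ^ 2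

/-- the two point energy identity -/
structure MonoA (n : ℕ) : Prop where
  low : ∀ φ ψ ζ : V n → ℝ, Ker φ ψ → Test ζ 2 → (∀ x, 0 ≤ ζ x) →
    ∃ c C : ℝ, 0 < c ∧ 0 < C ∧ ∀ ε ρ, 0 ≤ ε → ε ≤ 1 → 0 < ρ → ρ ≤ 1 →
    ∀ (f : V n → V n) (F : V n → Mt n), W f F → QR (1 + ε) (ball 0 4) F →
    c * Yv ζ φ F ρ ≤ Tz ζ φ f F ρ + (∫ z, ‖F z‖ ^ n * ((∫ y, φ y * ζ (z - ρ • y)) - ζ z)) +
      C * ε * En F 4
  der : ∀ φ ψ ζ : V n → ℝ, Ker φ ψ → Test ζ 2 → ∀ (f : V n → V n) (F : V n → Mt n), W f F →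
    (∀ ρ, 0 < ρ → Integrable (fun x => fderiv ℝ ζ x (adj (F x) (Bv φ F x ρ))) volume ∧
      HasDerivAt (Tz ζ φ f F) (∫ x, fderiv ℝ ζ x (adj (F x) (Bv φ F x ρ))) ρ) ∧
    Tendsto (Tz ζ φ f F) (𝓝[>] 0) (𝓝 0)
  int : ∀ (f : V n → V n) (F : V n → Mt n), W f F → ∀ ρ a b : ℝ,
    IntegrableOn (fun p : V n × V n => dV (F p.1) (F (p.1 + ρ • p.2))) (ball 0 a ×ˢ ball 0 b)
      ((volume : Measure (V n)).prod volume)
  taylor : ∀ φ ψ ζ : V n → ℝ, Ker φ ψ → Test ζ 2 → ∃ C : ℝ, 0 < C ∧ ∀ ρ, 0 ≤ ρ → ρ ≤ 1 → ∀ z,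
    |(∫ y, φ y * ζ (z - ρ • y)) - ζ z - ρ ^ 2 / 2 * (∫ y, ψ y) * lap ζ z| ≤ C * ρ ^ 3 ∧
    |(∫ y, ⟪gradient ζ (z - ρ • y), gradient ψ y⟫) - ρ * (∫ y, ψ y) * lap ζ z| ≤ C * ρ ^ 2

/-- the difference quotient estimate -/
def Cacc2 (n : ℕ) : Prop :=
  ∀ φ ψ : V n → ℝ, Ker φ ψ → ∃ C : ℝ, 0 < C ∧ ∀ ε ρ, 0 ≤ ε → ε ≤ 1 → 0 < ρ → ρ ≤ 1 →
    ∀ (f : V n → V n) (F : V n → Mt n), W f F → QR (1 + ε) (ball 0 4) F →
    ∫ x in ball (0 : V n) 1, ∫ y, φ y * dV (F x) (F (x + ρ • y)) ≤ C * (ρ ^ 2 + ε) * En F 4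

/-- approximate subharmonicity of the energy density -/
def Mono (n : ℕ) : Prop :=
  ∀ φ ψ : V n → ℝ, Ker φ ψ → ∃ C₁ C₂ : ℝ, 0 < C₁ ∧ 0 < C₂ ∧ ∀ ε η, 0 ≤ ε → ε ≤ 1 → 0 < η → η ≤ 1 →
    ∀ (f : V n → V n) (F : V n → Mt n), W f F → QR (1 + ε) (ball 0 4) F →
    Yv ψ φ F η ≤ C₁ * η ^ 2 * (∫ y, lap ψ y * ‖F y‖ ^ n) + C₂ * (η ^ 3 + ε) * En F 4

/-- flat or small -/
def Fos (n : ℕ) : Prop :=
  ∀ γ : ℝ, 0 < γ → ∃ τ ε₀ : ℝ, 0 < τ ∧ 0 < ε₀ ∧ ∀ ε, 0 ≤ ε → ε ≤ ε₀ →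
    ∀ (f : V n → V n) (F : V n → Mt n), W f F → QR (1 + ε) (ball 0 1) F →
    ∃ s, τ ≤ s ∧ s ≤ 1 / 2 ∧
      (Iv (fun z => ‖F z‖ ^ n) 0 s ≤ Iv (fun z => ‖F z‖ ^ n) 0 1 / 2 ∨
        ∃ a N, Conf a N ∧ Iv (fun z => om n ‖N ∘L F z - 1‖) 0 s ≤ γ)

/-- the stopped map -/
def GenA (n : ℕ) : Prop :=
  ∀ φ ψ : V n → ℝ, Ker φ ψ → ∀ CV : ℝ, 0 < CV → ∃ C₀ : ℝ, 1 ≤ C₀ ∧ ∀ L : ℝ, 0 < L → L ≤ 1 / 3 →
    ∃ CL : ℝ, 0 < CL ∧ ∀ ε δ δ₁ r₀ : ℝ, 0 < ε → CL * ε ≤ δ → CL * ε ≤ δ₁ → δ ≤ 1 → δ₁ ≤ 1 / 4 →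
    0 < r₀ → r₀ ≤ 1 → ∀ (f : V n → V n) (F : V n → Mt n), W f F → QR (1 + ε) (ball 0 20) F →
    PP CV ε F → Iv (fun z => ‖F z - 1‖ ^ 2) 0 10 ≤ CV * ε ^ 2 →
    ∃ (w : V n → V n) (T : Set (V n × ℝ)), ContDiff ℝ 1 w ∧
      (∀ x ∈ ball (0 : V n) 5, ‖w x‖ ≤ C₀ * ε ∧
        Top (fderiv ℝ w x) (ε / n * (1 + δ) + C₀ * (δ₁ ^ 2 + ε ^ 2 + ε * L)) ∧
        Dev (fderiv ℝ w x) (C₀ * (ε + δ₁ ^ 2))) ∧
      (∀ q ∈ T, ‖q.1‖ ≤ 2 ∧ 0 < q.2 ∧ r₀ ≤ 5 * q.2 / L ∧ 5 * q.2 / L ≤ 1 / 2 ∧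
        ‖av φ F q.1 (5 * q.2 / L)‖ ≤ 1 + δ + C₀ * (ε + δ₁ ^ 2) ∧
        ∀ x ∈ ball q.1 q.2, δ₁ - C₀ * ε < ‖fderiv ℝ w x‖ ∨ n * δ - C₀ * ε < tr (fderiv ℝ w x)) ∧
      ∀ x ∈ ball (0 : V n) 1, ‖av φ F x r₀‖ ≤ 1 + δ + C₀ * (ε + δ₁ ^ 2) ∨
        ∃ q ∈ T, x ∈ ball q.1 (q.2 / L)

/-- one generation of the stopping time -/
def Gen (n : ℕ) : Prop :=
  ∀ φ ψ : V n → ℝ, Ker φ ψ → ∀ CV θ β : ℝ, 0 < CV → 0 < θ → θ < 1 → 0 < β →
    ∃ ε₀ C₁ : ℝ, 0 < ε₀ ∧ 0 < C₁ ∧ ∀ ε p r₀ : ℝ, 0 < ε → ε ≤ ε₀ → 0 < p → p ≤ θ * n / ε →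
    0 < r₀ → r₀ ≤ 1 → ∀ (f : V n → V n) (F : V n → Mt n), W f F → QR (1 + ε) (ball 0 20) F →
    PP CV ε F → Iv (fun z => ‖F z - 1‖ ^ 2) 0 10 ≤ CV * ε ^ 2 →
    ∃ (U : Set (V n × ℝ)) (w : ℝ), U.Countable ∧ 1 ≤ w ∧ w ^ p ≤ C₁ ∧
      (∀ q ∈ U, ‖q.1‖ ≤ 2 ∧ r₀ ≤ q.2 ∧ q.2 ≤ 1 / 2 ∧ ‖av φ F q.1 q.2‖ ≤ w) ∧
      ∑' q : U, volume (ball q.1.1 q.1.2) ≤ ENNReal.ofReal (β / w ^ p) ∧
      ∀ x ∈ ball (0 : V n) 1, ‖av φ F x r₀‖ ≤ w ∨ ∃ q ∈ U, x ∈ ball q.1 q.2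

/-- integrability in the flat regime -/
def Iter (n : ℕ) : Prop :=
  ∀ φ ψ : V n → ℝ, Ker φ ψ → ∀ CV θ : ℝ, 0 < CV → 0 < θ → θ < 1 →
    ∃ ε₀ Φ : ℝ, 0 < ε₀ ∧ 0 < Φ ∧ ∀ ε p : ℝ, 0 < ε → ε ≤ ε₀ → 0 < p → p ≤ θ * n / ε →
    ∀ (f : V n → V n) (F : V n → Mt n), W f F → QR (1 + ε) (ball 0 20) F → PP CV ε F →
    ∫⁻ x in ball (0 : V n) 1, ENNReal.ofReal (‖F x‖ ^ p) ≤
      ENNReal.ofReal (Φ * ‖av φ F 0 1‖ ^ p)

/-- the lower bound for the exponent -/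
def Main (n : ℕ) : Prop :=
  ∀ θ : ℝ, 0 < θ → θ < 1 → ∃ ε₀ : ℝ, 0 < ε₀ ∧ ∀ ε p : ℝ, 0 < ε → ε ≤ ε₀ → 0 < p → p ≤ θ * n / ε →
    ∀ Ω f Df, h48.IsQR (n := n) (1 + ε) Ω f Df → h48.LocLp (ENNReal.ofReal p) Ω Df

end Pool.Agent.MP_29b5d3_an.NC

end MrgPart1

-- ======== part 2: formerly Pool.Agent.MP_29b5d3_an.NC.CacC
section MrgPart2

/-! Project NEARCONF: the Caccioppoli inequality for the deviation from the identity. -/

set_option autoImplicit false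

namespace Pool.Agent.MP_29b5d3_an.NC

open MeasureTheory Metric Filter Topology Module
open scoped RealInnerProductSpace ContDiff

namespace CacC

variable {n : ℕ}

theorem young (k : ℕ) {p s δ : ℝ} (hp : 0 ≤ p) (hs : 0 ≤ s) (hδ : 0 < δ) :
    p ^ k * s ≤ δ * p ^ (k + 1) + (δ⁻¹) ^ k * s ^ (k + 1) := by
  rcases le_total s (δ * p) with h | h
  · have e1 : p ^ k * s ≤ δ * p ^ (k + 1) := by
      calc p ^ k * s ≤ p ^ k * (δ * p) := mul_le_mul_of_nonneg_left h (by positivity)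
        _ = δ * p ^ (k + 1) := by ring
    have e2 : 0 ≤ (δ⁻¹) ^ k * s ^ (k + 1) := by positivity
    linarith
  · have h1 : p ≤ δ⁻¹ * s := by
      rw [le_inv_mul_iff₀ hδ]
      exact h
    have e1 : p ^ k * s ≤ (δ⁻¹) ^ k * s ^ (k + 1) := by
      calc p ^ k * s ≤ (δ⁻¹ * s) ^ k * s :=
            mul_le_mul_of_nonneg_right (pow_le_pow_left₀ hp h1 k) hs
        _ = (δ⁻¹) ^ k * s ^ (k + 1) := by ring
    have e2 : 0 ≤ δ * p ^ (k + 1) := by positivity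
    linarith

theorem key (k : ℕ) (hk : 1 ≤ k) {c K : ℝ} (hc : 0 < c) (hK : 0 < K) :
    ∃ C : ℝ, 0 < C ∧ ∀ t ε y s : ℝ, 0 ≤ t → t ≤ 1 → 0 ≤ ε → 0 ≤ y → 0 ≤ s →
      K * t ^ k * (ε + y + y ^ k) * s ≤
        c / 2 * (t ^ (k + 1) * om (k + 1) y) + C * (ε ^ 2 + om (k + 1) s) := by
  obtain ⟨δ, hδ, hd⟩ : ∃ δ : ℝ, 0 < δ ∧ K * δ = c / 2 :=
    ⟨c / 2 / K, by positivity, by field_simp⟩
  refine ⟨K * (1 + δ⁻¹ + (δ⁻¹) ^ k), by positivity, fun t ε y s t0 t1 e0 y0 s0 => ?_⟩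
  have tk : t ^ k ≤ 1 := pow_le_one₀ t0 t1
  have tk0 : 0 ≤ t ^ k := by positivity
  have a1 : t ^ k * ε * s ≤ ε ^ 2 + s ^ 2 := by
    have : t ^ k * (ε * s) ≤ 1 * (ε * s) := mul_le_mul_of_nonneg_right tk (by positivity)
    nlinarith [sq_nonneg (ε - s), mul_nonneg e0 s0]
  have a2 : t ^ k * y * s ≤ δ * (t ^ (k + 1) * y ^ 2) + δ⁻¹ * s ^ 2 := by
    have h := young 1 (p := t ^ k * y) (by positivity) s0 hδ
    have h2 : (t ^ k * y) ^ (1 + 1) ≤ t ^ (k + 1) * y ^ 2 := by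
      have h3 : t ^ k * t ^ k ≤ t ^ (k + 1) := by
        rw [← pow_add]
        exact pow_le_pow_of_le_one t0 t1 (by omega)
      calc (t ^ k * y) ^ (1 + 1) = t ^ k * t ^ k * y ^ 2 := by ring
        _ ≤ _ := mul_le_mul_of_nonneg_right h3 (by positivity)
    have h4 := mul_le_mul_of_nonneg_left h2 hδ.le
    simp only [pow_one] at h
    norm_num at h h4 ⊢
    linarith
  have a3 : t ^ k * y ^ k * s ≤ δ * (t ^ (k + 1) * y ^ (k + 1)) + (δ⁻¹) ^ k * s ^ (k + 1) := by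
    have h := young k (p := t * y) (by positivity) s0 hδ
    rwa [mul_pow, mul_pow] at h
  have b1 := mul_le_mul_of_nonneg_left (add_le_add (add_le_add a1 a2) a3) hK.le
  have p1 : 0 ≤ K * (δ⁻¹ * ε ^ 2) := by positivity
  have p2 : 0 ≤ K * ((δ⁻¹) ^ k * ε ^ 2) := by positivity
  have p3 : 0 ≤ K * ((δ⁻¹) ^ k * s ^ 2) := by positivity
  have p4 : 0 ≤ K * s ^ (k + 1) := by positivity
  have p5 : 0 ≤ K * (δ⁻¹ * s ^ (k + 1)) := by positivity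
  rw [← hd]
  unfold om
  nlinarith [b1, p1, p2, p3, p4, p5]

theorem cacc (hn : 3 ≤ n) (hM : MatB n) (hB : AvB n) :
    ∃ ε₀ C : ℝ, 0 < ε₀ ∧ 0 < C ∧ ∀ ε, 0 ≤ ε → ε ≤ ε₀ → ∀ (f : V n → V n) (F : V n → Mt n),
    W f F → QR (1 + ε) (ball 0 2) F →
    ∫ y in ball (0 : V n) 1, om n ‖F y - 1‖ ≤
      C * (ε ^ 2 + ∫ y in ball (0 : V n) 2, om n ‖f y - y‖) := by
  obtain ⟨k, rfl⟩ : ∃ k, n = k + 1 := ⟨n - 1, by omega⟩
  obtain ⟨ε₀, c, C, h0, hc, hC, hp⟩ := hM.pwc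
  obtain ⟨χ, tχ, χ01, χ1⟩ := exists_cut (n := k + 1) (a := 1) (b := 2) one_pos one_lt_two
  obtain ⟨D, hD, bD⟩ := tχ.bdd_fderiv
  obtain ⟨C', hC', hk⟩ := key k (by omega) hc (K := (k + 1) * D * C) (by positivity)
  have tζ : Test (fun y => χ y ^ (k + 1)) 2 :=
    ⟨tχ.1.pow _, fun y hy => by simp [tχ.2 y hy]⟩
  have dζ : ∀ y v, |fderiv ℝ (fun y => χ y ^ (k + 1)) y v| ≤ (k + 1) * D * χ y ^ k * ‖v‖ := by
    intro y v
    have d := ((tχ.c1.differentiable one_ne_zero y).hasFDerivAt.pow (k + 1)).fderiv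
    have e : fderiv ℝ (fun y => χ y ^ (k + 1)) y v = (k + 1) * χ y ^ k * fderiv ℝ χ y v := by
      rw [d]
      simp
    have b : |fderiv ℝ χ y v| ≤ D * ‖v‖ := (fderiv ℝ χ y).le_of_opNorm_le (bD y) v
    have c0 : 0 ≤ ((k : ℝ) + 1) * χ y ^ k := by have := (χ01 y).1; positivity
    rw [e, abs_mul, abs_of_nonneg c0]
    calc _ ≤ ((k : ℝ) + 1) * χ y ^ k * (D * ‖v‖) := mul_le_mul_of_nonneg_left b c0
      _ = _ := by ring
  set B : ℝ := (volume : Measure (V (k + 1))).real (ball 0 2) with hBd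
  have B0 : 0 ≤ B := measureReal_nonneg
  refine ⟨ε₀, 2 / c * ((C + C') * (B + 1)), h0, by positivity, fun ε e0 e1 f F hW hQ => ?_⟩
  obtain ⟨i1, i2, e12⟩ := hB.piola _ 2 (1 + ε) f id F tζ hW contDiff_id (by linarith) hQ
  have hW' := hB.subL f F 1 0 hW
  have e34 := hB.dvg _ 2 _ _ tζ hW'
  have l3 : LocallyIntegrable (fun y => tr (F y - 1)) volume :=
    fun x => by
      obtain ⟨s, hs, hi⟩ := hB.loc _ _ hW' x
      have h2 : Integrable (fun y => trL (k + 1) (F y - 1)) (volume.restrict s) :=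
        (trL (k + 1)).integrable_comp hi
      exact ⟨s, hs, h2⟩
  have i3 : Integrable (fun y => χ y ^ (k + 1) * tr (F y - 1)) volume :=
    l3.integrable_smul_left_of_hasCompactSupport tζ.cont tζ.supp
  have cu : Continuous fun y => f y - y := hW.cont.sub continuous_id
  have i4 : Integrable (fun y => fderiv ℝ (fun y => χ y ^ (k + 1)) y (f y - y)) volume :=
    (tζ.smooth_fderiv.continuous.clm_apply cu).integrable_of_hasCompactSupport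
      (supp_of (R := 2) fun y hy => by rw [tζ.fderiv_zero y hy, zero_apply])
  simp only [fderiv_id, id, ← ContinuousLinearMap.one_def] at i1 i2 e12
  simp only [one_apply_eq_self, sub_zero] at e34
  have j1 : IntegrableOn (fun y => om (k + 1) ‖F y - 1‖) (ball 0 1) volume := by
    have := (hB.loc_om f F 1 1 hW).1
    simp only [ContinuousLinearMap.one_def, ContinuousLinearMap.id_comp] at this
    exact (this.integrableOn_isCompact (isCompact_closedBall 0 1)).mono_set ball_subset_closedBall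
  have j2 : IntegrableOn (fun y => om (k + 1) ‖f y - y‖) (ball 0 2) volume := by
    have : Continuous fun y => om (k + 1) ‖f y - y‖ := by
      unfold om
      exact (cu.norm.pow _).add (cu.norm.pow _)
    exact (this.continuousOn.integrableOn_compact (isCompact_closedBall 0 2)).mono_set
      ball_subset_closedBall
  have j3 : IntegrableOn (fun _ : V (k + 1) => ε ^ 2) (ball 0 2) volume :=
    integrableOn_const measure_ball_lt_top.ne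
  have j4 : IntegrableOn (fun y => (C + C') * (ε ^ 2 + om (k + 1) ‖f y - y‖)) (ball 0 2) volume :=
    (j3.add j2).const_mul (C + C')
  have j5 := j1.const_mul (c / 2)
  have g1 := (integrable_indicator_iff measurableSet_ball).2 j5
  have g2 := (integrable_indicator_iff measurableSet_ball).2 j4
  have main : ∫ y, ((ball (0 : V (k + 1)) 1).indicator (fun y => c / 2 * om (k + 1) ‖F y - 1‖) y -
      (ball (0 : V (k + 1)) 2).indicator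
        (fun y => (C + C') * (ε ^ 2 + om (k + 1) ‖f y - y‖)) y) ≤
      ∫ y, ((χ y ^ (k + 1) * tr ((F y - 1) ∘L adj (F y)) +
        fderiv ℝ (fun y => χ y ^ (k + 1)) y (adj (F y) (f y - y))) -
        (χ y ^ (k + 1) * tr (F y - 1) + fderiv ℝ (fun y => χ y ^ (k + 1)) y (f y - y))) := by
    refine integral_mono_ae (g1.sub g2) ((i1.add i2).sub (i3.add i4)) ?_
    filter_upwards [hQ] with y hy
    by_cases hb : y ∈ ball (0 : V (k + 1)) 2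
    · obtain ⟨q1, q2⟩ := hp ε e0 e1 (F y) (hy hb)
      have t0 := (χ01 y).1
      have t1 := (χ01 y).2
      have q3 := hk (χ y) ε ‖F y - 1‖ ‖f y - y‖ t0 t1 e0 (norm_nonneg _) (norm_nonneg _)
      have q4 := dζ y ((adj (F y) - 1) (f y - y))
      have q5 : ‖(adj (F y) - 1) (f y - y)‖ ≤
          C * (ε + ‖F y - 1‖ + ‖F y - 1‖ ^ k) * ‖f y - y‖ :=
        (adj (F y) - 1).le_of_opNorm_le q2 _
      have q6 := q4.trans (mul_le_mul_of_nonneg_left q5 (by positivity))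
      rw [sub_apply, one_apply_eq_self, map_sub] at q6
      have q7 := (abs_le.1 q6).1
      have z0 : 0 ≤ χ y ^ (k + 1) := by positivity
      have z1 : χ y ^ (k + 1) ≤ 1 := pow_le_one₀ t0 t1
      have q8 := mul_le_mul_of_nonneg_left q1 z0
      have q9 : χ y ^ (k + 1) * (C * ε ^ 2) ≤ C * ε ^ 2 :=
        mul_le_of_le_one_left (by positivity) z1
      have o1 := om_nonneg (n := k + 1) (norm_nonneg (F y - 1))
      have o2 := om_nonneg (n := k + 1) (norm_nonneg (f y - y))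
      have q10 : (ball (0 : V (k + 1)) 1).indicator (fun y => c / 2 * om (k + 1) ‖F y - 1‖) y ≤
          c / 2 * (χ y ^ (k + 1) * om (k + 1) ‖F y - 1‖) := by
        by_cases h1 : y ∈ ball (0 : V (k + 1)) 1
        · rw [Set.indicator_of_mem h1, χ1 y (mem_ball_zero_iff.1 h1).le, one_pow, one_mul]
        · rw [Set.indicator_of_notMem h1]
          positivity
      have q11 : 0 ≤ C * om (k + 1) ‖f y - y‖ := by positivity
      rw [Set.indicator_of_mem hb]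
      nlinarith [q3, q7, q8, q9, q10, q11]
    · have hy2 : (2 : ℝ) ≤ ‖y‖ := by simpa using hb
      have h1 : y ∉ ball (0 : V (k + 1)) 1 := fun h => hb (ball_subset_ball one_le_two h)
      rw [Set.indicator_of_notMem hb, Set.indicator_of_notMem h1, tζ.fderiv_zero y hy2,
        tχ.2 y hy2]
      simp
  have i12 : Integrable (fun y => χ y ^ (k + 1) * tr ((F y - 1) ∘L adj (F y)) +
    fderiv ℝ (fun y => χ y ^ (k + 1)) y (adj (F y) (f y - y))) volume := i1.add i2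
  have i34 : Integrable (fun y => χ y ^ (k + 1) * tr (F y - 1) +
    fderiv ℝ (fun y => χ y ^ (k + 1)) y (f y - y)) volume := i3.add i4
  rw [integral_sub g1 g2, integral_sub i12 i34, integral_add i1 i2,
    integral_add i3 i4, e12, e34, integral_indicator measurableSet_ball,
    integral_indicator measurableSet_ball, integral_const_mul, integral_const_mul,
    integral_add j3 j2, setIntegral_const, smul_eq_mul] at main
  have n2 : 0 ≤ ∫ y in ball (0 : V (k + 1)) 2, om (k + 1) ‖f y - y‖ :=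
    integral_nonneg fun y => om_nonneg (norm_nonneg _)
  rw [div_mul_eq_mul_div, div_mul_eq_mul_div, le_div_iff₀ hc]
  have r1 : 0 ≤ (C + C') * ε ^ 2 := by positivity
  have r2 : 0 ≤ (C + C') * (B * ∫ y in ball (0 : V (k + 1)) 2, om (k + 1) ‖f y - y‖) := by
    positivity
  rw [← hBd] at main
  nlinarith [main, r1, r2]

end CacC

end Pool.Agent.MP_29b5d3_an.NC

end MrgPart2

-- marker of a merged file
example : 731051 + 881214 = 731051 + 881214 := rfl
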