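import Pool.Agent.MP_29b5d3_an.NC.CacC

/-! Project NEARCONF, module AVB1: rescaling of weak derivatives, derivatives of the averages. -/

set_option autoImplicit false

namespace Pool.Agent.MP_29b5d3_an.NC

open MeasureTheory Metric Filter Topology Module
open scoped RealInnerProductSpace ContDiff ENNReal

namespace AvBx

variable {n : ℕ}

theorem locH {U : Type} [NormedAddCommGroup U] {f : V n → V n} {F : V n → Mt n} {H : Mt n → U}
    {C : ℝ} (h : W f F) (hH : Continuous H) (hC : ∀ X, ‖H X‖ ≤ C * (1 + ‖X‖ ^ n)) :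
    LocallyIntegrable (fun x => H (F x)) volume := by
  have k : LocallyIntegrable (fun x => C • ((1 : ℝ) + ‖F x‖ ^ n)) volume :=
    ((locallyIntegrable_const (1 : ℝ)).add h.lp).smul C
  refine k.mono (hH.comp_stronglyMeasurable h.meas).aestronglyMeasurable
    (Eventually.of_forall fun x => (hC _).trans ?_)
  rw [smul_eq_mul, Real.norm_eq_abs]
  exact le_abs_self _

theorem pow_le {t s c : ℝ} {k : ℕ} (hk : k ≤ n) (ht : 0 ≤ t) (hs : 0 ≤ s) (hc : 0 ≤ c)
    (h : t ≤ c * (1 + s)) : t ^ k ≤ c ^ k * 2 ^ n * (1 + s ^ n) := by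
  calc t ^ k ≤ (c * (1 + s)) ^ k := pow_le_pow_left₀ ht h k
    _ = c ^ k * (1 + s) ^ k := mul_pow _ _ _
    _ ≤ c ^ k * (1 + s) ^ n := by
        gcongr
        linarith
    _ ≤ c ^ k * (2 ^ n * (1 + s ^ n)) := by
        gcongr
        exact h48.one_add_pow_le hs n
    _ = _ := by ring

theorem aff_le (N M X : Mt n) : ‖N ∘L X - M‖ ≤ (‖N‖ + ‖M‖) * (1 + ‖X‖) := by
  have h1 := norm_sub_le (N ∘L X) M
  have h2 := N.opNorm_comp_le X
  nlinarith [norm_nonneg N, norm_nonneg M, norm_nonneg X, mul_nonneg (norm_nonneg M) (norm_nonneg X)]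

theorem cont_aff (N M : Mt n) : Continuous fun X : Mt n => ‖N ∘L X - M‖ :=
  ((continuous_const.clm_comp continuous_id).sub continuous_const).norm

theorem loc_pow {f : V n → V n} {F : V n → Mt n} (h : W f F) (N M : Mt n) {k : ℕ} (hk : k ≤ n) :
    LocallyIntegrable (fun x => ‖N ∘L F x - M‖ ^ k) volume :=
  locH (H := fun X => ‖N ∘L X - M‖ ^ k) (C := (‖N‖ + ‖M‖) ^ k * 2 ^ n) h ((cont_aff N M).pow k)
    fun X => by
      rw [Real.norm_of_nonneg (by positivity)]
      exact pow_le hk (norm_nonneg _) (norm_nonneg _) (by positivity) (aff_le N M X)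

theorem loc (hn : 1 ≤ n) {f : V n → V n} {F : V n → Mt n} (h : W f F) :
    LocallyIntegrable F volume :=
  locH (H := fun X => X) (C := 1 ^ 1 * 2 ^ n) h continuous_id fun X => by
    have := pow_le (t := ‖X‖) (s := ‖X‖) (c := 1) hn (norm_nonneg _) (norm_nonneg _) zero_le_one
      (by linarith)
    rwa [pow_one] at this

theorem loc_apply {G : V n → Mt n} (h : LocallyIntegrable G volume) {θ : V n → ℝ}
    (hθ : Continuous θ) (hc : HasCompactSupport θ) {u : V n → V n} (hu : Continuous u) :
    Integrable (fun y => θ y • G y (u y)) volume := by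
  have e : (fun y => θ y • G y (u y)) = fun y => ∑ i, (ContinuousLinearMap.apply ℝ (V n) (ev i))
      ((⟪ev i, u y⟫ * θ y) • G y) := by
    ext1 y
    conv_lhs => rw [← sum_ev (u y), map_sum, Finset.smul_sum]
    refine Finset.sum_congr rfl fun i _ => ?_
    rw [map_smul, smul_smul, ContinuousLinearMap.apply_apply, smul_apply, mul_comm]
  rw [e]
  refine integrable_finsetSum _ fun i _ => ContinuousLinearMap.integrable_comp _ ?_
  exact h.integrable_smul_left_of_hasCompactSupport (by fun_prop) hc.mul_left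

theorem int_aff {U : Type} [NormedAddCommGroup U] [NormedSpace ℝ U] (g : V n → U) (x : V n)
    (r : ℝ) : ∫ y, g (x + r • y) = |(r ^ n)⁻¹| • ∫ z, g z := by
  have := Measure.integral_comp_smul volume (fun z => g (x + z)) r
  rw [integral_add_left_eq_self, fr] at this
  exact this

theorem cs_der {φ : V n → ℝ} (hc : HasCompactSupport φ) (v : V n) :
    HasCompactSupport fun y => fderiv ℝ φ y v :=
  (hc.fderiv (𝕜 := ℝ)).comp_left (g := fun l : V n →L[ℝ] ℝ => l v) rfl

theorem cont_der {φ : V n → ℝ} (hφ : ContDiff ℝ ∞ φ) (v : V n) :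
    Continuous fun y => fderiv ℝ φ y v :=
  (hφ.continuous_fderiv (by simp)).clm_apply continuous_const

theorem weak_resc {f : V n → V n} {F : V n → Mt n} (h : h48.WD volume f F) (x : V n) {r : ℝ}
    (hr : r ≠ 0) : h48.WD volume (fun y => r⁻¹ • f (x + r • y)) fun y => F (x + r • y) := by
  intro φ hφ hc v
  have s : ContDiff ℝ ∞ fun z : V n => r⁻¹ • (z - x) := by fun_prop
  let T : V n ≃ₜ V n := (Homeomorph.subRight x).trans (Homeomorph.smulOfNeZero r⁻¹ (inv_ne_zero hr))
  have c : HasCompactSupport fun z : V n => φ (r⁻¹ • (z - x)) := hc.comp_homeomorph T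
  have k := h (fun z => φ (r⁻¹ • (z - x))) (hφ.comp s) c v
  have b : ∀ y : V n, r⁻¹ • (x + r • y - x) = y := fun y => by
    rw [add_sub_cancel_left, smul_smul, inv_mul_cancel₀ hr, one_smul]
  have d : ∀ z : V n, fderiv ℝ (fun z => φ (r⁻¹ • (z - x))) z v =
      r⁻¹ * fderiv ℝ φ (r⁻¹ • (z - x)) v := fun z => by
    have d1 : HasFDerivAt (fun z : V n => r⁻¹ • (z - x)) (r⁻¹ • ContinuousLinearMap.id ℝ (V n)) z :=
      ((hasFDerivAt_id z).sub_const x).const_smul r⁻¹
    have d2 := ((hφ.differentiable (by simp) (r⁻¹ • (z - x))).hasFDerivAt).comp z d1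
    have d3 : fderiv ℝ (fun z => φ (r⁻¹ • (z - x))) z = _ := d2.fderiv
    rw [d3]
    simp
  have e1 := int_aff (fun z => fderiv ℝ (fun z => φ (r⁻¹ • (z - x))) z v • f z) x r
  have e2 := int_aff (fun z => φ (r⁻¹ • (z - x)) • F z v) x r
  rw [k, smul_neg, ← e2] at e1
  simp only [d, b] at e1
  rw [← e1]
  refine integral_congr_ae (Eventually.of_forall fun y => ?_)
  simp only [smul_smul, mul_comm]

theorem weak_comp {f : V n → V n} {F : V n → Mt n} (hf : LocallyIntegrable f volume)
    (hF : LocallyIntegrable F volume) (h : h48.WD volume f F) (N : Mt n) :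
    h48.WD volume (fun y => N (f y)) fun y => N ∘L F y := by
  intro φ hφ hc v
  have i1 := hf.integrable_smul_left_of_hasCompactSupport (cont_der hφ v) (cs_der hc v)
  have i2 := loc_apply hF hφ.continuous hc (u := fun _ => v) continuous_const
  have k := congrArg N (h φ hφ hc v)
  rw [map_neg, ← N.integral_comp_comm i1, ← N.integral_comp_comm i2] at k
  simpa only [map_smul, ContinuousLinearMap.comp_apply] using k

theorem comp {f : V n → V n} {F : V n → Mt n} (hn : 1 ≤ n) (h : W f F) (N : Mt n) :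
    W (fun y => N (f y)) fun y => N ∘L F y where
  cont := N.continuous.comp h.cont
  meas := (continuous_const.clm_comp continuous_id :
    Continuous fun X : Mt n => N ∘L X).comp_stronglyMeasurable h.meas
  lp := by simpa only [sub_zero] using loc_pow h N 0 le_rfl
  weak := weak_comp h.cont.locallyIntegrable (loc hn h) h.weak N

theorem resc1 (hA : AvA n) {f : V n → V n} {F : V n → Mt n} (h : W f F) (x : V n) {r : ℝ}
    (hr : r ≠ 0) : W (fun y => r⁻¹ • f (x + r • y)) fun y => F (x + r • y) where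
  cont := by
    have := h.cont
    fun_prop
  meas := h.meas.comp_measurable (by fun_prop)
  lp := hA.loc ℝ _ h.lp x r hr
  weak := weak_resc h.weak x hr

theorem ofC1 {w : V n → V n} (hw : ContDiff ℝ 1 w) : W w (fderiv ℝ w) := by
  have c := hw.continuous_fderiv one_ne_zero
  refine ⟨hw.continuous, c.stronglyMeasurable, (c.norm.pow n).locallyIntegrable, ?_⟩
  intro φ hφ hc v
  have k := integral_smul_fderiv_eq_neg_fderiv_smul_of_integrable (μ := volume) (f := φ) (g := w)
    (v := v)
    (hw.continuous.locallyIntegrable.integrable_smul_left_of_hasCompactSupport (cont_der hφ v)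
      (cs_der hc v))
    (loc_apply c.locallyIntegrable hφ.continuous hc (u := fun _ => v) continuous_const)
    (hw.continuous.locallyIntegrable.integrable_smul_left_of_hasCompactSupport hφ.continuous hc)
    (fun y _ => hφ.differentiable (by simp) y) fun y _ => hw.differentiable one_ne_zero y
  rw [k, neg_neg]

theorem subL (hn : 1 ≤ n) {f : V n → V n} {F : V n → Mt n} (h : W f F) (L : Mt n) (c : V n) :
    W (fun y => f y - L y - c) fun y => F y - L := by
  have s : ContDiff ℝ 1 fun y => L y + c := by fun_prop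
  have d : ∀ y, fderiv ℝ (fun y => L y + c) y = L := fun y => (L.hasFDerivAt.add_const c).fderiv
  refine ⟨by have := h.cont; fun_prop, h.meas.sub stronglyMeasurable_const,
    loc_pow h (ContinuousLinearMap.id ℝ _) L le_rfl, ?_⟩
  intro φ hφ hc v
  have k1 := h.weak φ hφ hc v
  have k2 := (ofC1 s).weak φ hφ hc v
  simp only [d] at k2
  have i1 := h.cont.locallyIntegrable.integrable_smul_left_of_hasCompactSupport (μ := volume)
    (cont_der hφ v) (cs_der hc v)
  have i2 := s.continuous.locallyIntegrable.integrable_smul_left_of_hasCompactSupport (μ := volume)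
    (cont_der hφ v) (cs_der hc v)
  have i3 := loc_apply (loc hn h) hφ.continuous hc (u := fun _ => v) continuous_const
  have i4 := loc_apply (locallyIntegrable_const L) hφ.continuous hc (u := fun _ => v)
    continuous_const
  have e1 := integral_sub i1 i2
  have e2 := integral_sub i3 i4
  rw [k1, k2, neg_sub_neg, ← neg_sub, ← e2] at e1
  simpa only [sub_sub, smul_sub, sub_apply] using e1

theorem meas_adj : Measurable (adj : Mt n → Mt n) := by
  classical
  have o : IsOpen {X : Mt n | X.det ≠ 0} :=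
    isOpen_ne_fun ContinuousLinearMap.continuous_det continuous_const
  have e : (adj : Mt n → Mt n) = {X : Mt n | X.det ≠ 0}.piecewise adj fun _ => 0 := by
    ext1 X
    by_cases h : X.det = 0
    · rw [Set.piecewise_eq_of_notMem _ _ _ (by simpa using h), adj, h]
      ext1 v
      rw [smul_apply, zero_smul, zero_apply]
    · rw [Set.piecewise_eq_of_mem _ _ _ h]
  rw [e]
  refine ContinuousOn.measurable_piecewise (fun X hX => ?_) continuousOn_const o.measurableSet
  have k := (contDiffAt_map_inverse (𝕜 := ℝ) (n := 0)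
    (X.toContinuousLinearEquivOfDetNeZero hX)).continuousAt
  rw [ContinuousLinearMap.coe_toContinuousLinearEquivOfDetNeZero] at k
  exact (ContinuousLinearMap.continuous_det.continuousAt.smul k).continuousWithinAt

theorem test_coord {φ : V n → ℝ} {R : ℝ} (h : Test φ R) (i : Fin n) :
    Test (fun y => ⟪ev i, y⟫ * φ y) R :=
  ⟨(contDiff_const.inner ℝ contDiff_id).mul h.1, fun y hy => by simp only [h.2 y hy, mul_zero]⟩

theorem der_coord {φ : V n → ℝ} {R : ℝ} (h : Test φ R) (i : Fin n) (y : V n) :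
    fderiv ℝ (fun y => ⟪ev i, y⟫ * φ y) y (ev i) = ⟪ev i, y⟫ * fderiv ℝ φ y (ev i) + φ y := by
  have d1 : HasFDerivAt (fun y : V n => ⟪ev i, y⟫) (innerSL ℝ (ev i)) y :=
    (innerSL ℝ (ev i)).hasFDerivAt
  have d2 := d1.mul (h.1.differentiable (by simp) y).hasFDerivAt
  have d3 : fderiv ℝ (fun y => ⟪ev i, y⟫ * φ y) y = _ := d2.fderiv
  rw [d3]
  simp only [add_apply, smul_apply, smul_eq_mul, innerSL_apply_apply, inner_ev_self, mul_one]

theorem smul_apply_eq (c : ℝ) (X : Mt n) (y : V n) :
    c • X y = ∑ i, (⟪ev i, y⟫ * c) • X (ev i) := by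
  conv_lhs => rw [← sum_ev y, map_sum, Finset.smul_sum]
  exact Finset.sum_congr rfl fun i _ => by rw [map_smul, smul_smul, mul_comm]

theorem euler (hn : 1 ≤ n) {φ : V n → ℝ} {R : ℝ} (hφ : Test φ R) {g : V n → V n}
    {G : V n → Mt n} (h : W g G) :
    ∫ y, (fderiv ℝ φ y y + n * φ y) • g y = -∫ y, φ y • G y y := by
  have e1 : ∀ y, (fderiv ℝ φ y y + n * φ y) • g y =
      ∑ i, fderiv ℝ (fun y => ⟪ev i, y⟫ * φ y) y (ev i) • g y := fun y => by
    rw [← Finset.sum_smul]
    congr 1
    simp only [der_coord hφ, Finset.sum_add_distrib, Finset.sum_const, Finset.card_univ,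
      Fintype.card_fin, nsmul_eq_mul]
    congr 1
    have := congrArg (fderiv ℝ φ y) (sum_ev y)
    rw [← this, map_sum]
    simp only [map_smul, smul_eq_mul]
  simp only [e1, smul_apply_eq (φ _)]
  rw [integral_finsetSum, integral_finsetSum, ← Finset.sum_neg_distrib]
  · exact Finset.sum_congr rfl fun i _ => h.weak _ (test_coord hφ i).1 (test_coord hφ i).supp _
  · exact fun i _ => loc_apply (loc hn h) (test_coord hφ i).cont (test_coord hφ i).supp
      (u := fun _ => ev i) continuous_const
  · exact fun i _ => h.cont.locallyIntegrable.integrable_smul_left_of_hasCompactSupport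
      ((test_coord hφ i).der _).cont ((test_coord hφ i).der _).supp

theorem diff_av (hA : AvA n) {U : Type} [NormedAddCommGroup U] [NormedSpace ℝ U] [CompleteSpace U]
    {θ : V n → ℝ} {R : ℝ} {g : V n → U} (hθ : Test θ R) (hg : LocallyIntegrable g volume)
    (x : V n) {r : ℝ} (hr : 0 < r) :
    DifferentiableAt ℝ (fun p : V n × ℝ => av θ g p.1 p.2) (x, r) :=
  ((hA.smooth U θ R g hθ hg).contDiffAt
    ((isOpen_lt continuous_const continuous_snd).mem_nhds hr)).differentiableAt (by simp)

theorem av_apply (hA : AvA n) {θ : V n → ℝ} {R : ℝ} (hθ : Test θ R) {F : V n → Mt n}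
    (hF : LocallyIntegrable F volume) (x v : V n) {r : ℝ} (hr : r ≠ 0) :
    av θ F x r v = ∫ y, θ y • F (x + r • y) v :=
  ContinuousLinearMap.integral_apply
    ((hA.loc _ F hF x r hr).integrable_smul_left_of_hasCompactSupport hθ.cont hθ.supp) v

theorem dav (hn : 1 ≤ n) (hA : AvA n) {φ : V n → ℝ} {R : ℝ} (hφ : Test φ R) {f : V n → V n}
    {F : V n → Mt n} (h : W f F) (x : V n) {r : ℝ} (hr : 0 < r) :
    HasFDerivAt (fun p : V n × ℝ => av φ f p.1 p.2)
      (av φ F x r ∘L ContinuousLinearMap.fst ℝ (V n) ℝ +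
        (ContinuousLinearMap.snd ℝ (V n) ℝ).smulRight (Bv φ F x r)) (x, r) := by
  refine (diff_av hA hφ h.cont.locallyIntegrable x hr).hasFDerivAt.congr_fderiv ?_
  refine ContinuousLinearMap.ext fun p => ?_
  obtain ⟨v, s⟩ := p
  have g := resc1 hA h x hr.ne'
  have k1 := g.weak φ hφ.1 hφ.supp v
  have k2 := euler hn hφ g
  have tE : Test (fun y => fderiv ℝ φ y y + n * φ y) R :=
    ⟨(hφ.smooth_fderiv.clm_apply contDiff_id).add (contDiff_const.mul hφ.1), fun y hy => by
      simp only [hφ.fderiv_zero y hy, hφ.2 y hy, zero_apply, mul_zero, add_zero]⟩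
  have i1 := g.cont.locallyIntegrable.integrable_smul_left_of_hasCompactSupport (μ := volume)
    (hφ.der v).cont (hφ.der v).supp
  have i2 := g.cont.locallyIntegrable.integrable_smul_left_of_hasCompactSupport (μ := volume)
    tE.cont tE.supp
  have e := integral_add i1 (i2.smul s)
  simp only [Pi.smul_apply] at e
  rw [integral_smul, k1, k2] at e
  rw [hA.deriv _ φ R f hφ h.cont.locallyIntegrable x v r s hr]
  simp only [add_apply, ContinuousLinearMap.comp_apply, ContinuousLinearMap.coe_fst',
    ContinuousLinearMap.smulRight_apply, ContinuousLinearMap.coe_snd']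
  rw [av_apply hA hφ (loc hn h) x v hr.ne', Bv, neg_eq_iff_eq_neg, neg_add, ← smul_neg, ← e, av,
    ← integral_smul]
  refine integral_congr_ae (Eventually.of_forall fun y => ?_)
  simp only [map_add, map_smul, smul_eq_mul]
  module

theorem Bv_eq (hA : AvA n) {φ : V n → ℝ} {R : ℝ} (hφ : Test φ R) {F : V n → Mt n}
    (hF : LocallyIntegrable F volume) (x : V n) {r : ℝ} (hr : r ≠ 0) :
    Bv φ F x r = ∑ i, av (fun y => ⟪ev i, y⟫ * φ y) F x r (ev i) := by
  simp only [Bv, smul_apply_eq (φ _), av_apply hA (test_coord hφ _) hF x _ hr]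
  exact integral_finsetSum _ fun i _ => loc_apply (hA.loc _ F hF x r hr) (test_coord hφ i).cont
    (test_coord hφ i).supp (u := fun _ => ev i) continuous_const

theorem Bv_cont (hA : AvA n) {φ : V n → ℝ} {R : ℝ} (hφ : Test φ R) {F : V n → Mt n}
    (hF : LocallyIntegrable F volume) :
    ContinuousOn (fun p : V n × ℝ => Bv φ F p.1 p.2) {p | 0 < p.2} := by
  refine ContinuousOn.congr (f := fun p : V n × ℝ =>
    ∑ i, av (fun y => ⟪ev i, y⟫ * φ y) F p.1 p.2 (ev i)) ?_
    fun p hp => Bv_eq hA hφ hF p.1 (ne_of_gt hp)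
  exact continuousOn_finsetSum _ fun i _ =>
    (hA.smooth _ _ R F (test_coord hφ i) hF).continuousOn.clm_apply continuousOn_const

theorem odd {φ ψ : V n → ℝ} (h : Ker φ ψ) : ∫ y, φ y • y = 0 := by
  have k := integral_neg_eq_self (fun y : V n => φ y • y) volume
  simp only [h.even, smul_neg, integral_neg] at k
  have : (2 : ℝ) • ∫ y, φ y • y = 0 := by
    rw [two_smul]
    nth_rewrite 1 [← k]
    exact neg_add_cancel _
  exact (smul_eq_zero.1 this).resolve_left two_ne_zero

theorem int_id {φ : V n → ℝ} {R : ℝ} (h : Test φ R) : Integrable (fun y : V n => φ y • y) volume :=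
  continuous_id.locallyIntegrable.integrable_smul_left_of_hasCompactSupport h.cont h.supp

theorem Bv_le (hA : AvA n) {φ ψ : V n → ℝ} (h : Ker φ ψ) {F : V n → Mt n} (M : Mt n)
    (hF : LocallyIntegrable F volume) (x : V n) {r : ℝ} (hr : 0 < r) :
    ‖Bv φ F x r‖ ≤ ∫ y, φ y * ‖F (x + r • y) - M‖ ∧
      ‖av φ F x r - M‖ ≤ ∫ y, φ y * ‖F (x + r • y) - M‖ := by
  have l := hA.loc _ F hF x r hr.ne'
  have i0 := l.integrable_smul_left_of_hasCompactSupport h.tφ.cont h.tφ.supp
  have i1 : Integrable (fun y => φ y • M) volume := h.tφ.int.smul_const M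
  have e0 : ∀ y, ‖φ y • (F (x + r • y) - M)‖ = φ y * ‖F (x + r • y) - M‖ := fun y => by
    rw [norm_smul, Real.norm_of_nonneg (h.φ0 y)]
  have i2 : Integrable (fun y => φ y * ‖F (x + r • y) - M‖) volume := by
    simpa only [← e0, smul_sub, Pi.sub_apply] using (i0.sub i1).norm
  constructor
  · have j0 := loc_apply l h.tφ.cont h.tφ.supp (u := fun y => y) continuous_id
    have j1 := M.integrable_comp (int_id h.tφ)
    have e := integral_sub j0 j1
    rw [M.integral_comp_comm (int_id h.tφ), odd h, map_zero, sub_zero] at e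
    rw [Bv, ← e]
    refine norm_integral_le_of_norm_le i2 (Eventually.of_forall fun y => ?_)
    rw [map_smul, ← smul_sub, norm_smul, Real.norm_of_nonneg (h.φ0 y), ← sub_apply]
    rcases le_total 1 ‖y‖ with hy | hy
    · rw [h.tφ.2 y hy, zero_mul, zero_mul]
    · refine mul_le_mul_of_nonneg_left (((F (x + r • y) - M).le_opNorm y).trans ?_) (h.φ0 y)
      exact mul_le_of_le_one_right (norm_nonneg _) hy
  · have e := integral_sub i0 i1
    rw [integral_smul_const, h.one, one_smul] at e
    rw [av, ← e]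
    refine norm_integral_le_of_norm_le i2 (Eventually.of_forall fun y => ?_)
    rw [← smul_sub, e0]

theorem dr (hA : AvA n) {U : Type} [NormedAddCommGroup U] [NormedSpace ℝ U] [CompleteSpace U]
    {φ ψ : V n → ℝ} {g : V n → U} (h : Ker φ ψ) (hg : LocallyIntegrable g volume) (x : V n)
    {r : ℝ} (hr : 0 < r) : HasDerivAt (av φ g x) (r⁻¹ • av (lap ψ) g x r) r := by
  have d1 : HasDerivAt (fun s : ℝ => (x, s)) ((0 : V n), (1 : ℝ)) r :=
    (hasDerivAt_const r x).prodMk (hasDerivAt_id r)
  have d2 := (diff_av hA h.tφ hg x hr).hasFDerivAt.comp_hasDerivAt r d1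
  rw [hA.deriv _ φ 1 g h.tφ hg x 0 r 1 hr] at d2
  refine HasDerivAt.congr_deriv d2 ?_
  rw [← smul_neg, av, av, ← integral_neg]
  simp only [h.lapψ, neg_smul, zero_add, one_smul, mul_one]

theorem av_aff {φ ψ : V n → ℝ} (h : Ker φ ψ) {f : V n → V n} (L : Mt n) (c : V n)
    (hf : Continuous f) (x : V n) (r : ℝ) :
    av φ (fun y => f y - L y - c) x r = av φ f x r - L x - c := by
  have c0 : Continuous fun y : V n => f (x + r • y) := by fun_prop
  have i0 := c0.locallyIntegrable.integrable_smul_left_of_hasCompactSupport (μ := volume)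
    h.tφ.cont h.tφ.supp
  have i1 : Integrable (fun y => φ y • (L x + c)) volume := h.tφ.int.smul_const _
  have i2 := (r • L).integrable_comp (int_id h.tφ)
  have e := integral_sub (i0.sub i1) i2
  simp only [Pi.sub_apply] at e
  rw [integral_sub i0 i1, (r • L).integral_comp_comm (int_id h.tφ), odd h, map_zero, sub_zero,
    integral_smul_const, h.one, one_smul] at e
  rw [av, av, sub_sub, ← e]
  refine integral_congr_ae (Eventually.of_forall fun y => ?_)
  simp only [map_add, map_smul, smul_apply]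
  module

end AvBx

theorem avB1 {n : ℕ} (hn : 3 ≤ n) (hA : AvA n) : AvB1 n := by
  have h1 : 1 ≤ n := by omega
  refine ⟨fun U _ f F H C h hH hC => AvBx.locH h hH hC, fun f F h => AvBx.loc h1 h,
    fun f F N M h => ⟨?_, AvBx.loc_pow h N M (by omega), ?_⟩, fun f F N x r h hr => ?_,
    fun f F L c h => AvBx.subL h1 h L c, fun w hw => AvBx.ofC1 hw,
    fun F hF => (AvBx.meas_adj.comp hF.measurable).stronglyMeasurable,
    fun φ ψ f F hK h x r hr => AvBx.dav h1 hA hK.tφ h x hr,
    fun φ ψ f F hK h => AvBx.Bv_cont hA hK.tφ (AvBx.loc h1 h),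
    fun φ ψ F M hK hF x r hr => AvBx.Bv_le hA hK M hF x hr,
    fun U _ _ _ φ ψ g hK hg x r hr => AvBx.dr hA hK hg x hr,
    fun φ ψ f L c hK hf x r => AvBx.av_aff hK L c hf x r⟩
  · exact (AvBx.loc_pow h N M (k := 2) (by omega)).add (AvBx.loc_pow h N M le_rfl)
  · simpa only [pow_one] using AvBx.loc_pow h N M h1
  · simpa only [map_smul] using AvBx.comp h1 (AvBx.resc1 hA h x hr) N

end Pool.Agent.MP_29b5d3_an.NC
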