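import Mathlib.MeasureTheory.Covering.DensityTheorem
import Mathlib.MeasureTheory.Function.L2Space
import Mathlib.RingTheory.PiTensorProduct
import Pool.Agent.MP_29b5d3_an.NC.CacC

-- ======== part 0: formerly Pool.Agent.MP_29b5d3_an.NC.AvA
section MrgPart0

/-! Project NEARCONF: averages, changes of variables, Lebesgue points. -/

set_option autoImplicit false

namespace Pool.Agent.MP_29b5d3_an.NC

open MeasureTheory Metric Filter Topology Module Set
open scoped RealInnerProductSpace ContDiff ENNReal Convolution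

namespace AvAm

variable {n : ℕ} {U : Type} [NormedAddCommGroup U]

/-! ### the affine change of variables -/

/-- the map `y ↦ x + r • y` -/
noncomputable def aff (x : V n) {r : ℝ} (hr : r ≠ 0) : V n ≃ₜ V n :=
  (Homeomorph.smulOfNeZero r hr).trans (Homeomorph.addLeft x)

theorem map_aff (x : V n) {r : ℝ} (hr : r ≠ 0) :
    Measure.map (aff x hr) volume = ENNReal.ofReal |(r ^ n)⁻¹| • (volume : Measure (V n)) := by
  have e : (aff x hr : V n → V n) = (fun z => x + z) ∘ fun y => r • y := rfl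
  rw [e, ← Measure.map_map (by fun_prop) (by fun_prop), Measure.map_addHaar_smul _ hr,
    Measure.map_smul, map_add_left_eq_self, fr]

theorem loc (g : V n → U) (hg : LocallyIntegrable g volume) (x : V n) (r : ℝ) (hr : r ≠ 0) :
    LocallyIntegrable (fun y => g (x + r • y)) volume := by
  refine (locallyIntegrable_map_homeomorph (aff x hr)).1 fun z => ?_
  obtain ⟨s, hs, h⟩ := hg z
  refine ⟨s, hs, ?_⟩
  rw [map_aff, IntegrableOn, Measure.restrict_smul]
  exact h.smul_measure ENNReal.ofReal_ne_top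

theorem ae (P : V n → Prop) (x : V n) (r : ℝ) (hr : r ≠ 0) (h : ∀ᵐ z, P z) :
    ∀ᵐ y, P (x + r • y) := by
  refine ae_of_ae_map (f := aff x hr) (aff x hr).measurable.aemeasurable ?_
  rw [map_aff]
  exact Measure.smul_absolutelyContinuous h

theorem mem_ball_iff {x y : V n} {r R : ℝ} (hr : 0 < r) :
    x + r • y ∈ ball x (r * R) ↔ y ∈ ball (0 : V n) R := by
  rw [mem_ball_iff_norm, add_sub_cancel_left, norm_smul, Real.norm_of_nonneg hr.le,
    mem_ball_zero_iff, mul_lt_mul_iff_right₀ hr]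

theorem lint (g : V n → ℝ≥0∞) (x : V n) (r : ℝ) (hr : 0 < r) :
    ∫⁻ z in ball x r, g z = ENNReal.ofReal (r ^ n) * ∫⁻ y in ball (0 : V n) 1, g (x + r • y) := by
  have h1 := (aff x hr.ne').measurableEmbedding.lintegral_map (μ := volume)
    ((ball x r).indicator g)
  have h2 : ∀ y, (ball x r).indicator g (aff x hr.ne' y) =
      (ball (0 : V n) 1).indicator (fun y => g (x + r • y)) y := fun y => by
    have : x + r • y ∈ ball x r ↔ y ∈ ball (0 : V n) 1 := by
      simpa only [mul_one] using mem_ball_iff (x := x) (y := y) (R := 1) hr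
    change (ball x r).indicator g (x + r • y) = _
    by_cases hy : y ∈ ball (0 : V n) 1
    · rw [indicator_of_mem hy, indicator_of_mem (this.2 hy)]
    · rw [indicator_of_notMem hy, indicator_of_notMem (mt this.1 hy)]
  simp only [h2] at h1
  have h3 : 0 < r ^ n := pow_pos hr n
  rw [map_aff, lintegral_smul_measure, lintegral_indicator measurableSet_ball,
    lintegral_indicator measurableSet_ball] at h1
  rw [← h1, smul_eq_mul, ← mul_assoc, ← ENNReal.ofReal_mul h3.le, abs_of_pos (inv_pos.2 h3),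
    mul_inv_cancel₀ h3.ne', ENNReal.ofReal_one, one_mul]

section Int

variable [NormedSpace ℝ U]

theorem cov (h : V n → U) (x : V n) {r : ℝ} (hr : 0 < r) :
    ∫ y, h (x + r • y) = (r ^ n)⁻¹ • ∫ z, h z := by
  rw [Measure.integral_comp_smul volume (fun z => h (x + z)) r, integral_add_left_eq_self, fr,
    abs_of_pos (inv_pos.2 (pow_pos hr n))]

theorem ball_eq (g : V n → ℝ) (x : V n) (r R : ℝ) (hr : 0 < r) :
    ∫ y in ball (0 : V n) R, g (x + r • y) = (r ^ n)⁻¹ * ∫ z in ball x (r * R), g z := by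
  rw [← integral_indicator measurableSet_ball, ← integral_indicator measurableSet_ball,
    ← smul_eq_mul, ← cov _ x hr]
  refine integral_congr_ae (Eventually.of_forall fun y => ?_)
  beta_reduce
  by_cases hy : y ∈ ball (0 : V n) R
  · rw [indicator_of_mem hy, indicator_of_mem ((mem_ball_iff hr).2 hy)]
  · rw [indicator_of_notMem hy, indicator_of_notMem (mt (mem_ball_iff hr).1 hy)]

theorem Iv_eq (g : V n → ℝ) (x : V n) (r : ℝ) (hr : 0 < r) :
    Iv g x r = (r ^ n)⁻¹ * ∫ z in ball x r, g z := by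
  rw [Iv, ball_eq g x r 1 hr, mul_one]

omit [NormedSpace ℝ U] in
theorem on_ball {g : V n → U} (hg : LocallyIntegrable g volume) (x : V n) (r : ℝ) :
    IntegrableOn g (ball x r) volume :=
  (hg.integrableOn_isCompact (isCompact_closedBall x r)).mono_set ball_subset_closedBall

theorem Iv_mono (g : V n → ℝ) (x x' : V n) (r r' : ℝ) (hg : LocallyIntegrable g volume)
    (h0 : ∀ z, 0 ≤ g z) (hr' : 0 < r') (hr : 0 < r) (hs : ball x' r' ⊆ ball x r) :
    Iv g x' r' ≤ (r / r') ^ n * Iv g x r := by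
  rw [Iv_eq g x' r' hr', Iv_eq g x r hr, ← mul_assoc, div_pow, div_mul_eq_mul_div,
    mul_inv_cancel₀ (pow_pos hr n).ne', one_div]
  exact mul_le_mul_of_nonneg_left (setIntegral_mono_set (on_ball hg x r)
    (Eventually.of_forall h0) hs.eventuallyLE) (by positivity)

theorem av_le (θ : V n → ℝ) (g : V n → U) (C : ℝ) (hθ : Test θ 1) (hC : ∀ y, |θ y| ≤ C)
    (hg : LocallyIntegrable g volume) (x : V n) (r : ℝ) (hr : 0 < r) :
    ‖av θ g x r‖ ≤ C * Iv (fun z => ‖g z‖) x r := by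
  rw [Iv, ← integral_const_mul, ← integral_indicator measurableSet_ball]
  refine norm_integral_le_of_norm_le ((integrable_indicator_iff measurableSet_ball).2
    ((on_ball (loc g hg x r hr.ne') 0 1).norm.const_mul C)) (Eventually.of_forall fun y => ?_)
  by_cases hy : y ∈ ball (0 : V n) 1
  · rw [indicator_of_mem hy, norm_smul]
    exact mul_le_mul_of_nonneg_right (hC y) (norm_nonneg _)
  · rw [indicator_of_notMem hy, hθ.2 y (by simpa using hy), zero_smul, norm_zero]

theorem av_sub [CompleteSpace U] {φ : V n → ℝ} {g : V n → U} (hφ : Test φ 1)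
    (h1 : ∫ y, φ y = 1) (hg : LocallyIntegrable g volume) (c : U) (x : V n) {r : ℝ}
    (hr : 0 < r) : av φ g x r - c = av φ (fun z => g z - c) x r := by
  simp only [av, smul_sub]
  rw [integral_sub ((loc g hg x r hr.ne').integrable_smul_left_of_hasCompactSupport hφ.cont
    hφ.supp) (hφ.int.smul_const c), integral_smul_const, h1, one_smul]

end Int

theorem unif (φ : V n → ℝ) (f : V n → V n) (hφ : Test φ 1) (h0 : ∀ y, 0 ≤ φ y)
    (h1 : ∫ y, φ y = 1) (hf : Continuous f) (R δ : ℝ) (hδ : 0 < δ) :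
    ∃ r₀, 0 < r₀ ∧ ∀ x, ‖x‖ ≤ R → ∀ r, 0 < r → r ≤ r₀ → ‖av φ f x r - f x‖ ≤ δ := by
  obtain ⟨η, hη, h⟩ := uniformContinuousOn_iff_le.1
    ((isCompact_closedBall (0 : V n) (R + 1)).uniformContinuousOn_of_continuous hf.continuousOn)
    δ hδ
  refine ⟨min η 1, by positivity, fun x hx r hr hr0 => ?_⟩
  rw [av_sub hφ h1 hf.locallyIntegrable _ x hr]
  refine (norm_integral_le_of_norm_le (hφ.int.mul_const δ)
    (Eventually.of_forall fun y => ?_)).trans (by rw [integral_mul_const, h1, one_mul])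
  rw [norm_smul, Real.norm_of_nonneg (h0 y)]
  rcases le_or_gt 1 ‖y‖ with hy | hy
  · rw [hφ.2 y hy, zero_mul, zero_mul]
  have h2 : ‖r • y‖ ≤ r := by
    rw [norm_smul, Real.norm_of_nonneg hr.le]
    exact mul_le_of_le_one_right hr.le hy.le
  refine mul_le_mul_of_nonneg_left ?_ (h0 y)
  rw [← dist_eq_norm]
  refine h _ ?_ _ ?_ ?_
  · rw [mem_closedBall_zero_iff]
    exact (norm_add_le _ _).trans (add_le_add hx (h2.trans (hr0.trans (min_le_right _ _))))
  · rw [mem_closedBall_zero_iff]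
    linarith
  · rw [dist_eq_norm, add_sub_cancel_left]
    exact h2.trans (hr0.trans (min_le_left _ _))

theorem leb (φ : V n → ℝ) (g : V n → Mt n) (hφ : Test φ 1) (h1 : ∫ y, φ y = 1)
    (hg : LocallyIntegrable g volume) : ∀ᵐ x, Tendsto (av φ g x) (𝓝[>] 0) (𝓝 (g x)) := by
  obtain ⟨C, hC0, hC⟩ := hφ.bdd
  filter_upwards [IsUnifLocDoublingMeasure.ae_tendsto_average_norm_sub volume hg 1] with x hx
  have h2 := (hx (l := 𝓝[>] (0 : ℝ)) (fun _ => x) id tendsto_id (by
    filter_upwards [self_mem_nhdsWithin] with r hr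
    exact mem_closedBall_self (by simpa using le_of_lt hr))).const_mul
      (C * (volume : Measure (V n)).real (ball 0 1))
  rw [mul_zero] at h2
  rw [tendsto_iff_norm_sub_tendsto_zero]
  refine squeeze_zero' (Eventually.of_forall fun _ => norm_nonneg _) ?_ h2
  filter_upwards [self_mem_nhdsWithin] with r hr
  have hr : 0 < r := hr
  have hl : LocallyIntegrable (fun z => g z - g x) volume := hg.sub (locallyIntegrable_const _)
  have hb : 0 < (volume : Measure (V n)).real (ball 0 1) :=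
    ENNReal.toReal_pos (measure_ball_pos _ _ one_pos).ne' measure_ball_lt_top.ne
  rw [av_sub hφ h1 hg _ x hr]
  refine (av_le φ _ C hφ hC hl x r hr).trans ?_
  have e : ∀ b I : ℝ, 0 < b → C * b * ((r ^ n * b)⁻¹ * I) = C * ((r ^ n)⁻¹ * I) := by
    intro b I h
    field_simp
  rw [Iv_eq _ x r hr, setAverage_eq, id, Measure.addHaar_real_closedBall _ _ hr.le, fr,
    smul_eq_mul, e _ _ hb]
  refine mul_le_mul_of_nonneg_left (mul_le_mul_of_nonneg_left (setIntegral_mono_set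
    (hl.integrableOn_isCompact (isCompact_closedBall x r)).norm
    (Eventually.of_forall fun _ => norm_nonneg _) ball_subset_closedBall.eventuallyLE)
    (by positivity)) hC0.le

/-! ### the shear -/

/-- the map `(x, y) ↦ (x + ρ • y, y)` -/
noncomputable def shear (n : ℕ) (ρ : ℝ) : V n × V n ≃ₜ V n × V n where
  toFun p := (p.1 + ρ • p.2, p.2)
  invFun p := (p.1 - ρ • p.2, p.2)
  left_inv p := by simp
  right_inv p := by simp
  continuous_toFun := by fun_prop
  continuous_invFun := by fun_prop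

theorem shear_mp (ρ : ℝ) : MeasurePreserving (shear n ρ)
    ((volume : Measure (V n)).prod volume) ((volume : Measure (V n)).prod volume) := by
  have h := (MeasurePreserving.id (volume : Measure (V n))).skew_product
    (μc := (volume : Measure (V n))) (μd := volume) (g := fun y x => x + ρ • y) (by fun_prop)
    (Eventually.of_forall fun y => map_add_right_eq_self volume _)
  exact (Measure.measurePreserving_swap.comp h).comp Measure.measurePreserving_swap

theorem prod (g : V n → ℝ) (hg : LocallyIntegrable g volume) (ρ a b : ℝ) :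
    IntegrableOn (fun p : V n × V n => g (p.1 + ρ • p.2)) (ball 0 a ×ˢ ball 0 b)
      ((volume : Measure (V n)).prod volume) := by
  have h1 : IntegrableOn (fun p : V n × V n => g p.1) (ball 0 (a + |ρ| * b) ×ˢ ball 0 b)
      ((volume : Measure (V n)).prod volume) := by
    have : IsFiniteMeasure ((volume : Measure (V n)).restrict (ball 0 b)) :=
      isFiniteMeasure_restrict.2 measure_ball_lt_top.ne
    rw [IntegrableOn, ← Measure.prod_restrict]
    exact Integrable.comp_fst (on_ball hg 0 _) _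
  refine (((shear_mp ρ).integrableOn_comp_preimage (shear n ρ).measurableEmbedding).2 h1).mono_set
    fun p hp => ⟨?_, hp.2⟩
  have h2 := mem_ball_zero_iff.1 hp.1
  have h3 := mem_ball_zero_iff.1 hp.2
  refine mem_ball_zero_iff.2 ((norm_add_le p.1 (ρ • p.2)).trans_lt ?_)
  rw [norm_smul, Real.norm_eq_abs]
  exact add_lt_add_of_lt_of_le h2 (mul_le_mul_of_nonneg_left h3.le (abs_nonneg _))

theorem prod_loc (g : V n → ℝ) (hg : LocallyIntegrable g volume) (ρ : ℝ) :
    LocallyIntegrable (fun p : V n × V n => g (p.1 + ρ • p.2))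
      ((volume : Measure (V n)).prod volume) := fun p =>
  ⟨_, (isOpen_ball.prod isOpen_ball).mem_nhds
    ⟨mem_ball_zero_iff.2 (lt_add_one _), mem_ball_zero_iff.2 (lt_add_one _)⟩,
    prod g hg ρ (‖p.1‖ + 1) (‖p.2‖ + 1)⟩

theorem prod_le (g : V n → ℝ) (hg : LocallyIntegrable g volume) (h0 : ∀ z, 0 ≤ g z) (ρ a : ℝ)
    (hρ : 0 ≤ ρ) : ∫ x in ball (0 : V n) a, ∫ y in ball (0 : V n) 1, g (x + ρ • y) ≤
      (volume : Measure (V n)).real (ball 0 1) * ∫ z in ball (0 : V n) (a + ρ), g z := by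
  have h1 := prod g hg ρ a 1
  rw [IntegrableOn, ← Measure.prod_restrict] at h1
  rw [integral_integral_swap h1, ← smul_eq_mul, ← setIntegral_const]
  refine setIntegral_mono_on h1.integral_prod_right (integrableOn_const measure_ball_lt_top.ne)
    measurableSet_ball fun y hy => ?_
  have h2 := ball_eq g (ρ • y) 1 a one_pos
  simp only [one_smul, one_pow, inv_one, one_mul, add_comm (ρ • y)] at h2
  rw [h2]
  refine setIntegral_mono_set (on_ball hg _ _) (Eventually.of_forall h0)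
    (ball_subset_ball' ?_).eventuallyLE
  rw [dist_zero_right, norm_smul, Real.norm_of_nonneg hρ]
  exact add_le_add_right (mul_le_of_le_one_right hρ (mem_ball_zero_iff.1 hy).le) a

theorem swap (g : V n → ℝ) (k : V n × V n → ℝ) (hg : LocallyIntegrable g volume)
    (hk : Continuous k) (hs : HasCompactSupport k) (ρ : ℝ) :
    ∫ x, ∫ y, k (x, y) * g (x + ρ • y) = ∫ z, g z * ∫ y, k (z - ρ • y, y) := by
  have h1 := (prod_loc g hg ρ).integrable_smul_left_of_hasCompactSupport hk hs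
  have h2 := (prod_loc g hg 0).integrable_smul_left_of_hasCompactSupport
    (hk.comp (shear n ρ).symm.continuous) (hs.comp_homeomorph (shear n ρ).symm)
  have h3 := (shear_mp (n := n) ρ).integral_comp (shear n ρ).measurableEmbedding
    fun q => (k ∘ (shear n ρ).symm) q • g (q.1 + (0 : ℝ) • q.2)
  rw [integral_prod _ h2] at h3
  simp only [Function.comp, Homeomorph.symm_apply_apply, zero_smul, add_zero] at h3
  refine ((integral_prod _ h1).symm.trans h3).trans ?_
  refine integral_congr_ae (Eventually.of_forall fun z => ?_)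
  simp only [smul_eq_mul]
  rw [integral_mul_const, mul_comm]
  rfl

theorem mass (θ g : V n → ℝ) (hθ : Integrable θ volume) (hg : Integrable g volume) :
    Integrable (fun x => av θ g x 1) volume ∧ ∫ x, av θ g x 1 = (∫ y, θ y) * ∫ z, g z := by
  have h1 := ((shear_mp (n := n) 1).integrable_comp_emb (shear n 1).measurableEmbedding).2
    (hg.mul_prod hθ)
  have h2 := (shear_mp (n := n) 1).integral_comp (shear n 1).measurableEmbedding
    fun q => g q.1 * θ q.2
  have e : (fun x => av θ g x 1) =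
      fun x => ∫ y, ((fun q : V n × V n => g q.1 * θ q.2) ∘ shear n 1) (x, y) := by
    funext x
    refine integral_congr_ae (Eventually.of_forall fun y => ?_)
    exact mul_comm _ _
  rw [e]
  refine ⟨h1.integral_prod_left, ?_⟩
  rw [← integral_prod _ h1, mul_comm, ← integral_prod_mul]
  exact h2

/-! ### averages as convolutions -/

/-- the kernel at the scale `r` -/
noncomputable def ker (θ : V n → ℝ) (r : ℝ) (w : V n) : ℝ := (r ^ n)⁻¹ * θ (-(r⁻¹ • w))

variable [NormedSpace ℝ U]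

theorem av_eq (θ : V n → ℝ) (g : V n → U) (x : V n) {r : ℝ} (hr : 0 < r) :
    av θ g x r = (g ⋆[(ContinuousLinearMap.lsmul ℝ ℝ).flip, volume] ker θ r) x := by
  have h := cov (fun z => θ (-(r⁻¹ • (x - z))) • g z) x hr
  simp only [sub_add_cancel_left, smul_neg, neg_neg, inv_smul_smul₀ hr.ne'] at h
  rw [av, h, convolution_def, ← integral_smul]
  simp only [ContinuousLinearMap.flip_apply, ContinuousLinearMap.lsmul_apply, ker, mul_smul]

theorem le_norm {R r b : ℝ} {w : V n} (hr : 0 < r) (hb : r < b) (hw : w ∉ closedBall 0 (b * |R|)) :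
    R ≤ ‖-(r⁻¹ • w)‖ := by
  rw [mem_closedBall_zero_iff, not_le] at hw
  rw [norm_neg, norm_smul, Real.norm_of_nonneg (inv_pos.2 hr).le, ← div_eq_inv_mul,
    le_div_iff₀ hr]
  calc R * r ≤ |R| * b := mul_le_mul (le_abs_self R) hb.le hr.le (abs_nonneg R)
    _ ≤ ‖w‖ := by rw [mul_comm]; exact hw.le

theorem ker_smooth {θ : V n → ℝ} {R : ℝ} (hθ : Test θ R) :
    ContDiffOn ℝ ∞ (fun q : ℝ × V n => ker θ q.1 q.2) {q | 0 < q.1} := by
  intro q hq
  have hq : q.1 ≠ 0 := ne_of_gt hq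
  refine ContDiffAt.contDiffWithinAt (ContDiffAt.mul ?_ (hθ.1.contDiffAt.comp q ?_))
  · exact (contDiffAt_fst.pow n).inv (pow_ne_zero n hq)
  · exact ((contDiffAt_fst.inv hq).smul contDiffAt_snd).neg

theorem smooth [CompleteSpace U] (θ : V n → ℝ) (R : ℝ) (g : V n → U) (hθ : Test θ R)
    (hg : LocallyIntegrable g volume) :
    ContDiffOn ℝ ∞ (fun p : V n × ℝ => av θ g p.1 p.2) {p | 0 < p.2} := by
  refine contDiffOn_of_locally_contDiffOn fun p hp => ⟨{q | q.2 < p.2 + 1},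
    isOpen_lt continuous_snd continuous_const, lt_add_one p.2, ?_⟩
  refine (contDiffOn_convolution_right_with_param_comp (n := ⊤)
    (ContinuousLinearMap.lsmul ℝ ℝ).flip (v := Prod.fst) contDiffOn_fst
    (g := fun q : V n × ℝ => ker θ q.2)
    ((isOpen_lt continuous_const continuous_snd).inter (isOpen_lt continuous_snd continuous_const))
    (isCompact_closedBall 0 ((p.2 + 1) * |R|)) (fun q w hq hw => ?_) hg ?_).congr
    fun q hq => av_eq θ g q.1 hq.1
  · rw [ker, hθ.2 _ (le_norm hq.1 hq.2 hw), mul_zero]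
  · exact (ker_smooth hθ).comp (f := fun z : (V n × ℝ) × V n => (z.1.2, z.2)) (by fun_prop)
      fun z hz => hz.1.1

theorem ker_fderiv {θ : V n → ℝ} {R : ℝ} (hθ : Test θ R) {r : ℝ} (hr : 0 < r) (w v : V n)
    (s : ℝ) : fderiv ℝ (fun q : ℝ × V n => ker θ q.1 q.2) (r, w) (s, v) =
      -(r⁻¹ * ker (fun y => fderiv ℝ θ y (v + s • y) + n * s * θ y) r w) := by
  have h1 : HasFDerivAt (fun q : ℝ × V n => q.1⁻¹)
      ((-(r ^ 2)⁻¹) • ContinuousLinearMap.fst ℝ ℝ (V n)) (r, w) :=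
    HasDerivAt.comp_hasFDerivAt (h₂ := fun y : ℝ => y⁻¹) (f := Prod.fst) (r, w)
      (hasDerivAt_inv hr.ne') hasFDerivAt_fst
  have h2 : HasFDerivAt (fun q : ℝ × V n => -(q.1⁻¹ • q.2)) _ (r, w) :=
    (h1.smul hasFDerivAt_snd).neg
  have h3 := (hθ.c1.differentiable one_ne_zero _).hasFDerivAt.comp (r, w) h2
  have h4 := (h1.pow n).mul h3
  have e : (fun q : ℝ × V n => ker θ q.1 q.2) =
      (fun q : ℝ × V n => q.1⁻¹ ^ n) * (θ ∘ fun q : ℝ × V n => -(q.1⁻¹ • q.2)) := by
    funext q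
    simp only [ker, inv_pow, Pi.mul_apply, Function.comp]
  rw [e, h4.fderiv]
  have e2 : r⁻¹ • v + (-r⁻¹ ^ 2 * s) • w = r⁻¹ • (v + s • -(r⁻¹ • w)) := by module
  have e3 : (n : ℝ) * r⁻¹ ^ (n - 1) * r⁻¹ = n * r⁻¹ ^ n := by
    cases n with
    | zero => simp
    | succ m => rw [Nat.add_sub_cancel, pow_succ, mul_assoc]
  simp only [add_apply, smul_apply, ContinuousLinearMap.comp_apply, neg_apply,
    ContinuousLinearMap.smulRight_apply, ContinuousLinearMap.coe_fst',
    ContinuousLinearMap.coe_snd', smul_eq_mul, Function.comp, map_neg, ker,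
    nsmul_eq_mul, ← inv_pow]
  rw [e2, map_smul, smul_eq_mul]
  linear_combination (-(θ (-(r⁻¹ • w)) * r⁻¹ * s)) * e3

theorem deriv [CompleteSpace U] (θ : V n → ℝ) (R : ℝ) (g : V n → U) (hθ : Test θ R)
    (hg : LocallyIntegrable g volume) (x v : V n) (r s : ℝ) (hr : 0 < r) :
    fderiv ℝ (fun p : V n × ℝ => av θ g p.1 p.2) (x, r) (v, s) =
      -(r⁻¹ • av (fun y => fderiv ℝ θ y (v + s • y) + n * s * θ y) g x r) := by
  have ho : IsOpen {q : ℝ × V n | 0 < q.1} := isOpen_lt continuous_const continuous_fst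
  have h1 := hasFDerivAt_convolution_right_with_param (ContinuousLinearMap.lsmul ℝ ℝ).flip
    (g := ker θ) (s := Ioo 0 (r + 1)) isOpen_Ioo (isCompact_closedBall 0 ((r + 1) * |R|))
    (fun q w hq hw => by rw [ker, hθ.2 _ (le_norm hq.1 hq.2 hw), mul_zero]) hg
    (((ker_smooth hθ).of_le (by simp)).mono fun q hq => hq.1.1) (r, x) ⟨hr, lt_add_one r⟩
  have h2 := h1.comp (x, r) (ContinuousLinearEquiv.prodComm ℝ (V n) ℝ).hasFDerivAt
  have h3 : (fun p : V n × ℝ => av θ g p.1 p.2) =ᶠ[𝓝 (x, r)] (fun q : ℝ × V n =>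
      (g ⋆[(ContinuousLinearMap.lsmul ℝ ℝ).flip, volume] ker θ q.1) q.2) ∘
      ContinuousLinearEquiv.prodComm ℝ (V n) ℝ := by
    filter_upwards [(isOpen_lt continuous_const continuous_snd).mem_nhds (show 0 < (x, r).2 from hr)]
      with p hp
    exact av_eq θ g p.1 hp
  rw [(h2.congr_of_eventuallyEq h3).fderiv]
  have hc : Continuous fun w : V n => fderiv ℝ (fun q : ℝ × V n => ker θ q.1 q.2) (r, w) :=
    ((ker_smooth hθ).continuousOn_fderiv_of_isOpen ho (by simp)).comp_continuous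
      (by fun_prop) fun _ => hr
  have hs : HasCompactSupport fun w : V n =>
      fderiv ℝ (fun q : ℝ × V n => ker θ q.1 q.2) (r, w) :=
    HasCompactSupport.intro (isCompact_closedBall 0 ((r + 1) * |R|)) fun w hw => by
      refine ContinuousLinearMap.ext fun q => ?_
      have h4 := le_norm hr (lt_add_one r) hw
      rw [show q = (q.1, q.2) from rfl, ker_fderiv hθ hr, ker, hθ.2 _ h4, hθ.fderiv_zero _ h4]
      simp
  refine (convolution_precompR_apply _ hg hs hc x (s, v)).trans ?_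
  rw [av_eq _ g x hr, convolution_def, convolution_def, ← integral_smul, ← integral_neg]
  refine integral_congr_ae (Eventually.of_forall fun z => ?_)
  simp only [ContinuousLinearMap.flip_apply, ContinuousLinearMap.lsmul_apply, ker_fderiv hθ hr,
    neg_smul, mul_smul]

end AvAm

theorem avA {n : ℕ} (_hn : 3 ≤ n) : AvA n where
  smooth _ _ _ _ := AvAm.smooth
  deriv _ _ _ _ := AvAm.deriv
  loc _ _ := AvAm.loc
  ae := AvAm.ae
  Iv_eq := AvAm.Iv_eq
  ball_eq := AvAm.ball_eq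
  Iv_mono := AvAm.Iv_mono
  av_le _ _ _ := AvAm.av_le
  lint := AvAm.lint
  unif := AvAm.unif
  leb := AvAm.leb
  prod := AvAm.prod
  prod_le := AvAm.prod_le
  swap := AvAm.swap
  mass := AvAm.mass

end Pool.Agent.MP_29b5d3_an.NC

end MrgPart0

-- ======== part 1: formerly Pool.Agent.MP_29b5d3_an.NC.Lin
section MrgPart1

/-! Project NEARCONF: exponential estimates for the linear problem. -/

set_option autoImplicit false

namespace Pool.Agent.MP_29b5d3_an.NC

open MeasureTheory Metric Filter Topology Module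
open scoped RealInnerProductSpace ContDiff ENNReal

namespace LinAux

variable {n : ℕ}

theorem int_of {U : Type} [NormedAddCommGroup U] {g : V n → U} {R : ℝ} (hc : Continuous g)
    (h : ∀ y, R ≤ ‖y‖ → g y = 0) : Integrable g volume :=
  hc.integrable_of_hasCompactSupport (supp_of h)

/-- a measurable set of finite measure inside the ball of radius three -/
structure Nice (E : Set (V n)) : Prop where
  meas : MeasurableSet E
  fin : volume E ≠ ⊤
  sub : E ⊆ ball 0 3

/-- the indicator -/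
noncomputable def chi (E : Set (V n)) : V n → ℝ := E.indicator fun _ => 1

/-- correlation with the indicator -/
noncomputable def cv (E : Set (V n)) (θ : V n → ℝ) (x : V n) : ℝ := av θ (chi E) x 1

variable {E : Set (V n)}

theorem chi_mem (y : V n) : 0 ≤ chi E y ∧ chi E y ≤ 1 := by
  unfold chi
  by_cases h : y ∈ E <;> simp [h]

theorem Nice.int (h : Nice E) : Integrable (chi E) volume :=
  (integrable_indicator_iff h.meas).2 (integrableOn_const h.fin)

theorem Nice.integral (h : Nice E) : ∫ y, chi E y = volume.real E := by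
  rw [chi, integral_indicator h.meas]
  simp

theorem cv_eq (θ : V n → ℝ) (x : V n) : cv E θ x = ∫ y, θ y * chi E (x + y) := by
  simp only [cv, av, one_smul, smul_eq_mul]

theorem Nice.mul (h : Nice E) {θ : V n → ℝ} (hθ : Integrable θ volume) (x : V n) :
    Integrable (fun y => θ y * chi E (x + y)) volume :=
  hθ.mul_bdd (c := 1) (h.int.comp_add_left x).aestronglyMeasurable
    (Eventually.of_forall fun y => by
      rw [Real.norm_of_nonneg (chi_mem _).1]; exact (chi_mem _).2)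

theorem cv_nonneg {θ : V n → ℝ} (hθ : ∀ y, 0 ≤ θ y) (x : V n) : 0 ≤ cv E θ x := by
  rw [cv_eq]
  exact integral_nonneg fun y => mul_nonneg (hθ y) (chi_mem _).1

theorem cv_ne {θ : V n → ℝ} {x : V n} (h : cv E θ x ≠ 0) : ∃ y, θ y ≠ 0 ∧ x + y ∈ E := by
  by_contra hn
  push Not at hn
  refine h ?_
  rw [cv_eq]
  refine integral_eq_zero_of_ae (Eventually.of_forall fun y => ?_)
  by_cases hy : θ y = 0
  · simp [hy]
  · simp [chi, hn y hy]

theorem Nice.cv_le (h : Nice E) {θ : V n → ℝ} (hθ : Integrable θ volume) (h0 : ∀ y, 0 ≤ θ y)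
    (x : V n) : cv E θ x ≤ ∫ y, θ y := by
  rw [cv_eq]
  exact integral_mono (h.mul hθ x) hθ fun y => mul_le_of_le_one_right (h0 y) (chi_mem _).2

theorem Nice.cv_le' (h : Nice E) {θ : V n → ℝ} (hθ : Integrable θ volume) {K : ℝ}
    (hK : ∀ y, θ y ≤ K) (x : V n) : cv E θ x ≤ K * volume.real E := by
  rw [cv_eq, ← h.integral, ← integral_add_left_eq_self (chi E) x, ← integral_const_mul]
  exact integral_mono (h.mul hθ x) ((h.int.comp_add_left x).const_mul K) fun y =>
    mul_le_mul_of_nonneg_right (hK y) (chi_mem _).1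

theorem Nice.mass (h : Nice E) (hA : AvA n) {θ : V n → ℝ} (hθ : Integrable θ volume) :
    Integrable (cv E θ) volume ∧ ∫ x, cv E θ x = (∫ y, θ y) * volume.real E := by
  rw [← h.integral]
  exact hA.mass θ _ hθ h.int

theorem Nice.diff (h : Nice E) (hA : AvA n) {θ : V n → ℝ} (hθ : Test θ 1) (x : V n) :
    ContDiffAt ℝ ∞ (fun p : V n × ℝ => av θ (chi E) p.1 p.2) (x, 1) :=
  (hA.smooth ℝ θ 1 _ hθ h.int.locallyIntegrable).contDiffAt
    ((isOpen_lt continuous_const continuous_snd).mem_nhds (by simp))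

theorem Nice.test (h : Nice E) (hA : AvA n) {θ : V n → ℝ} (hθ : Test θ 1) : Test (cv E θ) 4 := by
  refine ⟨contDiff_iff_contDiffAt.2 fun x => ?_, fun x hx => ?_⟩
  · have := ContDiffAt.comp (g := fun p : V n × ℝ => av θ (chi E) p.1 p.2)
      (f := fun x : V n => (x, (1 : ℝ))) x (h.diff hA hθ x)
      (contDiffAt_id.prodMk contDiffAt_const)
    exact this
  by_contra hn
  obtain ⟨y, hy, hxy⟩ := cv_ne hn
  have h1 : ‖y‖ < 1 := not_le.1 fun h1 => hy (hθ.2 y h1)
  have h2 : ‖x + y‖ < 3 := by simpa using h.sub hxy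
  have h3 := norm_sub_le (x + y) y
  rw [add_sub_cancel_right] at h3
  linarith

theorem Nice.fderiv_cv (h : Nice E) (hA : AvA n) {θ : V n → ℝ} (hθ : Test θ 1) (x u : V n) :
    fderiv ℝ (cv E θ) x u = -cv E (fun y => fderiv ℝ θ y u) x := by
  have d1 := ((h.diff hA hθ x).differentiableAt (by simp)).hasFDerivAt
  have d2 : HasFDerivAt (fun x : V n => (x, (1 : ℝ))) (ContinuousLinearMap.inl ℝ (V n) ℝ) x :=
    hasFDerivAt_prodMk_left x 1
  have d4 := HasFDerivAt.comp (f := fun x : V n => (x, (1 : ℝ))) x d1 d2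
  have d3 : HasFDerivAt (cv E θ) _ x := d4
  rw [d3.fderiv, ContinuousLinearMap.comp_apply, ContinuousLinearMap.inl_apply,
    hA.deriv ℝ θ 1 _ hθ h.int.locallyIntegrable x u 1 0 one_pos]
  simp [cv]

theorem Nice.lap_cv (h : Nice E) (hA : AvA n) {θ : V n → ℝ} (hθ : Test θ 1) (x : V n) :
    lap (cv E θ) x = cv E (lap θ) x := by
  rw [(h.test hA hθ).lap_eq, cv_eq]
  simp only [hθ.lap_eq, Finset.sum_mul]
  rw [integral_finsetSum _ fun i _ => h.mul ((hθ.der _).der _).int x]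
  refine Finset.sum_congr rfl fun i _ => ?_
  have e : (fun y => fderiv ℝ (cv E θ) y (ev i)) = -cv E fun y => fderiv ℝ θ y (ev i) :=
    funext fun y => h.fderiv_cv hA hθ y _
  rw [e, fderiv_neg, neg_apply, h.fderiv_cv hA (hθ.der _), neg_neg, cv_eq]

theorem int_fderiv {θ : V n → ℝ} {R : ℝ} (hθ : Test θ R) :
    Integrable (fun y => ‖fderiv ℝ θ y‖) volume :=
  (int_of hθ.smooth_fderiv.continuous hθ.fderiv_zero).norm

theorem Nice.norm_fderiv (h : Nice E) (hA : AvA n) {θ : V n → ℝ} (hθ : Test θ 1) :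
    ∫ x, ‖fderiv ℝ (cv E θ) x‖ ≤ (∫ y, ‖fderiv ℝ θ y‖) * volume.real E := by
  rw [← (h.mass hA (int_fderiv hθ)).2]
  refine integral_mono (int_fderiv (h.test hA hθ)) (h.mass hA (int_fderiv hθ)).1 fun x => ?_
  refine ContinuousLinearMap.opNorm_le_bound _ (cv_nonneg (fun y => norm_nonneg _) x) fun u => ?_
  rw [h.fderiv_cv hA hθ, norm_neg, cv_eq, cv_eq, ← integral_mul_const]
  refine norm_integral_le_of_norm_le ((h.mul (int_fderiv hθ) x).mul_const _)
    (Eventually.of_forall fun y => ?_)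
  rw [norm_mul, Real.norm_of_nonneg (chi_mem _).1, mul_right_comm]
  exact mul_le_mul_of_nonneg_right ((fderiv ℝ θ y).le_opNorm u) (chi_mem _).1

theorem exp_bound {A C K m B : ℝ} (hK : 0 < K) (hm : 0 < m) (hB : m ≤ B)
    (h : A ≤ max (Real.log (K * m)⁻¹) 0 + C) :
    m ≤ Real.exp C * (K⁻¹ + B) * Real.exp (-A) := by
  have h1 : m * Real.exp (max (Real.log (K * m)⁻¹) 0) ≤ K⁻¹ + B := by
    have := inv_pos.2 hK
    rcases le_total (Real.log (K * m)⁻¹) 0 with h2 | h2
    · rw [max_eq_right h2, Real.exp_zero]; linarith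
    · rw [max_eq_left h2, Real.exp_log (by positivity)]
      have : m * (K * m)⁻¹ = K⁻¹ := by field_simp
      linarith
  have h2 := Real.exp_le_exp.2 h
  rw [Real.exp_add] at h2
  rw [Real.exp_neg, ← div_eq_mul_inv, le_div_iff₀ (Real.exp_pos A)]
  calc m * Real.exp A ≤ m * (Real.exp (max (Real.log (K * m)⁻¹) 0) * Real.exp C) := by gcongr
    _ = Real.exp C * (m * Real.exp (max (Real.log (K * m)⁻¹) 0)) := by ring
    _ ≤ _ := by gcongr

/-- The general estimate by duality. -/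
theorem general (hn : 3 ≤ n) (hK : KerS n) (hA : AvA n) (hP : Abp n) {κ : ℝ} (h0 : 0 < κ)
    (h1 : κ ≤ 1) : ∃ C : ℝ, 0 < C ∧ ∀ (t : V n → ℝ) (a b c₁ c₂ : ℝ), Continuous t → 0 ≤ b →
      0 < c₁ → 0 ≤ c₂ →
      (∀ v, Test v 4 → ∫ x, t x * lap v x ≤ c₁ * (∫ x, -lmin (hess v x)) + c₂ * ∫ x, |lap v x|) →
      (∀ H, Test H 4 → |∫ x, t x * H x| ≤ b * ∫ x, ‖fderiv ℝ H x‖) →
      volume {x ∈ ball (0 : V n) 3 | a < t x} ≤ ENNReal.ofReal
        (C * Real.exp (-((a - C * b - 2 * c₂) * (n - 2 * κ) / (c₁ * (n - 1))))) := by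
  obtain ⟨k, kt, k0, k1, hk⟩ := hK.pot
  obtain ⟨K, K0, hKb⟩ := kt.bdd
  have n3 : (3 : ℝ) ≤ n := by exact_mod_cast hn
  obtain ⟨C₁, hC₁⟩ : ∃ C₁, C₁ = ∫ y, ‖fderiv ℝ k y‖ := ⟨_, rfl⟩
  obtain ⟨C₂, hC₂⟩ : ∃ C₂, C₂ = K * (volume : Measure (V n)).real (ball 0 4) * (1 / κ + n) :=
    ⟨_, rfl⟩
  obtain ⟨C₃, hC₃⟩ : ∃ C₃, C₃ = Real.exp C₂ * (K⁻¹ + (volume : Measure (V n)).real (ball 0 3)) :=
    ⟨_, rfl⟩
  have p1 : 0 ≤ C₁ := hC₁ ▸ integral_nonneg fun y => norm_nonneg _
  have p3 : 0 < C₃ := by rw [hC₃]; positivity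
  refine ⟨C₁ + C₃, by positivity, fun t a b c₁ c₂ ht hb hc₁ hc₂ hv hH => ?_⟩
  have hU : IsOpen {x ∈ ball (0 : V n) 3 | a < t x} :=
    isOpen_ball.inter (isOpen_lt continuous_const ht)
  rw [hU.measure_eq_iSup_isCompact]
  refine iSup_le fun E => iSup_le fun hEU => iSup_le fun hEc => ?_
  have hE : Nice E := ⟨hEc.measurableSet, hEc.measure_lt_top.ne, fun x hx => (hEU hx).1⟩
  rw [← ofReal_measureReal hE.fin]
  refine ENNReal.ofReal_le_ofReal ?_
  obtain ⟨m, hm⟩ : ∃ m, m = volume.real E := ⟨_, rfl⟩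
  rw [← hm]
  rcases (hm ▸ measureReal_nonneg : 0 ≤ m).eq_or_lt with m0 | m0
  · rw [← m0]; positivity
  obtain ⟨δ, δ0, hδ⟩ := hEc.exists_thickening_subset_open hU hEU
  obtain ⟨r, r0, r1, rδ⟩ : ∃ r : ℝ, 0 < r ∧ r ≤ 1 ∧ r ≤ δ :=
    ⟨min 1 δ, lt_min one_pos δ0, min_le_left _ _, min_le_right _ _⟩
  obtain ⟨N, Nt, hN⟩ := hk r r0 r1
  obtain ⟨kr, hkr⟩ : ∃ kr : V n → ℝ, kr = fun y => (r ^ n)⁻¹ * k (r⁻¹ • y) := ⟨_, rfl⟩
  have kz : ∀ y, r ≤ ‖y‖ → kr y = 0 := fun y hy => by
    rw [hkr]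
    refine mul_eq_zero_of_right _ (kt.2 _ ?_)
    rw [norm_smul, Real.norm_of_nonneg (inv_pos.2 r0).le, ← div_eq_inv_mul, one_le_div r0]
    exact hy
  have krt : Test kr 1 := ⟨hkr ▸ contDiff_const.mul (kt.1.comp (contDiff_const_smul _)),
    fun y hy => kz y (r1.trans hy)⟩
  have kr0 : ∀ y, 0 ≤ kr y := fun y => by
    rw [hkr]; exact mul_nonneg (by positivity) (k0 _)
  have kr1 : ∫ y, kr y = 1 := by
    rw [hkr, integral_const_mul, Measure.integral_comp_inv_smul_of_nonneg _ k r0.le, fr, k1,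
      smul_eq_mul, mul_one, inv_mul_cancel₀ (by positivity)]
  have vt := hE.test hA Nt
  have st := hE.test hA krt
  have Ht := hE.test hA kt
  have hl : ∀ x, lap (cv E N) x = cv E kr x - cv E k x := fun x => by
    rw [hE.lap_cv hA Nt, cv_eq, cv_eq, cv_eq, ← integral_sub (hE.mul krt.int x) (hE.mul kt.int x)]
    refine integral_congr_ae (Eventually.of_forall fun y => ?_)
    simp only [hN, hkr, sub_mul]
  have s0 := cv_nonneg (E := E) kr0
  have H0 := cv_nonneg (E := E) k0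
  have s1 : ∀ x, cv E kr x ≤ 1 := fun x => kr1 ▸ hE.cv_le krt.int kr0 x
  have H1 : ∀ x, cv E k x ≤ K * m := fun x =>
    hm ▸ hE.cv_le' kt.int (fun y => (le_abs_self _).trans (hKb y)) x
  have sm : ∫ x, cv E kr x = m := by rw [(hE.mass hA krt.int).2, kr1, one_mul, hm]
  have Hm : ∫ x, cv E k x = m := by rw [(hE.mass hA kt.int).2, k1, one_mul, hm]
  have it : ∀ {θ : V n → ℝ}, Test θ 4 → Integrable (fun x => t x * θ x) volume := fun hθ =>
    int_of (ht.mul hθ.cont) fun y hy => by rw [hθ.2 y hy, mul_zero]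
  have e1 : a * m ≤ ∫ x, t x * cv E kr x := by
    rw [← sm, ← integral_const_mul]
    refine integral_mono (st.int.const_mul a) (it st) fun x => ?_
    by_cases hx : cv E kr x = 0
    · simp [hx]
    obtain ⟨y, hy, hxy⟩ := cv_ne hx
    have h2 : ‖y‖ < r := not_le.1 fun h2 => hy (kz y h2)
    have h3 : x ∈ thickening δ E :=
      mem_thickening_iff.2 ⟨x + y, hxy, by simpa [dist_eq_norm] using h2.trans_le rδ⟩
    exact mul_le_mul_of_nonneg_right (hδ h3).2.le (s0 x)
  have e2 : ∫ x, t x * cv E k x ≤ b * (C₁ * m) := by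
    refine ((le_abs_self _).trans (hH _ Ht)).trans (mul_le_mul_of_nonneg_left ?_ hb)
    rw [hC₁, hm]
    exact hE.norm_fderiv hA kt
  have e3 : ∫ x, |lap (cv E N) x| ≤ 2 * m := by
    rw [two_mul]
    nth_rw 1 [← sm]
    rw [← Hm, ← integral_add st.int Ht.int]
    refine integral_mono vt.lap.int.abs (st.int.add Ht.int) fun x => ?_
    have := s0 x
    have := H0 x
    simp only [hl]
    rw [abs_le]
    constructor <;> linarith
  have e4 := hP.abp κ 4 (K * m) (cv E N) (cv E kr) h0 h1 (by norm_num) (by positivity) vt st.int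
    (fun x => ⟨s0 x, s1 x⟩) fun x => by
      have := s0 x
      have := H0 x
      have := H1 x
      rw [hl]
      constructor <;> linarith
  have e5 := hv _ vt
  have e6 : ∫ x, t x * lap (cv E N) x = (∫ x, t x * cv E kr x) - ∫ x, t x * cv E k x := by
    rw [← integral_sub (it st) (it Ht)]
    simp only [hl, mul_sub]
  rw [sm] at e4
  obtain ⟨L, hL⟩ : ∃ L, L = max (Real.log (K * m)⁻¹) 0 := ⟨_, rfl⟩
  have q1 : 0 < (n : ℝ) - 2 * κ := by linarith
  have q2 : 0 < (n : ℝ) - 1 := by linarith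
  have e7 : (a - C₁ * b - 2 * c₂) * m ≤ c₁ * ((n - 1) / (n - 2 * κ) * (L + C₂)) * m := by
    have h2 := mul_le_mul_of_nonneg_left e4 hc₁.le
    have h3 := mul_le_mul_of_nonneg_left e3 hc₂
    have h4 : m * L + K * m * (volume : Measure (V n)).real (ball 0 4) * (1 / κ + n) =
        (L + C₂) * m := by rw [hC₂]; ring
    rw [← hL, h4] at h2
    nlinarith
  have e8 := le_of_mul_le_mul_right e7 m0
  have e9 : (a - (C₁ + C₃) * b - 2 * c₂) * (n - 2 * κ) / (c₁ * (n - 1)) ≤ L + C₂ := by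
    rw [div_le_iff₀ (by positivity)]
    have h2 := mul_le_mul_of_nonneg_right e8 q1.le
    have h3 : c₁ * ((n - 1) / (n - 2 * κ) * (L + C₂)) * (n - 2 * κ) =
        (L + C₂) * (c₁ * (n - 1)) := by field_simp
    have h4 := mul_nonneg (mul_nonneg p3.le hb) q1.le
    nlinarith
  have e10 := exp_bound K0 m0 (B := (volume : Measure (V n)).real (ball 0 3))
    (hm ▸ measureReal_mono hE.sub measure_ball_lt_top.ne) (hL ▸ e9)
  rw [← hC₃] at e10
  exact e10.trans (by gcongr; linarith)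

theorem int_lap (hB : AvB n) {v : V n → ℝ} {R : ℝ} (hv : Test v R) : ∫ x, lap v x = 0 := by
  simp only [hv.lap_eq]
  rw [integral_finsetSum _ fun i _ => ((hv.der _).der _).int]
  refine Finset.sum_eq_zero fun i _ => ?_
  have := hB.dvg _ R _ _ (hv.der (ev i)) (hB.ofC1 (fun _ => ev i) contDiff_const)
  simpa [tr_zero] using this

theorem int_lmin (hP : Abp n) {v : V n → ℝ} {R : ℝ} (hv : Test v R) :
    Integrable (fun x => lmin (hess v x)) volume :=
  int_of (hP.cont.comp hv.smooth_hess.continuous) fun y hy => by rw [hv.hess_zero y hy, hP.zero]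

theorem norm_le_sum (X : Mt n) : ‖X‖ ≤ ∑ p : Fin n × Fin n, |⟪ev p.1, X (ev p.2)⟫| := by
  have h1 : ∀ v : V n, ‖v‖ ≤ ∑ i, |⟪ev i, v⟫| := fun v => by
    conv_lhs => rw [← sum_ev v]
    refine (norm_sum_le _ _).trans (Finset.sum_le_sum fun i _ => ?_)
    rw [norm_smul, norm_ev, mul_one, Real.norm_eq_abs]
  refine ContinuousLinearMap.opNorm_le_bound _ (Finset.sum_nonneg fun _ _ => abs_nonneg _)
    fun v => ?_
  conv_lhs => rw [← sum_ev v, map_sum]
  rw [Fintype.sum_prod_type_right, Finset.sum_mul]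
  refine (norm_sum_le _ _).trans (Finset.sum_le_sum fun j _ => ?_)
  rw [map_smul, norm_smul, mul_comm]
  refine mul_le_mul (h1 _) ?_ (norm_nonneg _) (Finset.sum_nonneg fun _ _ => abs_nonneg _)
  simpa [norm_ev] using abs_real_inner_le_norm (ev j) v

theorem sharp (hn : 3 ≤ n) (hK : KerS n) (hA : AvA n) (hB : AvB n) (hP : Abp n) (κ : ℝ)
    (h0 : 0 < κ) (h1 : κ ≤ 1) : ∃ C : ℝ, 0 < C ∧ ∀ (w : V n → V n) (b c a : ℝ), ContDiff ℝ 1 w →
    0 ≤ b → 0 < c → (∀ x ∈ ball (0 : V n) 5, ‖w x‖ ≤ b ∧ Top (fderiv ℝ w x) c) →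
    volume {x ∈ ball (0 : V n) 3 | a < tr (fderiv ℝ w x)} ≤
      ENNReal.ofReal (C * Real.exp (-((a - C * b) * (n - 2 * κ) / (n ^ 2 * c)))) := by
  obtain ⟨C, C0, hC⟩ := general hn hK hA hP h0 h1
  refine ⟨C, C0, fun w b c a hw hb hc h => ?_⟩
  have n3 : (3 : ℝ) ≤ n := by exact_mod_cast hn
  have q2 : 0 < (n : ℝ) - 1 := by linarith
  have hF : Continuous (fderiv ℝ w) := hw.continuous_fderiv one_ne_zero
  have hW := hB.ofC1 w hw
  have h5 : ∀ y : V n, ¬ 4 ≤ ‖y‖ → y ∈ ball (0 : V n) 5 := fun y hy => by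
    rw [mem_ball_zero_iff]; linarith [not_le.1 hy]
  have key := hC (fun x => tr (fderiv ℝ w x)) a b (n ^ 2 * c / (n - 1)) 0
    (continuous_tr.comp hF) hb (by positivity) le_rfl (fun v hv => ?_) (fun H hH => ?_)
  · rwa [mul_zero, sub_zero, div_mul_cancel₀ _ q2.ne'] at key
  · have i1 : Integrable (fun x => tr (fderiv ℝ w x ∘L hess v x)) volume :=
      int_of (continuous_tr.comp (hF.clm_comp hv.smooth_hess.continuous)) fun y hy => by
        rw [hv.hess_zero y hy, ContinuousLinearMap.comp_zero, tr_zero]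
    have i2 : Integrable (fun x => tr (fderiv ℝ w x) * lap v x) volume :=
      int_of ((continuous_tr.comp hF).mul hv.lap.cont) fun y hy => by
        rw [hv.lap.2 y hy, mul_zero]
    have i3 := int_lmin hP hv
    have e1 : ∫ x, (tr (fderiv ℝ w x ∘L hess v x) - tr (fderiv ℝ w x) * lap v x / n) ≤
        ∫ x, c * (lap v x - n * lmin (hess v x)) := by
      refine integral_mono (i1.sub (i2.div_const _))
        ((hv.lap.int.sub (i3.const_mul _)).const_mul c) fun x => ?_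
      by_cases hx : 4 ≤ ‖x‖
      · simp only [lap, hv.hess_zero x hx, ContinuousLinearMap.comp_zero, tr_zero, hP.zero]
        simp
      · exact hP.pair _ _ c (hv.sym_hess x) (h x (h5 x hx)).2
    rw [integral_sub i1 (i2.div_const _), integral_div, integral_const_mul,
      integral_sub hv.lap.int (i3.const_mul _), integral_const_mul, int_lap hB hv,
      hB.korn1 v 4 w _ hv hW] at e1
    rw [zero_mul, add_zero, integral_neg, div_mul_eq_mul_div, le_div_iff₀ q2]
    have n0 : (0 : ℝ) < n := by linarith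
    have e2 := mul_le_mul_of_nonneg_left e1 n0.le
    rw [mul_sub, mul_div_cancel₀ _ n0.ne'] at e2
    nlinarith
  · simp only [mul_comm (tr _)]
    rw [hB.dvg H 4 w _ hH hW, abs_neg, ← integral_const_mul, ← Real.norm_eq_abs]
    refine norm_integral_le_of_norm_le ((int_fderiv hH).const_mul b)
      (Eventually.of_forall fun y => ?_)
    by_cases hy : 4 ≤ ‖y‖
    · simp [hH.fderiv_zero y hy]
    · rw [mul_comm]
      exact (fderiv ℝ H y).le_opNorm_of_le (h y (h5 y hy)).1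

theorem entry (hn : 3 ≤ n) (hK : KerS n) (hA : AvA n) (hB : AvB n) (hP : Abp n) :
    ∃ C D : ℝ, 0 < C ∧ 0 < D ∧ ∀ (w : V n → V n) (b c a : ℝ), ContDiff ℝ 1 w →
    0 ≤ b → 0 < c → (∀ x ∈ ball (0 : V n) 5, ‖w x‖ ≤ b ∧ Dev (fderiv ℝ w x) c) →
    ∀ p q : V n, ‖p‖ = 1 → ‖q‖ = 1 →
    volume {x ∈ ball (0 : V n) 3 | a < ⟪p, fderiv ℝ w x q⟫} ≤
      ENNReal.ofReal (C * Real.exp (-((a - C * b) / (D * c)))) := by
  obtain ⟨C, C0, hC⟩ := general hn hK hA hP one_pos le_rfl
  obtain ⟨G, G0, hG⟩ := hB.korn2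
  have n3 : (3 : ℝ) ≤ n := by exact_mod_cast hn
  have q1 : 0 < (n : ℝ) - 2 * 1 := by linarith
  have q2 : 0 < (n : ℝ) - 1 := by linarith
  obtain ⟨D, hD⟩ : ∃ D : ℝ, D = 2 * n * G * (n - 1) / (n - 2 * 1) := ⟨_, rfl⟩
  have D0 : 0 < D := by rw [hD]; positivity
  have x1 : 1 ≤ Real.exp (2 * G / D) := Real.one_le_exp (by positivity)
  refine ⟨C * Real.exp (2 * G / D), D, by positivity, D0, fun w b c a hw hb hc h p q hp hq => ?_⟩
  have hF : Continuous (fderiv ℝ w) := hw.continuous_fderiv one_ne_zero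
  have hW := hB.ofC1 w hw
  have h5 : ∀ y : V n, ¬ 4 ≤ ‖y‖ → y ∈ ball (0 : V n) 5 := fun y hy => by
    rw [mem_ball_zero_iff]; linarith [not_le.1 hy]
  have ht : Continuous fun x => ⟪p, fderiv ℝ w x q⟫ :=
    continuous_const.inner (hF.clm_apply continuous_const)
  refine (hC (fun x => ⟪p, fderiv ℝ w x q⟫) a b (2 * n * G * c) (G * c) ht hb (by positivity)
    (by positivity) (fun v hv => ?_) (fun H hH => ?_)).trans (ENNReal.ofReal_le_ofReal ?_)
  · have i3 := int_lmin hP hv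
    have i4 : Integrable (fun x => ‖hess v x‖) volume :=
      (int_of hv.smooth_hess.continuous hv.hess_zero).norm
    have e1 := hG v 4 w _ (fun _ => c) hv hW (integrableOn_const measure_ball_lt_top.ne)
      (Eventually.of_forall fun y hy => (h y (ball_subset_ball (by norm_num) hy)).2) p q
    have e2 : ∫ y in ball (0 : V n) 4, ‖hess v y‖ ≤ ∫ y, ‖hess v y‖ :=
      setIntegral_le_integral i4 (Eventually.of_forall fun y => norm_nonneg _)
    have e3 : ∫ y, ‖hess v y‖ ≤ ∫ y, (|lap v y| + 2 * (lap v y - n * lmin (hess v y))) :=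
      integral_mono i4 (hv.lap.int.abs.add ((hv.lap.int.sub (i3.const_mul _)).const_mul 2))
        fun y => hP.norm _ (hv.sym_hess y)
    have i5 : Integrable (fun y => lap v y - n * lmin (hess v y)) volume :=
      hv.lap.int.sub (i3.const_mul _)
    rw [integral_add hv.lap.int.abs (i5.const_mul 2), integral_const_mul, integral_sub hv.lap.int (i3.const_mul _), integral_const_mul,
      int_lap hB hv] at e3
    rw [hp, hq, integral_const_mul, mul_one, mul_one, ← mul_assoc] at e1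
    have e4 := mul_le_mul_of_nonneg_left (e2.trans e3) (mul_pos G0 hc).le
    rw [integral_neg]
    linarith [le_abs_self (∫ y, ⟪p, fderiv ℝ w y q⟫ * lap v y)]
  · have i1 : Integrable (fun x => H x • fderiv ℝ w x q) volume :=
      int_of (hH.cont.smul (hF.clm_apply continuous_const)) fun y hy => by
        rw [hH.2 y hy, zero_smul]
    have e1 : ∫ x, ⟪p, fderiv ℝ w x q⟫ * H x = ⟪p, ∫ x, H x • fderiv ℝ w x q⟫ := by
      rw [← integral_inner i1]
      simp only [real_inner_smul_right, mul_comm]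
    have e2 := hW.weak H hH.1 hH.supp q
    rw [e1, ← neg_eq_iff_eq_neg.2 e2, inner_neg_right, abs_neg, ← integral_const_mul]
    refine (abs_real_inner_le_norm _ _).trans ?_
    rw [hp, one_mul]
    refine norm_integral_le_of_norm_le ((int_fderiv hH).const_mul b)
      (Eventually.of_forall fun y => ?_)
    by_cases hy : 4 ≤ ‖y‖
    · simp [hH.fderiv_zero y hy]
    · rw [norm_smul, mul_comm b]
      refine mul_le_mul ?_ (h y (h5 y hy)).1 (norm_nonneg _) (norm_nonneg _)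
      simpa [hq] using (fderiv ℝ H y).le_opNorm q
  · rw [mul_assoc C, ← Real.exp_add]
    gcongr
    have e1 : (a - C * b - 2 * (G * c)) * (n - 2 * 1) / (2 * n * G * c * (n - 1)) =
        (a - C * b) / (D * c) - 2 * G / D := by
      rw [hD]
      field_simp
    have e2 : (a - C * Real.exp (2 * G / D) * b) / (D * c) ≤ (a - C * b) / (D * c) := by
      gcongr
      exact le_mul_of_one_le_right C0.le x1
    rw [e1]
    linarith

theorem rough (hn : 3 ≤ n) (hK : KerS n) (hA : AvA n) (hB : AvB n) (hP : Abp n) :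
    ∃ C : ℝ, 0 < C ∧ ∀ (w : V n → V n) (b c a : ℝ), ContDiff ℝ 1 w →
    0 ≤ b → 0 < c → (∀ x ∈ ball (0 : V n) 5, ‖w x‖ ≤ b ∧ Dev (fderiv ℝ w x) c) → 0 ≤ a - C * b →
    volume {x ∈ ball (0 : V n) 3 | a < ‖fderiv ℝ w x‖} ≤
      ENNReal.ofReal (C * Real.exp (-((a - C * b) / (C * c)))) := by
  obtain ⟨C, D, C0, D0, hC⟩ := entry hn hK hA hB hP
  have n3 : (3 : ℝ) ≤ n := by exact_mod_cast hn
  obtain ⟨s, hs⟩ : ∃ s : ℝ, s = n * n := ⟨_, rfl⟩
  have s0 : 0 < s := by rw [hs]; positivity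
  refine ⟨2 * s * C + s * D, by positivity, fun w b c a hw hb hc h ha => ?_⟩
  have hsub : {x ∈ ball (0 : V n) 3 | a < ‖fderiv ℝ w x‖} ⊆ ⋃ p : Fin n × Fin n,
      ({x ∈ ball (0 : V n) 3 | a / s < ⟪ev p.1, fderiv ℝ w x (ev p.2)⟫} ∪
        {x ∈ ball (0 : V n) 3 | a / s < ⟪-ev p.1, fderiv ℝ w x (ev p.2)⟫}) := by
    rintro x ⟨hx, hx'⟩
    by_contra hn'
    simp only [Set.mem_iUnion, Set.mem_union, Set.mem_ofPred_eq, hx, true_and, not_exists, not_or,
      not_lt, inner_neg_left] at hn'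
    have h1 := Finset.sum_le_card_nsmul Finset.univ
      (fun p : Fin n × Fin n => |⟪ev p.1, fderiv ℝ w x (ev p.2)⟫|) (a / s) fun p _ =>
        abs_le.2 ⟨by linarith [(hn' p).2], (hn' p).1⟩
    rw [Finset.card_univ, Fintype.card_prod, Fintype.card_fin, nsmul_eq_mul, Nat.cast_mul, ← hs,
      mul_div_cancel₀ _ s0.ne'] at h1
    exact absurd ((norm_le_sum _).trans h1) (not_le.2 hx')
  obtain ⟨Z, hZ⟩ : ∃ Z, Z = C * Real.exp (-((a / s - C * b) / (D * c))) := ⟨_, rfl⟩
  have Z0 : 0 ≤ Z := by rw [hZ]; positivity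
  refine (measure_mono hsub).trans ((measure_iUnion_fintype_le _ _).trans ?_)
  refine (Finset.sum_le_card_nsmul _ _ (ENNReal.ofReal (Z + Z)) fun p _ => ?_).trans ?_
  · rw [ENNReal.ofReal_add Z0 Z0, hZ]
    exact (measure_union_le _ _).trans (add_le_add
      (hC w b c _ hw hb hc h _ _ (norm_ev _) (norm_ev _))
      (hC w b c _ hw hb hc h _ _ (by rw [norm_neg, norm_ev]) (norm_ev _)))
  · rw [Finset.card_univ, Fintype.card_prod, Fintype.card_fin, ← ENNReal.ofReal_nsmul,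
      nsmul_eq_mul, Nat.cast_mul, ← hs]
    refine ENNReal.ofReal_le_ofReal ?_
    have e1 : (a - (2 * s * C + s * D) * b) / ((2 * s * C + s * D) * c) ≤
        (a / s - C * b) / (D * c) := by
      have e2 : (a / s - C * b) / (D * c) = (a - s * C * b) / (s * D * c) := by field_simp
      have e3 : 0 ≤ s * C * b := by positivity
      have e4 : 0 ≤ s * D * b := by positivity
      have e5 : 0 ≤ s * C * c := by positivity
      rw [e2]
      exact div_le_div₀ (by nlinarith) (by nlinarith) (by positivity) (by nlinarith)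
    calc s * (Z + Z) = 2 * s * C * Real.exp (-((a / s - C * b) / (D * c))) := by rw [hZ]; ring
      _ ≤ _ := by
        gcongr
        exact le_add_of_nonneg_right (by positivity)

end LinAux

theorem lin {n : ℕ} (hn : 3 ≤ n) (hK : KerS n) (hA : AvA n) (hB : AvB n) (hP : Abp n) : Lin n :=
  ⟨LinAux.sharp hn hK hA hB hP, LinAux.rough hn hK hA hB hP⟩

end Pool.Agent.MP_29b5d3_an.NC

end MrgPart1

-- ======== part 2: formerly Pool.Agent.MP_29b5d3_an.NC.Fos
section MrgPart2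

/-! Project NEARCONF: at some scale the map is flat or its energy density is small. -/

set_option autoImplicit false

namespace Pool.Agent.MP_29b5d3_an.NC

open MeasureTheory Metric Filter Topology Module Set
open scoped RealInnerProductSpace ContDiff ENNReal

variable {n : ℕ}

namespace Fos

theorem Iv_nonneg {g : V n → ℝ} (h : ∀ z, 0 ≤ g z) (x : V n) (r : ℝ) : 0 ≤ Iv g x r :=
  integral_nonneg fun _ => h _

theorem on_ball {g : V n → ℝ} (hg : LocallyIntegrable g volume) (x : V n) (r : ℝ) :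
    IntegrableOn g (ball x r) volume :=
  (hg.integrableOn_isCompact (isCompact_closedBall x r)).mono_set ball_subset_closedBall

/-- a scale at which the radial derivative of the average is small -/
theorem scale (hA : AvA n) (hB : AvB n) {φ ψ : V n → ℝ} (hk : Ker φ ψ) :
    ∃ C : ℝ, 0 < C ∧ ∀ L : ℝ, 0 < L → ∀ g : V n → ℝ, LocallyIntegrable g volume →
      (∀ z, 0 ≤ g z) → ∃ s, Real.exp (-L) / 8 ≤ s ∧ s ≤ 1 / 8 ∧
        av (lap ψ) g 0 s ≤ C / L * Iv g 0 1 := by
  obtain ⟨C, C0, hC⟩ := hk.tφ.bdd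
  refine ⟨C * 8 ^ n, by positivity, fun L hL g hg g0 => ?_⟩
  have a0 : 0 < Real.exp (-L) / 8 := by positivity
  have ab : Real.exp (-L) / 8 < 1 / 8 := by
    have : Real.exp (-L) < 1 := Real.exp_lt_one_iff.2 (by linarith)
    linarith
  have d1 : ∀ r ∈ Icc (Real.exp (-L) / 8) (1 / 8),
      HasDerivAt (av φ g 0) (r⁻¹ • av (lap ψ) g 0 r) r := fun r hr =>
    hB.dr ℝ φ ψ g hk hg 0 r (a0.trans_le hr.1)
  have d2 : ∀ r ∈ Icc (Real.exp (-L) / 8) (1 / 8), HasDerivAt Real.log r⁻¹ r := fun r hr =>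
    Real.hasDerivAt_log (a0.trans_le hr.1).ne'
  obtain ⟨s, hs, e⟩ := exists_ratio_hasDerivAt_eq_ratio_slope (av φ g 0)
    (fun r => r⁻¹ • av (lap ψ) g 0 r) ab (fun r hr => (d1 r hr).continuousAt.continuousWithinAt)
    (fun r hr => d1 r (Ioo_subset_Icc_self hr)) Real.log (fun r => r⁻¹)
    (fun r hr => (d2 r hr).continuousAt.continuousWithinAt)
    (fun r hr => d2 r (Ioo_subset_Icc_self hr))
  refine ⟨s, hs.1.le, hs.2.le, ?_⟩
  have s0 : 0 < s := a0.trans hs.1
  have eL : Real.log (1 / 8) - Real.log (Real.exp (-L) / 8) = L := by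
    rw [Real.log_div (Real.exp_pos _).ne' (by norm_num), Real.log_exp,
      Real.log_div one_ne_zero (by norm_num), Real.log_one]
    ring
  rw [eL, smul_eq_mul] at e
  have e2 : L * av (lap ψ) g 0 s = av φ g 0 (1 / 8) - av φ g 0 (Real.exp (-L) / 8) := by
    have := congrArg (· * s) e
    field_simp at this
    linarith
  have p1 : 0 ≤ av φ g 0 (Real.exp (-L) / 8) :=
    integral_nonneg fun y => smul_nonneg (hk.φ0 y) (g0 _)
  have p2 := hA.av_le ℝ φ g C hk.tφ hC hg 0 (1 / 8) (by norm_num)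
  have e3 : (fun z => ‖g z‖) = g := funext fun z => Real.norm_of_nonneg (g0 z)
  have p3 := hA.Iv_mono g 0 0 1 (1 / 8) hg g0 (by norm_num) one_pos
    (ball_subset_ball (by norm_num))
  rw [e3] at p2
  have p4 := (le_abs_self _).trans p2
  rw [show (1 : ℝ) / (1 / 8) = 8 by norm_num] at p3
  rw [div_mul_eq_mul_div, le_div_iff₀ hL]
  nlinarith [mul_le_mul_of_nonneg_left p3 C0.le]

theorem resc1 (hB : AvB n) {f : V n → V n} {F : V n → Mt n} (h : W f F) {s : ℝ} (hs : s ≠ 0) :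
    ∃ f', W f' fun y => F (0 + s • y) :=
  ⟨_, hB.resc f F 1 0 s h hs⟩

theorem qr_resc (hA : AvA n) {K : ℝ} {F : V n → Mt n} (h : QR K (ball 0 1) F) {s : ℝ}
    (s0 : 0 < s) (s1 : s ≤ 1 / 8) : QR K (ball 0 4) fun y => F (0 + s • y) := by
  filter_upwards [hA.ae _ 0 s s0.ne' h] with y hy hb
  refine hy ?_
  rw [mem_ball_zero_iff] at hb ⊢
  rw [zero_add, norm_smul, Real.norm_of_nonneg s0.le]
  nlinarith [norm_nonneg y]

/-- a scale at which the two point energy is small -/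
theorem small (hA : AvA n) (hB : AvB n) (h : Mono n) {φ ψ : V n → ℝ} (hk : Ker φ ψ) {δ : ℝ}
    (hδ : 0 < δ) : ∃ (τ ε₀ : ℝ) (k : ℕ), 0 < τ ∧ 0 < ε₀ ∧ ε₀ ≤ 1 ∧ ∀ ε, 0 ≤ ε → ε ≤ ε₀ →
      ∀ (f : V n → V n) (F : V n → Mt n), W f F → QR (1 + ε) (ball 0 1) F →
      ∃ s, τ ≤ s ∧ s ≤ 1 / 8 ∧ 4 ^ k * Yv ψ φ (fun y => F (0 + s • y)) ((1 / 2) ^ (k + 1)) ≤
        δ * Iv (fun z => ‖F z‖ ^ n) 0 1 := by
  obtain ⟨C, C0, hC⟩ := scale hA hB hk
  obtain ⟨C₁, C₂, p1, p2, hM⟩ := h φ ψ hk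
  set L := C₁ * C / δ with hL
  have L0 : 0 < L := by positivity
  set τ := Real.exp (-L) / 8 with hτ
  have τ0 : 0 < τ := by positivity
  set T := (τ ^ n)⁻¹ with hT
  have T0 : 0 < T := by positivity
  obtain ⟨k, hk2⟩ := exists_pow_lt_of_lt_one (show 0 < δ / (C₂ * T) by positivity)
    (show (1 / 2 : ℝ) < 1 by norm_num)
  refine ⟨τ, min 1 (δ / (4 * (4 ^ k * (C₂ * T)))), k, τ0, by positivity, min_le_left _ _,
    fun ε e0 e1 f F hW hQ => ?_⟩
  obtain ⟨s, s1, s2, hs⟩ := hC L L0 _ hW.lp fun z => by positivity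
  have s0 : 0 < s := τ0.trans_le s1
  refine ⟨s, s1, s2, ?_⟩
  obtain ⟨f', hW'⟩ := resc1 hB hW s0.ne'
  set η : ℝ := (1 / 2) ^ (k + 1) with hη
  have η0 : 0 < η := by positivity
  have η1 : η ≤ 1 := pow_le_one₀ (by norm_num) (by norm_num)
  have m := hM ε η e0 (e1.trans (min_le_left _ _)) η0 η1 f' _ hW' (qr_resc hA hQ s0 s2)
  set e := Iv (fun z => ‖F z‖ ^ n) 0 1 with he
  have e2 : 0 ≤ e := Iv_nonneg (fun z => by positivity) _ _
  have m1 : (∫ y, lap ψ y * ‖F (0 + s • y)‖ ^ n) ≤ C / L * e := hs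
  have m2 : En (fun y => F (0 + s • y)) 4 ≤ T * e := by
    have k1 := hA.ball_eq (fun z => ‖F z‖ ^ n) 0 s 4 s0
    have k2 : ∫ z in ball (0 : V n) (s * 4), ‖F z‖ ^ n ≤ e := by
      rw [he, Iv_zero_one]
      exact setIntegral_mono_set (on_ball hW.lp _ _) (ae_of_all _ fun z => by positivity)
        (ball_subset_ball (by linarith)).eventuallyLE
    have k3 : (s ^ n)⁻¹ ≤ T := inv_anti₀ (by positivity) (pow_le_pow_left₀ τ0.le s1 n)
    calc _ = _ := k1
      _ ≤ T * e := mul_le_mul k3 k2 (integral_nonneg fun z => by positivity) T0.le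
  have q1 : (4 : ℝ) ^ k * η ^ 2 = 1 / 4 := by
    rw [hη, ← pow_mul, mul_comm (k + 1) 2, pow_mul, pow_succ, ← mul_assoc, ← mul_pow]
    norm_num
  have q2 : C₂ * T * η ≤ δ := by
    rw [lt_div_iff₀ (by positivity)] at hk2
    have : η ≤ (1 / 2) ^ k := pow_le_pow_of_le_one (by norm_num) (by norm_num) (by omega)
    nlinarith [mul_le_mul_of_nonneg_left this (show 0 ≤ C₂ * T by positivity)]
  have q3 : 4 ^ k * (C₂ * T) * ε ≤ δ / 4 := by
    have := (le_div_iff₀ (by positivity)).1 (e1.trans (min_le_right _ _))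
    linarith
  have q4 : C₁ * (C / L) = δ := by
    rw [hL]
    field_simp
  calc _ ≤ 4 ^ k * (C₁ * η ^ 2 * (C / L * e) + C₂ * (η ^ 3 + ε) * (T * e)) := by
        refine mul_le_mul_of_nonneg_left (m.trans ?_) (by positivity)
        gcongr
    _ = (4 ^ k * η ^ 2 * (C₁ * (C / L)) + 4 ^ k * η ^ 2 * (C₂ * T * η) +
          4 ^ k * (C₂ * T) * ε) * e := by ring
    _ ≤ δ * e := by
        rw [q1, q4]
        exact mul_le_mul_of_nonneg_right (by linarith) e2

/-- squared increments -/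
noncomputable def kk (G : V n → Mt n) (x h : V n) : ℝ≥0∞ := ENNReal.ofReal (‖G (x + h) - G x‖ ^ 2)

noncomputable def D (G : V n → Mt n) (a : ℝ) (h : V n) : ℝ≥0∞ := ∫⁻ x in ball 0 a, kk G x h

theorem kk_meas {G : V n → Mt n} (hG : StronglyMeasurable G) {α : Type} [MeasurableSpace α]
    {u v : α → V n} (hu : Measurable u) (hv : Measurable v) :
    Measurable fun p => kk G (u p) (v p) :=
  (((hG.comp_measurable (hu.add hv)).sub (hG.comp_measurable hu)).norm.measurable.pow_const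
    2).ennreal_ofReal

theorem D_mono (G : V n → Mt n) {a b : ℝ} (h : a ≤ b) (v : V n) : D G a v ≤ D G b v :=
  lintegral_mono_set (ball_subset_ball h)

theorem shift (u : V n → ℝ≥0∞) (a : ℝ) (h : V n) :
    ∫⁻ x in ball 0 a, u (x + h) ≤ ∫⁻ x in ball 0 (a + ‖h‖), u x := by
  rw [← lintegral_indicator measurableSet_ball, ← lintegral_indicator measurableSet_ball,
    ← lintegral_add_right_eq_self (μ := volume) ((ball 0 (a + ‖h‖)).indicator u) h]
  refine lintegral_mono fun x => ?_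
  by_cases hx : x ∈ ball (0 : V n) a
  · have : x + h ∈ ball (0 : V n) (a + ‖h‖) := by
      rw [mem_ball_zero_iff] at hx ⊢
      linarith [norm_add_le x h]
    rw [indicator_of_mem hx, indicator_of_mem this]
  · rw [indicator_of_notMem hx]
    exact zero_le

theorem kk_dbl (G : V n → Mt n) (x h : V n) :
    kk G x (h + h) ≤ 2 * kk G (x + h) h + 2 * kk G x h := by
  have e : ∀ t : ℝ, 2 * ENNReal.ofReal t = ENNReal.ofReal (2 * t) := fun t => by
    rw [ENNReal.ofReal_mul (by norm_num), ENNReal.ofReal_ofNat]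
  unfold kk
  rw [e, e, ← ENNReal.ofReal_add (by positivity) (by positivity), ← add_assoc]
  refine ENNReal.ofReal_le_ofReal ?_
  have t := norm_sub_le_norm_sub_add_norm_sub (G (x + h + h)) (G (x + h)) (G x)
  nlinarith [norm_nonneg (G (x + h + h) - G x), sq_nonneg
    (‖G (x + h + h) - G (x + h)‖ - ‖G (x + h) - G x‖), norm_nonneg (G (x + h + h) - G (x + h)),
    norm_nonneg (G (x + h) - G x)]

theorem D_dbl {G : V n → Mt n} (hG : StronglyMeasurable G) (a : ℝ) (h : V n) :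
    D G a (h + h) ≤ 4 * D G (a + ‖h‖) h := by
  have m : Measurable fun x => kk G x h := kk_meas hG measurable_id measurable_const
  calc _ ≤ ∫⁻ x in ball 0 a, (2 * kk G (x + h) h + 2 * kk G x h) :=
        lintegral_mono fun x => kk_dbl G x h
    _ = 2 * (∫⁻ x in ball 0 a, kk G (x + h) h) + 2 * D G a h := by
        rw [lintegral_add_right _ (m.const_mul 2), lintegral_const_mul' _ _ (by simp),
          lintegral_const_mul' _ _ (by simp)]
        rfl
    _ ≤ 2 * D G (a + ‖h‖) h + 2 * D G (a + ‖h‖) h := by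
        gcongr
        · exact shift (fun x => kk G x h) a h
        · exact D_mono G (by linarith [norm_nonneg h]) h
    _ = _ := by rw [← add_mul]; norm_num

theorem D_pow {G : V n → Mt n} (hG : StronglyMeasurable G) (h : V n) (k : ℕ) (a : ℝ) :
    D G a (((2 : ℝ) ^ k) • h) ≤ 4 ^ k * D G (a + 2 ^ k * ‖h‖) h := by
  induction k generalizing a with
  | zero =>
    rw [pow_zero, pow_zero, one_smul, one_mul]
    exact D_mono G (by linarith [norm_nonneg h]) h
  | succ k ih =>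
    have e : ((2 : ℝ) ^ (k + 1)) • h = ((2 : ℝ) ^ k) • h + ((2 : ℝ) ^ k) • h := by
      rw [← add_smul, pow_succ, mul_two]
    rw [e]
    refine (D_dbl hG a _).trans ?_
    rw [pow_succ' (4 : ℝ≥0∞), mul_assoc]
    gcongr
    refine (ih _).trans (le_of_eq ?_)
    rw [norm_smul, Real.norm_of_nonneg (by positivity)]
    congr 2
    ring

/-- the two point energy dominates the squared increments of `Vm ∘ F` -/
theorem le_Yv (hMa : MatA n) (hA2 : MonoA n) {φ ψ : V n → ℝ} (hk : Ker φ ψ) :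
    ∃ A : ℝ, 0 < A ∧ ∀ (f : V n → V n) (F : V n → Mt n), W f F → ∀ η : ℝ,
      ∫⁻ y in ball (0 : V n) (1 / 2), D (fun z => Vm (F z)) (1 / 2) (η • y) ≤
        ENNReal.ofReal (A * Yv ψ φ F η) := by
  obtain ⟨c, c0, hc⟩ := hk.low
  obtain ⟨C, C0, hC⟩ := hMa.vm_eq
  obtain ⟨B, B0, hB⟩ := hk.tφ.bdd
  obtain ⟨B', B0', hB'⟩ := hk.tψ.bdd
  refine ⟨C / c ^ 2, by positivity, fun f F hW η => ?_⟩
  have hG : StronglyMeasurable fun z => Vm (F z) := hMa.vm_cont.comp_stronglyMeasurable hW.meas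
  set u : V n × V n → ℝ := fun p => ψ p.1 * φ p.2 * dV (F p.1) (F (p.1 + η • p.2)) with hu
  have u0 : ∀ p, 0 ≤ u p := fun p => mul_nonneg (mul_nonneg (hk.ψ0 _) (hk.φ0 _)) (dV_nonneg _ _)
  have ui : Integrable u ((volume : Measure (V n)).prod volume) := by
    have c1 : Continuous fun p : V n × V n => ψ p.1 * φ p.2 :=
      (hk.tψ.cont.comp continuous_fst).mul (hk.tφ.cont.comp continuous_snd)
    have i1 : IntegrableOn u (ball 0 1 ×ˢ ball 0 1) ((volume : Measure (V n)).prod volume) :=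
      Integrable.bdd_mul (c := B' * B) (hA2.int f F hW η 1 1) c1.aestronglyMeasurable
        (ae_of_all _ fun p => by
          rw [norm_mul]
          exact mul_le_mul (hB' _) (hB _) (norm_nonneg _) B0'.le)
    refine i1.integrable_of_forall_notMem_eq_zero fun p hp => ?_
    rw [mem_prod, not_and_or, mem_ball_zero_iff, mem_ball_zero_iff, not_lt, not_lt] at hp
    rcases hp with hp | hp
    · simp only [hu, hk.tψ.2 _ hp, zero_mul]
    · simp only [hu, hk.tφ.2 _ hp, zero_mul, mul_zero]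
  have e1 : Yv ψ φ F η = ∫ p, u p ∂((volume : Measure (V n)).prod volume) := by
    rw [integral_prod _ ui]
    unfold Yv
    refine integral_congr_ae (ae_of_all _ fun x => ?_)
    simp only [hu, mul_assoc, integral_const_mul]
  have m : Measurable fun p : V n × V n => kk (fun z => Vm (F z)) p.1 (η • p.2) :=
    kk_meas hG measurable_fst (measurable_snd.const_smul η)
  have e2 : ∫⁻ y in ball (0 : V n) (1 / 2), D (fun z => Vm (F z)) (1 / 2) (η • y) =
      ∫⁻ p in ball (0 : V n) (1 / 2) ×ˢ ball (0 : V n) (1 / 2),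
        kk (fun z => Vm (F z)) p.1 (η • p.2) ∂((volume : Measure (V n)).prod volume) := by
    rw [← Measure.prod_restrict, lintegral_prod_symm _ m.aemeasurable]
    rfl
  rw [e2, e1, ← integral_const_mul, ofReal_integral_eq_lintegral_ofReal (ui.const_mul _)
    (ae_of_all _ fun p => mul_nonneg (by positivity) (u0 p))]
  refine le_trans ?_ (setLIntegral_le_lintegral (ball 0 (1 / 2) ×ˢ ball 0 (1 / 2)) _)
  refine setLIntegral_mono' (measurableSet_ball.prod measurableSet_ball) fun p hp => ?_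
  refine ENNReal.ofReal_le_ofReal ?_
  have k1 := (hc p.1 (mem_ball_zero_iff.1 hp.1).le).2
  have k2 := (hc p.2 (mem_ball_zero_iff.1 hp.2).le).1
  have k3 := (hC (F p.1) (F (p.1 + η • p.2))).1
  rw [norm_sub_rev]
  refine k3.trans ?_
  have k4 : c ^ 2 ≤ ψ p.1 * φ p.2 := by
    rw [sq]
    exact mul_le_mul k1 k2 c0.le (hk.ψ0 _)
  calc _ = C / c ^ 2 * (c ^ 2 * dV (F p.1) (F (p.1 + η • p.2))) := by field_simp
    _ ≤ _ := by
      have := dV_nonneg (F p.1) (F (p.1 + η • p.2))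
      simp only [hu]
      gcongr

theorem Yv_nonneg {φ ψ : V n → ℝ} (hk : Ker φ ψ) (F : V n → Mt n) (η : ℝ) : 0 ≤ Yv ψ φ F η :=
  integral_nonneg fun x => mul_nonneg (hk.ψ0 x)
    (integral_nonneg fun y => mul_nonneg (hk.φ0 y) (dV_nonneg _ _))

theorem loc_vm (hMa : MatA n) (hB : AvB n) {f : V n → V n} {F : V n → Mt n} (hW : W f F)
    (M : Mt n) : LocallyIntegrable (fun z => ‖Vm (F z) - M‖ ^ 2) volume := by
  refine hB.locH ℝ f F (fun X => ‖Vm X - M‖ ^ 2) (2 + 2 * ‖M‖ ^ 2) hW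
    ((hMa.vm_cont.sub continuous_const).norm.pow 2) fun X => ?_
  rw [Real.norm_of_nonneg (by positivity), ← hMa.vm_norm]
  nlinarith [norm_sub_le (Vm X) M, norm_nonneg (Vm X - M), norm_nonneg (Vm X), norm_nonneg M,
    sq_nonneg (‖Vm X‖ - ‖M‖), mul_nonneg (sq_nonneg ‖M‖) (sq_nonneg ‖Vm X‖)]

/-- a good point around which `Vm ∘ F` oscillates little -/
theorem osc (hMa : MatA n) (hA : AvA n) (hB : AvB n) (hA2 : MonoA n) {φ ψ : V n → ℝ}
    (hk : Ker φ ψ) : ∃ A : ℝ, 0 < A ∧ ∀ (f : V n → V n) (F : V n → Mt n), W f F → ∀ (k : ℕ)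
      (P : V n → Prop), (∀ᵐ x, x ∈ ball (0 : V n) (1 / 8) → P x) → ∃ x, P x ∧
        Iv (fun z => ‖Vm (F z) - Vm (F x)‖ ^ 2) 0 (1 / 8) ≤
          A * (4 ^ k * Yv ψ φ F ((1 / 2) ^ (k + 1))) := by
  obtain ⟨A, A0, hA1⟩ := le_Yv hMa hA2 hk
  have b0 : 0 < volume (ball (0 : V n) (1 / 8)) := measure_ball_pos _ _ (by norm_num)
  have b1 : volume (ball (0 : V n) (1 / 8)) ≠ ⊤ := measure_ball_lt_top.ne
  set b := (volume (ball (0 : V n) (1 / 8))).toReal with hb
  have b2 : 0 < b := ENNReal.toReal_pos b0.ne' b1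
  refine ⟨2 ^ n * (2 ^ n * A / b), by positivity, fun f F hW k P hP => ?_⟩
  set G : V n → Mt n := fun z => Vm (F z) with hGd
  have hG : StronglyMeasurable G := hMa.vm_cont.comp_stronglyMeasurable hW.meas
  set η : ℝ := (1 / 2) ^ (k + 1) with hη
  set Y := Yv ψ φ F η with hY
  have Y0 : 0 ≤ Y := Yv_nonneg hk F η
  have m : Measurable fun p : V n × V n => kk G p.1 ((1 / 4 : ℝ) • p.2) :=
    kk_meas hG measurable_fst (measurable_snd.const_smul (1 / 4 : ℝ))
  set w : V n → ℝ≥0∞ := fun x => ∫⁻ y in ball (0 : V n) 1, kk G x ((1 / 4 : ℝ) • y) with hw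
  have wm : Measurable w := m.lintegral_prod_right'
  have k1 : ∫⁻ x in ball (0 : V n) (1 / 8), w x ≤ ENNReal.ofReal (2 ^ n * A * (4 ^ k * Y)) := by
    have l := hA.lint (fun y => D G (1 / 2) (η • y)) 0 (1 / 2) (by norm_num)
    have l2 : ∫⁻ y in ball (0 : V n) 1, D G (1 / 2) (η • (0 + (1 / 2 : ℝ) • y)) ≤
        ENNReal.ofReal (2 ^ n * (A * Y)) := by
      have l3 := mul_le_mul_right (l.symm.trans_le (hA1 f F hW η)) (ENNReal.ofReal (2 ^ n))
      rwa [← mul_assoc, ← ENNReal.ofReal_mul (by positivity), ← mul_pow,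
        show (2 : ℝ) * (1 / 2) = 1 by norm_num, one_pow, ENNReal.ofReal_one, one_mul,
        ← ENNReal.ofReal_mul (by positivity)] at l3
    calc _ = ∫⁻ y in ball (0 : V n) 1, D G (1 / 8) ((1 / 4 : ℝ) • y) :=
          lintegral_lintegral_swap m.aemeasurable
      _ ≤ ∫⁻ y in ball (0 : V n) 1, 4 ^ k * D G (1 / 2) (η • (0 + (1 / 2 : ℝ) • y)) := by
          refine setLIntegral_mono' measurableSet_ball fun y hy => ?_
          have e : (2 : ℝ) ^ k * (η * (1 / 2)) = 1 / 4 := by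
            rw [hη, pow_succ, ← mul_assoc, ← mul_assoc, ← mul_pow]
            norm_num
          have e1 : (1 / 4 : ℝ) • y = (2 : ℝ) ^ k • η • (0 + (1 / 2 : ℝ) • y) := by
            rw [zero_add, smul_smul, smul_smul, mul_assoc, e]
          have e2 : 2 ^ k * ‖η • (0 + (1 / 2 : ℝ) • y)‖ ≤ 1 / 4 := by
            rw [zero_add, smul_smul, norm_smul, Real.norm_of_nonneg (by positivity), ← mul_assoc,
              e]
            linarith [mem_ball_zero_iff.1 hy]
          rw [e1]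
          refine (D_pow hG _ k _).trans ?_
          gcongr
          exact D_mono G (by linarith) _
      _ ≤ 4 ^ k * ENNReal.ofReal (2 ^ n * (A * Y)) := by
          rw [lintegral_const_mul' _ _ (by simp)]
          gcongr
      _ = _ := by
          rw [← ENNReal.ofReal_ofNat 4, ← ENNReal.ofReal_pow (by norm_num),
            ← ENNReal.ofReal_mul (by positivity)]
          congr 1
          ring
  have fin : IsFiniteMeasure (volume.restrict (ball (0 : V n) (1 / 8))) :=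
    isFiniteMeasure_restrict.2 b1
  have hN : (volume.restrict (ball (0 : V n) (1 / 8)))
      {x | ¬(x ∈ ball (0 : V n) (1 / 8) ∧ P x)} = 0 := by
    rw [← ae_iff]
    filter_upwards [ae_restrict_mem measurableSet_ball, ae_restrict_of_ae hP] with x h1 h2
    exact ⟨h1, h2 h1⟩
  obtain ⟨x, hx, hx2⟩ := exists_notMem_null_le_laverage
    (fun h => b0.ne' (Measure.restrict_eq_zero.1 h)) wm.aemeasurable hN
  obtain ⟨x1, x2⟩ : x ∈ ball (0 : V n) (1 / 8) ∧ P x := not_not.1 hx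
  refine ⟨x, x2, ?_⟩
  have li := loc_vm hMa hB hW (Vm (F x))
  have k2 : w x ≤ ENNReal.ofReal (2 ^ n * A / b * (4 ^ k * Y)) := by
    rw [setLAverage_eq] at hx2
    refine hx2.trans ?_
    rw [div_mul_eq_mul_div, ENNReal.ofReal_div_of_pos b2, hb, ENNReal.ofReal_toReal b1]
    gcongr
  have k3 : Iv (fun z => ‖Vm (F z) - Vm (F x)‖ ^ 2) x (1 / 4) ≤ 2 ^ n * A / b * (4 ^ k * Y) := by
    rw [← ENNReal.ofReal_le_ofReal_iff (by positivity)]
    refine le_trans (le_of_eq ?_) k2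
    exact ofReal_integral_eq_lintegral_ofReal
      (on_ball (hA.loc ℝ _ li x (1 / 4) (by norm_num)) 0 1) (ae_of_all _ fun y => by positivity)
  have k4 := hA.Iv_mono _ x 0 (1 / 4) (1 / 8) li (fun z => by positivity) (by norm_num)
    (by norm_num) (fun z hz => by
      rw [mem_ball_zero_iff] at hz x1
      rw [mem_ball_iff_norm]
      linarith [norm_sub_le z x])
  rw [show (1 : ℝ) / 4 / (1 / 8) = 2 by norm_num] at k4
  refine k4.trans ?_
  rw [mul_assoc]
  gcongr

/-- a bound `g ≤ a + b * h` passes to the scaled integrals -/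
theorem Iv_le (hA : AvA n) {g h : V n → ℝ} (hg : LocallyIntegrable g volume)
    (hh : LocallyIntegrable h volume) {a b : ℝ} (hle : ∀ᵐ z, g z ≤ a + b * h z) (x : V n) {r : ℝ}
    (hr : 0 < r) :
    Iv g x r ≤ a * (volume : Measure (V n)).real (ball 0 1) + b * Iv h x r := by
  have i1 := on_ball (hA.loc ℝ _ hg x r hr.ne') 0 1
  have i2 := on_ball (hA.loc ℝ _ hh x r hr.ne') 0 1
  have i3 : IntegrableOn (fun _ : V n => a) (ball 0 1) volume :=
    integrableOn_const measure_ball_lt_top.ne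
  calc _ ≤ ∫ y in ball (0 : V n) 1, (a + b * h (x + r • y)) :=
        integral_mono_ae i1 (i3.add (i2.const_mul b)) (ae_restrict_of_ae (hA.ae _ x r hr.ne' hle))
    _ = _ := by
        rw [integral_add i3 (i2.const_mul b), integral_const_mul, setIntegral_const, smul_eq_mul,
          mul_comm _ a]
        rfl

end Fos

open Fos in
theorem fos {n : ℕ} (hn : 3 ≤ n) (hK : KerS n) (hMa : MatA n) (hMb : MatB n) (hA : AvA n)
    (hB : AvB n) (hA2 : MonoA n) (h : Mono n) : Fos n := by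
  intro γ γ0
  obtain ⟨φ, ψ, hk⟩ := hK.ker
  obtain ⟨A, A0, hosc⟩ := osc hMa hA hB hA2 hk
  obtain ⟨Cv, Cv0, hCv⟩ := hMa.vm_eq
  obtain ⟨Co, Co0, hCo⟩ := hMa.omv
  set b := (volume : Measure (V n)).real (ball 0 1) with hb
  have b0 : 0 < b :=
    ENNReal.toReal_pos (measure_ball_pos _ _ one_pos).ne' measure_ball_lt_top.ne
  set δ := min (1 / 8) (γ / (16 * Co * Cv * b)) with hδ
  have δ0 : 0 < δ := by positivity
  obtain ⟨τ, ε₀, k, τ0, e0, e1, hs⟩ := small hA hB h hk (show 0 < δ / A by positivity)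
  refine ⟨τ / 8, min ε₀ (γ / (2 * Co * b)), by positivity, by positivity,
    fun ε p0 p1 f F hW hQ => ?_⟩
  have p2 : ε ≤ ε₀ := p1.trans (min_le_left _ _)
  have p3 : ε ≤ 1 := p2.trans e1
  obtain ⟨s, s1, s2, hY⟩ := hs ε p0 p2 f F hW hQ
  have s0 : 0 < s := τ0.trans_le s1
  obtain ⟨f', hW'⟩ := resc1 hB hW s0.ne'
  set F' : V n → Mt n := fun y => F (0 + s • y) with hF'
  have hQ' : QR (1 + ε) (ball 0 4) F' := qr_resc hA hQ s0 s2
  obtain ⟨x, hx, ho⟩ := hosc f' F' hW' k (fun x => Qr (1 + ε) (F' x))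
    (hQ'.mono fun x hx hb => hx (ball_subset_ball (by norm_num) hb))
  set e := Iv (fun z => ‖F z‖ ^ n) 0 1 with he
  have e2 : 0 ≤ e := Iv_nonneg (fun z => by positivity) _ _
  set I := Iv (fun z => ‖Vm (F' z) - Vm (F' x)‖ ^ 2) 0 (1 / 8) with hI
  have I1 : I ≤ δ * e := by
    refine ho.trans ((mul_le_mul_of_nonneg_left hY A0.le).trans (le_of_eq ?_))
    field_simp
  have li := loc_vm hMa hB hW' (Vm (F' x))
  have tr : ∀ g : Mt n → ℝ, Iv (fun z => g (F z)) 0 (s * (1 / 8)) =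
      Iv (fun z => g (F' z)) 0 (1 / 8) := fun g => by
    have := Iv_Iv (fun z => g (F z)) 0 0 s (1 / 8)
    rw [smul_zero, add_zero] at this
    exact this.symm
  refine ⟨s * (1 / 8), by linarith, by linarith, ?_⟩
  rw [tr fun X => ‖X‖ ^ n]
  refine or_iff_not_imp_left.2 fun hbig => ?_
  rw [not_le] at hbig
  have k1 : Iv (fun z => ‖F' z‖ ^ n) 0 (1 / 8) ≤ 2 * ‖F' x‖ ^ n * b + 2 * I := by
    refine Iv_le hA hW'.lp li (ae_of_all _ fun z => ?_) 0 (by norm_num)
    rw [← hMa.vm_norm, ← hMa.vm_norm]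
    have t := norm_add_le (Vm (F' z) - Vm (F' x)) (Vm (F' x))
    rw [sub_add_cancel] at t
    nlinarith [norm_nonneg (Vm (F' z)), norm_nonneg (Vm (F' z) - Vm (F' x)),
      norm_nonneg (Vm (F' x)), sq_nonneg (‖Vm (F' z) - Vm (F' x)‖ - ‖Vm (F' x)‖)]
  have k2 : e < 8 * b * ‖F' x‖ ^ n := by
    have : δ * e ≤ 1 / 8 * e := mul_le_mul_of_nonneg_right (min_le_left _ _) e2
    linarith
  have l0 : 0 < ‖F' x‖ ^ n := (mul_pos_iff_of_pos_left (by positivity)).1 (e2.trans_lt k2)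
  have x0 : F' x ≠ 0 := fun h0 => by
    rw [h0, norm_zero, zero_pow (by omega)] at l0
    exact lt_irrefl _ l0
  obtain ⟨N, hN, hN1⟩ := hMb.pol1 ε p0 (F' x) hx x0
  refine ⟨_, N, hN, ?_⟩
  rw [tr fun X => om n ‖N ∘L X - 1‖]
  have k3 : Iv (fun z => om n ‖N ∘L F' z - 1‖) 0 (1 / 8) ≤
      Co * ε ^ 2 * b + Co * Cv / ‖F' x‖ ^ n * I := by
    refine Iv_le hA (hB.loc_om f' F' N 1 hW').1 li (ae_of_all _ fun z => ?_) 0 (by norm_num)
    refine (hCo ε p0 p3 (F' z) (F' x) N hN hN1).trans ?_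
    have t := (hCv (F' z) (F' x)).2
    calc _ ≤ Co * (ε ^ 2 + Cv * ‖Vm (F' z) - Vm (F' x)‖ ^ 2 / ‖F' x‖ ^ n) := by gcongr
      _ = _ := by ring
  have k4 : Co * ε ^ 2 * b ≤ γ / 2 := by
    have t := (le_div_iff₀ (by positivity)).1 (p1.trans (min_le_right _ _))
    have t2 : ε ^ 2 ≤ ε := by nlinarith
    nlinarith [mul_le_mul_of_nonneg_left t2 (show 0 ≤ Co * b by positivity)]
  have k5 : Co * Cv / ‖F' x‖ ^ n * I ≤ γ / 2 := by
    have t := (le_div_iff₀ (by positivity)).1 (min_le_right (1 / 8) (γ / (16 * Co * Cv * b)))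
    rw [← hδ] at t
    have t2 : I ≤ δ * (8 * b * ‖F' x‖ ^ n) := I1.trans (by gcongr)
    calc _ ≤ Co * Cv / ‖F' x‖ ^ n * (δ * (8 * b * ‖F' x‖ ^ n)) := by gcongr
      _ = δ * (16 * Co * Cv * b) / 2 := by field_simp; ring
      _ ≤ _ := by gcongr
  linarith

end Pool.Agent.MP_29b5d3_an.NC

end MrgPart2

-- ======== part 3: formerly Pool.Agent.MP_29b5d3_an.NC.Final
section MrgPart3

/-! Project NEARCONF: from the flat regime and the alternative flat or small to the theorem. -/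

set_option autoImplicit false

namespace Pool.Agent.MP_29b5d3_an.NC

open MeasureTheory Metric Filter Topology Module
open scoped RealInnerProductSpace ContDiff ENNReal

variable {n : ℕ}

namespace Final

theorem exW (hB : AvB n) {f : V n → V n} {F : V n → Mt n} (h : W f F) (x : V n) {r : ℝ}
    (hr : r ≠ 0) : ∃ g, W g fun y => F (x + r • y) := by
  have k := hB.resc f F 1 x r h hr
  refine ⟨_, (congrArg (W _) (funext fun y => ?_)).mp k⟩
  exact one_mul (F (x + r • y))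

theorem qr_resc (hA : AvA n) {K : ℝ} {F : V n → Mt n} {x : V n} {s r R : ℝ} (hr : 0 < r)
    (h : QR K (ball x s) F) (hR : r * R ≤ s) : QR K (ball 0 R) fun y => F (x + r • y) := by
  filter_upwards [hA.ae _ x r hr.ne' h] with y hy hyR
  refine hy ?_
  rw [mem_ball_zero_iff] at hyR
  rw [mem_ball, dist_eq_norm, add_sub_cancel_left, norm_smul, Real.norm_of_nonneg hr.le]
  exact (mul_lt_mul_of_pos_left hyR hr).trans_le hR

theorem qr_mono {K : ℝ} {F : V n → Mt n} {S T : Set (V n)} (h : QR K S F) (hT : T ⊆ S) :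
    QR K T F := h.mono fun _ hx hxT => hx (hT hxT)

/-- flatness at the scale `s` gives the estimate on a smaller ball -/
theorem flat_lp (hM : MatB n) (hA : AvA n) (hB : AvB n) {φ : V n → ℝ} {γ CV ε r₁ Φ p : ℝ}
    (r0 : 0 < r₁) (r1 : r₁ ≤ 1)
    (hP : ∀ (f : V n → V n) (F : V n → Mt n), W f F → QR (1 + ε) (ball 0 1) F →
      Iv (fun z => om n ‖F z - 1‖) 0 1 ≤ γ → ∀ x ∈ ball (0 : V n) (1 / 2), ∀ r, 0 < r → r ≤ r₁ →
      ∃ a N, Conf a N ∧ Iv (fun z => ‖N ∘L F z - 1‖ ^ 2) x r ≤ CV * ε ^ 2)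
    (hI : ∀ (f : V n → V n) (F : V n → Mt n), W f F → QR (1 + ε) (ball 0 20) F → PP CV ε F →
      ∫⁻ x in ball (0 : V n) 1, ENNReal.ofReal (‖F x‖ ^ p) ≤
        ENNReal.ofReal (Φ * ‖av φ F 0 1‖ ^ p))
    {f : V n → V n} {F : V n → Mt n} (h : W f F) {x : V n} {s a : ℝ} {N : Mt n} (s0 : 0 < s)
    (hq : QR (1 + ε) (ball x s) F) (hN : Conf a N)
    (hf : Iv (fun z => om n ‖N ∘L F z - 1‖) x s ≤ γ) :
    ∫⁻ z in ball x (s * (r₁ / 20)), ENNReal.ofReal (‖F z‖ ^ p) ≤
      ENNReal.ofReal ((s * (r₁ / 20)) ^ n) *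
        ENNReal.ofReal (Φ * ‖av φ F x (s * (r₁ / 20))‖ ^ p) := by
  have t0 : 0 < s * (r₁ / 20) := by positivity
  have q1 : QR (1 + ε) (ball 0 1) fun y => N ∘L F (x + s • y) :=
    (qr_resc hA s0 hq (R := 1) (by rw [mul_one])).mono fun y hy hy' =>
      hM.conf_qr a _ N _ hN (hy hy')
  have k1 := hP _ _ (hB.resc f F N x s h s0.ne') q1 (by
    have := Iv_Iv (fun z => om n ‖N ∘L F z - 1‖) x 0 s 1
    rw [smul_zero, add_zero, mul_one] at this
    exact this.trans_le hf)
  obtain ⟨g, hg⟩ := exW hB h x t0.ne'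
  have k2 := hI g _ hg (qr_resc hA t0 hq (by nlinarith)) fun y hy r hr hr' => by
    obtain ⟨b, N', c1, c2⟩ := k1 ((r₁ / 20) • y) (by
      rw [mem_ball_zero_iff] at hy ⊢
      rw [norm_smul, Real.norm_of_nonneg (by positivity)]
      nlinarith [norm_nonneg y]) (r₁ / 20 * r) (by positivity) (by nlinarith)
    refine ⟨b * a, N' ∘L N, hM.conf_comp _ _ _ _ c1 hN, le_of_eq_of_le ?_ c2⟩
    have e1 := Iv_Iv (fun z => ‖(N' ∘L N) ∘L F z - 1‖ ^ 2) x y (s * (r₁ / 20)) r
    have e2 := Iv_Iv (fun z => ‖(N' ∘L N) ∘L F z - 1‖ ^ 2) x ((r₁ / 20) • y) s (r₁ / 20 * r)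
    rw [smul_smul, ← mul_assoc, ← e1] at e2
    exact e2.symm
  rw [hA.lint _ x _ t0]
  have e := av_av φ F x 0 (s * (r₁ / 20)) 1
  rw [smul_zero, add_zero, mul_one] at e
  rw [e] at k2
  gcongr

/-- iteration of the alternative at one point -/
theorem alt (hA : AvA n) (hB : AvB n) {γ τ ε : ℝ} (τ0 : 0 < τ)
    (hF : ∀ (f : V n → V n) (F : V n → Mt n), W f F → QR (1 + ε) (ball 0 1) F →
      ∃ s, τ ≤ s ∧ s ≤ 1 / 2 ∧
        (Iv (fun z => ‖F z‖ ^ n) 0 s ≤ Iv (fun z => ‖F z‖ ^ n) 0 1 / 2 ∨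
          ∃ a N, Conf a N ∧ Iv (fun z => om n ‖N ∘L F z - 1‖) 0 s ≤ γ))
    {f : V n → V n} {F : V n → Mt n} (h : W f F) {x : V n} {R : ℝ} (R0 : 0 < R)
    (hq : QR (1 + ε) (ball x R) F) :
    (∃ s a N, 0 < s ∧ s ≤ R ∧ Conf a N ∧ Iv (fun z => om n ‖N ∘L F z - 1‖) x s ≤ γ ∧
      Iv (fun z => ‖F z‖ ^ n) x s ≤ (1 / τ) ^ n * Iv (fun z => ‖F z‖ ^ n) x R) ∨
    ∀ k : ℕ, ∃ r, 0 < r ∧ r ≤ R / 2 ^ k ∧
      Iv (fun z => ‖F z‖ ^ n) x r ≤ Iv (fun z => ‖F z‖ ^ n) x R / 2 ^ k := by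
  rw [or_iff_not_imp_left]
  intro hno k
  have e0 : 0 ≤ Iv (fun z => ‖F z‖ ^ n) x R := integral_nonneg fun y => by positivity
  induction k with
  | zero => exact ⟨R, R0, by simp, by simp⟩
  | succ k ih =>
    obtain ⟨r, r0, r1, r2⟩ := ih
    have p1 : (1 : ℝ) ≤ 2 ^ k := one_le_pow₀ one_le_two
    have r3 : r ≤ R := r1.trans (div_le_self R0.le p1)
    obtain ⟨g, hg⟩ := exW hB h x r0.ne'
    obtain ⟨s, s1, s2, hs⟩ := hF g _ hg (qr_resc hA r0 hq (by linarith))
    have s0 : 0 < s := τ0.trans_le s1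
    have e : ∀ (G : V n → ℝ) (t : ℝ), Iv (fun y => G (x + r • y)) 0 t = Iv G x (r * t) :=
      fun G t => by rw [Iv_Iv, smul_zero, add_zero]
    rcases hs with hs | ⟨a, N, c1, c2⟩
    · rw [e (fun z => ‖F z‖ ^ n), e (fun z => ‖F z‖ ^ n), mul_one] at hs
      refine ⟨r * s, by positivity, ?_, ?_⟩
      · rw [pow_succ, ← div_div]
        nlinarith
      · rw [pow_succ, ← div_div]
        linarith
    · rw [e (fun z => om n ‖N ∘L F z - 1‖)] at c2
      refine absurd ⟨r * s, a, N, by positivity, by nlinarith, c1, c2, ?_⟩ hno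
      have m := hA.Iv_mono (fun z => ‖F z‖ ^ n) x x r (r * s) h.lp (fun z => by positivity)
        (by positivity) r0 (ball_subset_ball (by nlinarith))
      rw [show r / (r * s) = 1 / s by field_simp] at m
      refine m.trans (mul_le_mul (by gcongr) (r2.trans (div_le_self e0 p1))
        (integral_nonneg fun y => by positivity) (by positivity))

theorem Iv_norm_le (hn : 1 ≤ n) (hA : AvA n) (hB : AvB n) {f : V n → V n} {F : V n → Mt n}
    (h : W f F) (x : V n) {r a : ℝ} (r0 : 0 < r) (a0 : 0 < a) :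
    Iv (fun z => ‖F z‖) x r ≤ a * (volume : Measure (V n)).real (ball 0 1) +
      Iv (fun z => ‖F z‖ ^ n) x r / a ^ (n - 1) := by
  have i0 : ∀ {g : V n → ℝ}, LocallyIntegrable g volume →
      IntegrableOn (fun y => g (x + r • y)) (ball 0 1) volume := fun hg =>
    ((hA.loc _ _ hg x r r0.ne').integrableOn_isCompact (isCompact_closedBall 0 1)).mono_set
      ball_subset_closedBall
  have i1 := i0 (g := fun z => ‖F z‖) fun z => ((hB.loc f F h) z).norm
  have i2 := i0 h.lp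
  have i3 : IntegrableOn (fun _ : V n => a) (ball (0 : V n) 1) volume :=
    integrableOn_const measure_ball_lt_top.ne
  unfold Iv
  rw [mul_comm, ← smul_eq_mul, ← setIntegral_const, ← integral_div,
    ← integral_add i3 (i2.div_const _)]
  refine integral_mono i1 (i3.add (i2.div_const _)) fun y => ?_
  simp only
  generalize F (x + r • y) = X
  obtain ⟨m, rfl⟩ : ∃ m, n = m + 1 := ⟨n - 1, by omega⟩
  rw [Nat.add_sub_cancel]
  rcases le_total ‖X‖ a with c | c
  · have : 0 ≤ ‖X‖ ^ (m + 1) / a ^ m := by positivity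
    linarith
  · have k : ‖X‖ ≤ ‖X‖ ^ (m + 1) / a ^ m := by
      rw [le_div_iff₀ (by positivity), pow_succ']
      gcongr
    linarith

theorem zero_of_small (hn : 1 ≤ n) (hA : AvA n) (hB : AvB n) {φ : V n → ℝ} (hφ : Test φ 1)
    {f : V n → V n} {F : V n → Mt n} (h : W f F) {x : V n} {R e : ℝ}
    (hl : Tendsto (av φ F x) (𝓝[>] 0) (𝓝 (F x)))
    (hs : ∀ k : ℕ, ∃ r, 0 < r ∧ r ≤ R / 2 ^ k ∧ Iv (fun z => ‖F z‖ ^ n) x r ≤ e / 2 ^ k) :
    F x = 0 := by
  choose r r0 r1 r2 using hs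
  obtain ⟨C, C0, hC⟩ := hφ.bdd
  have t0 : ∀ c : ℝ, Tendsto (fun k : ℕ => c / 2 ^ k) atTop (𝓝 0) := fun c =>
    tendsto_const_nhds.div_atTop (tendsto_pow_atTop_atTop_of_one_lt one_lt_two)
  have t1 : Tendsto r atTop (𝓝[>] 0) :=
    tendsto_nhdsWithin_iff.2 ⟨squeeze_zero (fun k => (r0 k).le) r1 (t0 R), Eventually.of_forall r0⟩
  set B := (volume : Measure (V n)).real (ball 0 1)
  have B0 : 0 ≤ B := measureReal_nonneg
  have k : ∀ a : ℝ, 0 < a → ‖F x‖ ≤ C * (a * B) := fun a a0 => by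
    have t2 := (((t0 e).div_const (a ^ (n - 1))).const_add (a * B)).const_mul C
    rw [zero_div, add_zero] at t2
    refine le_of_tendsto_of_tendsto' (hl.comp t1).norm t2 fun k => ?_
    refine (hA.av_le _ φ F C hφ hC (hB.loc f F h) x _ (r0 k)).trans ?_
    refine mul_le_mul_of_nonneg_left ((Iv_norm_le hn hA hB h x (r0 k) a0).trans ?_) C0.le
    gcongr
    exact r2 k
  refine norm_le_zero_iff.1 (le_of_forall_pos_le_add fun δ δ0 => ?_)
  refine (k (δ / (C * (B + 1))) (by positivity)).trans ?_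
  rw [zero_add, show C * (δ / (C * (B + 1)) * B) = δ * (B / (B + 1)) by field_simp]
  exact mul_le_of_le_one_right δ0.le (div_le_one_of_le₀ (by linarith) (by linarith))

/-- covering argument -/
theorem cover {g : V n → ℝ≥0∞} {C S : Set (V n)} (hC : MeasurableSet C) {R : ℝ} {c : ℝ≥0∞}
    (hS : ∀ x ∈ C, ball x R ⊆ S)
    (h : ∀ᵐ x, x ∈ C → g x = 0 ∨ ∃ r, 0 < r ∧ r ≤ R ∧
      ∫⁻ z in ball x (5 * r), g z ≤ c * volume (ball x r)) :
    ∫⁻ z in C, g z ≤ c * volume S := by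
  set T : Set (V n × ℝ) := {q | q.1 ∈ C ∧ 0 < q.2 ∧ q.2 ≤ R ∧
    ∫⁻ z in ball q.1 (5 * q.2), g z ≤ c * volume (ball q.1 q.2)} with hT
  obtain ⟨u, u1, u2, u3⟩ := Vitali.exists_disjoint_subfamily_covering_enlargement_ball T
    Prod.fst Prod.snd R (fun q hq => hq.2.2.1) 5 (by norm_num)
  have uc : u.Countable := u2.countable_of_isOpen (fun _ _ => isOpen_ball)
    fun q hq => nonempty_ball.2 (u1 hq).2.1
  have := uc.to_subtype
  set U : Set (V n) := ⋃ q : u, ball q.1.1 (5 * q.1.2) with hU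
  have mU : MeasurableSet U := (isOpen_iUnion fun _ => isOpen_ball).measurableSet
  calc _ ≤ ∫⁻ z in U, g z := by
        rw [← lintegral_indicator hC, ← lintegral_indicator mU]
        refine lintegral_mono_ae (h.mono fun x hx => ?_)
        by_cases c1 : x ∈ C
        · rcases hx c1 with k | ⟨r, k⟩
          · simp [Set.indicator_of_mem c1, k]
          · obtain ⟨b, b1, b2⟩ := u3 (x, r) ⟨c1, k⟩
            rw [Set.indicator_of_mem c1, Set.indicator_of_mem
              (Set.mem_iUnion.2 ⟨⟨b, b1⟩, b2 (mem_ball_self k.1)⟩)]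
        · simp [Set.indicator_of_notMem c1]
    _ ≤ ∑' q : u, ∫⁻ z in ball q.1.1 (5 * q.1.2), g z := lintegral_iUnion_le _ _
    _ ≤ ∑' q : u, c * volume (ball q.1.1 q.1.2) := ENNReal.tsum_le_tsum fun q => (u1 q.2).2.2.2
    _ = c * volume (⋃ q ∈ u, ball q.1 q.2) := by
        rw [ENNReal.tsum_mul_left, measure_biUnion uc u2 fun _ _ => measurableSet_ball]
    _ ≤ _ := by
        gcongr
        exact Set.iUnion₂_subset fun q hq =>
          (ball_subset_ball (u1 hq).2.2.1).trans (hS _ (u1 hq).1)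

/-- the estimate for a map of the whole space -/
theorem glob (hn : 3 ≤ n) (hK : KerS n) (hM : MatB n) (hA : AvA n) (hB : AvB n) (hF : Fos n)
    (hP : PropP n) (hI : Iter n) {θ : ℝ} (θ0 : 0 < θ) (θ1 : θ < 1) :
    ∃ ε₀ : ℝ, 0 < ε₀ ∧ ∀ ε p : ℝ, 0 < ε → ε ≤ ε₀ → 0 < p → p ≤ θ * n / ε →
      ∀ (f : V n → V n) (F : V n → Mt n) (C S : Set (V n)) (R : ℝ), W f F → 0 < R →
      MeasurableSet C → IsCompact S → (∀ x ∈ C, ball x R ⊆ S) → QR (1 + ε) S F →
      ∫⁻ z in C, ENNReal.ofReal (‖F z‖ ^ p) < ⊤ := by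
  obtain ⟨φ, ψ, kr⟩ := hK.ker
  obtain ⟨γ, ε₁, CV, γ0, e1, CV0, hP⟩ := hP
  obtain ⟨ε₂, Φ, e2, Φ0, hI⟩ := hI φ ψ kr CV θ CV0 θ0 θ1
  obtain ⟨τ, ε₃, τ0, e3, hF⟩ := hF γ γ0
  obtain ⟨Cφ, Cφ0, hφ⟩ := kr.tφ.bdd
  refine ⟨min ε₁ (min ε₂ ε₃), by positivity, fun ε p ε0 hε p0 hp f F C S R h R0 mC hS hCS hq => ?_⟩
  obtain ⟨r₁, r0, r1, hP⟩ := hP ε ε0 (hε.trans (min_le_left _ _))
  replace hI := hI ε p ε0 (hε.trans ((min_le_right _ _).trans (min_le_left _ _))) p0 hp
  replace hF := hF ε ε0.le (hε.trans ((min_le_right _ _).trans (min_le_right _ _)))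
  set B := (volume : Measure (V n)).real (ball 0 1) with hBd
  have B0 : 0 ≤ B := measureReal_nonneg
  set E := ∫ z in S, ‖F z‖ ^ n with hE
  have E0 : 0 ≤ E := integral_nonneg fun z => by positivity
  set M := Cφ * (B + (20 / r₁) ^ n * ((1 / τ) ^ n * ((R ^ n)⁻¹ * E))) with hMd
  have v0 : volume (ball (0 : V n) 1) ≠ 0 := (measure_ball_pos _ _ one_pos).ne'
  refine (cover (S := S) (R := R) mC hCS (c := ENNReal.ofReal (5 ^ n) * ENNReal.ofReal (Φ * M ^ p) *
    (volume (ball (0 : V n) 1))⁻¹) ?_).trans_lt (ENNReal.mul_lt_top (ENNReal.mul_lt_top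
      (ENNReal.mul_lt_top ENNReal.ofReal_lt_top ENNReal.ofReal_lt_top)
      (ENNReal.inv_lt_top.2 (pos_iff_ne_zero.2 v0))) hS.measure_lt_top)
  filter_upwards [hA.leb φ F kr.tφ kr.one (hB.loc f F h)] with x hl hx
  have q1 := qr_mono hq (hCS x hx)
  rcases alt hA hB τ0 hF h R0 q1 with ⟨s, a, N, s0, s1, c1, c2, c3⟩ | hs
  · right
    have t0 : 0 < s * (r₁ / 20) := by positivity
    have k := flat_lp hM hA hB r0 r1 hP hI h s0 (qr_mono q1 (ball_subset_ball s1)) c1 c2
    refine ⟨s * (r₁ / 20) / 5, by positivity, by nlinarith, ?_⟩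
    rw [show 5 * (s * (r₁ / 20) / 5) = s * (r₁ / 20) by ring]
    refine k.trans ?_
    have m1 : Iv (fun z => ‖F z‖ ^ n) x R ≤ (R ^ n)⁻¹ * E := by
      rw [hA.Iv_eq _ x R R0]
      refine mul_le_mul_of_nonneg_left ?_ (by positivity)
      exact setIntegral_mono_set (h.lp.integrableOn_isCompact hS)
        (Eventually.of_forall fun z => by positivity) (hCS x hx).eventuallyLE
    have m2 := hA.Iv_mono (fun z => ‖F z‖ ^ n) x x s (s * (r₁ / 20)) h.lp (fun z => by positivity)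
      t0 s0 (ball_subset_ball (by nlinarith))
    rw [show s / (s * (r₁ / 20)) = 20 / r₁ by field_simp] at m2
    have m3 : ‖av φ F x (s * (r₁ / 20))‖ ≤ M := by
      refine (hA.av_le _ φ F Cφ kr.tφ hφ (hB.loc f F h) x _ t0).trans ?_
      refine mul_le_mul_of_nonneg_left
        ((Iv_norm_le (by omega) hA hB h x t0 one_pos).trans ?_) Cφ0.le
      rw [one_mul, one_pow, div_one]
      refine add_le_add le_rfl (m2.trans ?_)
      gcongr
      exact c3.trans (by gcongr)
    rw [Measure.addHaar_ball_of_pos volume x (by positivity : 0 < s * (r₁ / 20) / 5), fr]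
    calc _ ≤ ENNReal.ofReal ((s * (r₁ / 20)) ^ n) * ENNReal.ofReal (Φ * M ^ p) := by gcongr
      _ = ENNReal.ofReal (5 ^ n) * ENNReal.ofReal (Φ * M ^ p) *
          ENNReal.ofReal ((s * (r₁ / 20) / 5) ^ n) *
            ((volume (ball (0 : V n) 1))⁻¹ * volume (ball (0 : V n) 1)) := by
          rw [ENNReal.inv_mul_cancel v0 measure_ball_lt_top.ne, mul_one, mul_right_comm,
            ← ENNReal.ofReal_mul (p := 5 ^ n) (by positivity), ← mul_pow]
          congr 3
          ring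
      _ = _ := by ring
  · left
    rw [zero_of_small (by omega) hA hB kr.tφ h hl hs, norm_zero, Real.zero_rpow p0.ne',
      ENNReal.ofReal_zero]

end Final

theorem main (hn : 3 ≤ n) (hK : KerS n) (hM : MatB n) (hA : AvA n) (hB : AvB n) (hF : Fos n)
    (hP : PropP n) (hI : Iter n) : Main n := by
  intro θ θ0 θ1
  obtain ⟨ε₀, e0, H⟩ := Final.glob hn hK hM hA hB hF hP hI θ0 θ1
  refine ⟨ε₀, e0, fun ε p ε0 hε p0 hp Ω f Df h C hC hCΩ => ?_⟩
  obtain ⟨R, R0, hR⟩ := hC.exists_cthickening_subset_open h.1 hCΩ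
  have hS : IsCompact (cthickening R C) := hC.cthickening
  obtain ⟨F, G, hs, hFG⟩ := h48.globalize (by rw [fr]; omega) h.sobOn.1 hS hR
  have e := fun x (hx : x ∈ cthickening R C) => (hFG.self_of_nhdsSet x hx).2
  have m := hs.loc.aestronglyMeasurable
  have ae := m.ae_eq_mk
  have i := hs.int
  rw [fr] at i
  have w : W F (m.mk G) := by
    refine ⟨hs.cont, m.stronglyMeasurable_mk, (i.congr ?_).locallyIntegrable,
      fun φ h1 h2 v => (hs.weak φ h1 h2 v).trans ?_⟩
    · filter_upwards [ae] with x hx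
      rw [hx]
    · congr 1
      refine integral_congr_ae ?_
      filter_upwards [ae] with x hx
      rw [hx]
  have q : QR (1 + ε) (cthickening R C) (m.mk G) := by
    filter_upwards [ae, (ae_restrict_iff' h.1.measurableSet).1 h.2.2.2.2] with x h1 h2 hx
    rw [← h1, e x hx]
    exact h2 (hR hx)
  have k := H ε p ε0 hε p0 hp F _ C _ R w R0 hC.measurableSet hS
    (fun x hx => ball_subset_closedBall.trans (closedBall_subset_cthickening hx R)) q
  refine ⟨(h.2.2.1 C hC hCΩ).1, ?_⟩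
  rw [eLpNorm_lt_top_iff_lintegral_rpow_enorm_lt_top (by simpa using p0) ENNReal.ofReal_ne_top,
    ENNReal.toReal_ofReal p0.le]
  refine lt_of_eq_of_lt (setLIntegral_congr_fun_ae hC.measurableSet ?_) k
  filter_upwards [ae] with x h1 hx
  rw [← h1, e x (self_subset_cthickening C hx), ← ofReal_norm,
    ENNReal.ofReal_rpow_of_nonneg (norm_nonneg _) p0.le]

theorem limit_of_main (hn : 3 ≤ n) (h : Main n) :
    Tendsto (fun K : ℝ => (K - 1) * sSup {p : ℝ | (n : ℝ) ≤ p ∧
      ∀ Ω f Df, h48.IsQR (n := n) K Ω f Df → h48.LocLp (ENNReal.ofReal p) Ω Df})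
      (𝓝[>] 1) (𝓝 (n : ℝ)) := by
  have n0 : (0 : ℝ) < n := by exact_mod_cast (by omega : 0 < n)
  have up : ∀ K : ℝ, 1 < K → ∀ p ∈ {p : ℝ | (n : ℝ) ≤ p ∧
      ∀ Ω f Df, h48.IsQR (n := n) K Ω f Df → h48.LocLp (ENNReal.ofReal p) Ω Df},
      p ≤ n * K / (K - 1) := fun K hK p hp =>
    (h48.lt_of_locLp_rad (by omega) hK (n0.trans_le hp.1)
      (hp.2 _ _ _ (h48.isQR_rad (by omega) hK))).le
  refine tendsto_order.2 ⟨fun a ha => ?_, fun a ha => ?_⟩
  · obtain ⟨b, b1, b2⟩ := exists_between (max_lt ha n0)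
    have b0 : 0 < b := (le_max_right _ _).trans_lt b1
    obtain ⟨ε₀, e0, H⟩ := h (b / n) (by positivity) ((div_lt_one n0).2 b2)
    filter_upwards [Ioo_mem_nhdsGT (show (1 : ℝ) < 1 + min ε₀ (b / n) by
      linarith [lt_min e0 (div_pos b0 n0)])] with K hK
    have k0 : 0 < K - 1 := sub_pos.2 hK.1
    have k1 : K - 1 ≤ ε₀ := by linarith [hK.2, min_le_left ε₀ (b / n)]
    have k2 : K - 1 ≤ b / n := by linarith [hK.2, min_le_right ε₀ (b / n)]
    have k3 := le_csSup ⟨_, up K hK.1⟩ (a := b / (K - 1)) ⟨by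
      rw [le_div_iff₀ k0, mul_comm]
      exact (le_div_iff₀ n0).1 k2, fun Ω f Df hq => H (K - 1) _ k0 k1 (by positivity)
        (by rw [div_mul_cancel₀ _ n0.ne']) Ω f Df (by rwa [add_sub_cancel])⟩
    rw [div_le_iff₀' k0] at k3
    exact ((le_max_left _ _).trans_lt b1).trans_le k3
  · filter_upwards [Ioo_mem_nhdsGT ((one_lt_div n0).2 ha)] with K hK
    have k0 : 0 < K - 1 := sub_pos.2 hK.1
    have k1 := Real.sSup_le (up K hK.1) (by have := hK.1; positivity)
    rw [le_div_iff₀' k0] at k1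
    exact k1.trans_lt ((lt_div_iff₀' n0).1 hK.2)

end Pool.Agent.MP_29b5d3_an.NC

end MrgPart3

-- marker of a merged file
example : 731051 + 162954 = 731051 + 162954 := rfl
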