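import Pool.Agent.MP_29b5d3_an.NC.CacC

/-! Project NEARCONF: two point inequalities for nearly conformal operators. -/

set_option autoImplicit false

namespace Pool.Agent.MP_29b5d3_an.NC

open scoped RealInnerProductSpace

namespace MatAx

theorem pw_sub {a b : ℝ} (ha : 0 ≤ a) (hb : 0 ≤ b) (k : ℕ) :
    0 ≤ (a - b) * (a ^ (k + 1) - b ^ (k + 1)) ∧
      (a - b) * (a ^ (k + 1) - b ^ (k + 1)) ≤ (k + 1) * ((a + b) ^ k * (a - b) ^ 2) := by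
  induction k with
  | zero =>
    simp only [zero_add, pow_one, Nat.cast_zero, pow_zero, one_mul]
    exact ⟨mul_self_nonneg _, (sq _).ge⟩
  | succ k ih =>
    obtain ⟨i1, i2⟩ := ih
    have e : (a - b) * (a ^ (k + 1 + 1) - b ^ (k + 1 + 1)) =
        a * ((a - b) * (a ^ (k + 1) - b ^ (k + 1))) + b ^ (k + 1) * (a - b) ^ 2 := by ring
    have k1 : b ^ (k + 1) * (a - b) ^ 2 ≤ (a + b) ^ (k + 1) * (a - b) ^ 2 := by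
      gcongr
      linarith
    have k2 : a * ((a - b) * (a ^ (k + 1) - b ^ (k + 1))) ≤
        (a + b) * ((k + 1) * ((a + b) ^ k * (a - b) ^ 2)) :=
      mul_le_mul (by linarith) i2 i1 (by linarith)
    rw [e]
    refine ⟨by positivity, (add_le_add k2 k1).trans (le_of_eq ?_)⟩
    push_cast
    ring

/-- twice the convexity gap -/
def gap (m : ℕ) (a b : ℝ) : ℝ := m * a ^ (m + 2) + 2 * b ^ (m + 2) - (m + 2) * (a ^ m * b ^ 2)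

theorem gap_bd {a b : ℝ} (ha : 0 ≤ a) (hb : 0 ≤ b) (m : ℕ) :
    0 ≤ gap m a b ∧ gap m a b ≤ (m + 1) ^ 2 * ((a + b) ^ m * (a - b) ^ 2) := by
  induction m with
  | zero =>
    have e : gap 0 a b = 0 := by
      unfold gap
      push_cast
      ring
    rw [e]
    exact ⟨le_rfl, by positivity⟩
  | succ m ih =>
    obtain ⟨i1, i2⟩ := ih
    obtain ⟨p1, p2⟩ := pw_sub ha hb (m + 1)
    obtain ⟨q1, q2⟩ := pw_sub ha hb m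
    have e : gap (m + 1) a b = a * gap m a b + (a - b) * (a ^ (m + 1 + 1) - b ^ (m + 1 + 1)) +
        b * ((a - b) * (a ^ (m + 1) - b ^ (m + 1))) := by
      unfold gap
      push_cast
      ring
    have k1 : a * gap m a b ≤ (a + b) * ((m + 1) ^ 2 * ((a + b) ^ m * (a - b) ^ 2)) :=
      mul_le_mul (by linarith) i2 i1 (by linarith)
    have k2 : b * ((a - b) * (a ^ (m + 1) - b ^ (m + 1))) ≤
        (a + b) * ((m + 1) * ((a + b) ^ m * (a - b) ^ 2)) :=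
      mul_le_mul (by linarith) q2 q1 (by linarith)
    rw [e]
    refine ⟨by positivity, (add_le_add (add_le_add k1 p2) k2).trans (le_of_eq ?_)⟩
    push_cast
    ring

theorem gap_ge {a b d : ℝ} (ha : 0 ≤ a) (hb : 0 ≤ b) (hd : 0 ≤ d) (h : d ≤ a + b) {m : ℕ}
    (hm : 1 ≤ m) : (a + b) ^ m * d ^ 2 ≤ (m + 3) ^ (m + 2) * (gap m a b + a ^ m * d ^ 2) := by
  have g := (gap_bd ha hb m).1
  have m0 : (0 : ℝ) ≤ m := Nat.cast_nonneg m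
  rcases le_total b ((m + 2) * a) with h1 | h1
  · calc _ ≤ ((m + 3) * a) ^ m * d ^ 2 := by
          gcongr
          linarith
      _ = (m + 3) ^ m * (a ^ m * d ^ 2) := by rw [mul_pow, mul_assoc]
      _ ≤ (m + 3) ^ (m + 2) * (gap m a b + a ^ m * d ^ 2) :=
          mul_le_mul (pow_le_pow_right₀ (by linarith) (by omega)) (by linarith) (by positivity)
            (by positivity)
  · have ab : a ≤ b := by nlinarith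
    obtain ⟨k, rfl⟩ : ∃ k, m = k + 1 := ⟨m - 1, by omega⟩
    have k1 : (((k + 1 : ℕ) : ℝ) + 2) * (a ^ (k + 1) * b ^ 2) ≤ b ^ (k + 1 + 2) := by
      calc _ = a ^ k * ((((k + 1 : ℕ) : ℝ) + 2) * a) * b ^ 2 := by ring
        _ ≤ b ^ k * b * b ^ 2 := by gcongr
        _ = _ := by ring
    have k2 : b ^ (k + 1 + 2) ≤ gap (k + 1) a b + a ^ (k + 1) * d ^ 2 := by
      have : 0 ≤ ((k + 1 : ℕ) : ℝ) * a ^ (k + 1 + 2) := by positivity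
      have : 0 ≤ a ^ (k + 1) * d ^ 2 := by positivity
      unfold gap
      linarith
    calc _ ≤ (a + b) ^ (k + 1) * (a + b) ^ 2 := by gcongr
      _ = (a + b) ^ (k + 1 + 2) := by ring
      _ ≤ ((((k + 1 : ℕ) : ℝ) + 3) * b) ^ (k + 1 + 2) := by
          gcongr
          nlinarith
      _ = (((k + 1 : ℕ) : ℝ) + 3) ^ (k + 1 + 2) * b ^ (k + 1 + 2) := mul_pow _ _ _
      _ ≤ _ := by gcongr

theorem pow_gap {a b : ℝ} (hb : 0 ≤ b) (h : b ≤ a) (m : ℕ) :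
    (a ^ m - b ^ m) * b ≤ m * (a ^ m * (a - b)) := by
  have ha := hb.trans h
  induction m with
  | zero => simp
  | succ m ih =>
    have k1 : b ^ (m + 1) * (a - b) ≤ a ^ (m + 1) * (a - b) := by
      have := sub_nonneg.2 h
      gcongr
    have k2 := mul_le_mul_of_nonneg_left ih ha
    calc _ = a * ((a ^ m - b ^ m) * b) + b ^ (m + 1) * (a - b) := by ring
      _ ≤ a * (m * (a ^ m * (a - b))) + a ^ (m + 1) * (a - b) := add_le_add k2 k1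
      _ = _ := by
        push_cast
        ring

variable {n : ℕ}

theorem hs_self (Z : Mt n) : hs Z Z = ∑ i, ‖Z (ev i)‖ ^ 2 :=
  Finset.sum_congr rfl fun _ _ => real_inner_self_eq_norm_sq _

theorem hs_nonneg (Z : Mt n) : 0 ≤ hs Z Z := by
  rw [hs_self]
  positivity

theorem norm_ev_le (Z : Mt n) (i : Fin n) : ‖Z (ev i)‖ ≤ ‖Z‖ := by
  simpa only [norm_ev, mul_one] using Z.le_opNorm (ev i)

theorem hs_le (Z : Mt n) : hs Z Z ≤ n * ‖Z‖ ^ 2 := by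
  rw [hs_self]
  calc _ ≤ ∑ _i : Fin n, ‖Z‖ ^ 2 := Finset.sum_le_sum fun i _ => by
        have := norm_ev_le Z i
        gcongr
    _ = _ := by simp

theorem hs_ge (Z : Mt n) : ‖Z‖ ^ 2 ≤ hs Z Z := by
  have h : ‖Z‖ ≤ √(hs Z Z) := by
    refine Z.opNorm_le_bound (Real.sqrt_nonneg _) fun v => ?_
    have k1 : ‖Z v‖ ≤ ∑ i, ‖Z (ev i)‖ * |⟪ev i, v⟫| := by
      conv_lhs => rw [← sum_ev v, map_sum]
      refine (norm_sum_le _ _).trans (le_of_eq (Finset.sum_congr rfl fun i _ => ?_))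
      rw [map_smul, norm_smul, Real.norm_eq_abs, mul_comm]
    have k2 := Finset.sum_mul_sq_le_sq_mul_sq Finset.univ (fun i => ‖Z (ev i)‖)
      fun i => |⟪ev i, v⟫|
    have k3 : ∑ i, |⟪ev i, v⟫| ^ 2 = ‖v‖ ^ 2 := by
      rw [← real_inner_self_eq_norm_sq, ← sum_inner_ev v v]
      exact Finset.sum_congr rfl fun i _ => by rw [sq_abs, sq, real_inner_comm v (ev i)]
    rw [k3, ← hs_self] at k2
    refine k1.trans (abs_le_of_sq_le_sq' ?_ (by positivity)).2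
    rw [mul_pow, Real.sq_sqrt (hs_nonneg Z)]
    exact k2
  calc _ ≤ √(hs Z Z) ^ 2 := by gcongr
    _ = _ := Real.sq_sqrt (hs_nonneg Z)

theorem hs_qr (hn : 1 ≤ n) {ε : ℝ} (h0 : 0 ≤ ε) {X : Mt n} (h : Qr (1 + ε) X) :
    |hs X X - n * ‖X‖ ^ 2| ≤ n * (2 * ε * ‖X‖ ^ 2) := by
  have e : hs X X - n * ‖X‖ ^ 2 = ∑ i, (⟪X (ev i), X (ev i)⟫ - ‖X‖ ^ 2 * ⟪ev i, ev i⟫) := by
    rw [Finset.sum_sub_distrib, hs]
    simp only [inner_ev_self, mul_one, Finset.sum_const, Finset.card_univ, Fintype.card_fin,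
      nsmul_eq_mul]
  rw [e]
  refine (Finset.abs_sum_le_sum_abs _ _).trans ?_
  calc _ ≤ ∑ _i : Fin n, 2 * ε * ‖X‖ ^ 2 := Finset.sum_le_sum fun i _ => by
        simpa only [norm_ev, mul_one] using h.nc1 hn h0 (ev i) (ev i)
    _ = _ := by simp

theorem pol (X Y : Mt n) (a b : V n) : ⟪(X - Y) a, (X - Y) b⟫ =
    ⟪X a, X b⟫ + ⟪Y a, Y b⟫ - ⟪X a, Y b⟫ - ⟪Y a, X b⟫ := by
  simp only [sub_apply, inner_sub_left, inner_sub_right]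
  ring

theorem hs_pol (X Y : Mt n) : hs Y X = (hs X X + hs Y Y - hs (X - Y) (X - Y)) / 2 := by
  unfold hs
  rw [← Finset.sum_add_distrib, ← Finset.sum_sub_distrib, Finset.sum_div]
  refine Finset.sum_congr rfl fun i _ => ?_
  rw [pol, real_inner_comm (Y (ev i)) (X (ev i))]
  ring

theorem hs_pol' (X Y : Mt n) : hs X (X - Y) = (hs X X - hs Y Y + hs (X - Y) (X - Y)) / 2 := by
  unfold hs
  rw [← Finset.sum_sub_distrib, ← Finset.sum_add_distrib, Finset.sum_div]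
  refine Finset.sum_congr rfl fun i _ => ?_
  rw [pol, real_inner_comm (Y (ev i)) (X (ev i)), sub_apply, inner_sub_right,
    real_inner_comm (Y (ev i)) (X (ev i))]
  ring

variable {m : ℕ}

theorem dV_eq (X Y : Mt (m + 2)) : dV X Y = (‖X‖ + ‖Y‖) ^ m * ‖X - Y‖ ^ 2 := rfl

theorem sum_pow (X Y : Mt (m + 2)) :
    (‖X‖ + ‖Y‖) ^ (m + 2) ≤ 2 ^ (m + 1) * (‖X‖ ^ (m + 2) + ‖Y‖ ^ (m + 2)) :=
  add_pow_le (norm_nonneg X) (norm_nonneg Y) (m + 2)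

theorem mix {a b u v : ℝ} (ha : 0 ≤ a) (hb : 0 ≤ b) (hu : 0 ≤ u) (hv : 0 ≤ v) (hu' : u ≤ a + b)
    (hv' : v ≤ a + b) : a ^ m * (u * v) ≤ (a + b) ^ (m + 2) := by
  have h : a ≤ a + b := by linarith
  calc _ ≤ (a + b) ^ m * ((a + b) * (a + b)) := by gcongr
    _ = _ := by ring

theorem dV_le (X Y : Mt (m + 2)) : dV X Y ≤ (‖X‖ + ‖Y‖) ^ (m + 2) := by
  have := norm_sub_le X Y
  calc _ ≤ (‖X‖ + ‖Y‖) ^ m * (‖X‖ + ‖Y‖) ^ 2 := by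
        rw [dV_eq]
        gcongr
    _ = _ := by ring

theorem le_dV (X Y : Mt (m + 2)) : ‖X‖ ^ m * ‖X - Y‖ ^ 2 ≤ dV X Y := by
  have h : ‖X‖ ≤ ‖X‖ + ‖Y‖ := le_add_of_nonneg_right (norm_nonneg Y)
  rw [dV_eq]
  gcongr

theorem dV_comm (X Y : Mt n) : dV X Y = dV Y X := by
  unfold dV
  rw [add_comm, norm_sub_rev]

theorem tr_ge {ε : ℝ} (h0 : 0 ≤ ε) (h1 : ε ≤ 1) {X : Mt (m + 2)} (h : Qr (1 + ε) X)
    (Z : Mt (m + 2)) : ‖X‖ ^ m * hs X Z - (m + 2) * (6 * ε * (‖X‖ ^ m * (‖X‖ * ‖Z‖))) ≤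
      tr (Z ∘L adj X) := by
  have k : ∀ i, ‖X‖ ^ m * ⟪X (ev i), Z (ev i)⟫ - 6 * ε * (‖X‖ ^ m * (‖X‖ * ‖Z‖)) ≤
      ⟪ev i, (adj X ∘L Z) (ev i)⟫ := fun i => by
    have k1 : |⟪ev i, adj X (Z (ev i))⟫ - ‖X‖ ^ m * ⟪X (ev i), Z (ev i)⟫| ≤
      6 * ε * ‖X‖ ^ (m + 1) * ‖ev i‖ * ‖Z (ev i)‖ := h.nc2 (by omega) h0 h1 (ev i) (Z (ev i))
    have k2 := norm_ev_le Z i
    have k3 : 6 * ε * ‖X‖ ^ (m + 1) * ‖ev i‖ * ‖Z (ev i)‖ ≤ 6 * ε * (‖X‖ ^ m * (‖X‖ * ‖Z‖)) := by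
      calc _ ≤ 6 * ε * ‖X‖ ^ (m + 1) * ‖ev i‖ * ‖Z‖ := by gcongr
        _ = _ := by
          rw [norm_ev]
          ring
    rw [ContinuousLinearMap.comp_apply]
    linarith [(abs_le.1 (k1.trans k3)).1]
  have s := Finset.sum_le_sum fun i (_ : i ∈ Finset.univ) => k i
  rw [← tr_eq, tr_comm, Finset.sum_sub_distrib, ← Finset.mul_sum] at s
  simpa only [hs, Finset.sum_const, Finset.card_univ, Fintype.card_fin, nsmul_eq_mul, Nat.cast_add,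
    Nat.cast_ofNat] using s

theorem pw1 (hm : 1 ≤ m) : ∃ c C : ℝ, 0 < c ∧ 0 < C ∧ ∀ ε, 0 ≤ ε → ε ≤ 1 → ∀ X Y : Mt (m + 2),
    Qr (1 + ε) X → Qr (1 + ε) Y → ‖X‖ ^ (m + 2) - ‖Y‖ ^ (m + 2) + c * dV X Y -
      C * ε * (‖X‖ ^ (m + 2) + ‖Y‖ ^ (m + 2)) ≤ tr ((X - Y) ∘L adj X) := by
  refine ⟨(2 * ((m : ℝ) + 3) ^ (m + 2))⁻¹, 7 * (m + 2) * 2 ^ (m + 1), by positivity, by positivity,
    fun ε h0 h1 X Y hX _ => ?_⟩
  have a0 := norm_nonneg X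
  have b0 := norm_nonneg Y
  have d0 := norm_nonneg (X - Y)
  have ds := norm_sub_le X Y
  have p0 : 0 ≤ ‖X‖ ^ m := pow_nonneg a0 m
  have k1 := tr_ge h0 h1 hX (X - Y)
  have k2 := (abs_le.1 (hs_qr (by omega) h0 hX)).1
  have k3 := hs_le Y
  have k4 := hs_ge (X - Y)
  have k5 := gap_ge a0 b0 d0 ds hm
  have k6 : ‖X‖ ^ m * (‖X‖ * ‖X - Y‖) ≤ (‖X‖ + ‖Y‖) ^ (m + 2) :=
    mix a0 b0 a0 d0 (by linarith) ds
  have k7 : ‖X‖ ^ m * (‖X‖ * ‖X‖) ≤ (‖X‖ + ‖Y‖) ^ (m + 2) :=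
    mix a0 b0 a0 a0 (by linarith) (by linarith)
  have k8 := sum_pow X Y
  push_cast at k2 k3
  have k9 : (2 * ((m : ℝ) + 3) ^ (m + 2))⁻¹ * dV X Y ≤
      (gap m ‖X‖ ‖Y‖ + ‖X‖ ^ m * ‖X - Y‖ ^ 2) / 2 := by
    rw [inv_mul_le_iff₀ (by positivity), dV_eq]
    linarith
  have k10 : ‖X‖ ^ m * (((m + 2) * ‖X‖ ^ 2 - (m + 2) * (2 * ε * ‖X‖ ^ 2) - (m + 2) * ‖Y‖ ^ 2 +
      ‖X - Y‖ ^ 2) / 2) ≤ ‖X‖ ^ m * hs X (X - Y) := by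
    refine mul_le_mul_of_nonneg_left ?_ p0
    rw [hs_pol']
    linarith
  have e0 : 0 ≤ ((m : ℝ) + 2) * ε := by positivity
  have k11 := mul_le_mul_of_nonneg_left (k6.trans k8) e0
  have k12 := mul_le_mul_of_nonneg_left (k7.trans k8) e0
  have e : ‖X‖ ^ m * (((m + 2) * ‖X‖ ^ 2 - (m + 2) * (2 * ε * ‖X‖ ^ 2) - (m + 2) * ‖Y‖ ^ 2 +
      ‖X - Y‖ ^ 2) / 2) = ‖X‖ ^ (m + 2) - ‖Y‖ ^ (m + 2) +
      (gap m ‖X‖ ‖Y‖ + ‖X‖ ^ m * ‖X - Y‖ ^ 2) / 2 - (m + 2) * ε * (‖X‖ ^ m * (‖X‖ * ‖X‖)) := by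
    unfold gap
    ring
  rw [e] at k10
  linarith

theorem bd_mul {p x c q A : ℝ} (hp : 0 ≤ p) (hx : |x| ≤ c) (hq : |q| ≤ A) :
    |p * x * q| ≤ p * c * A := by
  have := (abs_nonneg x).trans hx
  rw [abs_mul, abs_mul, abs_of_nonneg hp]
  gcongr

theorem pw2 : ∃ C : ℝ, 0 < C ∧ ∀ ε, 0 ≤ ε → ε ≤ 1 → ∀ X Y : Mt (m + 2), Qr (1 + ε) X →
    Qr (1 + ε) Y → ∀ a b : V (m + 2), |⟪a, adj X (Y b)⟫ + ‖X‖ ^ m * (⟪Y a, X b⟫ - hs Y X * ⟪a, b⟫)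
      + (((m + 2 : ℕ) : ℝ) - 2) / (m + 2 : ℕ) * ‖Y‖ ^ (m + 2) * ⟪a, b⟫ -
      (2 - ((m + 2 : ℕ) : ℝ)) * (1 - 1 / (m + 2 : ℕ)) * ‖X‖ ^ (m + 2) * ⟪a, b⟫| ≤
      C * ‖a‖ * ‖b‖ * (ε * (‖X‖ ^ (m + 2) + ‖Y‖ ^ (m + 2)) + dV X Y) := by
  refine ⟨(10 + 2 * (m + 2)) * 2 ^ (m + 1) + (1 + (m + 2) + (m + 1) ^ 2), by positivity,
    fun ε h0 h1 X Y hX hY a b => ?_⟩
  have a0 := norm_nonneg X
  have b0 := norm_nonneg Y
  have m0 : (0 : ℝ) ≤ m := Nat.cast_nonneg m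
  have p0 : 0 ≤ ‖X‖ ^ m := pow_nonneg a0 m
  have A0 : 0 ≤ ‖a‖ * ‖b‖ := by positivity
  have hq := abs_real_inner_le_norm a b
  obtain ⟨S, hS⟩ : ∃ S, S = ‖X‖ ^ (m + 2) + ‖Y‖ ^ (m + 2) := ⟨_, rfl⟩
  have S0 : 0 ≤ S := by rw [hS]; positivity
  have k8 := sum_pow X Y
  rw [← hS] at k8 ⊢
  have eA : 0 ≤ ε * (‖a‖ * ‖b‖) := by positivity
  have sXX := mul_le_mul_of_nonneg_left
    ((mix (m := m) a0 b0 a0 a0 (by linarith) (by linarith)).trans k8) eA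
  have sXY := mul_le_mul_of_nonneg_left
    ((mix (m := m) a0 b0 a0 b0 (by linarith) (by linarith)).trans k8) eA
  have sYY := mul_le_mul_of_nonneg_left
    ((mix (m := m) a0 b0 b0 b0 (by linarith) (by linarith)).trans k8) eA
  have sD := mul_le_mul_of_nonneg_left (le_dV X Y) A0
  obtain ⟨T, hT⟩ : ∃ T, T = ε * (‖a‖ * ‖b‖) * (2 ^ (m + 1) * S) := ⟨_, rfl⟩
  obtain ⟨D, hD⟩ : ∃ D, D = ‖a‖ * ‖b‖ * dV X Y := ⟨_, rfl⟩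
  rw [← hT] at sXX sXY sYY
  rw [← hD] at sD
  have t1 : |⟪a, adj X (Y b)⟫ - ‖X‖ ^ m * ⟪X a, Y b⟫| ≤ 6 * T := by
    have k1 : |⟪a, adj X (Y b)⟫ - ‖X‖ ^ m * ⟪X a, Y b⟫| ≤
      6 * ε * ‖X‖ ^ (m + 1) * ‖a‖ * ‖Y b‖ := hX.nc2 (by omega) h0 h1 a (Y b)
    have k2 := Y.le_opNorm b
    calc _ ≤ 6 * ε * ‖X‖ ^ (m + 1) * ‖a‖ * (‖Y‖ * ‖b‖) := k1.trans (by gcongr)
      _ = 6 * (ε * (‖a‖ * ‖b‖) * (‖X‖ ^ m * (‖X‖ * ‖Y‖))) := by ring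
      _ ≤ _ := by linarith
  have t2 : |‖X‖ ^ m * (⟪X a, X b⟫ - ‖X‖ ^ 2 * ⟪a, b⟫)| ≤ 2 * T := by
    rw [abs_mul, abs_of_nonneg p0]
    calc _ ≤ ‖X‖ ^ m * (2 * ε * ‖X‖ ^ 2 * ‖a‖ * ‖b‖) :=
          mul_le_mul_of_nonneg_left (hX.nc1 (by omega) h0 a b) p0
      _ = 2 * (ε * (‖a‖ * ‖b‖) * (‖X‖ ^ m * (‖X‖ * ‖X‖))) := by ring
      _ ≤ _ := by linarith
  have t3 : |‖X‖ ^ m * (⟪Y a, Y b⟫ - ‖Y‖ ^ 2 * ⟪a, b⟫)| ≤ 2 * T := by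
    rw [abs_mul, abs_of_nonneg p0]
    calc _ ≤ ‖X‖ ^ m * (2 * ε * ‖Y‖ ^ 2 * ‖a‖ * ‖b‖) :=
          mul_le_mul_of_nonneg_left (hY.nc1 (by omega) h0 a b) p0
      _ = 2 * (ε * (‖a‖ * ‖b‖) * (‖X‖ ^ m * (‖Y‖ * ‖Y‖))) := by ring
      _ ≤ _ := by linarith
  have t4 : |‖X‖ ^ m * ⟪(X - Y) a, (X - Y) b⟫| ≤ D := by
    have k1 := (X - Y).le_opNorm a
    have k2 := (X - Y).le_opNorm b
    rw [abs_mul, abs_of_nonneg p0]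
    calc _ ≤ ‖X‖ ^ m * (‖X - Y‖ * ‖a‖ * (‖X - Y‖ * ‖b‖)) :=
          mul_le_mul_of_nonneg_left ((abs_real_inner_le_norm _ _).trans (by gcongr)) p0
      _ = ‖a‖ * ‖b‖ * (‖X‖ ^ m * ‖X - Y‖ ^ 2) := by ring
      _ ≤ _ := sD
  have t5 : |‖X‖ ^ m * (hs X X - (m + 2) * ‖X‖ ^ 2) * ⟪a, b⟫| ≤ 2 * ((m + 2) * T) := by
    have k1 := hs_qr (by omega) h0 hX
    push_cast at k1
    calc _ ≤ _ := bd_mul p0 k1 hq
      _ = 2 * ((m + 2) * (ε * (‖a‖ * ‖b‖) * (‖X‖ ^ m * (‖X‖ * ‖X‖)))) := by ring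
      _ ≤ _ := by gcongr
  have t6 : |‖X‖ ^ m * (hs Y Y - (m + 2) * ‖Y‖ ^ 2) * ⟪a, b⟫| ≤ 2 * ((m + 2) * T) := by
    have k1 := hs_qr (by omega) h0 hY
    push_cast at k1
    calc _ ≤ _ := bd_mul p0 k1 hq
      _ = 2 * ((m + 2) * (ε * (‖a‖ * ‖b‖) * (‖X‖ ^ m * (‖Y‖ * ‖Y‖)))) := by ring
      _ ≤ _ := by gcongr
  have t7 : |‖X‖ ^ m * hs (X - Y) (X - Y) * ⟪a, b⟫| ≤ (m + 2) * D := by
    have k1 := hs_le (X - Y)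
    rw [← abs_of_nonneg (hs_nonneg (X - Y))] at k1
    push_cast at k1
    calc _ ≤ _ := bd_mul p0 k1 hq
      _ = (m + 2) * (‖a‖ * ‖b‖ * (‖X‖ ^ m * ‖X - Y‖ ^ 2)) := by ring
      _ ≤ _ := by gcongr
  have t8 : |m / (2 * (m + 2)) * gap m ‖X‖ ‖Y‖ * ⟪a, b⟫| ≤ (m + 1) ^ 2 * D := by
    obtain ⟨g1, g2⟩ := gap_bd a0 b0 m
    have k1 : (‖X‖ - ‖Y‖) ^ 2 ≤ ‖X - Y‖ ^ 2 :=
      sq_le_sq' (abs_le.1 (abs_norm_sub_norm_le X Y)).1 (abs_le.1 (abs_norm_sub_norm_le X Y)).2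
    have k2 : |gap m ‖X‖ ‖Y‖| ≤ (m + 1) ^ 2 * dV X Y := by
      rw [abs_of_nonneg g1, dV_eq]
      exact g2.trans (by gcongr)
    have k3 : (m : ℝ) / (2 * (m + 2)) ≤ 1 := by
      rw [div_le_one (by positivity)]
      linarith
    have := dV_nonneg X Y
    calc _ ≤ _ := bd_mul (by positivity) k2 hq
      _ ≤ 1 * ((m + 1) ^ 2 * dV X Y) * (‖a‖ * ‖b‖) := by gcongr
      _ = _ := by
        rw [hD]
        ring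
  have e : ⟪a, adj X (Y b)⟫ + ‖X‖ ^ m * (⟪Y a, X b⟫ - hs Y X * ⟪a, b⟫)
      + (((m + 2 : ℕ) : ℝ) - 2) / (m + 2 : ℕ) * ‖Y‖ ^ (m + 2) * ⟪a, b⟫ -
      (2 - ((m + 2 : ℕ) : ℝ)) * (1 - 1 / (m + 2 : ℕ)) * ‖X‖ ^ (m + 2) * ⟪a, b⟫ =
      (⟪a, adj X (Y b)⟫ - ‖X‖ ^ m * ⟪X a, Y b⟫) + ‖X‖ ^ m * (⟪X a, X b⟫ - ‖X‖ ^ 2 * ⟪a, b⟫) +
      ‖X‖ ^ m * (⟪Y a, Y b⟫ - ‖Y‖ ^ 2 * ⟪a, b⟫) - ‖X‖ ^ m * ⟪(X - Y) a, (X - Y) b⟫ -
      ‖X‖ ^ m * (hs X X - (m + 2) * ‖X‖ ^ 2) * ⟪a, b⟫ / 2 -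
      ‖X‖ ^ m * (hs Y Y - (m + 2) * ‖Y‖ ^ 2) * ⟪a, b⟫ / 2 +
      ‖X‖ ^ m * hs (X - Y) (X - Y) * ⟪a, b⟫ / 2 +
      m / (2 * (m + 2)) * gap m ‖X‖ ‖Y‖ * ⟪a, b⟫ := by
    rw [hs_pol X Y, pol]
    unfold gap
    push_cast
    field_simp
    ring
  have T0 : 0 ≤ T := by rw [hT]; positivity
  have D0 : 0 ≤ D := hD ▸ mul_nonneg A0 (dV_nonneg X Y)
  have f : (10 + 2 * (m + 2)) * T + (1 + (m + 2) + (m + 1) ^ 2) * D ≤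
      ((10 + 2 * (m + 2)) * 2 ^ (m + 1) + (1 + (m + 2) + (m + 1) ^ 2)) * ‖a‖ * ‖b‖ *
        (ε * S + dV X Y) := by
    have := dV_nonneg X Y
    have f1 : 0 ≤ (10 + 2 * ((m : ℝ) + 2)) * 2 ^ (m + 1) * (‖a‖ * ‖b‖ * dV X Y) := by positivity
    have f2 : 0 ≤ (1 + ((m : ℝ) + 2) + (m + 1) ^ 2) * (‖a‖ * ‖b‖ * (ε * S)) := by positivity
    rw [hT, hD]
    linarith
  have mD : 0 ≤ (m + 2) * D := by positivity
  rw [e]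
  refine le_trans ?_ f
  rw [abs_le] at t1 t2 t3 t4 t5 t6 t7 t8 ⊢
  constructor <;> linarith [t1.1, t1.2, t2.1, t2.2, t3.1, t3.2, t4.1, t4.2, t5.1, t5.2, t6.1, t6.2,
    t7.1, t7.2, t8.1, t8.2]

theorem norm_Vm (X : Mt (m + 2)) : ‖Vm X‖ = √(‖X‖ ^ m) * ‖X‖ := by
  rw [Vm, norm_smul, Real.norm_of_nonneg (Real.sqrt_nonneg _), Nat.add_sub_cancel]

theorem vm_aux (X Y : Mt (m + 2)) (h : ‖Y‖ ≤ ‖X‖) :
    ‖Vm X - Vm Y‖ ^ 2 ≤ ((m + 1) ^ 2 + 2 ^ m * 4) * dV X Y ∧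
      dV X Y ≤ ((m + 1) ^ 2 + 2 ^ m * 4) * ‖Vm X - Vm Y‖ ^ 2 := by
  have a0 := norm_nonneg X
  have b0 := norm_nonneg Y
  have d0 := norm_nonneg (X - Y)
  have n1 := norm_Vm X
  have n2 := norm_Vm Y
  have e : Vm X - Vm Y = √(‖X‖ ^ m) • (X - Y) + (√(‖X‖ ^ m) - √(‖Y‖ ^ m)) • Y := by
    simp only [Vm, Nat.add_sub_cancel]
    module
  have pp : √(‖Y‖ ^ m) ≤ √(‖X‖ ^ m) := by gcongr
  have s1 := Real.sq_sqrt (pow_nonneg a0 m)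
  have s2 := Real.sq_sqrt (pow_nonneg b0 m)
  have p0 := Real.sqrt_nonneg (‖X‖ ^ m)
  have q0 := Real.sqrt_nonneg (‖Y‖ ^ m)
  generalize √(‖X‖ ^ m) = p at *
  generalize √(‖Y‖ ^ m) = q at *
  have u1 : ‖p • (X - Y)‖ = p * ‖X - Y‖ := by rw [norm_smul, Real.norm_of_nonneg p0]
  have u2 : ‖(p - q) • Y‖ = (p - q) * ‖Y‖ := by
    rw [norm_smul, Real.norm_of_nonneg (sub_nonneg.2 pp)]
  have k1 : (p - q) * ‖Y‖ ≤ m * (p * ‖X - Y‖) := by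
    rcases p0.eq_or_lt with rfl | p1
    · rw [le_antisymm pp q0]
      simp
    refine le_of_mul_le_mul_left ?_ p1
    have k2 := pow_gap b0 h m
    have k3 := norm_sub_norm_le X Y
    rw [← s1, ← s2] at k2
    calc _ ≤ (p + q) * ((p - q) * ‖Y‖) := by
          have := sub_nonneg.2 pp
          gcongr
          linarith
      _ = (p ^ 2 - q ^ 2) * ‖Y‖ := by ring
      _ ≤ m * (p ^ 2 * ‖X - Y‖) := k2.trans (by gcongr)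
      _ = _ := by ring
  have k4 : ‖Vm X - Vm Y‖ ≤ (m + 1) * (p * ‖X - Y‖) := by
    have := norm_add_le (p • (X - Y)) ((p - q) • Y)
    rw [← e, u1, u2] at this
    linarith
  have k5 : p * ‖X - Y‖ ≤ 2 * ‖Vm X - Vm Y‖ := by
    have k6 := norm_sub_le (Vm X - Vm Y) ((p - q) • Y)
    have k7 := norm_sub_norm_le (Vm X) (Vm Y)
    have k8 := mul_le_mul_of_nonneg_left h p0
    rw [show Vm X - Vm Y - (p - q) • Y = p • (X - Y) by rw [e, add_sub_cancel_right], u1, u2] at k6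
    rw [n1, n2] at k7
    linarith
  have D0 := dV_nonneg X Y
  constructor
  · calc _ ≤ ((m + 1) * (p * ‖X - Y‖)) ^ 2 := by gcongr
      _ = (m + 1) ^ 2 * (‖X‖ ^ m * ‖X - Y‖ ^ 2) := by
        rw [← s1]
        ring
      _ ≤ ((m + 1) ^ 2 + 2 ^ m * 4) * dV X Y :=
        mul_le_mul (le_add_of_nonneg_right (by positivity)) (le_dV X Y) (by positivity)
          (by positivity)
  · calc _ ≤ (2 * ‖X‖) ^ m * ‖X - Y‖ ^ 2 := by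
          rw [dV_eq]
          gcongr
          linarith
      _ = 2 ^ m * (p * ‖X - Y‖) ^ 2 := by
        rw [mul_pow, ← s1]
        ring
      _ ≤ 2 ^ m * (2 * ‖Vm X - Vm Y‖) ^ 2 := by gcongr
      _ = 2 ^ m * 4 * ‖Vm X - Vm Y‖ ^ 2 := by ring
      _ ≤ _ := by
        gcongr
        exact le_add_of_nonneg_left (by positivity)

theorem omv {ε : ℝ} (h0 : 0 ≤ ε) (h1 : ε ≤ 1) (X Y N : Mt (m + 2)) (hN : Conf ‖Y‖⁻¹ N)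
    (h : ‖N ∘L Y - 1‖ ≤ ε) : om (m + 2) ‖N ∘L X - 1‖ ≤
      (2 + 2 ^ (m + 1)) * (ε ^ 2 + dV X Y / ‖Y‖ ^ (m + 2)) := by
  have b0 : 0 < ‖Y‖ := inv_pos.1 hN.1
  have a0 := norm_nonneg X
  have d0 := norm_nonneg (X - Y)
  have k1 : ‖N ∘L (X - Y)‖ ≤ ‖X - Y‖ / ‖Y‖ :=
    ContinuousLinearMap.opNorm_le_bound _ (by positivity) fun v => by
      rw [ContinuousLinearMap.comp_apply, hN.2.1, div_eq_inv_mul, mul_assoc]
      exact mul_le_mul_of_nonneg_left ((X - Y).le_opNorm v) hN.1.le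
  have k2 : ‖N ∘L X - 1‖ ≤ ‖X - Y‖ / ‖Y‖ + ε := by
    rw [show N ∘L X - 1 = N ∘L (X - Y) + (N ∘L Y - 1) by
      rw [ContinuousLinearMap.comp_sub, sub_add_sub_cancel]]
    exact (norm_add_le _ _).trans (add_le_add k1 h)
  have k3 : (‖X - Y‖ / ‖Y‖) ^ 2 ≤ dV X Y / ‖Y‖ ^ (m + 2) := by
    have := le_dV Y X
    rw [dV_comm, norm_sub_rev] at this
    calc _ = ‖Y‖ ^ m * ‖X - Y‖ ^ 2 / ‖Y‖ ^ (m + 2) := by
          field_simp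
          ring
      _ ≤ _ := by gcongr
  have k4 : (‖X - Y‖ / ‖Y‖) ^ (m + 2) ≤ dV X Y / ‖Y‖ ^ (m + 2) := by
    have := norm_sub_le X Y
    rw [div_pow, pow_add ‖X - Y‖, dV_eq]
    gcongr
  have k5 : ε ^ (m + 2) ≤ ε ^ 2 := pow_le_pow_of_le_one h0 h1 (by omega)
  have u0 : 0 ≤ ‖X - Y‖ / ‖Y‖ := by positivity
  have k6 := add_pow_le u0 h0 2
  have k7 : (‖X - Y‖ / ‖Y‖ + ε) ^ (m + 2) ≤ 2 ^ (m + 1) * _ := add_pow_le u0 h0 (m + 2)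
  have k8 : (2 : ℝ) ^ (m + 1) * ((‖X - Y‖ / ‖Y‖) ^ (m + 2) + ε ^ (m + 2)) ≤
      2 ^ (m + 1) * (dV X Y / ‖Y‖ ^ (m + 2) + ε ^ 2) := by gcongr
  calc _ ≤ (‖X - Y‖ / ‖Y‖ + ε) ^ 2 + (‖X - Y‖ / ‖Y‖ + ε) ^ (m + 2) := by
        unfold om
        gcongr
    _ ≤ _ := by
      norm_num at k6
      linarith

end MatAx

theorem matA {n : ℕ} (hn : 3 ≤ n) : MatA n := by
  obtain ⟨m, rfl⟩ : ∃ m, n = m + 2 := ⟨n - 2, by omega⟩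
  refine ⟨MatAx.pw1 (by omega), MatAx.pw2, ⟨2 ^ (m + 1), by positivity, fun X Y =>
    (MatAx.dV_le X Y).trans (MatAx.sum_pow X Y)⟩, ?_, fun X => ?_,
    ⟨(m + 1) ^ 2 + 2 ^ m * 4, by positivity, fun X Y => ?_⟩,
    ⟨2 + 2 ^ (m + 1), by positivity, fun ε h0 h1 X Y N hN h => MatAx.omv h0 h1 X Y N hN h⟩⟩
  · exact (Real.continuous_sqrt.comp (continuous_norm.pow _)).smul continuous_id
  · rw [MatAx.norm_Vm, mul_pow, Real.sq_sqrt (by positivity), pow_add]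
  · rcases le_total ‖Y‖ ‖X‖ with h | h
    · exact MatAx.vm_aux X Y h
    · rw [norm_sub_rev, MatAx.dV_comm]
      exact MatAx.vm_aux Y X h

end Pool.Agent.MP_29b5d3_an.NC
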