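import Mathlib.Analysis.Calculus.DerivativeTest
import Mathlib.RingTheory.PiTensorProduct
import Pool.Agent.MP_29b5d3_an.NC.CacC

-- ======== part 0: formerly Pool.Agent.MP_29b5d3_an.NC.MatB
section MrgPart0

/-! Project NEARCONF, module MATB: polar decomposition and one point inequalities. -/

set_option autoImplicit false

namespace Pool.Agent.MP_29b5d3_an.NC

open Module
open scoped RealInnerProductSpace

namespace MatBp

variable {n : ℕ}

theorem sq_le {a b : ℝ} (_ : 0 ≤ a) (hb : 0 ≤ b) (h : a ^ 2 ≤ b ^ 2) : a ≤ b :=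
  le_of_pow_le_pow_left₀ two_ne_zero hb h

theorem det_comp (N X : Mt n) : (N ∘L X).det = N.det * X.det :=
  LinearMap.det_comp (N : V n →ₗ[ℝ] V n) (X : V n →ₗ[ℝ] V n)

theorem det_one : (1 : Mt n).det = 1 := map_one (LinearMap.det (M := V n) (A := ℝ))

theorem det_smul (c : ℝ) (X : Mt n) : (c • X).det = c ^ n * X.det := by
  have := LinearMap.det_smul c (X : V n →ₗ[ℝ] V n)
  rwa [fr] at this

theorem conf_norm (a : ℝ) (N X : Mt n) (h : Conf a N) : ‖N ∘L X‖ = a * ‖X‖ := by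
  have ha := h.1
  refine le_antisymm (ContinuousLinearMap.opNorm_le_bound _ (by positivity) fun v => ?_) ?_
  · rw [ContinuousLinearMap.comp_apply, h.2.1, mul_assoc]
    gcongr
    exact X.le_opNorm v
  · rw [← le_div_iff₀' ha]
    refine ContinuousLinearMap.opNorm_le_bound _ (by positivity) fun v => ?_
    have := (N ∘L X).le_opNorm v
    rw [ContinuousLinearMap.comp_apply, h.2.1] at this
    rw [div_mul_eq_mul_div, le_div_iff₀' ha]
    exact this

theorem conf_qr (a K : ℝ) (N X : Mt n) (h : Conf a N) (hX : Qr K X) : Qr K (N ∘L X) := by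
  unfold Qr at hX ⊢
  rw [conf_norm a N X h, det_comp, h.2.2, mul_pow, mul_left_comm]
  exact mul_le_mul_of_nonneg_left hX (pow_nonneg h.1.le n)

theorem conf_comp (a b : ℝ) (N M : Mt n) (h : Conf a N) (h' : Conf b M) :
    Conf (a * b) (N ∘L M) :=
  ⟨mul_pos h.1 h'.1, fun v => by
    rw [ContinuousLinearMap.comp_apply, h.2.1, h'.2.1, mul_assoc],
    by rw [det_comp, h.2.2, h'.2.2, mul_pow]⟩

theorem conf_inv (a : ℝ) (N : Mt n) (h : Conf a N) :
    ∃ M, Conf a⁻¹ M ∧ M ∘L N = 1 ∧ N ∘L M = 1 := by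
  have ha := h.1
  have d : N.det ≠ 0 := by rw [h.2.2]; positivity
  have i : N.IsInvertible := ⟨N.toContinuousLinearEquivOfDetNeZero d, by simp⟩
  have e : N ∘L N.inverse = 1 := by
    ext1 v
    exact i.self_apply_inverse v
  refine ⟨N.inverse, ⟨inv_pos.2 ha, fun v => ?_, ?_⟩, ?_, e⟩
  · have := h.2.1 (N.inverse v)
    rw [i.self_apply_inverse] at this
    rw [this, inv_mul_cancel_left₀ ha.ne']
  · have := det_comp N N.inverse
    rw [e, det_one, h.2.2] at this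
    rw [inv_pow]
    exact eq_inv_of_mul_eq_one_right this.symm
  · ext1 v
    exact i.inverse_apply_self v

theorem conf_one : Conf 1 (1 : Mt n) :=
  ⟨one_pos, fun v => by simp, by rw [det_one, one_pow]⟩

theorem conf_smul {a b : ℝ} {N : Mt n} (h : Conf a N) (hb : 0 < b) : Conf (b * a) (b • N) :=
  ⟨mul_pos hb h.1, fun v => by
    rw [smul_apply, norm_smul, Real.norm_of_nonneg hb.le, h.2.1, mul_assoc],
    by rw [det_smul, h.2.2, mul_pow]⟩

theorem abs_form (B : Mt n) (a b : V n) : |⟪B a, b⟫| ≤ ‖B‖ * ‖a‖ * ‖b‖ :=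
  (abs_real_inner_le_norm _ _).trans (by gcongr; exact B.le_opNorm a)

theorem abs_form' (B : Mt n) (a b : V n) : |⟪a, B b⟫| ≤ ‖B‖ * ‖a‖ * ‖b‖ := by
  rw [real_inner_comm, mul_right_comm]
  exact abs_form B b a

theorem abs_tr_div (B : Mt n) : |tr B / n| ≤ ‖B‖ := by
  rw [abs_div, Nat.abs_cast]
  exact div_le_of_le_mul₀ (Nat.cast_nonneg n) (norm_nonneg B) (by linarith [abs_tr_le B])

theorem tr_sub_one (hn : 3 ≤ n) (A : Mt n) : tr (A - 1) / n = tr A / n - 1 := by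
  have : (n : ℝ) ≠ 0 := by positivity
  rw [tr_sub, tr_one, sub_div, div_self this]

theorem top_add (A B : Mt n) (c : ℝ) (h : Top A c) : Top (A + B) (c + 2 * ‖B‖) := fun e => by
  have h1 := h e
  have h2 := h35.form_le B e
  have h3 := mul_le_mul_of_nonneg_right (neg_le_of_abs_le (abs_tr_div B)) (sq_nonneg ‖e‖)
  rw [add_apply, inner_add_left, tr_add, add_div]
  linarith

theorem dev_add (A B : Mt n) (c : ℝ) (h : Dev A c) : Dev (A + B) (c + 4 * ‖B‖) := fun a b => by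
  have h1 := abs_le.1 (h a b)
  have h2 := abs_le.1 (abs_form B a b)
  have h3 := abs_le.1 (abs_form' B a b)
  have h4 : |tr B / n * ⟪a, b⟫| ≤ ‖B‖ * (‖a‖ * ‖b‖) := by
    rw [abs_mul]
    exact mul_le_mul (abs_tr_div B) (abs_real_inner_le_norm a b) (abs_nonneg _) (norm_nonneg _)
  have h5 := abs_le.1 h4
  rw [add_apply, add_apply, inner_add_left,
    inner_add_right, tr_add, add_div, abs_le]
  constructor <;> linarith [h1.1, h1.2, h2.1, h2.2, h3.1, h3.2, h5.1, h5.2]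

theorem top_sub_one (hn : 3 ≤ n) (A : Mt n) (c : ℝ) (h : Top A c) : Top (A - 1) c := fun e => by
  have h1 := h e
  rw [tr_sub_one hn, sub_apply, inner_sub_left, one_apply_eq_self,
    real_inner_self_eq_norm_sq]
  linarith

theorem dev_sub_one (hn : 3 ≤ n) (A : Mt n) (c : ℝ) (h : Dev A c) : Dev (A - 1) c := fun a b => by
  refine le_of_eq_of_le (congrArg abs ?_) (h a b)
  simp only [tr_sub_one hn, sub_apply, inner_sub_left, inner_sub_right,
    one_apply_eq_self]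
  ring

theorem inner_split (A : Mt n) (a b : V n) :
    ⟪A a, A b⟫ = ⟪A a, b⟫ + ⟪a, A b⟫ - ⟪a, b⟫ + ⟪(A - 1) a, (A - 1) b⟫ := by
  simp only [sub_apply, inner_sub_left, inner_sub_right,
    one_apply_eq_self]
  ring

theorem norm_split (A : Mt n) (v : V n) :
    ‖A v‖ ^ 2 = 2 * ⟪A v, v⟫ - ‖v‖ ^ 2 + ‖(A - 1) v‖ ^ 2 := by
  have := inner_split A v v
  simp only [real_inner_self_eq_norm_sq] at this
  rw [this, real_inner_comm (A v) v]
  ring

theorem sq_apply (B : Mt n) (v : V n) : ‖B v‖ ^ 2 ≤ ‖B‖ ^ 2 * ‖v‖ ^ 2 := by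
  rw [← mul_pow]
  gcongr
  exact B.le_opNorm v

theorem norm_le (hn : 3 ≤ n) (A : Mt n) (c d : ℝ) (h : Top A c) (hc : 0 ≤ c) (hd : ‖A - 1‖ ≤ d)
    (h1 : d ≤ 1) : ‖A‖ ≤ tr A / n + c + d ^ 2 / 2 := by
  have t := neg_le_of_abs_le (abs_tr_div (A - 1))
  rw [tr_sub_one hn] at t
  have s0 : 0 ≤ tr A / n + c + d ^ 2 / 2 := by nlinarith [sq_nonneg d]
  refine ContinuousLinearMap.opNorm_le_bound _ s0 fun v => ?_
  refine sq_le (norm_nonneg _) (by positivity) ?_
  have k1 := h v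
  have k2 := sq_apply (A - 1) v
  have k3 : ‖A - 1‖ ^ 2 * ‖v‖ ^ 2 ≤ d ^ 2 * ‖v‖ ^ 2 := by gcongr
  have k4 := mul_nonneg (sq_nonneg (tr A / n + c + d ^ 2 / 2 - 1)) (sq_nonneg ‖v‖)
  rw [norm_split, mul_pow]
  nlinarith

/-! ### polar decomposition -/

theorem diag_norm (u : OrthonormalBasis (Fin n) ℝ (V n)) {T : Mt n} {t : Fin n → ℝ} {c : ℝ}
    (hc : 0 ≤ c) (h : ∀ i, T (u i) = t i • u i) (ht : ∀ i, |t i| ≤ c) : ‖T‖ ≤ c := by
  refine ContinuousLinearMap.opNorm_le_bound _ hc fun v => ?_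
  refine sq_le (norm_nonneg _) (by positivity) ?_
  have e : T v = ∑ i, (⟪u i, v⟫ * t i) • u i := by
    conv_lhs => rw [← u.sum_repr' v, map_sum]
    exact Finset.sum_congr rfl fun i _ => by rw [map_smul, h, smul_smul]
  rw [mul_pow, ← u.sum_sq_inner_right (T v), ← u.sum_sq_inner_right v, Finset.mul_sum]
  refine Finset.sum_le_sum fun i _ => ?_
  rw [e, u.orthonormal.inner_right_fintype, mul_pow, mul_comm, ← sq_abs (t i)]
  gcongr
  exact ht i

theorem polar (hn : 3 ≤ n) {X : Mt n} {a b : ℝ} (hd : 0 < X.det) (ha : 0 < a)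
    (h1 : ∀ v, a * ‖v‖ ≤ ‖X v‖) (h2 : ∀ v, ‖X v‖ ≤ b * ‖v‖) :
    ∃ N, Conf b⁻¹ N ∧ ‖N ∘L X - 1‖ ≤ (b - a) / b := by
  obtain ⟨u, l, hu, -⟩ := h35.spec (A := ContinuousLinearMap.adjoint X ∘L X) fr fun x y => by
    rw [ContinuousLinearMap.comp_apply, ContinuousLinearMap.comp_apply,
      ContinuousLinearMap.adjoint_inner_left, ContinuousLinearMap.adjoint_inner_right]
  have s1 : ∀ i, a ≤ ‖X (u i)‖ := fun i => by simpa [u.orthonormal.1 i] using h1 (u i)
  have s2 : ∀ i, ‖X (u i)‖ ≤ b := fun i => by simpa [u.orthonormal.1 i] using h2 (u i)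
  have s0 : ∀ i, 0 < ‖X (u i)‖ := fun i => ha.trans_le (s1 i)
  have : Nonempty (Fin n) := ⟨⟨0, by omega⟩⟩
  have hab : a ≤ b := (s1 this.some).trans (s2 _)
  have hb : 0 < b := ha.trans_le hab
  have o : Orthonormal ℝ fun i => ‖X (u i)‖⁻¹ • X (u i) := by
    refine ⟨fun i => norm_smul_inv_norm (norm_pos_iff.1 (s0 i)), fun i j hij => ?_⟩
    have k : ⟪X (u i), X (u j)⟫ = 0 := by
      rw [← ContinuousLinearMap.adjoint_inner_left, ← ContinuousLinearMap.comp_apply, hu,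
        real_inner_smul_left, u.orthonormal.2 hij, mul_zero]
    simp only [real_inner_smul_left, real_inner_smul_right, k, mul_zero]
  obtain ⟨w, hw⟩ : ∃ w : OrthonormalBasis (Fin n) ℝ (V n), ∀ i, w i = ‖X (u i)‖⁻¹ • X (u i) :=
    ⟨(basisOfOrthonormalOfCardEqFinrank o (by simp)).toOrthonormalBasis (by simpa using o),
      fun i => by simp⟩
  obtain ⟨Q, q1, q2⟩ : ∃ Q : Mt n, (∀ v, ‖Q v‖ = ‖v‖) ∧ ∀ i, Q (w i) = u i :=
    ⟨(w.equiv u (Equiv.refl _)).toContinuousLinearEquiv, (w.equiv u (Equiv.refl _)).norm_map,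
      w.equiv_apply_basis u (Equiv.refl _)⟩
  have q3 : ∀ i, (Q ∘L X) (u i) = ‖X (u i)‖ • u i := fun i => by
    rw [ContinuousLinearMap.comp_apply, ← q2 i, ← map_smul, q2 i, hw, smul_smul,
      mul_inv_cancel₀ (s0 i).ne', one_smul]
  have d1 : (Q ∘L X).det = ∏ i, ‖X (u i)‖ := by
    have k := u.toBasis.det_comp (Q ∘L X : Mt n) u.toBasis
    have e : ((Q ∘L X : Mt n) : V n →ₗ[ℝ] V n) ∘ u.toBasis = fun i => ‖X (u i)‖ • u.toBasis i :=
      funext fun i => q3 i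
    rw [e, AlternatingMap.map_smul_univ, Basis.det_self, mul_one, smul_eq_mul, mul_one] at k
    exact k.symm
  have d2 : 0 < Q.det := by
    rw [det_comp] at d1
    exact (mul_pos_iff_of_pos_right hd).1 (d1 ▸ Finset.prod_pos fun i _ => s0 i)
  have d3 : Q.det = 1 := by
    have k := w.toBasis.det_comp (Q : V n →ₗ[ℝ] V n) w.toBasis
    have e : (Q : V n →ₗ[ℝ] V n) ∘ w.toBasis = u := funext fun i => q2 i
    rw [e, Basis.det_self, mul_one] at k
    rcases w.det_to_matrix_orthonormalBasis_real u with k' | k'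
    · exact k.symm.trans k'
    · exact absurd (k.symm.trans k' ▸ d2 : (0 : ℝ) < -1) (by norm_num)
  have cQ : Conf 1 Q := ⟨one_pos, fun v => by rw [q1, one_mul], by rw [d3, one_pow]⟩
  refine ⟨b⁻¹ • Q, by simpa using conf_smul cQ (inv_pos.2 hb), ?_⟩
  refine diag_norm u (t := fun i => (‖X (u i)‖ - b) / b) (div_nonneg (by linarith) hb.le)
    (fun i => ?_) fun i => ?_
  · rw [sub_apply, ContinuousLinearMap.smul_comp,
      smul_apply, q3, smul_smul, one_apply_eq_self, sub_div,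
      div_self hb.ne', sub_smul, one_smul, div_eq_inv_mul]
  · rw [abs_div, abs_of_pos hb, abs_sub_comm, abs_of_nonneg (sub_nonneg.2 (s2 i))]
    gcongr
    exact s1 i

theorem pol1 (hn : 3 ≤ n) (ε : ℝ) (h0 : 0 ≤ ε) (X : Mt n) (h : Qr (1 + ε) X) (hX : X ≠ 0) :
    ∃ N, Conf ‖X‖⁻¹ N ∧ ‖N ∘L X - 1‖ ≤ ε := by
  have l0 : 0 < ‖X‖ := norm_pos_iff.2 hX
  have e0 : 0 < 1 + ε := by linarith
  obtain ⟨N, c, k⟩ := polar hn (a := ‖X‖ / (1 + ε)) ((h.cases e0).resolve_left hX)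
    (by positivity) (fun v => by
      rw [div_mul_eq_mul_div, div_le_iff₀' e0]
      exact h.lower (by omega) e0 v) X.le_opNorm
  refine ⟨N, c, k.trans ?_⟩
  rw [div_le_iff₀ l0, sub_le_comm, le_div_iff₀ e0]
  nlinarith [mul_nonneg (mul_nonneg h0 h0) l0.le]

theorem det_pos {A : Mt n} (h : ‖A - 1‖ < 1) : 0 < A.det := by
  by_contra hc
  have c : Continuous fun t : ℝ => (1 + t • (A - 1) : Mt n).det :=
    ContinuousLinearMap.continuous_det.comp (by fun_prop)
  obtain ⟨t, ht, e⟩ := intermediate_value_Icc' zero_le_one c.continuousOn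
    (show (0 : ℝ) ∈ Set.Icc _ _ from ⟨by simpa using not_lt.1 hc, by
      rw [zero_smul ℝ (A - 1), add_zero, det_one]; exact zero_le_one⟩)
  obtain ⟨v, hv, v0⟩ := Submodule.exists_mem_ne_zero_of_ne_bot
    (LinearMap.det_eq_zero_iff_ker_ne_bot.1 e)
  have k : v = -(t • (A - 1) v) := eq_neg_of_add_eq_zero_left hv
  have k1 := congrArg norm k
  rw [norm_neg, norm_smul, Real.norm_of_nonneg ht.1] at k1
  have k2 := (A - 1).le_opNorm v
  have k3 : 0 < ‖v‖ := norm_pos_iff.2 v0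
  nlinarith [ht.2, norm_nonneg ((A - 1) v), mul_lt_mul_of_pos_right h k3]

theorem pol2 (hn : 3 ≤ n) (A : Mt n) (d : ℝ) (h1 : ‖A - 1‖ ≤ 1 / 4) (h0 : 0 ≤ d) (h2 : d ≤ 1 / 4)
    (h : Dev A d) : ∃ a N, Conf a N ∧ a ≤ 2 ∧ ‖N ∘L A - 1‖ ≤ 2 * (2 * d + ‖A - 1‖ ^ 2) := by
  have t := neg_le_of_abs_le (abs_tr_div (A - 1))
  rw [tr_sub_one hn] at t
  have k : ∀ v, (2 * (tr A / n) - 1 - d) * ‖v‖ ^ 2 ≤ ‖A v‖ ^ 2 ∧
      ‖A v‖ ^ 2 ≤ (2 * (tr A / n) - 1 + d + ‖A - 1‖ ^ 2) * ‖v‖ ^ 2 := fun v => by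
    have k1 := abs_le.1 (h v v)
    rw [real_inner_comm (A v) v, real_inner_self_eq_norm_sq] at k1
    have k2 := sq_apply (A - 1) v
    have k3 := sq_nonneg ‖(A - 1) v‖
    rw [norm_split]
    constructor <;> nlinarith [k1.1, k1.2]
  have y0 := sq_nonneg ‖A - 1‖
  obtain ⟨a, a0, a2⟩ : ∃ a : ℝ, 0 ≤ a ∧ a ^ 2 = 2 * (tr A / n) - 1 - d :=
    ⟨_, Real.sqrt_nonneg _, Real.sq_sqrt (by linarith)⟩
  obtain ⟨b, b0, b2⟩ : ∃ b : ℝ, 0 ≤ b ∧ b ^ 2 = 2 * (tr A / n) - 1 + d + ‖A - 1‖ ^ 2 :=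
    ⟨_, Real.sqrt_nonneg _, Real.sq_sqrt (by linarith)⟩
  have a1 : 1 / 2 ≤ a := sq_le (by norm_num) a0 (by linarith)
  have ab : a ≤ b := sq_le a0 b0 (by linarith)
  obtain ⟨N, c, e⟩ := polar hn (a := a) (b := b) (det_pos (by linarith)) (by linarith)
    (fun v => sq_le (by positivity) (norm_nonneg _) (by rw [mul_pow, a2]; exact (k v).1))
    fun v => sq_le (norm_nonneg _) (by positivity) (by rw [mul_pow, b2]; exact (k v).2)
  have b1 : 0 < b := by linarith
  refine ⟨_, N, c, ?_, e.trans ?_⟩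
  · rw [inv_le_comm₀ b1 two_pos]
    linarith
  · rw [div_le_iff₀ b1]
    have : b - a ≤ 2 * d + ‖A - 1‖ ^ 2 := by nlinarith
    nlinarith

/-! ### one point inequalities -/

theorem prod_le_mean (hn : 3 ≤ n) (z : Fin n → ℝ) (hz : ∀ i, 0 ≤ z i) :
    ∏ i, z i ≤ ((∑ i, z i) / n) ^ n := by
  have n0 : (0 : ℝ) < n := by positivity
  have k := Real.geom_mean_le_arith_mean Finset.univ (fun _ => 1) z (fun _ _ => zero_le_one)
    (by simpa using n0) fun i _ => hz i
  simp only [Real.rpow_one, one_mul, Finset.sum_const, Finset.card_univ, Fintype.card_fin,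
    nsmul_eq_mul, mul_one] at k
  have p0 : 0 ≤ ∏ i, z i := Finset.prod_nonneg fun i _ => hz i
  rw [← Real.rpow_inv_natCast_pow p0 (show n ≠ 0 by omega)]
  gcongr

theorem top (hn : 3 ≤ n) (ε : ℝ) (h0 : 0 ≤ ε) (h1 : ε ≤ 1) (X : Mt n) (h : Qr (1 + ε) X) :
    Top X (ε / n * (tr X / n) + ‖X - 1‖ ^ 2) := fun e => by
  have n3 : (3 : ℝ) ≤ n := by exact_mod_cast hn
  have n0 : (0 : ℝ) < n := by linarith
  have k1 : ∑ i, ‖X (ev i)‖ ≤ tr X + n * (‖X - 1‖ ^ 2 / 2) := by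
    rw [tr_eq]
    calc _ ≤ ∑ i : Fin n, (⟪ev i, X (ev i)⟫ + ‖X - 1‖ ^ 2 / 2) := Finset.sum_le_sum fun i _ => by
          have a1 := norm_split X (ev i)
          have a2 := sq_apply (X - 1) (ev i)
          rw [norm_ev] at a1 a2
          rw [real_inner_comm]
          nlinarith [sq_nonneg (‖X (ev i)‖ - 1)]
      _ = _ := by simp [Finset.sum_add_distrib]
  have s0 : 0 ≤ ∑ i, ‖X (ev i)‖ := Finset.sum_nonneg fun i _ => norm_nonneg _
  have k2 : (∑ i, ‖X (ev i)‖) / n ≤ tr X / n + ‖X - 1‖ ^ 2 / 2 := by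
    rw [div_le_iff₀ n0, add_mul, div_mul_cancel₀ _ n0.ne']
    linarith
  have m0 : 0 ≤ (∑ i, ‖X (ev i)‖) / n := by positivity
  have k3 : X.det ≤ (tr X / n + ‖X - 1‖ ^ 2 / 2) ^ n :=
    calc _ ≤ ∏ i, ‖X (ev i)‖ :=
          (le_abs_self _).trans (h48.had (EuclideanSpace.basisFun (Fin n) ℝ) X)
      _ ≤ _ := prod_le_mean hn _ fun i => norm_nonneg _
      _ ≤ _ := by gcongr
  have e0 : 0 ≤ ε / n := by positivity
  have e1 : ε / n ≤ 1 := (div_le_one n0).2 (by linarith)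
  have k4 : 1 + ε ≤ (1 + ε / n) ^ n := by
    have := one_add_mul_le_pow (show -2 ≤ ε / n by linarith) n
    rwa [mul_div_cancel₀ _ n0.ne'] at this
  have k5 : ‖X‖ ≤ (1 + ε / n) * (tr X / n + ‖X - 1‖ ^ 2 / 2) := by
    have t0 := m0.trans k2
    refine le_of_pow_le_pow_left₀ (n := n) (by omega) (by positivity) ?_
    rw [mul_pow]
    refine le_trans h ((mul_le_mul_of_nonneg_left k3 (by linarith)).trans ?_)
    gcongr
  have k6 : ‖X‖ ≤ tr X / n + (ε / n * (tr X / n) + ‖X - 1‖ ^ 2) := by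
    nlinarith [mul_le_mul_of_nonneg_right e1 (sq_nonneg ‖X - 1‖)]
  have k7 := h35.form_le X e
  nlinarith [mul_le_mul_of_nonneg_right k6 (sq_nonneg ‖e‖)]

theorem norm_one (hn : 3 ≤ n) : ‖(1 : Mt n)‖ = 1 := by
  refine le_antisymm norm_one_le ?_
  simpa [norm_ev] using (1 : Mt n).le_opNorm (ev ⟨0, by omega⟩)

theorem abs_norm_sub_one (hn : 3 ≤ n) (X : Mt n) : |‖X‖ - 1| ≤ ‖X - 1‖ := by
  simpa only [norm_one hn] using abs_norm_sub_norm_le X 1

theorem dev (hn : 3 ≤ n) (ε : ℝ) (h0 : 0 ≤ ε) (h1 : ε ≤ 1) (X : Mt n) (h : Qr (1 + ε) X) :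
    Dev X (10 * (ε + ‖X - 1‖ ^ 2)) := by
  have n0 : (0 : ℝ) < n := by positivity
  obtain ⟨η, η0, η1, hη⟩ : ∃ η : ℝ, 0 ≤ η ∧ η ≤ 5 * (ε + ‖X - 1‖ ^ 2) ∧ ∀ a b : V n,
      |⟪X a, b⟫ + ⟪a, X b⟫ - (1 + ‖X‖ ^ 2) * ⟪a, b⟫| ≤ η * ‖a‖ * ‖b‖ := by
    refine ⟨2 * ε * ‖X‖ ^ 2 + ‖X - 1‖ ^ 2, by positivity, ?_, fun a b => ?_⟩
    · have l1 := le_of_abs_le (abs_norm_sub_one hn X)
      have l2 : ‖X‖ ^ 2 ≤ 2 + 2 * ‖X - 1‖ ^ 2 := by
        nlinarith [norm_nonneg X, sq_nonneg (‖X - 1‖ - 1)]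
      nlinarith [mul_le_mul_of_nonneg_left l2 h0,
        mul_le_mul_of_nonneg_right h1 (sq_nonneg ‖X - 1‖)]
    · have k1 := abs_le.1 (h.nc1 (by omega) h0 a b)
      have k2 : |⟪(X - 1) a, (X - 1) b⟫| ≤ ‖X - 1‖ * ‖a‖ * (‖X - 1‖ * ‖b‖) :=
        (abs_form _ _ _).trans (by gcongr; exact (X - 1).le_opNorm b)
      have k3 := abs_le.1 k2
      rw [inner_split] at k1
      rw [abs_le]
      constructor <;> linarith [k1.1, k1.2, k3.1, k3.2]
  have t : |2 * (tr X / n) - (1 + ‖X‖ ^ 2)| ≤ η := by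
    have e : 2 * (tr X / n) - (1 + ‖X‖ ^ 2) = (∑ i : Fin n, (⟪X (ev i), ev i⟫ + ⟪ev i, X (ev i)⟫ -
        (1 + ‖X‖ ^ 2) * ⟪ev i, ev i⟫)) / n := by
      simp only [inner_ev_self, real_inner_comm (ev _) (X _), Finset.sum_sub_distrib,
        Finset.sum_add_distrib, ← tr_eq, Finset.sum_const, Finset.card_univ, Fintype.card_fin,
        nsmul_eq_mul]
      field_simp
      ring
    rw [e, abs_div, abs_of_pos n0, div_le_iff₀ n0]
    refine (Finset.abs_sum_le_sum_abs _ _).trans ?_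
    calc _ ≤ ∑ _i : Fin n, η := Finset.sum_le_sum fun i _ => by
          simpa only [norm_ev, mul_one] using hη (ev i) (ev i)
      _ = _ := by simp [mul_comm]
  intro a b
  have k1 := abs_le.1 (hη a b)
  have k2 : |(2 * (tr X / n) - (1 + ‖X‖ ^ 2)) * ⟪a, b⟫| ≤ η * (‖a‖ * ‖b‖) := by
    rw [abs_mul]
    exact mul_le_mul t (abs_real_inner_le_norm a b) (abs_nonneg _) η0
  have k3 := abs_le.1 k2
  have k4 := mul_le_mul_of_nonneg_right η1 (mul_nonneg (norm_nonneg a) (norm_nonneg b))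
  rw [abs_le]
  constructor <;> linarith [k1.1, k1.2, k3.1, k3.2]

theorem norm_le_of_inner {T : Mt n} {C : ℝ} (hC : 0 ≤ C)
    (h : ∀ a z, |⟪a, T z⟫| ≤ C * ‖a‖ * ‖z‖) : ‖T‖ ≤ C := by
  refine ContinuousLinearMap.opNorm_le_bound _ hC fun z => ?_
  have k := le_of_abs_le (h (T z) z)
  rw [real_inner_self_eq_norm_sq] at k
  rcases (norm_nonneg (T z)).eq_or_lt with e | e
  · rw [← e]; positivity
  · exact le_of_mul_le_mul_left (by linarith) e

theorem sq_norm_le (Y : Mt n) : ‖Y‖ ^ 2 ≤ ∑ i, ‖Y (ev i)‖ ^ 2 := by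
  have s0 : 0 ≤ ∑ i, ‖Y (ev i)‖ ^ 2 := Finset.sum_nonneg fun i _ => sq_nonneg _
  rw [← Real.le_sqrt (norm_nonneg _) s0]
  refine ContinuousLinearMap.opNorm_le_bound _ (Real.sqrt_nonneg _) fun v => ?_
  refine sq_le (norm_nonneg _) (by positivity) ?_
  have k : ‖Y v‖ ≤ ∑ i, ‖Y (ev i)‖ * |⟪ev i, v⟫| := by
    conv_lhs => rw [← sum_ev v, map_sum]
    refine (norm_sum_le _ _).trans (Finset.sum_le_sum fun i _ => ?_)
    rw [map_smul, norm_smul, mul_comm, Real.norm_eq_abs]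
  have e : ∑ i, |⟪ev i, v⟫| ^ 2 = ‖v‖ ^ 2 := by
    simp only [sq_abs]
    exact (EuclideanSpace.basisFun (Fin n) ℝ).sum_sq_inner_right v
  rw [mul_pow, Real.sq_sqrt s0, ← e]
  exact (pow_le_pow_left₀ (norm_nonneg _) k 2).trans (Finset.sum_mul_sq_le_sq_mul_sq _ _ _)

theorem pow_sub_one {l y : ℝ} (k : ℕ) (hl : 0 ≤ l) (hy : |l - 1| ≤ y) :
    |l ^ (k + 1) - 1| ≤ (k + 1) * max l 1 ^ k * y := by
  have := abs_pow_sub_pow_le (a := l) (b := 1) (n := k + 1)
  rw [one_pow, Nat.add_sub_cancel, abs_of_nonneg hl, abs_one] at this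
  calc _ ≤ _ := this
    _ ≤ y * (k + 1 : ℕ) * max l 1 ^ k := by gcongr
    _ = _ := by push_cast; ring

theorem adj_sub_one (k : ℕ) (ε : ℝ) (h0 : 0 ≤ ε) (h1 : ε ≤ 1) (X : Mt (k + 3))
    (h : Qr (1 + ε) X) :
    ‖adj X - 1‖ ≤ (k + 8) * 2 ^ (k + 2) * (ε + ‖X - 1‖ + ‖X - 1‖ ^ (k + 2)) := by
  have hy := abs_norm_sub_one (by omega) X
  have y0 := norm_nonneg (X - 1)
  have l1 : ‖X‖ ≤ 1 + ‖X - 1‖ := by linarith [le_of_abs_le hy]
  have p1 : |‖X‖ ^ (k + 1) - 1| ≤ (k + 1) * (1 + ‖X - 1‖) ^ (k + 1) * ‖X - 1‖ := by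
    refine (pow_sub_one k (norm_nonneg X) hy).trans ?_
    have : max ‖X‖ 1 ^ k ≤ (1 + ‖X - 1‖) ^ (k + 1) :=
      (pow_le_pow_left₀ (by positivity) (max_le l1 (by linarith)) k).trans
        (pow_le_pow_right₀ (by linarith) k.le_succ)
    gcongr
  have k1 : ‖adj X - 1‖ ≤ 6 * ε * (1 + ‖X - 1‖) ^ (k + 2) +
      (k + 2) * (1 + ‖X - 1‖) ^ (k + 1) * ‖X - 1‖ := by
    refine norm_le_of_inner (by positivity) fun a z => ?_
    have a1 : |⟪a, adj X z⟫ - ‖X‖ ^ (k + 1) * ⟪X a, z⟫| ≤ 6 * ε * ‖X‖ ^ (k + 2) * ‖a‖ * ‖z‖ :=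
      h.nc2 (by omega) h0 h1 a z
    have e : ⟪a, (adj X - 1) z⟫ = (⟪a, adj X z⟫ - ‖X‖ ^ (k + 1) * ⟪X a, z⟫) +
        (‖X‖ ^ (k + 1) * ⟪(X - 1) a, z⟫ + (‖X‖ ^ (k + 1) - 1) * ⟪a, z⟫) := by
      simp only [sub_apply, inner_sub_left, inner_sub_right,
        one_apply_eq_self]
      ring
    calc _ ≤ 6 * ε * (1 + ‖X - 1‖) ^ (k + 2) * ‖a‖ * ‖z‖ +
          ((1 + ‖X - 1‖) ^ (k + 1) * (‖X - 1‖ * ‖a‖ * ‖z‖) +
            (k + 1) * (1 + ‖X - 1‖) ^ (k + 1) * ‖X - 1‖ * (‖a‖ * ‖z‖)) := by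
          rw [e]
          refine (abs_add_le _ _).trans (add_le_add (a1.trans (by gcongr)) ?_)
          refine (abs_add_le _ _).trans ?_
          rw [abs_mul, abs_mul, abs_of_nonneg (pow_nonneg (norm_nonneg X) _)]
          gcongr
          · exact abs_form _ _ _
          · exact abs_real_inner_le_norm _ _
      _ = _ := by ring
  have q1 : (1 + ‖X - 1‖) ^ (k + 2) ≤ 2 ^ (k + 1) * (1 + ‖X - 1‖ ^ (k + 2)) := by
    simpa using add_pow_le zero_le_one y0 (k + 2)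
  have q2 : (1 + ‖X - 1‖) ^ (k + 1) ≤ 2 ^ k * (1 + ‖X - 1‖ ^ (k + 1)) := by
    simpa using add_pow_le zero_le_one y0 (k + 1)
  have z0 : 0 ≤ ‖X - 1‖ ^ (k + 2) := by positivity
  calc _ ≤ _ := k1
    _ ≤ 6 * ε * (2 ^ (k + 1) * (1 + ‖X - 1‖ ^ (k + 2))) +
        (k + 2) * (2 ^ k * (1 + ‖X - 1‖ ^ (k + 1))) * ‖X - 1‖ := by gcongr
    _ = 6 * 2 ^ (k + 1) * (ε + ε * ‖X - 1‖ ^ (k + 2)) +
        (k + 2) * 2 ^ k * (‖X - 1‖ + ‖X - 1‖ ^ (k + 2)) := by ring
    _ ≤ 6 * 2 ^ (k + 2) * (ε + ‖X - 1‖ + ‖X - 1‖ ^ (k + 2)) +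
        (k + 2) * 2 ^ (k + 2) * (ε + ‖X - 1‖ + ‖X - 1‖ ^ (k + 2)) := by
      have : ε * ‖X - 1‖ ^ (k + 2) ≤ ‖X - 1‖ ^ (k + 2) := mul_le_of_le_one_left z0 h1
      gcongr
      · norm_num
      · omega
      · linarith
      · norm_num
      · omega
      · linarith
    _ = _ := by ring

theorem tr_lower (k : ℕ) (ε : ℝ) (h0 : 0 ≤ ε) (h1 : ε ≤ 1) (X : Mt (k + 3))
    (h : Qr (1 + ε) X) : max ‖X‖ 1 ^ (k + 1) * ‖X - 1‖ ^ 2 / 2 -
      (k + 3) * (k + 7) * ε * (max ‖X‖ 1 ^ (k + 2) * ‖X - 1‖) ≤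
      tr ((X - 1) ∘L adj X) - tr (X - 1) := by
  have hy := abs_norm_sub_one (by omega) X
  have y0 := norm_nonneg (X - 1)
  have l0 := norm_nonneg X
  have lL := le_max_left ‖X‖ 1
  have pt : ∀ i, (‖X‖ ^ (k + 1) + 1) / 2 * ‖(X - 1) (ev i)‖ ^ 2 -
      (k + 7) * ε * (max ‖X‖ 1 ^ (k + 2) * ‖X - 1‖) ≤
      ⟪ev i, (adj X ∘L (X - 1)) (ev i)⟫ - ⟪ev i, (X - 1) (ev i)⟫ := fun i => by
    have a1 : |⟪ev i, adj X ((X - 1) (ev i))⟫ - ‖X‖ ^ (k + 1) * ⟪X (ev i), (X - 1) (ev i)⟫| ≤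
        6 * ε * ‖X‖ ^ (k + 2) * ‖ev i‖ * ‖(X - 1) (ev i)‖ := h.nc2 (by omega) h0 h1 _ _
    have a2 := h.nc1 (by omega) h0 (ev i) (ev i)
    have a3 := (X - 1).le_opNorm (ev i)
    rw [inner_ev_self, real_inner_self_eq_norm_sq] at a2
    simp only [norm_ev, mul_one] at a1 a2 a3
    have a4 := norm_split X (ev i)
    rw [norm_ev] at a4
    have e1 : ⟪ev i, (X - 1) (ev i)⟫ = (‖X (ev i)‖ ^ 2 - 1 - ‖(X - 1) (ev i)‖ ^ 2) / 2 := by
      rw [a4, sub_apply, inner_sub_right, one_apply_eq_self,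
        inner_ev_self, real_inner_comm]
      ring
    have e2 : ⟪X (ev i), (X - 1) (ev i)⟫ = (‖X (ev i)‖ ^ 2 - 1 + ‖(X - 1) (ev i)‖ ^ 2) / 2 := by
      conv_lhs => rw [sub_apply, inner_sub_right,
        one_apply_eq_self, real_inner_self_eq_norm_sq]
      linarith
    have b1 : 6 * ε * ‖X‖ ^ (k + 2) * ‖(X - 1) (ev i)‖ ≤
        6 * ε * max ‖X‖ 1 ^ (k + 2) * ‖X - 1‖ := by gcongr
    have b2 : 0 ≤ (‖X‖ ^ (k + 1) - 1) * (‖X‖ ^ 2 - 1) := by
      rcases le_total ‖X‖ 1 with c | c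
      · exact mul_nonneg_of_nonpos_of_nonpos (sub_nonpos.2 (pow_le_one₀ l0 c))
          (sub_nonpos.2 (pow_le_one₀ l0 c))
      · exact mul_nonneg (sub_nonneg.2 (one_le_pow₀ c)) (sub_nonneg.2 (one_le_pow₀ c))
    have b3 : |(‖X‖ ^ (k + 1) - 1) * (‖X (ev i)‖ ^ 2 - ‖X‖ ^ 2)| ≤
        (k + 1) * max ‖X‖ 1 ^ k * ‖X - 1‖ * (2 * ε * max ‖X‖ 1 ^ 2) := by
      rw [abs_mul]
      exact mul_le_mul (pow_sub_one k l0 hy) (a2.trans (by gcongr)) (abs_nonneg _) (by positivity)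
    have b4 := neg_le_of_abs_le b3
    have b5 := neg_le_of_abs_le a1
    rw [ContinuousLinearMap.comp_apply, e1]
    rw [e2] at b5
    have b6 : (k + 1) * max ‖X‖ 1 ^ k * ‖X - 1‖ * (2 * ε * max ‖X‖ 1 ^ 2) =
        2 * ((k + 1) * ε * (max ‖X‖ 1 ^ (k + 2) * ‖X - 1‖)) := by ring
    rw [b6] at b4
    linarith
  have s := Finset.sum_le_sum fun i (_ : i ∈ Finset.univ) => pt i
  simp only [Finset.sum_sub_distrib, ← tr_eq, ← Finset.mul_sum, Finset.sum_const,
    Finset.card_univ, Fintype.card_fin, nsmul_eq_mul] at s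
  have c1 : max ‖X‖ 1 ^ (k + 1) ≤ ‖X‖ ^ (k + 1) + 1 := by
    rcases le_total ‖X‖ 1 with c | c
    · rw [max_eq_right c, one_pow]
      linarith [pow_nonneg l0 (k + 1)]
    · rw [max_eq_left c]
      linarith
  have c2 := mul_le_mul c1 (sq_norm_le (X - 1)) (sq_nonneg _) (by positivity)
  rw [tr_comm]
  rw [Nat.cast_add, Nat.cast_ofNat] at s
  linarith

theorem absorb (m : ℕ) {L y η : ℝ} (L1 : 1 ≤ L) (y0 : 0 ≤ y) (h1 : L ≤ 1 + y) (h2 : y ≤ 2 * L)
    (η0 : 0 ≤ η) (η1 : η ≤ 1 / 8) :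
    (8 * (1 + 2 ^ m))⁻¹ * (y ^ 2 + y ^ (m + 2)) - 2 ^ (m + 1) * η ^ 2 ≤
      L ^ m * y ^ 2 / 2 - η * (L ^ (m + 1) * y) := by
  have w1 : 1 ≤ L ^ m := one_le_pow₀ L1
  have w2 : y ^ m ≤ 2 ^ m * L ^ m := by rw [← mul_pow]; gcongr
  have w3 : L ^ m ≤ 2 ^ m + L ^ m * y ^ 2 := by
    rcases le_total y 1 with c | c
    · have : L ^ m ≤ 2 ^ m := pow_le_pow_left₀ (by linarith) (by linarith) m
      nlinarith [sq_nonneg y]
    · have : 1 ≤ y ^ 2 := one_le_pow₀ c
      have : (0 : ℝ) ≤ 2 ^ m := by positivity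
      nlinarith
  have k1 : (8 * (1 + 2 ^ m))⁻¹ * (y ^ 2 + y ^ (m + 2)) ≤ L ^ m * y ^ 2 / 8 := by
    rw [inv_mul_le_iff₀ (by positivity), pow_add]
    nlinarith [mul_le_mul_of_nonneg_right w1 (sq_nonneg y),
      mul_le_mul_of_nonneg_right w2 (sq_nonneg y)]
  have w0 : 0 ≤ L ^ m := by linarith
  have k2 : η * (L ^ (m + 1) * y) ≤ η * (L ^ m * (1 + y) * y) := by
    rw [pow_succ]
    gcongr
  have k3 : η * (L ^ m * y ^ 2) ≤ 1 / 8 * (L ^ m * y ^ 2) := by gcongr
  have k4 := mul_nonneg w0 (sq_nonneg (y - 4 * η))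
  have k5 := mul_le_mul_of_nonneg_left w3 (sq_nonneg η)
  have k6 : η ^ 2 * (L ^ m * y ^ 2) ≤ (1 / 8) ^ 2 * (L ^ m * y ^ 2) := by gcongr
  have k7 : 0 ≤ L ^ m * y ^ 2 := by positivity
  rw [pow_succ 2 m]
  nlinarith

theorem pwc (k : ℕ) : ∃ ε₀ c C : ℝ, 0 < ε₀ ∧ 0 < c ∧ 0 < C ∧ ∀ ε, 0 ≤ ε → ε ≤ ε₀ →
    ∀ X : Mt (k + 3), Qr (1 + ε) X →
    c * om (k + 3) ‖X - 1‖ - C * ε ^ 2 ≤ tr ((X - 1) ∘L adj X) - tr (X - 1) ∧
    ‖adj X - 1‖ ≤ C * (ε + ‖X - 1‖ + ‖X - 1‖ ^ (k + 2)) := by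
  obtain ⟨K, hK, K1⟩ : ∃ K : ℝ, K = (k + 3) * (k + 7) ∧ 1 ≤ K :=
    ⟨_, rfl, by nlinarith [Nat.cast_nonneg (α := ℝ) k]⟩
  refine ⟨(8 * K)⁻¹, (8 * (1 + 2 ^ (k + 1)))⁻¹, 2 ^ (k + 2) * K ^ 2 + (k + 8) * 2 ^ (k + 2),
    by positivity, by positivity, by positivity, fun ε h0 h1 X h => ?_⟩
  have e1 : K * ε ≤ 1 / 8 := by
    rw [← le_div_iff₀' (by linarith), div_div, one_div]
    exact h1
  have e2 : ε ≤ 1 := by nlinarith
  have hy := abs_le.1 (abs_norm_sub_one (by omega) X)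
  have y0 := norm_nonneg (X - 1)
  constructor
  · have k1 := tr_lower k ε h0 e2 X h
    have y1 : ‖X - 1‖ ≤ 2 * max ‖X‖ 1 := by
      have := norm_sub_le X 1
      linarith [le_max_left ‖X‖ 1, le_max_right ‖X‖ 1, norm_one_le (n := k + 3)]
    have k2 := absorb (k + 1) (le_max_right ‖X‖ 1) y0 (max_le (by linarith [hy.2]) (by linarith))
      y1 (by positivity) e1
    rw [← hK] at k1
    have k3 : (0 : ℝ) ≤ (k + 8) * 2 ^ (k + 2) * ε ^ 2 := by positivity
    unfold om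
    linarith
  · refine (adj_sub_one k ε h0 e2 X h).trans ?_
    gcongr
    exact le_add_of_nonneg_left (by positivity)

end MatBp

theorem matB {n : ℕ} (hn : 3 ≤ n) : MatB n where
  pwc := by
    obtain ⟨k, rfl⟩ : ∃ k, n = k + 3 := ⟨n - 3, by omega⟩
    exact MatBp.pwc k
  dev := ⟨10, by norm_num, MatBp.dev hn⟩
  top := MatBp.top hn
  pol1 := MatBp.pol1 hn
  pol2 := MatBp.pol2 hn
  conf_norm := MatBp.conf_norm
  conf_qr := MatBp.conf_qr
  conf_comp := MatBp.conf_comp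
  conf_inv := MatBp.conf_inv
  conf_one := MatBp.conf_one
  norm_le := MatBp.norm_le hn
  top_add := MatBp.top_add
  dev_add := MatBp.dev_add
  top_sub_one := MatBp.top_sub_one hn
  dev_sub_one := MatBp.dev_sub_one hn
  qr_cases := fun _ _ hK h => h.cases hK

end Pool.Agent.MP_29b5d3_an.NC

end MrgPart0

-- ======== part 1: formerly Pool.Agent.MP_29b5d3_an.NC.Abp
section MrgPart1

/-! Project NEARCONF: the covering inequality for the smallest eigenvalue of a Hessian. -/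

set_option autoImplicit false

namespace Pool.Agent.MP_29b5d3_an.NC

open MeasureTheory Metric Filter Topology Module
open scoped RealInnerProductSpace ContDiff ENNReal

namespace AbpAux

variable {n : ℕ}

theorem lmin_le (H : Mt n) {e : V n} (he : ‖e‖ = 1) : lmin H ≤ ⟪H e, e⟫ := by
  have b : BddBelow (Set.range fun e : sphere (0 : V n) 1 => ⟪H e, (e : V n)⟫) := by
    refine ⟨-‖H‖, ?_⟩
    rintro _ ⟨e, rfl⟩
    have h1 : ‖(e : V n)‖ = 1 := by simp
    have h2 := abs_real_inner_le_norm (H e) (e : V n)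
    have h3 := H.le_opNorm e
    rw [h1, mul_one] at h2 h3
    linarith [neg_abs_le ⟪H e, (e : V n)⟫]
  exact ciInf_le b ⟨e, by simpa using he⟩

theorem le_lmin (hn : 1 ≤ n) {H : Mt n} {c : ℝ} (h : ∀ e : V n, ‖e‖ = 1 → c ≤ ⟪H e, e⟫) :
    c ≤ lmin H := by
  have : Nonempty (sphere (0 : V n) 1) := ⟨⟨ev ⟨0, hn⟩, by simp [norm_ev]⟩⟩
  exact le_ciInf fun e => h e (by simp)

theorem lmin_sub (hn : 1 ≤ n) (H H' : Mt n) : lmin H - ‖H - H'‖ ≤ lmin H' :=
  le_lmin hn fun e he => by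
    have h1 := lmin_le H he
    have h2 := h35.form_le (H - H') e
    rw [he, one_pow, mul_one, sub_apply, inner_sub_left] at h2
    linarith

theorem cont_lmin (hn : 1 ≤ n) : Continuous (lmin : Mt n → ℝ) := by
  refine (LipschitzWith.of_dist_le_mul (K := 1) fun H H' => ?_).continuous
  have h1 := lmin_sub hn H H'
  have h2 := lmin_sub hn H' H
  rw [norm_sub_rev] at h2
  rw [Real.dist_eq, dist_eq_norm, NNReal.coe_one, one_mul, abs_le]
  constructor <;> linarith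

theorem lmin_zero (hn : 1 ≤ n) : lmin (0 : Mt n) = 0 :=
  le_antisymm (by simpa using lmin_le (0 : Mt n) (norm_ev ⟨0, hn⟩))
    (le_lmin hn fun e _ => by simp)

theorem lmin_tr (H : Mt n) : n * lmin H ≤ tr H := by
  rw [tr_eq]
  calc (n : ℝ) * lmin H = ∑ _i : Fin n, lmin H := by simp
    _ ≤ _ := Finset.sum_le_sum fun i _ => by
        rw [real_inner_comm]; exact lmin_le H (norm_ev i)

theorem tr_eig {H : Mt n} {u : OrthonormalBasis (Fin n) ℝ (V n)} {l : Fin n → ℝ}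
    (h : ∀ i, H (u i) = l i • u i) : tr H = ∑ i, l i := by
  rw [tr_basis u]
  exact Finset.sum_congr rfl fun i _ => by
    rw [real_inner_comm]; exact h35.eig_inner (u.orthonormal.1 i) (h i)

theorem lmin_eig {H : Mt n} {u : OrthonormalBasis (Fin n) ℝ (V n)} {l : Fin n → ℝ}
    (h : ∀ i, H (u i) = l i • u i) (i : Fin n) : lmin H ≤ l i :=
  (lmin_le H (u.orthonormal.1 i)).trans_eq (h35.eig_inner (u.orthonormal.1 i) (h i))

theorem inner_eig {H : Mt n} (hs : Sym H) {u : OrthonormalBasis (Fin n) ℝ (V n)} {l : Fin n → ℝ}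
    (h : ∀ i, H (u i) = l i • u i) (i : Fin n) (e : V n) : ⟪u i, H e⟫ = l i * ⟪u i, e⟫ := by
  rw [← hs, h, real_inner_smul_left]

theorem pair (H X : Mt n) (c : ℝ) (hn : 1 ≤ n) (hs : Sym H) (hX : Top X c) :
    tr (X ∘L H) - tr X * tr H / n ≤ c * (tr H - n * lmin H) := by
  obtain ⟨u, l, h, -⟩ := h35.spec fr hs
  have n0 : (n : ℝ) ≠ 0 := by positivity
  have e1 : tr (X ∘L H) = ∑ i, l i * ⟪u i, X (u i)⟫ := by
    rw [tr_basis u]
    exact Finset.sum_congr rfl fun i _ => by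
      rw [ContinuousLinearMap.comp_apply, h, map_smul, real_inner_smul_right]
  have e2 : ∑ i, (l i - lmin H) * (⟪u i, X (u i)⟫ - tr X / n) =
      tr (X ∘L H) - tr X * tr H / n := by
    simp only [sub_mul, mul_sub, Finset.sum_sub_distrib, ← Finset.mul_sum, ← Finset.sum_mul,
      ← e1, ← tr_basis u X, ← tr_eig h, Finset.sum_const, Finset.card_univ, Fintype.card_fin,
      nsmul_eq_mul]
    field_simp
    ring
  have e3 : ∑ i, (l i - lmin H) * c = c * (tr H - n * lmin H) := by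
    rw [← Finset.sum_mul, Finset.sum_sub_distrib, ← tr_eig h]
    simp [mul_comm]
  rw [← e2, ← e3]
  refine Finset.sum_le_sum fun i _ => mul_le_mul_of_nonneg_left ?_ (sub_nonneg.2 (lmin_eig h i))
  have := hX (u i)
  rwa [u.orthonormal.1 i, one_pow, mul_one, mul_one, real_inner_comm] at this

theorem norm_le (H : Mt n) (hn : 1 ≤ n) (hs : Sym H) :
    ‖H‖ ≤ |tr H| + 2 * (tr H - n * lmin H) := by
  obtain ⟨u, l, h, -⟩ := h35.spec fr hs
  have n1 : (1 : ℝ) ≤ n := by exact_mod_cast hn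
  have d0 : 0 ≤ tr H - n * lmin H := sub_nonneg.2 (lmin_tr H)
  have a1 := le_abs_self (tr H)
  have a2 := neg_abs_le (tr H)
  have a3 := abs_nonneg (tr H)
  have b : ∀ i, |l i| ≤ |tr H| + 2 * (tr H - n * lmin H) := fun i => by
    have k1 := lmin_eig h i
    have k2 : l i - lmin H ≤ tr H - n * lmin H := by
      have := Finset.single_le_sum (f := fun j => l j - lmin H)
        (fun j _ => sub_nonneg.2 (lmin_eig h j)) (Finset.mem_univ i)
      rw [Finset.sum_sub_distrib, ← tr_eig h] at this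
      simpa using this
    rw [abs_le]
    rcases le_total 0 (lmin H) with h0 | h0
    · have := mul_le_mul_of_nonneg_right n1 h0
      constructor <;> linarith
    · have := mul_le_mul_of_nonpos_right n1 h0
      constructor <;> linarith
  refine ContinuousLinearMap.opNorm_le_bound _ (by linarith) fun v => ?_
  refine (pow_le_pow_iff_left₀ (norm_nonneg _) (mul_nonneg (by linarith) (norm_nonneg _))
    two_ne_zero).1 ?_
  rw [mul_pow, ← u.sum_sq_inner_right, ← u.sum_sq_inner_right, Finset.mul_sum]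
  refine Finset.sum_le_sum fun i _ => ?_
  rw [inner_eig hs h, mul_pow]
  exact mul_le_mul_of_nonneg_right (sq_le_sq' (abs_le.1 (b i)).1 (abs_le.1 (b i)).2) (sq_nonneg _)

theorem amgm {ι : Type} (s : Finset ι) (z : ι → ℝ) {m : ℕ} (hm : s.card = m) (h0 : 0 < m)
    (hz : ∀ i ∈ s, 0 ≤ z i) : ∏ i ∈ s, z i ≤ ((∑ i ∈ s, z i) / m) ^ m := by
  have m0 : (0 : ℝ) < m := by exact_mod_cast h0
  have h := Real.geom_mean_le_arith_mean s (fun _ => 1) z (fun _ _ => zero_le_one)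
    (by simpa [hm] using h0) hz
  simp only [Real.rpow_one, one_mul, Finset.sum_const, hm, nsmul_eq_mul, mul_one] at h
  have p := Finset.prod_nonneg hz
  calc _ = ((∏ i ∈ s, z i) ^ (m : ℝ)⁻¹) ^ m := (Real.rpow_inv_natCast_pow p h0.ne').symm
    _ ≤ _ := pow_le_pow_left₀ (Real.rpow_nonneg p _) h m

theorem det_le {m : ℕ} (hm : 0 < m) {H : Mt (m + 1)} (hs : Sym H) {t : ℝ}
    (h0 : 0 ≤ lmin (t • (1 : Mt (m + 1)) - H)) :
    |(t • (1 : Mt (m + 1)) - H).det| ≤ (t - lmin H) * max (t - (tr H - lmin H) / m) 0 ^ m := by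
  have m0 : (0 : ℝ) < m := by exact_mod_cast hm
  have hs' : Sym (t • (1 : Mt (m + 1)) - H) := fun a b => by
    simp only [sub_apply, smul_apply, one_apply_eq_self, inner_sub_left,
      inner_sub_right, real_inner_smul_left, real_inner_smul_right, hs a b]
  obtain ⟨u, l, h, hd⟩ := h35.spec fr hs'
  have l0 : ∀ i, 0 ≤ l i := fun i => h0.trans (lmin_eig h i)
  obtain ⟨j, -, hj⟩ := Finset.exists_max_image Finset.univ l Finset.univ_nonempty
  have f : ∀ e : V (m + 1), ‖e‖ = 1 → ⟪(t • (1 : Mt (m + 1)) - H) e, e⟫ = t - ⟪H e, e⟫ :=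
    fun e he => by
      simp only [sub_apply, smul_apply, one_apply_eq_self, inner_sub_left,
        real_inner_smul_left, real_inner_self_eq_norm_sq, he, one_pow, mul_one]
  have e1 : l j = t - lmin H := by
    refine le_antisymm ?_ ?_
    · have k1 := f _ (u.orthonormal.1 j)
      rw [h35.eig_inner (u.orthonormal.1 j) (h j)] at k1
      linarith [lmin_le H (u.orthonormal.1 j)]
    · have : t - l j ≤ lmin H := le_lmin (by omega) fun e he => by
        have k1 := f e he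
        have k2 := u.sum_sq_inner_right e
        rw [he, one_pow] at k2
        rw [real_inner_comm, ← u.sum_inner_mul_inner] at k1
        have k3 : ∑ i, ⟪e, u i⟫ * ⟪u i, (t • (1 : Mt (m + 1)) - H) e⟫ ≤
            ∑ i, l j * ⟪u i, e⟫ ^ 2 := Finset.sum_le_sum fun i _ => by
          rw [inner_eig hs' h, real_inner_comm, mul_left_comm, ← sq]
          exact mul_le_mul_of_nonneg_right (hj i (Finset.mem_univ i)) (sq_nonneg _)
        rw [← Finset.mul_sum, k2] at k3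
        linarith
      linarith
  have e2 : ∑ i ∈ Finset.univ.erase j, l i = m * t - (tr H - lmin H) := by
    have k1 := Finset.add_sum_erase Finset.univ l (Finset.mem_univ j)
    rw [← tr_eig h, tr_sub, tr_smul, tr_one, e1] at k1
    push_cast at k1
    linarith
  have e3 := amgm (Finset.univ.erase j) l (m := m) (by simp) hm fun i _ => l0 i
  rw [e2, sub_div, mul_div_cancel_left₀ _ m0.ne'] at e3
  rw [hd, abs_of_nonneg (Finset.prod_nonneg fun i _ => l0 i),
    ← Finset.mul_prod_erase Finset.univ l (Finset.mem_univ j), ← e1]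
  refine mul_le_mul_of_nonneg_left (e3.trans (pow_le_pow_left₀ ?_ (le_max_left _ _) m)) (l0 j)
  have k := Finset.sum_nonneg fun i (_ : i ∈ Finset.univ.erase j) => l0 i
  rw [e2] at k
  rw [sub_nonneg, div_le_iff₀ m0]
  linarith

theorem second_order {k k' : ℝ → ℝ} {c : ℝ} (h1 : ∀ τ, HasDerivAt k (k' τ) τ)
    (h2 : HasDerivAt k' c 0) (hmin : ∀ τ, k 0 ≤ k τ) : k' 0 = 0 ∧ 0 ≤ c := by
  have m : IsLocalMin k 0 := Eventually.of_forall hmin
  have z : k' 0 = 0 := m.hasDerivAt_eq_zero (h1 0)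
  refine ⟨z, not_lt.1 fun hc => ?_⟩
  have e : deriv k = k' := funext fun τ => (h1 τ).deriv
  have M : IsLocalMax k 0 :=
    isLocalMax_of_deriv_deriv_neg (by rw [e, h2.deriv]; exact hc) (by rw [e, z])
      (h1 0).continuousAt
  have q : k =ᶠ[𝓝 0] fun _ => k 0 := by
    filter_upwards [M] with τ hτ using le_antisymm hτ (hmin τ)
  have q2 := q.deriv.deriv_eq
  rw [e, h2.deriv] at q2
  simp at q2
  exact hc.ne q2

theorem contact (hn : 1 ≤ n) {v : V n → ℝ} {R t : ℝ} (hv : Test v R) (hR : 0 < R) (ht : 0 < t)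
    {y : V n} (hy : ‖y‖ < t * R) : ∃ x : V n, ‖x‖ < R ∧ 0 ≤ lmin (t • (1 : Mt n) - hess v x) ∧
      t • x - gradient v x = y := by
  let g : V n → ℝ := fun x => t / 2 * ⟪x, x⟫ - v x - ⟪y, x⟫
  have gc : Continuous g := by
    have := hv.cont
    fun_prop
  obtain ⟨x, hx⟩ := gc.exists_forall_le' (R • ev ⟨0, hn⟩) (by
    have n0 : ‖R • ev (n := n) ⟨0, hn⟩‖ = R := by
      rw [norm_smul, norm_ev, mul_one, Real.norm_of_nonneg hR.le]
    filter_upwards [(isCompact_closedBall (0 : V n) (3 * R)).compl_mem_cocompact] with x hx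
    have h1 : 3 * R < ‖x‖ := by simpa using hx
    have h2 := abs_real_inner_le_norm y (R • ev (n := n) ⟨0, hn⟩)
    have h3 := real_inner_le_norm y x
    have h4 := neg_abs_le ⟪y, R • ev (n := n) ⟨0, hn⟩⟫
    simp only [g, real_inner_self_eq_norm_sq]
    rw [hv.2 _ n0.ge, hv.2 x (by linarith), n0]
    rw [n0] at h2
    have h5 : ‖y‖ * R ≤ t * R * R := mul_le_mul_of_nonneg_right hy.le hR.le
    have h6 : ‖y‖ * ‖x‖ ≤ t * R * ‖x‖ := mul_le_mul_of_nonneg_right hy.le (norm_nonneg x)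
    have h7 : 0 ≤ t * ((‖x‖ - 3 * R) * (‖x‖ + R)) :=
      mul_nonneg ht.le (mul_nonneg (by linarith) (by linarith))
    nlinarith)
  have key : ∀ e : V n, ⟪t • x - gradient v x - y, e⟫ = 0 ∧
      0 ≤ ⟪(t • (1 : Mt n) - hess v x) e, e⟫ := fun e => by
    have l : ∀ τ : ℝ, HasDerivAt (fun τ : ℝ => x + τ • e) e τ := fun τ => by
      simpa using ((hasDerivAt_id τ).smul_const e).const_add x
    have h1 : ∀ τ : ℝ, HasDerivAt (fun τ : ℝ => g (x + τ • e))
        ⟪t • (x + τ • e) - gradient v (x + τ • e) - y, e⟫ τ := fun τ => by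
      have a1 := ((l τ).inner ℝ (l τ)).const_mul (t / 2)
      have a2 := ((hv.c1.differentiable one_ne_zero _).hasFDerivAt).comp_hasDerivAt τ (l τ)
      have a3 := (hasDerivAt_const τ y).inner ℝ (l τ)
      refine ((a1.sub a2).sub a3).congr_deriv ?_
      rw [inner_sub_left, inner_sub_left, real_inner_smul_left, inner_gradient,
        real_inner_comm (x + τ • e) e, inner_zero_left]
      ring
    have h2 : HasDerivAt (fun τ : ℝ => ⟪t • (x + τ • e) - gradient v (x + τ • e) - y, e⟫)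
        ⟪(t • (1 : Mt n) - hess v x) e, e⟫ 0 := by
      have a1 := (l 0).const_smul t
      have a0 : HasFDerivAt (gradient v) (hess v x) (x + (0 : ℝ) • e) := by
        rw [zero_smul, add_zero]
        exact (hv.smooth_grad.differentiable (by simp) _).hasFDerivAt
      have a2 := a0.comp_hasDerivAt 0 (l 0)
      refine (((a1.sub a2).sub_const y).inner ℝ (hasDerivAt_const 0 e)).congr_deriv ?_
      simp
    have h3 := second_order h1 h2 fun τ => by simpa using hx _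
    simpa using h3
  have e1 : t • x - gradient v x = y := sub_eq_zero.1 (inner_self_eq_zero.1 (key _).1)
  refine ⟨x, not_le.1 fun h => ?_, le_lmin hn fun e _ => (key e).2, e1⟩
  rw [hv.grad_zero x h, sub_zero] at e1
  rw [← e1, norm_smul, Real.norm_of_nonneg ht.le] at hy
  exact absurd (lt_of_mul_lt_mul_left hy ht.le) (not_lt.2 h)

theorem cover {m : ℕ} (hm : 0 < m) {v : V (m + 1) → ℝ} {R t : ℝ} (hv : Test v R) (hR : 0 < R)
    (ht : 0 < t) : t ^ (m + 1) * (volume : Measure (V (m + 1))).real (ball 0 R) ≤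
      ∫ x in ball (0 : V (m + 1)) R,
        (t - lmin (hess v x)) * max (t - (lap v x - lmin (hess v x)) / m) 0 ^ m := by
  have m0 : (0 : ℝ) < m := by exact_mod_cast hm
  have ch := hv.smooth_hess.continuous
  have cl := (cont_lmin (n := m + 1) (by omega)).comp ch
  have cL := hv.lap.cont
  let φ : V (m + 1) → ℝ := fun x =>
    (t - lmin (hess v x)) * max (t - (lap v x - lmin (hess v x)) / m) 0 ^ m
  have cφ : Continuous φ :=
    (continuous_const.sub cl).mul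
      (((continuous_const.sub ((cL.sub cl).div_const _)).max continuous_const).pow m)
  have φ0 : ∀ x, 0 ≤ φ x := fun x => by
    rcases le_total (t - (lap v x - lmin (hess v x)) / m) 0 with h | h
    · simp only [φ, max_eq_right h, zero_pow hm.ne', mul_zero, le_refl]
    · refine mul_nonneg ?_ (pow_nonneg (le_max_right _ _) m)
      have k := lmin_tr (hess v x)
      rw [sub_nonneg, div_le_iff₀ m0] at h
      push_cast at k
      refine sub_nonneg.2 (le_of_mul_le_mul_right ?_ m0)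
      unfold lap at h
      linarith
  let C : Set (V (m + 1)) := ball 0 R ∩ {x | 0 ≤ lmin (t • (1 : Mt (m + 1)) - hess v x)}
  have mC : MeasurableSet C := measurableSet_ball.inter (isClosed_le continuous_const
    ((cont_lmin (n := m + 1) (by omega)).comp (continuous_const.sub ch))).measurableSet
  have s1 : ball (0 : V (m + 1)) (t * R) ⊆ (fun x => t • x - gradient v x) '' C := fun y hy => by
    obtain ⟨x, h1, h2, h3⟩ := contact (by omega) hv hR ht (mem_ball_zero_iff.1 hy)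
    exact ⟨x, ⟨mem_ball_zero_iff.2 h1, h2⟩, h3⟩
  have s2 := addHaar_image_le_lintegral_abs_det_fderiv (volume : Measure (V (m + 1))) mC
    (f := fun x => t • x - gradient v x) (f' := fun x => t • (1 : Mt (m + 1)) - hess v x)
    fun x _ => (((hasFDerivAt_id x).const_smul t).sub
      (hv.smooth_grad.differentiable (by simp) x).hasFDerivAt).hasFDerivWithinAt
  have iφ : IntegrableOn φ (ball 0 R) volume :=
    (cφ.continuousOn.integrableOn_compact (isCompact_closedBall 0 R)).mono_set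
      ball_subset_closedBall
  have s3 : ∫⁻ x in C, ENNReal.ofReal |(t • (1 : Mt (m + 1)) - hess v x).det| ≤
      ENNReal.ofReal (∫ x in ball (0 : V (m + 1)) R, φ x) := by
    rw [ofReal_integral_eq_lintegral_ofReal iφ (Eventually.of_forall φ0)]
    refine le_trans (setLIntegral_mono' mC fun x hx => ?_)
      (lintegral_mono_set Set.inter_subset_left)
    exact ENNReal.ofReal_le_ofReal (det_le hm (hv.sym_hess x) hx.2)
  have s4 := ((measure_mono s1).trans s2).trans s3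
  rw [Measure.addHaar_ball_mul_of_pos _ _ ht, fr] at s4
  have s5 := ENNReal.toReal_mono ENNReal.ofReal_ne_top s4
  rwa [ENNReal.toReal_mul, ENNReal.toReal_ofReal (by positivity),
    ENNReal.toReal_ofReal (integral_nonneg φ0)] at s5

noncomputable def psi (m : ℕ) (g μ s : ℝ) : ℝ :=
  1 - g / s - (1 - g / s + m * (μ / s)) * max (1 - μ / s) 0 ^ m

theorem bern (k : ℕ) {u : ℝ} (h1 : u ≤ 1) : 1 - k * u ≤ (1 - u) ^ k := by
  have := one_add_mul_le_pow (a := -u) (by linarith) k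
  rwa [mul_neg, ← sub_eq_add_neg, ← sub_eq_add_neg] at this

theorem bern2 (k : ℕ) {u : ℝ} (h0 : 0 ≤ u) (h1 : u ≤ 1) :
    (1 - u) ^ k ≤ 1 - k * u + k ^ 2 * u ^ 2 := by
  induction k with
  | zero => simp
  | succ k ih =>
    have k0 : (0 : ℝ) ≤ k := Nat.cast_nonneg k
    have a := mul_le_mul_of_nonneg_right ih (sub_nonneg.2 h1)
    have b : 0 ≤ (k : ℝ) ^ 2 * u ^ 3 := by positivity
    have c : 0 ≤ ((k : ℝ) + 1) * u ^ 2 := by positivity
    rw [pow_succ]
    push_cast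
    linarith

theorem psi_cont (m : ℕ) {X : Type} [TopologicalSpace X] {g μ s : X → ℝ} {S : Set X}
    (hg : ContinuousOn g S) (hμ : ContinuousOn μ S) (hs : ContinuousOn s S)
    (h0 : ∀ x ∈ S, s x ≠ 0) : ContinuousOn (fun x => psi m (g x) (μ x) (s x)) S := by
  have a := hg.div hs h0
  have b := hμ.div hs h0
  exact (continuousOn_const.sub a).sub
    (((continuousOn_const.sub a).add (continuousOn_const.mul b)).mul
      (((continuousOn_const.sub b).sup continuousOn_const).pow m))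

theorem one_d {m : ℕ} (hm : 0 < m) {g μ a T : ℝ} (hg : 0 ≤ g) (hμ : 0 ≤ μ) (ha : 0 < a)
    (haT : a ≤ T) (hμT : μ ≤ T) :
    (m + 1) * μ - (m + 1) ^ 2 * μ ^ 2 / T - a - g * (Real.log (max μ a / a) + m) ≤
      ∫ s in a..T, psi m g μ s := by
  set b := max μ a with hb
  have ab : a ≤ b := le_max_right _ _
  have μb : μ ≤ b := le_max_left _ _
  have bT : b ≤ T := max_le hμT haT
  have b0 : 0 < b := ha.trans_le ab
  have T0 : 0 < T := ha.trans_le haT
  have c : ∀ x y : ℝ, 0 < x → ContinuousOn (psi m g μ) (Set.Icc x y) := fun x y hx =>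
    psi_cont m continuousOn_const continuousOn_const continuousOn_id
      fun s hs => (hx.trans_le hs.1).ne'
  have d1 : ∀ s : ℝ, 0 < s → HasDerivAt (fun s => s - g * Real.log s) (1 - g / s) s := fun s hs =>
    ((hasDerivAt_id s).sub ((Real.hasDerivAt_log hs.ne').const_mul g)).congr_deriv (by
      rw [div_eq_mul_inv])
  have p1 := intervalIntegral.sub_le_integral_of_hasDeriv_right_of_le ab
    (g := fun s => s - g * Real.log s) (g' := fun s => 1 - g / s) (φ := psi m g μ)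
    (fun s hs => (d1 s (ha.trans_le hs.1)).continuousAt.continuousWithinAt)
    (fun s hs => (d1 s (ha.trans hs.1)).hasDerivWithinAt)
    ((c a b ha).integrableOn_Icc) fun s hs => by
      have s0 : 0 < s := ha.trans hs.1
      have h1 : s < μ := (lt_max_iff.1 hs.2).resolve_right (not_lt.2 hs.1.le)
      have h2 : 1 - μ / s ≤ 0 := sub_nonpos.2 ((one_le_div s0).2 h1.le)
      simp only [psi, max_eq_right h2, zero_pow hm.ne', mul_zero, sub_zero, le_refl]
  have d2 : ∀ s : ℝ, 0 < s → HasDerivAt (fun s => s - s * (1 - μ / s) ^ (m + 1) + g * m * (μ / s))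
      (1 - (1 + m * (μ / s)) * (1 - μ / s) ^ m - g / s * (m * (μ / s))) s := fun s hs => by
    have e : HasDerivAt (fun s : ℝ => μ / s) (-(μ / s ^ 2)) s :=
      ((hasDerivAt_const s μ).div (hasDerivAt_id s) hs.ne').congr_deriv (by simp [neg_div])
    refine (((hasDerivAt_id s).sub ((hasDerivAt_id s).mul ((e.const_sub 1).pow (m + 1)))).add
      (e.const_mul (g * m))).congr_deriv ?_
    simp only [id, Pi.pow_apply, Nat.add_sub_cancel]
    push_cast
    rw [pow_succ]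
    generalize (1 - μ / s) ^ m = w
    field_simp
    ring
  have p2 := intervalIntegral.sub_le_integral_of_hasDeriv_right_of_le bT
    (g := fun s => s - s * (1 - μ / s) ^ (m + 1) + g * m * (μ / s))
    (g' := fun s => 1 - (1 + m * (μ / s)) * (1 - μ / s) ^ m - g / s * (m * (μ / s)))
    (φ := psi m g μ)
    (fun s hs => (d2 s (b0.trans_le hs.1)).continuousAt.continuousWithinAt)
    (fun s hs => (d2 s (b0.trans hs.1)).hasDerivWithinAt)
    ((c b T b0).integrableOn_Icc) fun s hs => by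
      have s0 : 0 < s := b0.trans hs.1
      have h2 : μ / s ≤ 1 := (div_le_one s0).2 (μb.trans hs.1.le)
      have h3 := mul_le_mul_of_nonneg_left (bern m h2) (div_nonneg hg s0.le)
      simp only [psi, max_eq_left (sub_nonneg.2 h2)]
      linarith
  rw [← intervalIntegral.integral_add_adjacent_intervals (b := b)
    ((c a b ha).intervalIntegrable_of_Icc ab) ((c b T b0).intervalIntegrable_of_Icc bT),
    Real.log_div b0.ne' ha.ne']
  have m0 : (0 : ℝ) ≤ m := Nat.cast_nonneg m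
  have q1 : μ / b ≤ 1 := (div_le_one b0).2 μb
  have q2 : 0 ≤ b * (1 - μ / b) ^ (m + 1) := mul_nonneg b0.le (pow_nonneg (sub_nonneg.2 q1) _)
  have q3 : g * m * (μ / b) ≤ g * m * 1 := mul_le_mul_of_nonneg_left q1 (mul_nonneg hg m0)
  have q4 : 0 ≤ g * m * (μ / T) := by positivity
  have q5 := mul_le_mul_of_nonneg_left
    (bern2 (m + 1) (div_nonneg hμ T0.le) ((div_le_one T0).2 hμT)) T0.le
  have q6 : T * (1 - ((m + 1 : ℕ) : ℝ) * (μ / T) + ((m + 1 : ℕ) : ℝ) ^ 2 * (μ / T) ^ 2) =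
      T - (m + 1) * μ + (m + 1) ^ 2 * μ ^ 2 / T := by
    push_cast
    field_simp
  rw [q6] at q5
  linarith

theorem absorb {κ a g σ μ : ℝ} (hκ : 0 < κ) (ha : 0 < a) (hg : g ≤ σ + a) (h0 : 0 ≤ σ)
    (h1 : σ ≤ 1) (hμ : 0 ≤ μ) :
    g * Real.log (max μ (a / κ) / (a / κ)) ≤ σ * max (Real.log a⁻¹) 0 + 2 * κ * μ := by
  have s0 : 0 < a / κ := div_pos ha hκ
  have e : max μ (a / κ) / (a / κ) = max (a⁻¹ * (κ * μ)) 1 := by
    rw [← max_div_div_right s0.le, div_self s0.ne']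
    congr 1
    field_simp
  rw [e]
  have k0 : 0 ≤ κ * μ := mul_nonneg hκ.le hμ
  have p : 0 < max (a⁻¹ * (κ * μ)) 1 := lt_max_of_lt_right one_pos
  have l0 : 0 ≤ Real.log (max (a⁻¹ * (κ * μ)) 1) := Real.log_nonneg (le_max_right _ _)
  have l1 : Real.log (max (a⁻¹ * (κ * μ)) 1) ≤ a⁻¹ * (κ * μ) := by
    rw [Real.log_le_iff_le_exp p]
    have := Real.add_one_le_exp (a⁻¹ * (κ * μ))
    have z : 0 ≤ a⁻¹ * (κ * μ) := by positivity
    exact max_le (by linarith) (by linarith)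
  have l2 : Real.log (max (a⁻¹ * (κ * μ)) 1) ≤ max (Real.log a⁻¹) 0 + κ * μ := by
    rw [Real.log_le_iff_le_exp p, Real.exp_add]
    have z1 := Real.add_one_le_exp (κ * μ)
    have z2 : a⁻¹ ≤ Real.exp (max (Real.log a⁻¹) 0) :=
      (Real.exp_log (inv_pos.2 ha)).ge.trans (Real.exp_le_exp.2 (le_max_left _ _))
    have z3 : 1 ≤ Real.exp (max (Real.log a⁻¹) 0) := Real.one_le_exp (le_max_right _ _)
    exact max_le (mul_le_mul z2 (by linarith) k0 (Real.exp_pos _).le)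
      (one_le_mul_of_one_le_of_one_le z3 (by linarith))
  have r1 := mul_le_mul_of_nonneg_right hg l0
  have r2 := mul_le_mul_of_nonneg_left l1 ha.le
  have r3 := mul_le_mul_of_nonneg_left l2 h0
  have r4 := mul_le_mul_of_nonneg_right h1 k0
  rw [mul_inv_cancel_left₀ ha.ne'] at r2
  linarith

theorem int_lap {v : V n → ℝ} {R : ℝ} (hv : Test v R) : ∫ x, lap v x = 0 := by
  simp only [hv.lap_eq]
  rw [integral_finsetSum _ fun i _ => ((hv.der (ev i)).der (ev i)).int]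
  refine Finset.sum_eq_zero fun i _ => ?_
  have h := integral_mul_fderiv_eq_neg_fderiv_mul_of_integrable (μ := volume)
    (f := fun _ : V n => (1 : ℝ)) (g := fun y => fderiv ℝ v y (ev i)) (v := ev i) (by simp)
    (by simpa using ((hv.der (ev i)).der (ev i)).int) (by simpa using (hv.der (ev i)).int)
    (fun _ _ => differentiableAt_const _)
    fun x _ => (hv.der (ev i)).c1.differentiable one_ne_zero x
  simpa using h

theorem int_ball {f : V n → ℝ} (R : ℝ) (hf : Continuous f) : IntegrableOn f (ball 0 R) volume :=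
  (hf.continuousOn.integrableOn_compact (isCompact_closedBall 0 R)).mono_set
    ball_subset_closedBall

/-- the covering inequality for one value of the parameter -/
theorem slice {m : ℕ} {R a s : ℝ} {g μ : V (m + 1) → ℝ} (ha : 0 < a) (hs : a ≤ s)
    (cg : Continuous g) (cμ : Continuous μ)
    (ig : ∫ x in ball (0 : V (m + 1)) R, g x = a * (volume : Measure (V (m + 1))).real (ball 0 R))
    (h : (s - a / (m + 1)) ^ (m + 1) * (volume : Measure (V (m + 1))).real (ball 0 R) ≤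
      ∫ x in ball (0 : V (m + 1)) R, (s - g x + m * μ x) * max (s - μ x) 0 ^ m) :
    ∫ x in ball (0 : V (m + 1)) R, psi m (g x) (μ x) s ≤ 0 := by
  have s0 : 0 < s := ha.trans_le hs
  have m0 : (0 : ℝ) ≤ m := Nat.cast_nonneg m
  have e : ∀ x, psi m (g x) (μ x) s =
      1 - s⁻¹ * g x - (s ^ (m + 1))⁻¹ * ((s - g x + m * μ x) * max (s - μ x) 0 ^ m) := fun x => by
    have e1 : max (1 - μ x / s) 0 = max (s - μ x) 0 / s := by
      rw [← max_div_div_right s0.le, zero_div, sub_div, div_self s0.ne']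
    rw [psi, e1, div_pow, pow_succ]
    field_simp
  have i1 : IntegrableOn (fun x => 1 - s⁻¹ * g x) (ball 0 R) volume := int_ball R (by fun_prop)
  have i2 : IntegrableOn (fun x => (s ^ (m + 1))⁻¹ * ((s - g x + m * μ x) * max (s - μ x) 0 ^ m))
      (ball 0 R) volume := int_ball R (by fun_prop)
  have i3 : IntegrableOn (fun _ : V (m + 1) => (1 : ℝ)) (ball 0 R) volume :=
    int_ball R continuous_const
  have i4 : IntegrableOn (fun x => s⁻¹ * g x) (ball 0 R) volume := int_ball R (by fun_prop)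
  simp only [e]
  rw [integral_sub i1 i2, integral_sub i3 i4, integral_const_mul, integral_const_mul, ig,
    setIntegral_const, smul_eq_mul, mul_one]
  have B0 : 0 ≤ (volume : Measure (V (m + 1))).real (ball 0 R) := measureReal_nonneg
  generalize (volume : Measure (V (m + 1))).real (ball 0 R) = B at *
  have u1 : a / (m + 1) / s ≤ 1 :=
    (div_le_one s0).2 ((div_le_self ha.le (by linarith)).trans hs)
  have b := mul_le_mul_of_nonneg_right (bern (m + 1) u1) B0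
  have k := mul_le_mul_of_nonneg_left h (inv_pos.2 (pow_pos s0 (m + 1))).le
  have e2 : (s ^ (m + 1))⁻¹ * ((s - a / (m + 1)) ^ (m + 1) * B) =
      (1 - a / (m + 1) / s) ^ (m + 1) * B := by
    rw [one_sub_div s0.ne', div_pow]
    ring
  have e3 : (1 - ((m + 1 : ℕ) : ℝ) * (a / (m + 1) / s)) * B = B - s⁻¹ * (a * B) := by
    push_cast
    field_simp
  rw [e2] at k
  rw [e3] at b
  linarith

theorem total {m : ℕ} (hm : 0 < m) {κ R a : ℝ} {g μ σ : V (m + 1) → ℝ} (hκ : 0 < κ) (hκ1 : κ ≤ 1)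
    (ha : 0 < a) (cg : Continuous g) (cμ : Continuous μ) (iσ : Integrable σ volume)
    (hσ : ∀ x, 0 ≤ σ x ∧ σ x ≤ 1) (hg : ∀ x, 0 ≤ g x ∧ g x ≤ σ x + a) (hμ : ∀ x, 0 ≤ μ x)
    (ig : ∫ x in ball (0 : V (m + 1)) R, g x = a * (volume : Measure (V (m + 1))).real (ball 0 R))
    (h : ∀ s, a ≤ s → ∫ x in ball (0 : V (m + 1)) R, psi m (g x) (μ x) s ≤ 0) :
    (m + 1 - 2 * κ) * ∫ x in ball (0 : V (m + 1)) R, μ x ≤ (∫ x, σ x) * max (Real.log a⁻¹) 0 +
      a * (volume : Measure (V (m + 1))).real (ball 0 R) * (1 / κ + m) := by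
  obtain ⟨M, hM⟩ := (isCompact_closedBall (0 : V (m + 1)) R).bddAbove_image cμ.continuousOn
  have hM' : ∀ x ∈ ball (0 : V (m + 1)) R, μ x ≤ M := fun x hx =>
    hM ⟨x, ball_subset_closedBall hx, rfl⟩
  have s0 : 0 < a / κ := div_pos ha hκ
  have as : a ≤ a / κ := le_div_self ha.le hκ hκ1
  have L0 : 0 ≤ max (Real.log a⁻¹) 0 := le_max_right _ _
  set L := max (Real.log a⁻¹) 0 with hL
  set B := (volume : Measure (V (m + 1))).real (ball 0 R) with hB
  have key : ∀ T, a / κ ≤ T → M ≤ T → (m + 1 - 2 * κ) * ∫ x in ball (0 : V (m + 1)) R, μ x ≤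
      (∫ x, σ x) * L + a * B * (1 / κ + m) + (m + 1) ^ 2 * M ^ 2 * B / T := fun T h1 h2 => by
    have T0 : 0 < T := s0.trans_le h1
    have I : Integrable (Function.uncurry fun (x : V (m + 1)) (s : ℝ) => psi m (g x) (μ x) s)
        ((volume.restrict (ball 0 R)).prod (volume.restrict (Set.Ioc (a / κ) T))) := by
      rw [Measure.prod_restrict]
      refine IntegrableOn.mono_set (t := closedBall 0 R ×ˢ Set.Icc (a / κ) T) ?_
        (Set.prod_mono ball_subset_closedBall Set.Ioc_subset_Icc_self)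
      exact (psi_cont m (cg.comp continuous_fst).continuousOn
        (cμ.comp continuous_fst).continuousOn continuous_snd.continuousOn
        fun p hp => (s0.trans_le hp.2.1).ne').integrableOn_compact
        ((isCompact_closedBall 0 R).prod isCompact_Icc)
    have F := integral_integral_swap I
    have F2 : ∫ s in Set.Ioc (a / κ) T, ∫ x in ball (0 : V (m + 1)) R, psi m (g x) (μ x) s ≤ 0 :=
      setIntegral_nonpos measurableSet_Ioc fun s hs => h s (as.trans hs.1.le)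
    have i1 : IntegrableOn (fun x => (m + 1 - 2 * κ) * μ x) (ball 0 R) volume :=
      int_ball R (by fun_prop)
    have i2 : IntegrableOn (fun _ : V (m + 1) => (m + 1) ^ 2 * M ^ 2 / T + a / κ) (ball 0 R)
        volume := int_ball R continuous_const
    have i3 : IntegrableOn (fun x => m * g x) (ball 0 R) volume := int_ball R (by fun_prop)
    have i4 : IntegrableOn (fun x => L * σ x) (ball 0 R) volume := (iσ.const_mul L).integrableOn
    have i12 : IntegrableOn (fun x => (m + 1 - 2 * κ) * μ x - ((m + 1) ^ 2 * M ^ 2 / T + a / κ))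
        (ball 0 R) volume := i1.sub i2
    have i123 : IntegrableOn (fun x => (m + 1 - 2 * κ) * μ x - ((m + 1) ^ 2 * M ^ 2 / T + a / κ)
        - m * g x) (ball 0 R) volume := i12.sub i3
    have F3 : ∫ x in ball (0 : V (m + 1)) R, ((m + 1 - 2 * κ) * μ x -
        ((m + 1) ^ 2 * M ^ 2 / T + a / κ) - m * g x - L * σ x) ≤
        ∫ x in ball (0 : V (m + 1)) R, ∫ s in Set.Ioc (a / κ) T, psi m (g x) (μ x) s :=
      setIntegral_mono_on (i123.sub i4) I.integral_prod_left measurableSet_ball fun x hx => by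
        have k1 := one_d hm (hg x).1 (hμ x) s0 h1 ((hM' x hx).trans h2)
        have k2 := absorb hκ ha (hg x).2 (hσ x).1 (hσ x).2 (hμ x)
        have k3 : ((m : ℝ) + 1) ^ 2 * μ x ^ 2 / T ≤ (m + 1) ^ 2 * M ^ 2 / T :=
          div_le_div_of_nonneg_right (mul_le_mul_of_nonneg_left
            (pow_le_pow_left₀ (hμ x) (hM' x hx) 2) (sq_nonneg _)) T0.le
        rw [intervalIntegral.integral_of_le h1] at k1
        linarith
    rw [integral_sub i123 i4, integral_sub i12 i3, integral_sub i1 i2, integral_const_mul,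
      integral_const_mul, integral_const_mul, ig, setIntegral_const, smul_eq_mul, ← hB] at F3
    have F4 : ∫ x in ball (0 : V (m + 1)) R, σ x ≤ ∫ x, σ x :=
      setIntegral_le_integral iσ (Eventually.of_forall fun x => (hσ x).1)
    have F5 := mul_le_mul_of_nonneg_left F4 L0
    have e : B * ((m + 1) ^ 2 * M ^ 2 / T + a / κ) + m * (a * B) =
        a * B * (1 / κ + m) + (m + 1) ^ 2 * M ^ 2 * B / T := by ring
    linarith
  have lim : Tendsto (fun T : ℝ => (∫ x, σ x) * L + a * B * (1 / κ + m) +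
      (m + 1) ^ 2 * M ^ 2 * B / T) atTop (𝓝 ((∫ x, σ x) * L + a * B * (1 / κ + m) + 0)) :=
    tendsto_const_nhds.add (tendsto_const_nhds.div_atTop tendsto_id)
  rw [add_zero] at lim
  refine ge_of_tendsto lim ?_
  filter_upwards [eventually_ge_atTop (a / κ), eventually_ge_atTop M] with T h1 h2
  exact key T h1 h2

theorem main {m : ℕ} (hm : 2 ≤ m) (κ R a : ℝ) (v σ : V (m + 1) → ℝ) (hκ : 0 < κ) (hκ1 : κ ≤ 1)
    (hR : 0 < R) (ha : 0 < a) (hv : Test v R) (iσ : Integrable σ volume)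
    (hσ : ∀ x, 0 ≤ σ x ∧ σ x ≤ 1) (hl : ∀ x, -a ≤ lap v x ∧ lap v x ≤ σ x) :
    ∫ x, -lmin (hess v x) ≤ (m : ℝ) / (m + 1 - 2 * κ) * ((∫ x, σ x) * max (Real.log a⁻¹) 0 +
      a * (volume : Measure (V (m + 1))).real (ball 0 R) * (1 / κ + (m + 1))) := by
  have m2 : (2 : ℝ) ≤ m := by exact_mod_cast hm
  have m0 : (0 : ℝ) < m := by linarith
  have cl := (cont_lmin (n := m + 1) (by omega)).comp hv.smooth_hess.continuous
  have cl' : Continuous fun x => lmin (hess v x) := cl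
  have cL := hv.lap.cont
  have B0 : 0 ≤ (volume : Measure (V (m + 1))).real (ball 0 R) := measureReal_nonneg
  have a1 : a / (m + 1) < a := div_lt_self ha (by linarith)
  have a2 : (m + 1) * (a / (m + 1)) = a := by field_simp
  have out : ∀ x : V (m + 1), x ∉ ball (0 : V (m + 1)) R → R ≤ ‖x‖ := fun x hx => by simpa using hx
  have ig : ∫ x in ball (0 : V (m + 1)) R, (lap v x + a) =
      a * (volume : Measure (V (m + 1))).real (ball 0 R) := by
    rw [integral_add (int_ball R cL) (int_ball R continuous_const),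
      setIntegral_eq_integral_of_forall_compl_eq_zero fun x hx => hv.lap.2 x (out x hx),
      int_lap hv, setIntegral_const, smul_eq_mul, zero_add, mul_comm]
  have cg : Continuous fun x => lap v x + a := by fun_prop
  have cμ : Continuous fun x => (lap v x - lmin (hess v x)) / m + a / (m + 1) := by fun_prop
  have hμ : ∀ x, 0 ≤ (lap v x - lmin (hess v x)) / m + a / (m + 1) := fun x => by
    have k := lmin_tr (hess v x)
    have k2 := mul_le_mul_of_nonneg_left (hl x).1 m0.le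
    push_cast at k
    unfold lap at k2 ⊢
    rw [div_add_div _ _ m0.ne' (by linarith)]
    exact div_nonneg (by linarith) (by positivity)
  have T := total (R := R) (by omega) hκ hκ1 ha cg cμ iσ hσ
    (fun x => ⟨by linarith [(hl x).1], by linarith [(hl x).2]⟩) hμ ig fun s hs =>
    slice ha hs cg cμ ig ((cover (by omega) hv hR (t := s - a / (m + 1)) (by linarith)).trans_eq
      (integral_congr_ae (Eventually.of_forall fun x => by
        have e1 : (m : ℝ) * ((lap v x - lmin (hess v x)) / m) = lap v x - lmin (hess v x) :=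
          mul_div_cancel₀ _ m0.ne'
        refine congrArg₂ (· * ·) (by linarith) (congrArg (fun z : ℝ => max z 0 ^ m) ?_)
        ring)))
  have e : ∫ x, -lmin (hess v x) ≤
      m * ∫ x in ball (0 : V (m + 1)) R, ((lap v x - lmin (hess v x)) / m + a / (m + 1)) := by
    rw [← setIntegral_eq_integral_of_forall_compl_eq_zero (s := ball (0 : V (m + 1)) R)
      fun x hx => by rw [hv.hess_zero x (out x hx), lmin_zero (by omega), neg_zero]]
    have e1 : ∀ x, -lmin (hess v x) = m * ((lap v x - lmin (hess v x)) / m + a / (m + 1)) -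
        (lap v x + a) + a / (m + 1) := fun x => by
      have e1 : (m : ℝ) * ((lap v x - lmin (hess v x)) / m) = lap v x - lmin (hess v x) :=
        mul_div_cancel₀ _ m0.ne'
      linarith
    have i1 : IntegrableOn (fun x => m * ((lap v x - lmin (hess v x)) / m + a / (m + 1)))
        (ball 0 R) volume := int_ball R (continuous_const.mul cμ)
    have i2 : IntegrableOn (fun x => m * ((lap v x - lmin (hess v x)) / m + a / (m + 1)) -
        (lap v x + a)) (ball 0 R) volume := i1.sub (int_ball R cg)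
    rw [integral_congr_ae (Eventually.of_forall e1), integral_add i2 (int_ball R continuous_const),
      integral_sub i1 (int_ball R cg), integral_const_mul, ig, setIntegral_const, smul_eq_mul]
    linarith [mul_le_mul_of_nonneg_left a1.le B0]
  have p : (0 : ℝ) < m + 1 - 2 * κ := by linarith
  rw [div_mul_eq_mul_div, le_div_iff₀ p]
  have k1 := mul_le_mul_of_nonneg_right e p.le
  have k2 := mul_le_mul_of_nonneg_left T m0.le
  have k3 := mul_nonneg m0.le (mul_nonneg ha.le B0)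
  linarith

end AbpAux

theorem abp {n : ℕ} (hn : 3 ≤ n) : Abp n where
  cont := AbpAux.cont_lmin (by omega)
  zero := AbpAux.lmin_zero (by omega)
  le H _ := AbpAux.lmin_tr H
  pair H X c hs hX := AbpAux.pair H X c (by omega) hs hX
  norm H hs := AbpAux.norm_le H (by omega) hs
  abp := by
    obtain ⟨m, rfl⟩ : ∃ m, n = m + 1 := ⟨n - 1, by omega⟩
    intro κ R a v σ hκ hκ1 hR ha hv iσ hσ hl
    have h := AbpAux.main (by omega) κ R a v σ hκ hκ1 hR ha hv iσ hσ hl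
    push_cast
    rwa [add_sub_cancel_right]

end Pool.Agent.MP_29b5d3_an.NC

end MrgPart1

-- ======== part 2: formerly Pool.Agent.MP_29b5d3_an.NC.MonoA
section MrgPart2

/-! Project NEARCONF: the two point energy identity. -/

set_option autoImplicit false

namespace Pool.Agent.MP_29b5d3_an.NC

open MeasureTheory Metric Filter Topology Module
open scoped RealInnerProductSpace ContDiff ENNReal

namespace MA

variable {n : ℕ}

/-! ### integrability on products -/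

theorem cont_dV : Continuous fun p : Mt n × Mt n => dV p.1 p.2 := by
  unfold dV
  fun_prop

theorem meas_dV {F : V n → Mt n} (hF : StronglyMeasurable F) (ρ : ℝ) :
    StronglyMeasurable fun p : V n × V n => dV (F p.1) (F (p.1 + ρ • p.2)) := by
  have c : Continuous fun p : V n × V n => p.1 + ρ • p.2 := by fun_prop
  have m1 : StronglyMeasurable fun p : V n × V n => F p.1 := hF.comp_measurable measurable_fst
  have m2 : StronglyMeasurable fun p : V n × V n => F (p.1 + ρ • p.2) :=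
    hF.comp_measurable c.measurable
  have m3 : StronglyMeasurable fun p : V n × V n => (F p.1, F (p.1 + ρ • p.2)) := m1.prodMk m2
  have m4 := (cont_dV (n := n)).comp_stronglyMeasurable m3
  exact m4

theorem int_dV (hM : MatA n) (hA : AvA n) {f : V n → V n} {F : V n → Mt n} (h : W f F)
    (ρ a b : ℝ) :
    IntegrableOn (fun p : V n × V n => dV (F p.1) (F (p.1 + ρ • p.2))) (ball 0 a ×ˢ ball 0 b)
      ((volume : Measure (V n)).prod volume) := by
  obtain ⟨C, hC, hd⟩ := hM.dV_le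
  have i1 := hA.prod _ h.lp 0 a b
  have i2 := hA.prod _ h.lp ρ a b
  refine Integrable.mono' ((i1.add i2).const_mul C) (meas_dV h.meas ρ).aestronglyMeasurable
    (ae_of_all _ fun p => ?_)
  rw [Real.norm_of_nonneg (dV_nonneg _ _)]
  simpa using hd _ _

/-! ### Taylor expansions -/

theorem hess_lip {ζ : V n → ℝ} {R : ℝ} (h : Test ζ R) :
    ∃ L : ℝ, 0 < L ∧ ∀ a b, ‖hess ζ a - hess ζ b‖ ≤ L * ‖a - b‖ := by
  obtain ⟨L, hL⟩ := ContDiff.lipschitzWith_of_hasCompactSupport (supp_of h.hess_zero)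
    h.smooth_hess (by simp)
  refine ⟨L + 1, by positivity, fun a b => ?_⟩
  have := hL.dist_le_mul a b
  rw [dist_eq_norm, dist_eq_norm] at this
  nlinarith [norm_nonneg (a - b)]

theorem grad_taylor {ζ : V n → ℝ} {R L : ℝ} (h : Test ζ R) (hL0 : 0 < L)
    (hL : ∀ a b, ‖hess ζ a - hess ζ b‖ ≤ L * ‖a - b‖) (z w : V n) :
    ‖gradient ζ (z + w) - gradient ζ z - hess ζ z w‖ ≤ L * ‖w‖ ^ 2 := by
  have k := Convex.norm_image_sub_le_of_norm_fderiv_le' (𝕜 := ℝ) (f := gradient ζ)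
    (s := closedBall z ‖w‖) (x := z) (y := z + w) (φ := hess ζ z) (C := L * ‖w‖)
    (fun x _ => h.smooth_grad.differentiable (by simp) x)
    (fun x hx => (hL x z).trans (by
      rw [mem_closedBall, dist_eq_norm] at hx
      gcongr))
    (convex_closedBall _ _) (mem_closedBall_self (norm_nonneg _)) (by simp)
  rw [add_sub_cancel_left] at k
  calc _ ≤ L * ‖w‖ * ‖w‖ := k
    _ = _ := by ring

theorem val_taylor {ζ : V n → ℝ} {R L : ℝ} (h : Test ζ R) (hL0 : 0 < L)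
    (hL : ∀ a b, ‖hess ζ a - hess ζ b‖ ≤ L * ‖a - b‖) (z w : V n) :
    |ζ (z + w) - ζ z - ⟪w, gradient ζ z⟫ - ⟪w, hess ζ z w⟫ / 2| ≤ L * ‖w‖ ^ 3 := by
  have d : ∀ t : ℝ, HasDerivAt
      (fun t : ℝ => ζ (z + t • w) - t * ⟪w, gradient ζ z⟫ - t ^ 2 * (⟪w, hess ζ z w⟫ / 2))
      ⟪w, gradient ζ (z + t • w) - gradient ζ z - hess ζ z (t • w)⟫ t := fun t => by
    have d1 : HasDerivAt (fun t : ℝ => z + t • w) w t := by
      simpa using ((hasDerivAt_id t).smul_const w).const_add z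
    have d2 := ((h.1.differentiable (by simp) (z + t • w)).hasFDerivAt).comp_hasDerivAt t d1
    have d3 := (d2.sub ((hasDerivAt_id t).mul_const ⟪w, gradient ζ z⟫)).sub
      ((hasDerivAt_pow 2 t).mul_const (⟪w, hess ζ z w⟫ / 2))
    refine d3.congr_deriv ?_
    rw [inner_sub_right, inner_sub_right, map_smul, real_inner_smul_right, ← inner_gradient,
      real_inner_comm w]
    simp only [Nat.cast_ofNat, Nat.add_one_sub_one, pow_one]
    ring
  have k := norm_image_sub_le_of_norm_deriv_le_segment_01' (C := L * ‖w‖ ^ 3)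
    (fun t _ => (d t).hasDerivWithinAt) (fun t ht => by
      refine (abs_real_inner_le_norm _ _).trans ?_
      have k1 := grad_taylor h hL0 hL z (t • w)
      have k2 : ‖t • w‖ ≤ ‖w‖ := by
        rw [norm_smul, Real.norm_of_nonneg ht.1]
        exact mul_le_of_le_one_left (norm_nonneg _) ht.2.le
      calc _ ≤ ‖w‖ * (L * ‖w‖ ^ 2) := by
            gcongr
            exact k1.trans (by gcongr)
        _ = _ := by ring)
  simp only [one_smul, one_mul, one_pow, zero_smul, add_zero, zero_mul, sub_zero, ne_eq,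
    OfNat.ofNat_ne_zero, not_false_eq_true, zero_pow, Real.norm_eq_abs] at k
  rwa [show ζ (z + w) - ζ z - ⟪w, gradient ζ z⟫ - ⟪w, hess ζ z w⟫ / 2 =
    ζ (z + w) - ⟪w, gradient ζ z⟫ - ⟪w, hess ζ z w⟫ / 2 - ζ z by ring]

theorem int_mul {φ ψ : V n → ℝ} (hK : Ker φ ψ) {u : V n → ℝ} (hu : Continuous u) :
    Integrable (fun y => φ y * u y) volume :=
  (hK.tφ.cont.mul hu).integrable_of_hasCompactSupport hK.tφ.supp.mul_right

theorem abs_int_le {φ ψ : V n → ℝ} (hK : Ker φ ψ) {u : V n → ℝ} {M : ℝ}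
    (hu : ∀ y, ‖y‖ ≤ 1 → |u y| ≤ M) : |∫ y, φ y * u y| ≤ M := by
  have k := norm_integral_le_of_norm_le (μ := volume) (f := fun y => φ y * u y)
    (hK.tφ.int.mul_const M) (ae_of_all _ fun y => by
      rcases le_total ‖y‖ 1 with hy | hy
      · rw [Real.norm_eq_abs, abs_mul, abs_of_nonneg (hK.φ0 y)]
        exact mul_le_mul_of_nonneg_left (hu y hy) (hK.φ0 y)
      · simp [hK.tφ.2 y hy])
  rwa [integral_mul_const, hK.one, one_mul] at k

theorem mom1 (hB : AvB n) {φ ψ : V n → ℝ} (hK : Ker φ ψ) (v : V n) : ∫ y, φ y * ⟪y, v⟫ = 0 := by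
  have k := hB.dvg ψ 1 _ _ hK.tψ (hB.ofC1 (fun _ => v) contDiff_const)
  simp only [fderiv_fun_const, Pi.zero_apply, tr_zero, mul_zero, integral_zero, hK.grad,
    integral_neg, neg_neg] at k
  exact k.symm

theorem mom2 (hB : AvB n) {φ ψ : V n → ℝ} (hK : Ker φ ψ) (H : Mt n) :
    ∫ y, φ y * ⟪y, H y⟫ = (∫ y, ψ y) * tr H := by
  have k := hB.dvg ψ 1 _ _ hK.tψ (hB.ofC1 H H.contDiff)
  simp only [ContinuousLinearMap.fderiv, hK.grad, integral_neg, neg_neg, integral_mul_const] at k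
  exact k.symm

theorem taylor (hB : AvB n) (φ ψ ζ : V n → ℝ) (hK : Ker φ ψ) (hζ : Test ζ 2) :
    ∃ C : ℝ, 0 < C ∧ ∀ ρ, 0 ≤ ρ → ρ ≤ 1 → ∀ z,
    |(∫ y, φ y * ζ (z - ρ • y)) - ζ z - ρ ^ 2 / 2 * (∫ y, ψ y) * lap ζ z| ≤ C * ρ ^ 3 ∧
    |(∫ y, ⟪gradient ζ (z - ρ • y), gradient ψ y⟫) - ρ * (∫ y, ψ y) * lap ζ z| ≤ C * ρ ^ 2 := by
  obtain ⟨L, hL0, hL⟩ := hess_lip hζ
  refine ⟨L, hL0, fun ρ h0 _ z => ?_⟩
  have cζ := hζ.cont
  have cg := hζ.smooth_grad.continuous
  have m1 := mom1 hB hK (gradient ζ z)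
  have m2 := mom2 hB hK (hess ζ z)
  have i1 := int_mul hK (u := fun y => ⟪y, gradient ζ z⟫) (by fun_prop)
  have i2 := int_mul hK (u := fun y => ⟪y, hess ζ z y⟫) (by fun_prop)
  have nw : ∀ y : V n, ‖y‖ ≤ 1 → ‖-(ρ • y)‖ ≤ ρ := fun y hy => by
    rw [norm_neg, norm_smul, Real.norm_of_nonneg h0]
    exact mul_le_of_le_one_right h0 hy
  constructor
  · have i0 := int_mul hK (u := fun y => ζ (z - ρ • y)) (by fun_prop)
    have k := abs_int_le hK (M := L * ρ ^ 3) (u := fun y => ζ (z - ρ • y) - ζ z +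
      ρ * ⟪y, gradient ζ z⟫ - ρ ^ 2 / 2 * ⟪y, hess ζ z y⟫) fun y hy => by
        have k1 := val_taylor hζ hL0 hL z (-(ρ • y))
        have k2 := nw y hy
        simp only [map_neg, map_smul, inner_neg_left, inner_neg_right, real_inner_smul_left,
          real_inner_smul_right, ← sub_eq_add_neg] at k1
        rw [show ζ (z - ρ • y) - ζ z + ρ * ⟪y, gradient ζ z⟫ - ρ ^ 2 / 2 * ⟪y, hess ζ z y⟫ =
          ζ (z - ρ • y) - ζ z - -(ρ * ⟪y, gradient ζ z⟫) - - -(ρ * (ρ * ⟪y, hess ζ z y⟫)) / 2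
          by ring]
        exact k1.trans (by gcongr)
    have e : ∫ y, φ y * (ζ (z - ρ • y) - ζ z + ρ * ⟪y, gradient ζ z⟫ -
        ρ ^ 2 / 2 * ⟪y, hess ζ z y⟫) = ∫ y, ((φ y * ζ (z - ρ • y) - φ y * ζ z) +
        ρ * (φ y * ⟪y, gradient ζ z⟫)) - ρ ^ 2 / 2 * (φ y * ⟪y, hess ζ z y⟫) :=
      integral_congr_ae (ae_of_all _ fun y => by ring)
    have j1 : Integrable (fun y => φ y * ζ (z - ρ • y) - φ y * ζ z) volume :=
      i0.sub (hK.tφ.int.mul_const (ζ z))
    have j2 : Integrable (fun y => φ y * ζ (z - ρ • y) - φ y * ζ z +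
        ρ * (φ y * ⟪y, gradient ζ z⟫)) volume := j1.add (i1.const_mul ρ)
    rw [e, integral_sub j2 (i2.const_mul _), integral_add j1 (i1.const_mul ρ),
      integral_sub i0 (hK.tφ.int.mul_const (ζ z)), integral_const_mul, integral_const_mul,
      integral_mul_const, m1, m2, hK.one] at k
    rwa [show (∫ y, φ y * ζ (z - ρ • y)) - ζ z - ρ ^ 2 / 2 * (∫ y, ψ y) * lap ζ z =
      (∫ y, φ y * ζ (z - ρ • y)) - 1 * ζ z + ρ * 0 - ρ ^ 2 / 2 * ((∫ y, ψ y) * tr (hess ζ z))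
      by rw [lap]; ring]
  · have i0 := int_mul hK (u := fun y => ⟪y, gradient ζ (z - ρ • y)⟫) (by fun_prop)
    have k := abs_int_le hK (M := L * ρ ^ 2) (u := fun y => -⟪y, gradient ζ (z - ρ • y)⟫ +
      ⟪y, gradient ζ z⟫ - ρ * ⟪y, hess ζ z y⟫) fun y hy => by
        have k1 := grad_taylor hζ hL0 hL z (-(ρ • y))
        have k2 := nw y hy
        have k3 := abs_real_inner_le_norm y
          (gradient ζ (z + -(ρ • y)) - gradient ζ z - hess ζ z (-(ρ • y)))
        have k4 : ‖y‖ * ‖gradient ζ (z + -(ρ • y)) - gradient ζ z - hess ζ z (-(ρ • y))‖ ≤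
            1 * (L * ρ ^ 2) := mul_le_mul hy (k1.trans (by gcongr)) (norm_nonneg _) zero_le_one
        have k5 := k3.trans k4
        simp only [map_neg, map_smul, inner_neg_right, inner_sub_right,
          real_inner_smul_right, ← sub_eq_add_neg, one_mul] at k5
        rw [← abs_neg]
        rwa [show -(-⟪y, gradient ζ (z - ρ • y)⟫ + ⟪y, gradient ζ z⟫ - ρ * ⟪y, hess ζ z y⟫) =
          ⟪y, gradient ζ (z - ρ • y)⟫ - ⟪y, gradient ζ z⟫ - -(ρ * ⟪y, hess ζ z y⟫) by ring]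
    have e : ∫ y, φ y * (-⟪y, gradient ζ (z - ρ • y)⟫ + ⟪y, gradient ζ z⟫ - ρ * ⟪y, hess ζ z y⟫) =
        ∫ y, (-(φ y * ⟪y, gradient ζ (z - ρ • y)⟫) + φ y * ⟪y, gradient ζ z⟫) -
          ρ * (φ y * ⟪y, hess ζ z y⟫) :=
      integral_congr_ae (ae_of_all _ fun y => by ring)
    have e2 : ∫ y, ⟪gradient ζ (z - ρ • y), gradient ψ y⟫ =
        ∫ y, -(φ y * ⟪y, gradient ζ (z - ρ • y)⟫) :=
      integral_congr_ae (ae_of_all _ fun y => by
        simp only
        rw [real_inner_comm, inner_gradient, hK.grad])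
    have j0 : Integrable (fun y => -(φ y * ⟪y, gradient ζ (z - ρ • y)⟫)) volume := i0.neg
    have j1 : Integrable (fun y => -(φ y * ⟪y, gradient ζ (z - ρ • y)⟫) +
        φ y * ⟪y, gradient ζ z⟫) volume := j0.add i1
    rw [e, integral_sub j1 (i2.const_mul _), integral_add j0 i1, integral_const_mul, m1, m2,
      add_zero] at k
    rwa [e2, lap, mul_assoc]

/-! ### the derivative in the scale -/

theorem sm_apply {α A B : Type} [MeasurableSpace α] [NormedAddCommGroup A] [NormedSpace ℝ A]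
    [NormedAddCommGroup B] [NormedSpace ℝ B] {T : α → A →L[ℝ] B} {u : α → A}
    (hT : StronglyMeasurable T) (hu : StronglyMeasurable u) :
    StronglyMeasurable fun x => T x (u x) := by
  have m : StronglyMeasurable fun x => (T x, u x) := hT.prodMk hu
  have c : Continuous fun p : (A →L[ℝ] B) × A => p.1 p.2 :=
    isBoundedBilinearMap_apply.continuous
  have k := c.comp_stronglyMeasurable m
  exact k

theorem dr_av (hB : AvB n) {φ ψ : V n → ℝ} (hK : Ker φ ψ) {f : V n → V n} {F : V n → Mt n}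
    (h : W f F) (x : V n) {r : ℝ} (hr : 0 < r) :
    HasDerivAt (fun r => av φ f x r) (Bv φ F x r) r := by
  have k := ((hB.dav φ ψ f F hK h x r hr).comp r (hasFDerivAt_prodMk_right x r)).hasDerivAt
  exact k.congr_deriv (by simp)

theorem dx_av (hB : AvB n) {φ ψ : V n → ℝ} (hK : Ker φ ψ) {f : V n → V n} {F : V n → Mt n}
    (h : W f F) (x : V n) {r : ℝ} (hr : 0 < r) :
    HasFDerivAt (fun x => av φ f x r) (av φ F x r) x := by
  have k := (hB.dav φ ψ f F hK h x r hr).comp x (hasFDerivAt_prodMk_left (𝕜 := ℝ) x r)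
  refine k.congr_fderiv ?_
  ext1 v
  simp

theorem smooth_av (hA : AvA n) {U : Type} [NormedAddCommGroup U] [NormedSpace ℝ U]
    [CompleteSpace U] {φ : V n → ℝ} (hφ : Test φ 1) {g : V n → U}
    (hg : LocallyIntegrable g volume) {r : ℝ} (hr : 0 < r) :
    ContDiff ℝ ∞ fun x => av φ g x r := by
  have k := (hA.smooth U φ 1 g hφ hg).comp_contDiff (f := fun x : V n => (x, r))
    (contDiff_id.prodMk contDiff_const) (fun _ => hr)
  exact k

theorem cont_Bv (hB : AvB n) {φ ψ : V n → ℝ} (hK : Ker φ ψ) {f : V n → V n} {F : V n → Mt n}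
    (h : W f F) {r : ℝ} (hr : 0 < r) : Continuous fun x => Bv φ F x r := by
  have k := (hB.Bv_cont φ ψ f F hK h).comp_continuous (f := fun x : V n => (x, r))
    (continuous_id.prodMk continuous_const) (fun _ => hr)
  exact k

theorem pow_pred_le {t : ℝ} (ht : 0 ≤ t) : t ^ (n - 1) ≤ 1 + t ^ n := by
  rcases le_total t 1 with h | h
  · have := pow_le_one₀ (n := n - 1) ht h
    have := pow_nonneg ht n
    linarith
  · have := pow_le_pow_right₀ h (Nat.sub_le n 1)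
    linarith

theorem int_wt (hB : AvB n) {ζ : V n → ℝ} (hζ : Test ζ 2) {f : V n → V n} {F : V n → Mt n}
    (h : W f F) : Integrable (fun x => ‖fderiv ℝ ζ x‖ * ‖F x‖ ^ (n - 1)) volume := by
  have l := hB.locH ℝ f F (fun X => ‖X‖ ^ (n - 1)) 1 h (by fun_prop) fun X => by
    rw [Real.norm_of_nonneg (by positivity), one_mul]
    exact pow_pred_le (norm_nonneg _)
  exact l.integrable_smul_left_of_hasCompactSupport (g := fun x => ‖fderiv ℝ ζ x‖)
    hζ.smooth_fderiv.continuous.norm (supp_of hζ.fderiv_zero).norm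

theorem pt_le (hn : 3 ≤ n) {ζ : V n → ℝ} (hζ : Test ζ 2) (X : Mt n) {x v : V n} {M : ℝ}
    (hv : ‖x‖ ≤ 2 → ‖v‖ ≤ M) :
    ‖fderiv ℝ ζ x (adj X v)‖ ≤ ‖fderiv ℝ ζ x‖ * ‖X‖ ^ (n - 1) * M := by
  rcases le_total ‖x‖ 2 with hx | hx
  · have k1 := (adj X).le_of_opNorm_le (norm_adj_le (by omega) X) v
    have k2 := hv hx
    calc _ ≤ ‖fderiv ℝ ζ x‖ * ‖adj X v‖ := ContinuousLinearMap.le_opNorm _ _
      _ ≤ ‖fderiv ℝ ζ x‖ * (‖X‖ ^ (n - 1) * M) := by
          gcongr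
          exact k1.trans (by gcongr)
      _ = _ := by ring
  · simp [hζ.fderiv_zero x hx]

theorem meas_T (hB : AvB n) {ζ : V n → ℝ} (hζ : Test ζ 2) {F : V n → Mt n}
    (hF : StronglyMeasurable F) {u : V n → V n} (hu : Continuous u) :
    StronglyMeasurable fun x => fderiv ℝ ζ x (adj (F x) (u x)) :=
  sm_apply hζ.smooth_fderiv.continuous.stronglyMeasurable
    (sm_apply (hB.adj_meas F hF) hu.stronglyMeasurable)

theorem int_T (hn : 3 ≤ n) (hB : AvB n) {ζ : V n → ℝ} (hζ : Test ζ 2) {f : V n → V n}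
    {F : V n → Mt n} (h : W f F) {u : V n → V n} (hu : Continuous u) :
    Integrable (fun x => fderiv ℝ ζ x (adj (F x) (u x))) volume := by
  obtain ⟨M, hM⟩ := (isCompact_closedBall (0 : V n) 2).exists_bound_of_continuousOn
    hu.continuousOn
  exact Integrable.mono' ((int_wt hB hζ h).mul_const M) (meas_T hB hζ h.meas hu).aestronglyMeasurable
    (ae_of_all _ fun x => pt_le hn hζ _ fun hx => hM x (by simpa using hx))

theorem der1 (hn : 3 ≤ n) (hA : AvA n) (hB : AvB n) {φ ψ ζ : V n → ℝ} (hK : Ker φ ψ)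
    (hζ : Test ζ 2) {f : V n → V n} {F : V n → Mt n} (h : W f F) {ρ : ℝ} (hρ : 0 < ρ) :
    Integrable (fun x => fderiv ℝ ζ x (adj (F x) (Bv φ F x ρ))) volume ∧
      HasDerivAt (Tz ζ φ f F) (∫ x, fderiv ℝ ζ x (adj (F x) (Bv φ F x ρ))) ρ := by
  have cK : IsCompact (closedBall (0 : V n) 2 ×ˢ Set.Icc (ρ / 2) (2 * ρ)) :=
    (isCompact_closedBall _ _).prod isCompact_Icc
  obtain ⟨M, hM⟩ := cK.exists_bound_of_continuousOn ((hB.Bv_cont φ ψ f F hK h).mono
    fun p hp => lt_of_lt_of_le (by linarith) hp.2.1)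
  have cu : ∀ r, 0 < r → Continuous fun x => av φ f x r - f x := fun r hr =>
    (smooth_av hA hK.tφ h.cont.locallyIntegrable hr).continuous.sub h.cont
  refine hasDerivAt_integral_of_dominated_loc_of_deriv_le (μ := volume)
    (F := fun r x => fderiv ℝ ζ x (adj (F x) (av φ f x r - f x)))
    (F' := fun r x => fderiv ℝ ζ x (adj (F x) (Bv φ F x r)))
    (bound := fun x => ‖fderiv ℝ ζ x‖ * ‖F x‖ ^ (n - 1) * M)
    (Icc_mem_nhds (show ρ / 2 < ρ by linarith) (show ρ < 2 * ρ by linarith)) ?_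
    (int_T hn hB hζ h (cu ρ hρ)) (meas_T hB hζ h.meas (cont_Bv hB hK h hρ)).aestronglyMeasurable
    (ae_of_all _ fun x r hr => pt_le hn hζ _ fun hx => hM (x, r) ⟨by simpa using hx, hr⟩)
    ((int_wt hB hζ h).mul_const M) (ae_of_all _ fun x r hr => ?_)
  · filter_upwards [lt_mem_nhds hρ] with r hr
    exact (meas_T hB hζ h.meas (cu r hr)).aestronglyMeasurable
  · have d := (dr_av hB hK h x (show 0 < r by linarith [hr.1])).sub_const (f x)
    exact (fderiv ℝ ζ x ∘L adj (F x)).hasFDerivAt.comp_hasDerivAt r d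

theorem der2 (hn : 3 ≤ n) (hA : AvA n) (hB : AvB n) {φ ψ ζ : V n → ℝ} (hK : Ker φ ψ)
    (hζ : Test ζ 2) {f : V n → V n} {F : V n → Mt n} (h : W f F) :
    Tendsto (Tz ζ φ f F) (𝓝[>] 0) (𝓝 0) := by
  have iw := int_wt hB hζ h
  obtain ⟨I, hI⟩ : ∃ I, I = ∫ x, ‖fderiv ℝ ζ x‖ * ‖F x‖ ^ (n - 1) := ⟨_, rfl⟩
  have I0 : 0 ≤ I := hI ▸ integral_nonneg fun x => by positivity
  refine Metric.tendsto_nhds.2 fun e he => ?_
  obtain ⟨r₀, h0, hr⟩ := hA.unif φ f hK.tφ hK.φ0 hK.one h.cont 2 (e / (I + 1)) (by positivity)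
  filter_upwards [Ioc_mem_nhdsGT h0] with r hr'
  have k := norm_integral_le_of_norm_le (μ := volume)
    (f := fun x => fderiv ℝ ζ x (adj (F x) (av φ f x r - f x))) (iw.mul_const (e / (I + 1)))
    (ae_of_all _ fun x => pt_le hn hζ _ fun hx => hr x hx r hr'.1 hr'.2)
  rw [integral_mul_const, ← hI] at k
  rw [dist_zero_right]
  refine k.trans_lt ?_
  rw [← mul_div_assoc, div_lt_iff₀ (by positivity)]
  nlinarith

/-! ### the lower bound -/

theorem int_k (hA : AvA n) {U : Type} [NormedAddCommGroup U] [NormedSpace ℝ U] {φ : V n → ℝ}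
    (hφ : Test φ 1) {g : V n → U} (hg : LocallyIntegrable g volume) (x : V n) {ρ : ℝ}
    (hρ : 0 < ρ) : Integrable (fun y => φ y • g (x + ρ • y)) volume :=
  (hA.loc U g hg x ρ hρ.ne').integrable_smul_left_of_hasCompactSupport hφ.cont hφ.supp

theorem loc_dV (hM : MatA n) (hB : AvB n) {f : V n → V n} {F : V n → Mt n} (h : W f F)
    (X : Mt n) : LocallyIntegrable (fun z => dV X (F z)) volume := by
  obtain ⟨C, hC, hd⟩ := hM.dV_le
  refine hB.locH ℝ f F (fun Y => dV X Y) (C * (1 + ‖X‖ ^ n)) h (by unfold dV; fun_prop) fun Y => ?_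
  rw [Real.norm_of_nonneg (dV_nonneg _ _), mul_assoc]
  refine (hd X Y).trans (mul_le_mul_of_nonneg_left ?_ hC.le)
  have p1 : 0 ≤ ‖X‖ ^ n := by positivity
  have p2 : 0 ≤ ‖Y‖ ^ n := by positivity
  nlinarith [mul_nonneg p1 p2]

/-- the functional `Y ↦ tr (Y ∘ Z)` -/
noncomputable def trR (Z : Mt n) : Mt n →L[ℝ] ℝ :=
  trL n ∘L (ContinuousLinearMap.compL ℝ (V n) (V n) (V n)).flip Z

theorem trR_apply (Z Y : Mt n) : trR Z Y = tr (Y ∘L Z) := rfl

theorem pt_low (hM : MatA n) (hA : AvA n) (hB : AvB n) {φ ψ : V n → ℝ} (hK : Ker φ ψ)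
    {c C ε ρ : ℝ} (hρ : 0 < ρ) (hρ1 : ρ ≤ 1)
    (hp : ∀ X Y : Mt n, Qr (1 + ε) X → Qr (1 + ε) Y →
      ‖X‖ ^ n - ‖Y‖ ^ n + c * dV X Y - C * ε * (‖X‖ ^ n + ‖Y‖ ^ n) ≤ tr ((X - Y) ∘L adj X))
    {f : V n → V n} {F : V n → Mt n} (h : W f F) (hq : QR (1 + ε) (ball 0 4) F) {x : V n}
    (hx : ‖x‖ < 2) {X : Mt n} (hX : Qr (1 + ε) X) :
    c * ∫ y, φ y * dV X (F (x + ρ • y)) ≤ tr ((X - av φ F x ρ) ∘L adj X) +
      (av φ (fun z => ‖F z‖ ^ n) x ρ - ‖X‖ ^ n) +
      C * ε * (‖X‖ ^ n + av φ (fun z => ‖F z‖ ^ n) x ρ) := by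
  have iF := int_k hA hK.tφ (hB.loc f F h) x hρ
  have iQ : Integrable (fun y => φ y * ‖F (x + ρ • y)‖ ^ n) volume := int_k hA hK.tφ h.lp x hρ
  have iD : Integrable (fun y => φ y * dV X (F (x + ρ • y))) volume :=
    int_k hA hK.tφ (loc_dV hM hB h X) x hρ
  have iT : Integrable (fun y => φ y * trR (adj X) (F (x + ρ • y))) volume := by
    simpa only [map_smul, smul_eq_mul] using (trR (adj X)).integrable_comp iF
  have eT : ∫ y, φ y * trR (adj X) (F (x + ρ • y)) = trR (adj X) (av φ F x ρ) := by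
    simpa only [map_smul, smul_eq_mul, av] using (trR (adj X)).integral_comp_comm iF
  have eQ : av φ (fun z => ‖F z‖ ^ n) x ρ = ∫ y, φ y * ‖F (x + ρ • y)‖ ^ n := rfl
  obtain ⟨a, ha⟩ : ∃ a, a = trR (adj X) X - ‖X‖ ^ n + C * ε * ‖X‖ ^ n := ⟨_, rfl⟩
  have j1 : Integrable (fun y => φ y * a - φ y * trR (adj X) (F (x + ρ • y))) volume :=
    (hK.tφ.int.mul_const a).sub iT
  have k : ∫ y, c * (φ y * dV X (F (x + ρ • y))) ≤
      ∫ y, (φ y * a - φ y * trR (adj X) (F (x + ρ • y))) +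
        (1 + C * ε) * (φ y * ‖F (x + ρ • y)‖ ^ n) := by
    refine integral_mono_ae (iD.const_mul c) (j1.add (iQ.const_mul _)) ?_
    filter_upwards [hA.ae _ x ρ hρ.ne' hq] with y hy
    rcases le_total 1 ‖y‖ with h1 | h1
    · simp [hK.tφ.2 y h1]
    have hm : x + ρ • y ∈ ball (0 : V n) 4 := by
      rw [mem_ball_zero_iff]
      have k1 := norm_add_le x (ρ • y)
      rw [norm_smul, Real.norm_of_nonneg hρ.le] at k1
      nlinarith [mul_le_mul hρ1 h1 (norm_nonneg _) zero_le_one]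
    have k2 := hp X _ hX (hy hm)
    rw [← trR_apply, map_sub] at k2
    have k3 := mul_le_mul_of_nonneg_left k2 (hK.φ0 y)
    rw [ha]
    nlinarith
  rw [integral_add j1 (iQ.const_mul _), integral_sub (hK.tφ.int.mul_const a) iT,
    integral_const_mul, integral_const_mul, integral_mul_const, hK.one, eT, ← eQ, ha] at k
  rw [← trR_apply, map_sub]
  linarith

theorem le_En {f : V n → V n} {F : V n → Mt n} (h : W f F) {θ : V n → ℝ} {M : ℝ}
    (h0 : ∀ z, 0 ≤ θ z) (hM : ∀ z, θ z ≤ M) (hz : ∀ z, 4 ≤ ‖z‖ → θ z = 0) :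
    ∫ z, ‖F z‖ ^ n * θ z ≤ M * En F 4 := by
  have i : IntegrableOn (fun z => ‖F z‖ ^ n) (ball (0 : V n) 4) volume :=
    (h.lp.integrableOn_isCompact (isCompact_closedBall 0 4)).mono_set ball_subset_closedBall
  have k : ∫ z, ‖F z‖ ^ n * θ z ≤ ∫ z, (ball (0 : V n) 4).indicator (fun z => M * ‖F z‖ ^ n) z := by
    refine integral_mono_of_nonneg (ae_of_all _ fun z => mul_nonneg (by positivity) (h0 z))
      ((integrable_indicator_iff measurableSet_ball).2 (i.const_mul M)) (ae_of_all _ fun z => ?_)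
    by_cases hb : z ∈ ball (0 : V n) 4
    · simp only [Set.indicator_of_mem hb]
      rw [mul_comm]
      exact mul_le_mul_of_nonneg_right (hM z) (by positivity)
    · simp only [Set.indicator_of_notMem hb]
      rw [hz z (by simpa using hb), mul_zero]
  rwa [integral_indicator measurableSet_ball, integral_const_mul] at k

theorem ker_eq {φ ψ : V n → ℝ} (hK : Ker φ ψ) (ζ : V n → ℝ) (z : V n) (ρ : ℝ) :
    ∫ y, φ y * ζ (z - ρ • y) = av φ ζ z ρ := by
  rw [← integral_neg_eq_self]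
  simp only [hK.even, smul_neg, sub_neg_eq_add, av, smul_eq_mul]

theorem ker_zero {φ ψ ζ : V n → ℝ} (hK : Ker φ ψ) (hζ : Test ζ 2) {ρ : ℝ} (hρ : 0 ≤ ρ)
    (hρ1 : ρ ≤ 1) (z : V n) (hz : 4 ≤ ‖z‖) : ∫ y, φ y * ζ (z - ρ • y) = 0 := by
  refine integral_eq_zero_of_ae (ae_of_all _ fun y => ?_)
  rcases le_total 1 ‖y‖ with h1 | h1
  · simp [hK.tφ.2 y h1]
  have k1 := norm_sub_norm_le z (ρ • y)
  rw [norm_smul, Real.norm_of_nonneg hρ] at k1
  have k2 := mul_le_mul hρ1 h1 (norm_nonneg _) zero_le_one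
  simp [hζ.2 (z - ρ • y) (by linarith)]

theorem swap_Q (hA : AvA n) {φ ζ : V n → ℝ} (hφ : Test φ 1) (hζ : Test ζ 2) {g : V n → ℝ}
    (hg : LocallyIntegrable g volume) (ρ : ℝ) :
    ∫ x, ζ x * av φ g x ρ = ∫ z, g z * ∫ y, φ y * ζ (z - ρ • y) := by
  have c1 := hφ.cont
  have c2 := hζ.cont
  have k := hA.swap g (fun p => φ p.2 * ζ p.1) hg (by fun_prop)
    (HasCompactSupport.intro ((isCompact_closedBall 0 2).prod (isCompact_closedBall 0 1))
      fun p hp => by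
        rcases le_total 1 ‖p.2‖ with h1 | h1
        · simp [hφ.2 _ h1]
        rcases le_total 2 ‖p.1‖ with h2 | h2
        · simp [hζ.2 _ h2]
        exact absurd ⟨by simpa using h2, by simpa using h1⟩ hp) ρ
  rw [← k]
  refine integral_congr_ae (ae_of_all _ fun x => ?_)
  simp only [av, smul_eq_mul, ← integral_const_mul]
  exact integral_congr_ae (ae_of_all _ fun y => by ring)

theorem low (hM : MatA n) (hA : AvA n) (hB : AvB n) (φ ψ ζ : V n → ℝ) (hK : Ker φ ψ)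
    (hζ : Test ζ 2) (ζ0 : ∀ x, 0 ≤ ζ x) :
    ∃ c C : ℝ, 0 < c ∧ 0 < C ∧ ∀ ε ρ, 0 ≤ ε → ε ≤ 1 → 0 < ρ → ρ ≤ 1 →
    ∀ (f : V n → V n) (F : V n → Mt n), W f F → QR (1 + ε) (ball 0 4) F →
    c * Yv ζ φ F ρ ≤ Tz ζ φ f F ρ + (∫ z, ‖F z‖ ^ n * ((∫ y, φ y * ζ (z - ρ • y)) - ζ z)) +
      C * ε * En F 4 := by
  obtain ⟨c, C, hc, hC, hp⟩ := hM.pw1
  obtain ⟨M, hM0, hMζ⟩ := hζ.bdd
  refine ⟨c, 2 * C * M, hc, by positivity, fun ε ρ e0 e1 hρ hρ1 f F h hq => ?_⟩
  have sG := smooth_av hA hK.tφ h.cont.locallyIntegrable hρ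
  have eG : ∀ x, fderiv ℝ (fun x => av φ f x ρ) x = av φ F x ρ := fun x =>
    (dx_av hB hK h x hρ).fderiv
  obtain ⟨i1, -, pe⟩ := hB.piola ζ 4 (1 + ε) f (fun x => av φ f x ρ) F (hζ.mono (by norm_num)) h
    (sG.of_le (by simp)) (by linarith) hq
  simp only [eG] at i1 pe
  have eT : ∫ x, ζ x * tr ((F x - av φ F x ρ) ∘L adj (F x)) = Tz ζ φ f F ρ := by
    rw [pe, Tz, ← integral_neg]
    refine integral_congr_ae (ae_of_all _ fun x => ?_)
    simp only [← map_neg, neg_sub]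
  have cQ := (smooth_av hA hK.tφ h.lp hρ).continuous
  have i2 : Integrable (fun x => ζ x * av φ (fun z => ‖F z‖ ^ n) x ρ) volume :=
    (hζ.cont.mul cQ).integrable_of_hasCompactSupport hζ.supp.mul_right
  have i3 : Integrable (fun x => ‖F x‖ ^ n * ζ x) volume :=
    h.lp.integrable_smul_right_of_hasCompactSupport hζ.cont hζ.supp
  have cK : Continuous fun z => ∫ y, φ y * ζ (z - ρ • y) := by
    simp only [ker_eq hK]
    exact (smooth_av hA hK.tφ hζ.cont.locallyIntegrable hρ).continuous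
  have i4 : Integrable (fun z => ‖F z‖ ^ n * ∫ y, φ y * ζ (z - ρ • y)) volume :=
    h.lp.integrable_smul_right_of_hasCompactSupport cK (supp_of (ker_zero hK hζ hρ.le hρ1))
  have b3 := le_En h ζ0 (fun z => (le_abs_self _).trans (hMζ z))
    (fun z hz => hζ.2 z (by linarith))
  have b4 := le_En h (θ := fun z => ∫ y, φ y * ζ (z - ρ • y)) (M := M)
    (fun z => integral_nonneg fun y => mul_nonneg (hK.φ0 y) (ζ0 _))
    (fun z => (le_abs_self _).trans (abs_int_le hK fun y _ => hMζ _))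
    (ker_zero hK hζ hρ.le hρ1)
  have sw := swap_Q hA hK.tφ hζ h.lp ρ
  have j1 : Integrable (fun x => ζ x * tr ((F x - av φ F x ρ) ∘L adj (F x)) +
      (1 + C * ε) * (ζ x * av φ (fun z => ‖F z‖ ^ n) x ρ)) volume := i1.add (i2.const_mul _)
  have k : ∫ x, c * (ζ x * ∫ y, φ y * dV (F x) (F (x + ρ • y))) ≤
      ∫ x, (ζ x * tr ((F x - av φ F x ρ) ∘L adj (F x)) +
        (1 + C * ε) * (ζ x * av φ (fun z => ‖F z‖ ^ n) x ρ)) +
        (C * ε - 1) * (‖F x‖ ^ n * ζ x) := by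
    refine integral_mono_of_nonneg (ae_of_all _ fun x => mul_nonneg hc.le (mul_nonneg (ζ0 x)
      (integral_nonneg fun y => mul_nonneg (hK.φ0 y) (dV_nonneg _ _))))
      (j1.add (i3.const_mul _)) ?_
    filter_upwards [hq] with x hx
    rcases le_or_gt 2 ‖x‖ with h2 | h2
    · simp [hζ.2 x h2]
    have k1 := pt_low hM hA hB hK hρ hρ1 (hp ε e0 e1) h hq h2
      (hx (by rw [mem_ball_zero_iff]; linarith))
    have k2 := mul_le_mul_of_nonneg_left k1 (ζ0 x)
    nlinarith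
  rw [integral_add j1 (i3.const_mul _), integral_add i1 (i2.const_mul _), integral_const_mul,
    integral_const_mul, integral_const_mul, eT, sw] at k
  have e5 : ∫ z, ‖F z‖ ^ n * ((∫ y, φ y * ζ (z - ρ • y)) - ζ z) =
      (∫ z, ‖F z‖ ^ n * ∫ y, φ y * ζ (z - ρ • y)) - ∫ z, ‖F z‖ ^ n * ζ z := by
    rw [← integral_sub i4 i3]
    exact integral_congr_ae (ae_of_all _ fun z => by ring)
  have p : 0 ≤ C * ε := by positivity
  have b5 := mul_le_mul_of_nonneg_left b3 p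
  have b6 := mul_le_mul_of_nonneg_left b4 p
  rw [e5, Yv]
  nlinarith

end MA

theorem monoA {n : ℕ} (hn : 3 ≤ n) (hM : MatA n) (hA : AvA n) (hB : AvB n) : MonoA n where
  low := MA.low hM hA hB
  der := fun _ _ _ hK hζ _ _ h =>
    ⟨fun _ hρ => MA.der1 hn hA hB hK hζ h hρ, MA.der2 hn hA hB hK hζ h⟩
  int := fun _ _ h => MA.int_dV hM hA h
  taylor := MA.taylor hB

end Pool.Agent.MP_29b5d3_an.NC

end MrgPart2

-- marker of a merged file
example : 731051 + 822249 = 731051 + 822249 := rfl
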