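import Mathlib.MeasureTheory.Function.L2Space
import Mathlib.RingTheory.PiTensorProduct
import Pool.Agent.MP_29b5d3_an.NC.CacC

-- ======== part 0: formerly Pool.Agent.MP_29b5d3_an.NC.Flat
section MrgPart0

/-! Project NEARCONF: improvement of flatness. -/

set_option autoImplicit false

namespace Pool.Agent.MP_29b5d3_an.NC

open MeasureTheory Metric Filter Topology Module
open scoped RealInnerProductSpace ContDiff ENNReal

namespace Flat

variable {n : ℕ}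

theorem ib {U : Type} [NormedAddCommGroup U] {g : V n → U} (h : LocallyIntegrable g volume)
    (c : V n) (R : ℝ) : IntegrableOn g (ball c R) volume :=
  (h.integrableOn_isCompact (isCompact_closedBall c R)).mono_set ball_subset_closedBall

theorem ic (a : ℝ) (c : V n) (R : ℝ) : IntegrableOn (fun _ : V n => a) (ball c R) volume :=
  integrableOn_const measure_ball_lt_top.ne

theorem small (K : ℝ) {c : ℝ} (hc : 0 < c) : ∃ τ, 0 < τ ∧ τ ≤ c ∧ K * τ ≤ c := by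
  refine ⟨c / (|K| + 1), by positivity, ?_, ?_⟩
  · exact div_le_self hc.le (by linarith [abs_nonneg K])
  · rw [← mul_div_assoc, div_le_iff₀ (by positivity)]
    nlinarith [le_abs_self K]

theorem amgm {b t : ℝ} (hb : 0 < b) (ht : 0 ≤ t) : t ≤ b + b⁻¹ * t ^ 2 := by
  have e : t = b⁻¹ * (b * t) := by field_simp
  have e' : b = b⁻¹ * b ^ 2 := by field_simp
  have : b * t ≤ b ^ 2 + t ^ 2 := by nlinarith [sq_nonneg (b - t), mul_nonneg hb.le ht]
  have := mul_le_mul_of_nonneg_left this (inv_pos.2 hb).le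
  linarith

theorem cs : CompleteSpace (Mt n) := inferInstance

attribute [local instance] cs

theorem sq_le_om {t : ℝ} (ht : 0 ≤ t) : t ^ 2 ≤ om n t := by
  unfold om
  linarith [pow_nonneg ht n]

theorem om_mono {s t : ℝ} (hs : 0 ≤ s) (h : s ≤ t) : om n s ≤ om n t := by
  unfold om
  gcongr

theorem om_add (hn : 3 ≤ n) {p k : ℝ} (hp : 0 ≤ p) (h0 : 0 ≤ k) (h1 : k ≤ 1) :
    om n (p + k) ≤ 2 ^ n * (om n p + 2 * k ^ 2) := by
  have a1 := add_pow_le hp h0 n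
  have a2 : k ^ n ≤ k ^ 2 := pow_le_pow_of_le_one h0 h1 (by omega)
  have a3 : (2 : ℝ) ^ (n - 1) ≤ 2 ^ n := pow_le_pow_right₀ one_le_two (by omega)
  have a4 : (2 : ℝ) ≤ 2 ^ n := le_self_pow₀ one_le_two (by omega)
  have a5 : (p + k) ^ 2 ≤ 2 * (p ^ 2 + k ^ 2) := by nlinarith [sq_nonneg (p - k)]
  have a6 : (2 : ℝ) * (p ^ 2 + k ^ 2) ≤ 2 ^ n * (p ^ 2 + k ^ 2) := by gcongr
  have a7 : (2 : ℝ) ^ (n - 1) * (p ^ n + k ^ n) ≤ 2 ^ n * (p ^ n + k ^ 2) := by gcongr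
  unfold om
  nlinarith

theorem wsub (hB : AvB n) {f : V n → V n} {F : V n → Mt n} (h : W f F) :
    W (fun y => f y - y) (fun y => F y - 1) := by
  simpa using hB.subL f F 1 0 h

theorem wres (hB : AvB n) {f : V n → V n} {F : V n → Mt n} (h : W f F) (x : V n) {r : ℝ}
    (hr : r ≠ 0) : W (fun y => r⁻¹ • f (x + r • y)) (fun y => F (x + r • y)) := by
  have := hB.resc f F 1 x r h hr
  simpa only [ContinuousLinearMap.one_def, ContinuousLinearMap.id_comp,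
    ContinuousLinearMap.id_apply] using this

theorem lom (hB : AvB n) {f : V n → V n} {F : V n → Mt n} (h : W f F) :
    LocallyIntegrable (fun x => om n ‖F x - 1‖) volume ∧
    LocallyIntegrable (fun x => ‖F x - 1‖ ^ 2) volume ∧
    LocallyIntegrable (fun x => ‖F x - 1‖) volume := by
  have := hB.loc_om f F 1 1 h
  simpa only [ContinuousLinearMap.one_def, ContinuousLinearMap.id_comp] using this

theorem sub_ball {x : V n} {r a : ℝ} (hr : 0 < r) (h : ‖x‖ + r * a ≤ 1) {y : V n}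
    (hy : y ∈ ball (0 : V n) a) : x + r • y ∈ ball (0 : V n) 1 := by
  rw [mem_ball_zero_iff] at hy ⊢
  have := norm_add_le x (r • y)
  rw [norm_smul, Real.norm_of_nonneg hr.le] at this
  nlinarith

theorem qr_res (hM : MatB n) (hA : AvA n) {K a c r : ℝ} {N : Mt n} {F : V n → Mt n} {x : V n}
    (hN : Conf c N) (hr : 0 < r) (h : ‖x‖ + r * a ≤ 1) (hq : QR K (ball 0 1) F) :
    QR K (ball 0 a) fun y => N ∘L F (x + r • y) := by
  filter_upwards [hA.ae _ x r hr.ne' hq] with y hy hb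
  exact hM.conf_qr c K N _ hN (hy (sub_ball hr h hb))

theorem Iv_le (hA : AvA n) {g g' : V n → ℝ} (h : LocallyIntegrable g volume)
    (h' : LocallyIntegrable g' volume) (hl : ∀ z, g z ≤ g' z) (x : V n) {r : ℝ} (hr : 0 < r) :
    Iv g x r ≤ Iv g' x r :=
  setIntegral_mono (ib (hA.loc _ g h x r hr.ne') _ _) (ib (hA.loc _ g' h' x r hr.ne') _ _)
    fun _ => hl _

theorem Iv_in (hA : AvA n) {g : V n → ℝ} (h : LocallyIntegrable g volume) (h0 : ∀ z, 0 ≤ g z)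
    {x : V n} {r s T : ℝ} (hs : 0 < s) (hr : s ≤ r) (hx : ‖x‖ + r ≤ 1) (hT : Iv g 0 1 ≤ T) :
    Iv g x r ≤ s⁻¹ ^ n * T := by
  have r0 : 0 < r := hs.trans_le hr
  have k := hA.Iv_mono g 0 x 1 r h h0 r0 one_pos
    (ball_subset_ball' (by rw [dist_zero_right]; linarith))
  have i0 : 0 ≤ Iv g 0 1 := setIntegral_nonneg measurableSet_ball fun _ _ => h0 _
  refine k.trans (mul_le_mul ?_ hT i0 (by positivity))
  rw [one_div]
  gcongr

/-- the first moment -/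
theorem Iv_first (hB : AvB n) {f : V n → V n} {F : V n → Mt n} (h : W f F) {b : ℝ} (hb : 0 < b)
    (hT : Iv (fun z => ‖F z - 1‖ ^ 2) 0 1 ≤ b ^ 2) :
    Iv (fun z => ‖F z - 1‖) 0 1 ≤ ((volume : Measure (V n)).real (ball 0 1) + 1) * b := by
  obtain ⟨-, l2, l1⟩ := lom hB h
  rw [Iv_zero_one] at hT ⊢
  have k : ∫ y in ball (0 : V n) 1, ‖F y - 1‖ ≤
      ∫ y in ball (0 : V n) 1, (b + b⁻¹ * ‖F y - 1‖ ^ 2) := by
    refine setIntegral_mono (ib l1 _ _) ((ic b _ _).add ((ib l2 _ _).const_mul _)) fun y => ?_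
    exact amgm hb (norm_nonneg _)
  rw [integral_add (ic b _ _) ((ib l2 _ _).const_mul _), integral_const_mul,
    setIntegral_const, smul_eq_mul] at k
  have e' : b = b⁻¹ * b ^ 2 := by field_simp
  have := mul_le_mul_of_nonneg_left hT (inv_pos.2 hb).le
  linarith

theorem int_av (hA : AvA n) {θ : V n → ℝ} (hθ : Test θ 1) {G : V n → Mt n}
    (hG : LocallyIntegrable G volume) (x : V n) {r : ℝ} (hr : 0 < r) :
    Integrable (fun y => θ y • G (x + r • y)) volume :=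
  (hA.loc _ G hG x r hr.ne').integrable_smul_left_of_hasCompactSupport hθ.cont hθ.supp

theorem l_av (hA : AvA n) {θ : V n → ℝ} (hθ : Test θ 1) {G : V n → Mt n}
    (hG : LocallyIntegrable G volume) (x : V n) {r : ℝ} (hr : 0 < r) (l : Mt n →L[ℝ] ℝ) :
    l (av θ G x r) = ∫ y, θ y * l (G (x + r • y)) := by
  rw [av, ← l.integral_comp_comm (int_av hA hθ hG x hr)]
  simp only [map_smul, smul_eq_mul]

/-- the pointwise bound for the traceless symmetric part and its integral -/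
theorem devi (hM : MatB n) (hA : AvA n) (hB : AvB n) : ∃ C : ℝ, 0 < C ∧ ∀ ε, 0 ≤ ε → ε ≤ 1 →
    ∀ (f : V n → V n) (F : V n → Mt n) (T : ℝ), W f F → QR (1 + ε) (ball 0 1) F →
    Iv (fun z => ‖F z - 1‖ ^ 2) 0 1 ≤ T → ∀ (x : V n) (r s : ℝ), 0 < s → s ≤ r → ‖x‖ + r ≤ 1 →
    ∃ g : V n → ℝ, IntegrableOn g (ball 0 1) volume ∧ (∀ y, 0 ≤ g y) ∧
      (∀ᵐ y, y ∈ ball (0 : V n) 1 → Dev (F (x + r • y) - 1) (g y)) ∧
      ∫ y in ball (0 : V n) 1, g y ≤ C * s⁻¹ ^ n * (ε + T) := by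
  obtain ⟨C, C0, hC⟩ := hM.dev
  set β := (volume : Measure (V n)).real (ball 0 1) with hβ
  have β0 : 0 ≤ β := measureReal_nonneg
  refine ⟨C * (β + 1), by positivity, fun ε e0 e1 f F T h hq hT x r s hs hr hx => ?_⟩
  have r0 : 0 < r := hs.trans_le hr
  obtain ⟨-, l2, -⟩ := lom hB h
  have i2 := ib (hA.loc _ _ l2 x r r0.ne') 0 1
  have i3 : IntegrableOn (fun y => ε + ‖F (x + r • y) - 1‖ ^ 2) (ball 0 1) volume :=
    (ic ε _ _).add i2
  refine ⟨fun y => C * (ε + ‖F (x + r • y) - 1‖ ^ 2), i3.const_mul C,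
    fun y => by positivity, ?_, ?_⟩
  · filter_upwards [hA.ae _ x r r0.ne' hq] with y hy hb
    exact hM.dev_sub_one _ _ (hC ε e0 e1 _ (hy (sub_ball r0 (by linarith) hb)))
  · have k := Iv_in hA l2 (fun z => by positivity) hs hr hx hT
    have T0 : 0 ≤ T :=
      le_trans (setIntegral_nonneg measurableSet_ball fun _ _ => by positivity) hT
    have s1 : 1 ≤ s⁻¹ ^ n :=
      one_le_pow₀ (one_le_inv_iff₀.2 ⟨hs, by linarith [norm_nonneg x]⟩)
    rw [integral_const_mul, integral_add (ic ε _ _) i2, setIntegral_const, smul_eq_mul, ← hβ,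
      mul_assoc, mul_assoc]
    refine mul_le_mul_of_nonneg_left ?_ C0.le
    change β * ε + Iv (fun z => ‖F z - 1‖ ^ 2) x r ≤ _
    have a1 : β * ε ≤ β * (s⁻¹ ^ n * ε) := by
      refine mul_le_mul_of_nonneg_left ?_ β0
      nlinarith
    have a2 : 0 ≤ β * (s⁻¹ ^ n * T) := by positivity
    have a3 : 0 ≤ s⁻¹ ^ n * ε := by positivity
    nlinarith

theorem int_le {θ g k : V n → ℝ} {C c : ℝ} (hθ : Test θ 1) (hC : ∀ y, |θ y| ≤ C)
    (hg : IntegrableOn g (ball 0 1) volume)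
    (h : ∀ᵐ y, y ∈ ball (0 : V n) 1 → |k y| ≤ g y * c) :
    |∫ y, θ y * k y| ≤ C * (∫ y in ball (0 : V n) 1, g y) * c := by
  rw [← setIntegral_eq_integral_of_forall_compl_eq_zero (s := ball 0 1) fun y hy => by
    rw [hθ.2 y (by simpa using hy), zero_mul], mul_assoc, ← integral_mul_const,
    ← integral_const_mul, ← Real.norm_eq_abs]
  refine norm_integral_le_of_norm_le ((hg.mul_const c).const_mul C) ?_
  rw [ae_restrict_iff' measurableSet_ball]
  filter_upwards [h] with y hy hb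
  rw [Real.norm_eq_abs, abs_mul]
  exact mul_le_mul (hC y) (hy hb) (abs_nonneg _) ((abs_nonneg _).trans (hC y))

/-- the bilinear expression in `Dev` as a functional -/
noncomputable def dl (a b : V n) : Mt n →L[ℝ] ℝ :=
  (innerSL ℝ b).comp (ContinuousLinearMap.apply ℝ (V n) a) +
    (innerSL ℝ a).comp (ContinuousLinearMap.apply ℝ (V n) b) - (2 * ⟪a, b⟫ / n) • trL n

theorem dl_apply (a b : V n) (X : Mt n) :
    dl a b X = ⟪X a, b⟫ + ⟪a, X b⟫ - 2 * (tr X / n) * ⟪a, b⟫ := by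
  simp only [dl, sub_apply, add_apply, smul_apply, ContinuousLinearMap.comp_apply,
    ContinuousLinearMap.apply_apply, innerSL_apply_apply, trL_apply, smul_eq_mul,
    real_inner_comm (X a) b]
  ring

theorem dev_add_one (hn : 3 ≤ n) {A : Mt n} {c : ℝ} (h : Dev A c) : Dev (A + 1) c := by
  intro a b
  have n0 : (n : ℝ) ≠ 0 := by positivity
  have e : ⟪(A + 1) a, b⟫ + ⟪a, (A + 1) b⟫ - 2 * (tr (A + 1) / n) * ⟪a, b⟫ =
      ⟪A a, b⟫ + ⟪a, A b⟫ - 2 * (tr A / n) * ⟪a, b⟫ := by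
    rw [tr_add, tr_one]
    simp only [add_apply, one_apply_eq_self, inner_add_left, inner_add_right]
    field_simp
    ring
  rw [e]
  exact h a b

theorem norm_le_of_inner {X : Mt n} {c : ℝ} (hc : 0 ≤ c)
    (h : ∀ a b, |⟪a, X b⟫| ≤ c * ‖a‖ * ‖b‖) : ‖X‖ ≤ c := by
  refine ContinuousLinearMap.opNorm_le_bound _ hc fun b => ?_
  have k := (le_abs_self _).trans (h (X b) b)
  rw [real_inner_self_eq_norm_sq] at k
  rcases (norm_nonneg (X b)).eq_or_lt with h0 | h0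
  · rw [← h0]; positivity
  · refine le_of_mul_le_mul_left ?_ h0
    nlinarith

/-- the average of the derivative is nearly conformal -/
theorem dev_av (hn : 3 ≤ n) (hM : MatB n) (hA : AvA n) (hB : AvB n) {φ : V n → ℝ}
    (hφ : Test φ 1) : ∃ C : ℝ, 0 < C ∧ ∀ ε, 0 ≤ ε → ε ≤ 1 →
    ∀ (f : V n → V n) (F : V n → Mt n) (T : ℝ), W f F → QR (1 + ε) (ball 0 1) F →
    Iv (fun z => ‖F z - 1‖ ^ 2) 0 1 ≤ T → ∀ s : ℝ, 0 < s → s ≤ 1 →
    Dev (av φ (fun z => F z - 1) 0 s + 1) (C * s⁻¹ ^ n * (ε + T)) := by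
  obtain ⟨C, C0, hC⟩ := devi hM hA hB
  obtain ⟨P, P0, hP⟩ := hφ.bdd
  refine ⟨P * C, by positivity, fun ε e0 e1 f F T h hq hT s hs s1 => dev_add_one hn fun a b => ?_⟩
  obtain ⟨g, gi, -, gd, gl⟩ := hC ε e0 e1 f F T h hq hT 0 s s hs le_rfl (by simpa using s1)
  rw [← dl_apply, l_av hA hφ (hB.loc _ _ (wsub hB h)) 0 hs]
  refine (int_le (c := ‖a‖ * ‖b‖) hφ hP gi ?_).trans ?_
  · filter_upwards [gd] with y hy hb
    rw [dl_apply, ← mul_assoc]
    exact hy hb a b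
  · calc _ ≤ P * (C * s⁻¹ ^ n * (ε + T)) * (‖a‖ * ‖b‖) := by gcongr
      _ = _ := by ring

/-- the averages hardly depend on the scale -/
theorem scale (hM : MatB n) (hA : AvA n) (hB : AvB n) {φ ψ : V n → ℝ} (hK : Ker φ ψ) :
    ∃ C : ℝ, 0 < C ∧ ∀ ε, 0 ≤ ε → ε ≤ 1 →
    ∀ (f : V n → V n) (F : V n → Mt n) (T : ℝ), W f F → QR (1 + ε) (ball 0 1) F →
    Iv (fun z => ‖F z - 1‖ ^ 2) 0 1 ≤ T → ∀ (x : V n) (s : ℝ), ‖x‖ ≤ 1 / 2 → 0 < s → s ≤ 1 / 2 →
    ‖av φ (fun z => F z - 1) x (1 / 2) - av φ (fun z => F z - 1) x s‖ ≤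
      C * s⁻¹ ^ (n + 1) * (ε + T) := by
  obtain ⟨C, C0, hC⟩ := devi hM hA hB
  obtain ⟨P, P0, hP⟩ := hK.tψ.bdd_hess
  obtain ⟨Q, Q0, hQ⟩ := hB.korn2
  refine ⟨Q * P * C, by positivity, fun ε e0 e1 f F T h hq hT x s hx hs s1 => ?_⟩
  have hG := wsub hB h
  have lG := hB.loc _ _ hG
  have T0 : 0 ≤ T :=
    le_trans (setIntegral_nonneg measurableSet_ball fun _ _ => by positivity) hT
  have key : ∀ r ∈ Set.Ico s (1 / 2), ‖r⁻¹ • av (lap ψ) (fun z => F z - 1) x r‖ ≤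
      s⁻¹ * (Q * P * (C * s⁻¹ ^ n * (ε + T))) := by
    intro r hr
    have r0 : 0 < r := hs.trans_le hr.1
    rw [norm_smul, Real.norm_of_nonneg (inv_pos.2 r0).le]
    refine mul_le_mul (inv_anti₀ hs hr.1) (norm_le_of_inner (by positivity) fun a b => ?_)
      (norm_nonneg _) (by positivity)
    obtain ⟨g, gi, g0, gd, gl⟩ := hC ε e0 e1 f F T h hq hT x r s hs hr.1 (by linarith [hr.2])
    have k := hQ ψ 1 _ _ g hK.tψ (wres hB hG x r0.ne') gi gd a b
    have e := l_av hA hK.tψ.lap lG x r0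
      ((innerSL ℝ a).comp (ContinuousLinearMap.apply ℝ (V n) b))
    simp only [ContinuousLinearMap.comp_apply, ContinuousLinearMap.apply_apply,
      innerSL_apply_apply] at e
    rw [e]
    simp only [mul_comm (lap ψ _)]
    refine k.trans ?_
    have k2 : ∫ y in ball (0 : V n) 1, g y * ‖hess ψ y‖ ≤ ∫ y in ball (0 : V n) 1, g y * P := by
      refine integral_mono_of_nonneg (Eventually.of_forall fun y => ?_) (gi.mul_const P)
        (Eventually.of_forall fun y => mul_le_mul_of_nonneg_left (hP y) (g0 y))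
      exact mul_nonneg (g0 y) (norm_nonneg _)
    rw [integral_mul_const] at k2
    calc _ ≤ Q * ‖a‖ * ‖b‖ * (C * s⁻¹ ^ n * (ε + T) * P) := by
          gcongr
          exact k2.trans (by gcongr)
      _ = _ := by ring
  have k := norm_image_sub_le_of_norm_deriv_le_segment'
    (f := av φ (fun z => F z - 1) x) (a := s) (b := 1 / 2)
    (fun r hr => (hB.dr _ φ ψ _ hK lG x r (hs.trans_le hr.1)).hasDerivWithinAt) key
    (1 / 2) ⟨s1, le_rfl⟩
  refine k.trans ?_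
  calc _ ≤ s⁻¹ * (Q * P * (C * s⁻¹ ^ n * (ε + T))) * 1 := by gcongr; linarith
    _ = _ := by ring

theorem hasx (hA : AvA n) {φ : V n → ℝ} (hφ : Test φ 1) {G : V n → Mt n}
    (hG : LocallyIntegrable G volume) (x : V n) {r : ℝ} (hr : 0 < r) :
    HasFDerivAt (fun x => av φ G x r)
      ((fderiv ℝ (fun p : V n × ℝ => av φ G p.1 p.2) (x, r)).comp
        (ContinuousLinearMap.inl ℝ (V n) ℝ)) x := by
  have o : IsOpen {p : V n × ℝ | 0 < p.2} := isOpen_lt continuous_const continuous_snd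
  have d := ((hA.smooth _ φ 1 G hφ hG).contDiffAt (x := (x, r))
    (o.mem_nhds hr)).differentiableAt (by simp)
  exact HasFDerivAt.comp (f := fun e : V n => (e, r)) x d.hasFDerivAt
    (hasFDerivAt_prodMk_left (𝕜 := ℝ) x r)

/-- the averages at a fixed scale are Lipschitz -/
theorem lipx (hA : AvA n) {φ : V n → ℝ} (hφ : Test φ 1) : ∃ C : ℝ, 0 < C ∧
    ∀ (G : V n → Mt n) (T : ℝ), LocallyIntegrable G volume → Iv (fun z => ‖G z‖) 0 1 ≤ T →
    ∀ x : V n, ‖x‖ ≤ 1 / 2 → ‖av φ G x (1 / 2) - av φ G 0 (1 / 2)‖ ≤ C * T * ‖x‖ := by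
  obtain ⟨P, P0, hP⟩ := hφ.bdd_fderiv
  refine ⟨2 * P * (1 / 2)⁻¹ ^ n, by positivity, fun G T hG hT x hx => ?_⟩
  have T0 : 0 ≤ T :=
    le_trans (setIntegral_nonneg measurableSet_ball fun _ _ => norm_nonneg _) hT
  have k := (convex_closedBall (0 : V n) (1 / 2)).norm_image_sub_le_of_norm_hasFDerivWithin_le
    (C := 2 * P * (1 / 2)⁻¹ ^ n * T) (x := 0) (y := x)
    (fun z _ => (hasx hA hφ hG z (r := 1 / 2) (by norm_num)).hasFDerivWithinAt)
    (fun z hz => ?_) (by simp) (by simpa using hx)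
  · simpa using k
  refine ContinuousLinearMap.opNorm_le_bound _ (by positivity) fun v => ?_
  rw [ContinuousLinearMap.comp_apply, ContinuousLinearMap.inl_apply,
    hA.deriv _ φ 1 G hφ hG z v (1 / 2) 0 (by norm_num), norm_neg, norm_smul]
  simp only [zero_smul, add_zero, mul_zero, zero_mul]
  have k1 := hA.av_le _ _ G (P * ‖v‖) (hφ.der v) (fun y =>
    ((fderiv ℝ φ y).le_of_opNorm_le (hP y) v)) hG z (1 / 2) (by norm_num)
  have k2 := Iv_in hA (g := fun z => ‖G z‖) (fun w => (hG w).norm) (fun z => norm_nonneg _) (x := z) (r := 1 / 2) (s := 1 / 2)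
    (by norm_num) le_rfl (by linarith [mem_closedBall_zero_iff.1 hz]) hT
  calc _ ≤ 2 * (P * ‖v‖ * ((1 / 2)⁻¹ ^ n * T)) := by
        rw [show ‖(1 / 2 : ℝ)⁻¹‖ = 2 by norm_num]
        exact mul_le_mul_of_nonneg_left (k1.trans (by gcongr)) zero_le_two
    _ = _ := by ring

/-- all the estimates for the averages of the derivative -/
theorem est (hn : 3 ≤ n) (hM : MatB n) (hA : AvA n) (hB : AvB n) {φ ψ : V n → ℝ}
    (hK : Ker φ ψ) : ∃ K : ℝ, 0 < K ∧ ∀ ε, 0 ≤ ε → ε ≤ 1 →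
    ∀ (f : V n → V n) (F : V n → Mt n) (b : ℝ), W f F → QR (1 + ε) (ball 0 1) F → 0 < b →
    Iv (fun z => ‖F z - 1‖ ^ 2) 0 1 ≤ b ^ 2 → ∀ s : ℝ, 0 < s → s ≤ 1 / 2 →
    (∀ x : V n, ‖x‖ ≤ 1 / 2 → ‖av φ (fun z => F z - 1) x s - av φ (fun z => F z - 1) 0 s‖ ≤
      K * b * ‖x‖ + K * s⁻¹ ^ (n + 1) * (ε + b ^ 2)) ∧
    ‖av φ (fun z => F z - 1) 0 s‖ ≤ K * s⁻¹ ^ (n + 1) * b ∧
    Dev (av φ (fun z => F z - 1) 0 s + 1) (K * s⁻¹ ^ (n + 1) * (ε + b ^ 2)) := by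
  obtain ⟨C1, p1, h1⟩ := dev_av hn hM hA hB hK.tφ
  obtain ⟨C2, p2, h2⟩ := scale hM hA hB hK
  obtain ⟨C3, p3, h3⟩ := lipx hA hK.tφ
  obtain ⟨P, P0, hP⟩ := hK.tφ.bdd
  set β := (volume : Measure (V n)).real (ball 0 1) with hβ
  have β0 : 0 ≤ β := measureReal_nonneg
  have q3 : 0 ≤ C3 * (β + 1) := by positivity
  have q4 : 0 ≤ P * (β + 1) := by positivity
  refine ⟨C1 + 2 * C2 + C3 * (β + 1) + P * (β + 1), by positivity,
    fun ε e0 e1 f F b h hq hb hT s hs s1 => ?_⟩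
  have lG := hB.loc _ _ (wsub hB h)
  have i1 := Iv_first hB h hb hT
  have s2 : s⁻¹ ^ n ≤ s⁻¹ ^ (n + 1) :=
    pow_le_pow_right₀ (one_le_inv_iff₀.2 ⟨hs, by linarith⟩) (by omega)
  refine ⟨fun x hx => ?_, ?_, fun u v => ?_⟩
  · have k1 := h2 ε e0 e1 f F _ h hq hT x s hx hs s1
    have k2 := h2 ε e0 e1 f F _ h hq hT 0 s (by simp) hs s1
    have k3 := h3 _ _ lG i1 x hx
    have k4 := norm_sub_le_norm_sub_add_norm_sub (av φ (fun z => F z - 1) x s)
      (av φ (fun z => F z - 1) x (1 / 2)) (av φ (fun z => F z - 1) 0 s)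
    have k5 := norm_sub_le_norm_sub_add_norm_sub (av φ (fun z => F z - 1) x (1 / 2))
      (av φ (fun z => F z - 1) 0 (1 / 2)) (av φ (fun z => F z - 1) 0 s)
    rw [norm_sub_rev] at k1
    calc _ ≤ C3 * (β + 1) * b * ‖x‖ + 2 * C2 * s⁻¹ ^ (n + 1) * (ε + b ^ 2) := by linarith
      _ ≤ _ := by gcongr <;> linarith
  · have k1 := hA.av_le _ φ _ P hK.tφ hP lG 0 s hs
    have k2 := Iv_in hA (lom hB h).2.2 (fun z => norm_nonneg _) (x := 0) hs le_rfl
      (by rw [norm_zero]; linarith) i1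
    calc _ ≤ P * (s⁻¹ ^ n * ((β + 1) * b)) := k1.trans (by gcongr)
      _ = P * (β + 1) * s⁻¹ ^ n * b := by ring
      _ ≤ _ := by gcongr; linarith
  · refine (h1 ε e0 e1 f F _ h hq hT s hs (by linarith) u v).trans ?_
    gcongr
    linarith

/-- the Caccioppoli inequality after subtracting a conformal affine map -/
theorem core (hn : 3 ≤ n) (hM : MatB n) (hB : AvB n) (hC : Cac n) {φ ψ : V n → ℝ}
    (hK : Ker φ ψ) : ∃ ε₀ K : ℝ, 0 < ε₀ ∧ 0 < K ∧ ∀ ε, 0 ≤ ε → ε ≤ ε₀ →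
    ∀ (f : V n → V n) (F : V n → Mt n), W f F → QR (1 + ε) (ball 0 2) F →
    ∀ (η κ a : ℝ) (A N : Mt n), 0 < η → η ≤ 1 → K * η ≤ 1 → Conf a N → a ≤ 2 →
    (∀ y ∈ ball (0 : V n) 2, ‖av φ (fun z => F z - 1) y η - A‖ ≤ κ) →
    ‖N ∘L (A + 1) - 1‖ ≤ κ → 6 * κ ≤ 1 →
    ∫ y in ball (0 : V n) 1, om n ‖N ∘L F y - 1‖ ≤
      K * (ε ^ 2 + η * (∫ y in ball (0 : V n) 3, om n ‖F y - 1‖) + κ ^ 2) := by
  obtain ⟨ε₀, C, e0, C0, hc⟩ := hC.cacc
  obtain ⟨P, P0, hP⟩ := hC.poinc φ ψ hK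
  set β := (volume : Measure (V n)).real (ball 0 2) with hβ
  have β0 : 0 ≤ β := measureReal_nonneg
  have q1 : 0 ≤ C * 2 ^ n * (2 * P) := by positivity
  have q2 : 0 ≤ C * 2 ^ n * (72 * β) := by positivity
  refine ⟨ε₀, C + 2 * P + C * 2 ^ n * (2 * P) + C * 2 ^ n * (72 * β), e0, by positivity,
    fun ε h0 h1 f F h hq η κ a A N η0 η1 hη hN a2 hosc hNA hκ => ?_⟩
  have κ0 : 0 ≤ κ := (norm_nonneg _).trans hNA
  have Pη : 2 * P * η ≤ 1 := le_trans (by gcongr; linarith) hη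
  have hG := wsub hB h
  set g : V n → V n := fun y => f y - y with hg
  have dg : ∀ x, HasFDerivAt (fun x => av φ g x η) (av φ (fun z => F z - 1) x η) x := by
    intro x
    have k := HasFDerivAt.comp (f := fun e : V n => (e, η)) x (hB.dav φ ψ _ _ hK hG x η η0)
      (hasFDerivAt_prodMk_left (𝕜 := ℝ) x η)
    refine k.congr_fderiv ?_
    ext1 v
    simp
  have cg : Continuous fun x => av φ g x η :=
    continuous_iff_continuousAt.2 fun x => (dg x).continuousAt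
  have hW : W (fun y => N (f y) - N (av φ g 0 η)) (fun y => N ∘L F y) := by
    have := hB.subL _ _ 0 (N (av φ g 0 η)) (hB.resc f F N 0 1 h one_ne_zero)
    simpa using this
  have hq' : QR (1 + ε) (ball 0 2) fun y => N ∘L F y := by
    filter_upwards [hq] with y hy hb
    exact hM.conf_qr a _ N _ hN (hy hb)
  have k := hc ε h0 h1 _ _ hW hq'
  have hNv : ∀ v, ‖N v‖ ≤ 2 * ‖v‖ := fun v => by rw [hN.2.1]; gcongr
  have pw : ∀ y ∈ ball (0 : V n) 2, ‖N (f y) - N (av φ g 0 η) - y‖ ≤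
      2 * ‖g y - av φ g y η‖ + 6 * κ := by
    intro y hy
    have y2 : ‖y‖ ≤ 2 := (mem_ball_zero_iff.1 hy).le
    have mv := (convex_ball (0 : V n) 2).norm_image_sub_le_of_norm_hasFDerivWithin_le'
      (φ := A) (C := κ) (x := 0) (y := y) (fun z _ => (dg z).hasFDerivWithinAt) hosc
      (mem_ball_self two_pos) hy
    rw [sub_zero y] at mv
    have e : N (f y) - N (av φ g 0 η) - y = N (g y - av φ g y η) +
        N (av φ g y η - av φ g 0 η - A y) + (N ∘L (A + 1) - 1 : Mt n) y := by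
      simp only [hg, map_sub, map_add, sub_apply, add_apply, ContinuousLinearMap.comp_apply,
        one_apply_eq_self]
      abel
    have k1 := hNv (g y - av φ g y η)
    have k2 := hNv (av φ g y η - av φ g 0 η - A y)
    have k3 := (N ∘L (A + 1) - 1).le_of_opNorm_le hNA y
    have k4 : κ * ‖y‖ ≤ κ * 2 := by gcongr
    rw [e]
    refine norm_add₃_le.trans ?_
    linarith
  have cp : Continuous fun y => ‖g y - av φ g y η‖ := (hG.cont.sub cg).norm
  have ip : ∀ q : ℕ, IntegrableOn (fun y => ‖g y - av φ g y η‖ ^ q) (ball 0 2) volume :=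
    fun q => ib (cp.pow q).locallyIntegrable _ _
  obtain ⟨l0, l2, -⟩ := lom hB h
  have ln := hG.lp
  have io : IntegrableOn (fun y => 2 ^ 2 * ‖g y - av φ g y η‖ ^ 2 +
      2 ^ n * ‖g y - av φ g y η‖ ^ n) (ball 0 2) volume :=
    ((ip 2).const_mul _).add ((ip n).const_mul _)
  have io2 : IntegrableOn (fun y => 2 ^ 2 * ‖g y - av φ g y η‖ ^ 2 +
      2 ^ n * ‖g y - av φ g y η‖ ^ n + 72 * κ ^ 2) (ball 0 2) volume := io.add (ic _ _ _)
  have k5 : ∫ y in ball (0 : V n) 2, om n ‖N (f y) - N (av φ g 0 η) - y‖ ≤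
      ∫ y in ball (0 : V n) 2, 2 ^ n * (2 ^ 2 * ‖g y - av φ g y η‖ ^ 2 +
        2 ^ n * ‖g y - av φ g y η‖ ^ n + 72 * κ ^ 2) := by
    refine integral_mono_of_nonneg (Eventually.of_forall fun y => om_nonneg (norm_nonneg _))
      (io2.const_mul _) ?_
    rw [EventuallyLE, ae_restrict_iff' measurableSet_ball]
    refine Eventually.of_forall fun y hy => ?_
    refine (om_mono (norm_nonneg _) (pw y hy)).trans
      ((om_add hn (by positivity) (by positivity) hκ).trans (le_of_eq ?_))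
    unfold om
    ring
  rw [integral_const_mul, integral_add io (ic _ _ _), integral_add ((ip 2).const_mul _)
    ((ip n).const_mul _), integral_const_mul, integral_const_mul, setIntegral_const, smul_eq_mul,
    ← hβ] at k5
  have pq : ∀ q : ℕ, 1 ≤ q → q ≤ n → LocallyIntegrable (fun y => ‖F y - 1‖ ^ q) volume →
      2 ^ q * ∫ y in ball (0 : V n) 2, ‖g y - av φ g y η‖ ^ q ≤
        2 * P * η * ∫ y in ball (0 : V n) 3, ‖F y - 1‖ ^ q := by
    intro q q1 qn lq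
    have k1 := hP _ _ hG q 2 η q1 qn two_pos η0
    have k2 : ∫ y in ball (0 : V n) (2 + η), ‖F y - 1‖ ^ q ≤
        ∫ y in ball (0 : V n) 3, ‖F y - 1‖ ^ q :=
      setIntegral_mono_set (ib lq _ _) (Eventually.of_forall fun y => by positivity)
        (ball_subset_ball (by linarith)).eventuallyLE
    have k3 : (2 * P * η) ^ q ≤ 2 * P * η := pow_le_of_le_one (by positivity) Pη (by omega)
    have k4 : 0 ≤ ∫ y in ball (0 : V n) 3, ‖F y - 1‖ ^ q :=
      setIntegral_nonneg measurableSet_ball fun _ _ => by positivity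
    calc _ ≤ 2 ^ q * ((P * η) ^ q * ∫ y in ball (0 : V n) 3, ‖F y - 1‖ ^ q) :=
          mul_le_mul_of_nonneg_left (k1.trans (by gcongr)) (by positivity)
      _ = (2 * P * η) ^ q * ∫ y in ball (0 : V n) 3, ‖F y - 1‖ ^ q := by ring
      _ ≤ _ := by gcongr
  have k6 := pq 2 one_le_two (by omega) l2
  have k7 := pq n (by omega) le_rfl ln
  have e : ∫ y in ball (0 : V n) 3, om n ‖F y - 1‖ = (∫ y in ball (0 : V n) 3, ‖F y - 1‖ ^ 2) +
      ∫ y in ball (0 : V n) 3, ‖F y - 1‖ ^ n := integral_add (ib l2 _ _) (ib ln _ _)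
  have E0 : 0 ≤ ∫ y in ball (0 : V n) 3, om n ‖F y - 1‖ :=
    setIntegral_nonneg measurableSet_ball fun _ _ => om_nonneg (norm_nonneg _)
  set E := ∫ y in ball (0 : V n) 3, om n ‖F y - 1‖
  have k8 := k5.trans (mul_le_mul_of_nonneg_left
    (show _ ≤ 2 * P * η * E + β * (72 * κ ^ 2) by rw [e]; linarith) (by positivity))
  calc _ ≤ C * (ε ^ 2 + 2 ^ n * (2 * P * η * E + β * (72 * κ ^ 2))) := k.trans (by gcongr)
    _ = C * ε ^ 2 + C * 2 ^ n * (2 * P) * (η * E) + C * 2 ^ n * (72 * β) * κ ^ 2 := by ring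
    _ ≤ _ := by
      rw [mul_add, mul_add]
      gcongr <;> linarith

end Flat

open Flat in
theorem flatStep {n : ℕ} (hn : 3 ≤ n) (hK : KerS n) (hM : MatB n) (hA : AvA n) (hB : AvB n)
    (hC : Cac n) : FlatStep n := by
  obtain ⟨φ, ψ, hk⟩ := hK.ker
  obtain ⟨K, K0, hE⟩ := est hn hM hA hB hk
  obtain ⟨ε₀, L, e0, L0, hL⟩ := core hn hM hB hC hk
  obtain ⟨τ, τ0, τ1, hτ⟩ := small (2 * K + 8 * L * K ^ 2) (c := 1 / 12) (by norm_num)
  obtain ⟨η, η0, η1, hη⟩ := small (L + L * τ⁻¹ ^ n) (c := 1 / 6) (by norm_num)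
  have s0 : 0 < τ * η := by positivity
  have s1 : τ * η ≤ 1 / 2 := by nlinarith
  obtain ⟨M, hMd⟩ : ∃ M, M = K * (τ * η)⁻¹ ^ (n + 1) := ⟨_, rfl⟩
  have M0 : 0 < M := by rw [hMd]; positivity
  obtain ⟨Q, hQ⟩ : ∃ Q, Q = 4 * M + 2 * M ^ 2 := ⟨_, rfl⟩
  have Q0 : 0 < Q := by rw [hQ]; positivity
  have MQ : M ≤ Q := by rw [hQ]; nlinarith
  obtain ⟨δ, δ0, δ1, hδ⟩ := small (2 * Q + 4 * L * Q ^ 2) (c := 1 / 12) (by norm_num)
  refine ⟨τ, δ ^ 2, min ε₀ δ, L * (1 + 4 * Q ^ 2), τ0, by linarith, by positivity, lt_min e0 δ0,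
    by positivity, fun ε h0 h1 f F t h hq t0 t1 hT => ?_⟩
  obtain ⟨b, b0, rfl⟩ : ∃ b, 0 < b ∧ t = b ^ 2 :=
    ⟨√t, Real.sqrt_pos.2 t0, (Real.sq_sqrt t0.le).symm⟩
  have bδ : b ≤ δ := le_of_sq_le_sq t1 δ0.le
  have eδ : ε ≤ δ := h1.trans (min_le_right _ _)
  obtain ⟨l0, l2, -⟩ := lom hB h
  have hT2 := (Iv_le hA l2 l0 (fun z => sq_le_om (norm_nonneg _)) 0 one_pos).trans hT
  obtain ⟨E1, E2, E3⟩ := hE ε h0 (by linarith) f F b h hq b0 hT2 _ s0 s1
  rw [← hMd] at E1 E2 E3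
  have a1 : 2 * K * τ ≤ 1 / 12 := by
    have : 0 ≤ 8 * L * K ^ 2 * τ := by positivity
    linarith
  have a2 : 8 * L * K ^ 2 * τ ≤ 1 / 12 := by
    have : 0 ≤ 2 * K * τ := by positivity
    linarith
  have a3 : 2 * Q * δ ≤ 1 / 12 := by
    have : 0 ≤ 4 * L * Q ^ 2 * δ := by positivity
    linarith
  have a4 : 4 * L * Q ^ 2 * δ ≤ 1 / 12 := by
    have : 0 ≤ 2 * Q * δ := by positivity
    linarith
  have a5 : L * η ≤ 1 / 6 := by
    have : 0 ≤ L * τ⁻¹ ^ n * η := by positivity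
    linarith
  have a6 : L * τ⁻¹ ^ n * η ≤ 1 / 6 := by
    have : 0 ≤ L * η := by positivity
    linarith
  have b2 : b ^ 2 ≤ δ := t1.trans (pow_le_of_le_one δ0.le (by linarith) two_ne_zero)
  have c1 : Q * (ε + b ^ 2) ≤ Q * (2 * δ) := by gcongr; linarith
  have c2 : M * (ε + b ^ 2) ≤ Q * (ε + b ^ 2) := by gcongr
  have c3 : M * b ≤ Q * δ := by gcongr
  set A := av φ (fun z => F z - 1) 0 (τ * η) with hAd
  obtain ⟨a, N, hN, a2', hNA⟩ := hM.pol2 (A + 1) _ (by rw [add_sub_cancel_right]; linarith)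
    (by positivity) (by linarith) E3
  rw [add_sub_cancel_right] at hNA
  have c4 : ‖A‖ ^ 2 ≤ M ^ 2 * (ε + b ^ 2) := by
    calc _ ≤ (M * b) ^ 2 := by gcongr
      _ = M ^ 2 * (0 + b ^ 2) := by ring
      _ ≤ _ := by gcongr
  have c5 : 0 ≤ 2 * K * τ * b := by positivity
  have c6 : 2 * K * τ * b ≤ 2 * K * τ * 1 := by gcongr; linarith
  have hq' : QR (1 + ε) (ball 0 2) fun y => F (0 + τ • y) := by
    filter_upwards [hA.ae _ 0 τ τ0.ne' hq] with y hy hb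
    exact hy (sub_ball τ0 (by rw [norm_zero]; linarith) hb)
  have k := hL ε h0 (h1.trans (min_le_left _ _)) _ _ (wres hB h 0 τ0.ne') hq' η
    (2 * K * τ * b + Q * (ε + b ^ 2)) a A N η0 (by linarith) (by linarith) hN a2'
    (fun y hy => ?_) (by rw [hQ]; linarith) (by linarith)
  · refine ⟨a, N, hN, k.trans ?_⟩
    have k1 : ∫ y in ball (0 : V n) 3, om n ‖F (0 + τ • y) - 1‖ ≤ τ⁻¹ ^ n * b ^ 2 := by
      rw [hA.ball_eq (fun z => om n ‖F z - 1‖) 0 τ 3 τ0, inv_pow]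
      refine mul_le_mul_of_nonneg_left (le_trans ?_ hT) (by positivity)
      rw [Iv_zero_one]
      exact setIntegral_mono_set (ib l0 _ _)
        (Eventually.of_forall fun y => om_nonneg (norm_nonneg _))
        (ball_subset_ball (by linarith)).eventuallyLE
    have k2 : (2 * K * τ * b + Q * (ε + b ^ 2)) ^ 2 ≤
        8 * K ^ 2 * τ * b ^ 2 + 4 * Q ^ 2 * ε ^ 2 + 4 * Q ^ 2 * δ * b ^ 2 := by
      have d1 : (2 * K * τ * b + Q * (ε + b ^ 2)) ^ 2 ≤
          2 * (2 * K * τ * b) ^ 2 + 2 * (Q ^ 2 * (ε + b ^ 2) ^ 2) := by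
        linarith [sq_nonneg (2 * K * τ * b - Q * (ε + b ^ 2))]
      have d2 : (ε + b ^ 2) ^ 2 ≤ 2 * ε ^ 2 + 2 * (δ * b ^ 2) := by
        have : b ^ 2 * b ^ 2 ≤ δ * b ^ 2 := by gcongr
        linarith [sq_nonneg (ε - b ^ 2)]
      have d3 := mul_le_mul_of_nonneg_left d2 (sq_nonneg Q)
      have d4 : K ^ 2 * τ * b ^ 2 * τ ≤ K ^ 2 * τ * b ^ 2 * 1 := by gcongr; linarith
      linarith
    have k3 := mul_le_mul_of_nonneg_right a2 (sq_nonneg b)
    have k4 := mul_le_mul_of_nonneg_right a4 (sq_nonneg b)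
    have k5 := mul_le_mul_of_nonneg_right a6 (sq_nonneg b)
    calc _ ≤ L * (ε ^ 2 + η * (τ⁻¹ ^ n * b ^ 2) + (8 * K ^ 2 * τ * b ^ 2 + 4 * Q ^ 2 * ε ^ 2 +
          4 * Q ^ 2 * δ * b ^ 2)) := by gcongr
      _ ≤ _ := by linarith [sq_nonneg b]
  · have y2 : ‖y‖ ≤ 2 := (mem_ball_zero_iff.1 hy).le
    have y3 : ‖τ • y‖ ≤ τ * 2 := by
      rw [norm_smul, Real.norm_of_nonneg τ0.le]
      gcongr
    rw [av_av φ (fun z => F z - 1) 0 y τ η, zero_add]
    refine (E1 _ (by linarith)).trans ?_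
    have : K * b * ‖τ • y‖ ≤ K * b * (τ * 2) := by gcongr
    linarith

open Flat in
theorem propP {n : ℕ} (_hn : 3 ≤ n) (hM : MatB n) (hA : AvA n) (hB : AvB n) (h : FlatStep n) :
    PropP n := by
  obtain ⟨τ, γ, ε₀, C, τ0, τ1, γ0, e0, C0, hF⟩ := h
  obtain ⟨δ, δ0, δ1, hδ⟩ := small (2 * C) (c := min (γ / 2) (min ε₀ 1)) (by positivity)
  have d1 : δ ≤ ε₀ := δ1.trans ((min_le_right _ _).trans (min_le_left _ _))
  have d2 : δ ≤ 1 := δ1.trans ((min_le_right _ _).trans (min_le_right _ _))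
  have d3 : 2 * C * δ ≤ γ / 2 := hδ.trans (min_le_left _ _)
  refine ⟨γ / 2 / 2 ^ n, δ, τ⁻¹ ^ n * (1 + 2 * C), by positivity, δ0, by positivity,
    fun ε p0 p1 => ?_⟩
  obtain ⟨k₀, hk₀⟩ := exists_pow_lt_of_lt_one (x := ε ^ 2 / (γ / 2)) (y := (1 / 2 : ℝ))
    (by positivity) (by norm_num)
  have τp : ∀ k : ℕ, τ ^ k ≤ 1 := fun k => pow_le_one₀ τ0.le (by linarith)
  refine ⟨τ ^ k₀ / 2, by positivity, by linarith [τp k₀], fun f F hW hq hT x hx r r0 r1 => ?_⟩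
  have x1 : ‖x‖ < 1 / 2 := mem_ball_zero_iff.1 hx
  have ee : 2 * C * ε ^ 2 ≤ γ / 2 := by
    refine le_trans ?_ d3
    gcongr
    nlinarith
  have ind : ∀ k : ℕ, ∃ a N, Conf a N ∧ Iv (fun z => om n ‖N ∘L F z - 1‖) x (τ ^ k / 2) ≤
      γ / 2 * (1 / 2) ^ k + 2 * C * ε ^ 2 := by
    intro k
    induction k with
    | zero =>
      refine ⟨1, 1, hM.conf_one, ?_⟩
      have k1 := Iv_in hA (lom hB hW).1 (fun z => om_nonneg (norm_nonneg _)) (x := x)
        (r := 1 / 2) (s := 1 / 2) (by norm_num) le_rfl (by linarith) hT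
      have e : (1 / 2 : ℝ)⁻¹ ^ n * (γ / 2 / 2 ^ n) = γ / 2 := by
        rw [one_div, inv_inv]
        field_simp
      have : 0 ≤ 2 * C * ε ^ 2 := by positivity
      simp only [ContinuousLinearMap.one_def, ContinuousLinearMap.id_comp, pow_zero] at k1 ⊢
      linarith
    | succ k ih =>
      obtain ⟨a, N, hN, hI⟩ := ih
      have s0 : 0 < τ ^ k / 2 := by positivity
      have hp : (1 / 2 : ℝ) ^ k ≤ 1 := pow_le_one₀ (by norm_num) (by norm_num)
      obtain ⟨a', N', hN', hI'⟩ := hF ε p0.le (p1.trans d1) _ _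
        (γ / 2 * (1 / 2) ^ k + 2 * C * ε ^ 2) (hB.resc f F N x _ hW s0.ne')
        (qr_res hM hA hN s0 (by linarith [τp k]) hq) (by positivity) (by nlinarith) (by
          rw [Iv_Iv (fun z => om n ‖N ∘L F z - 1‖) x 0 _ 1, smul_zero, add_zero, mul_one]
          exact hI)
      refine ⟨_, _, hM.conf_comp _ _ _ _ hN' hN, ?_⟩
      have e := Iv_Iv (fun z => om n ‖(N' ∘L N) ∘L F z - 1‖) x 0 (τ ^ k / 2) τ
      rw [smul_zero, add_zero, show τ ^ k / 2 * τ = τ ^ (k + 1) / 2 by ring] at e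
      rw [← e]
      refine le_trans hI' (le_of_eq ?_)
      ring
  obtain ⟨k, k1, k2⟩ := exists_nat_pow_near_of_lt_one (x := 2 * r) (y := τ) (by linarith)
    (by linarith [τp k₀]) τ0 (by linarith)
  have kk : k₀ ≤ k := by
    have : τ ^ (k + 1) < τ ^ k₀ := by linarith
    have := (pow_lt_pow_iff_right_of_lt_one₀ τ0 (by linarith)).1 this
    omega
  obtain ⟨a, N, hN, hI⟩ := ind k
  obtain ⟨l0, l2, -⟩ := hB.loc_om f F N 1 hW
  refine ⟨a, N, hN, (Iv_le hA l2 l0 (fun z => sq_le_om (norm_nonneg _)) x r0).trans ?_⟩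
  have s0 : 0 < τ ^ k / 2 := by positivity
  have m1 := hA.Iv_mono _ x x (τ ^ k / 2) r l0 (fun z => om_nonneg (norm_nonneg _)) r0 s0
    (ball_subset_ball (by linarith))
  have m2 : τ ^ k / 2 / r ≤ τ⁻¹ := by
    rw [div_le_iff₀ r0, le_inv_mul_iff₀ τ0]
    rw [pow_succ] at k1
    linarith
  have m3 : γ / 2 * (1 / 2) ^ k ≤ ε ^ 2 := by
    rw [lt_div_iff₀ (by positivity)] at hk₀
    have : (1 / 2 : ℝ) ^ k ≤ (1 / 2) ^ k₀ := pow_le_pow_of_le_one (by norm_num) (by norm_num) kk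
    linarith [mul_le_mul_of_nonneg_left this γ0.le]
  have i0 : 0 ≤ Iv (fun z => om n ‖N ∘L F z - 1‖) x (τ ^ k / 2) :=
    setIntegral_nonneg measurableSet_ball fun _ _ => om_nonneg (norm_nonneg _)
  calc _ ≤ τ⁻¹ ^ n * (ε ^ 2 + 2 * C * ε ^ 2) := by
        refine m1.trans (mul_le_mul ?_ (by linarith) i0 (by positivity))
        gcongr
    _ = _ := by ring

end Pool.Agent.MP_29b5d3_an.NC

end MrgPart0

-- ======== part 1: formerly Pool.Agent.MP_29b5d3_an.NC.MonoB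
section MrgPart1

/-! Project NEARCONF: the difference quotient estimate and approximate subharmonicity. -/

set_option autoImplicit false

namespace Pool.Agent.MP_29b5d3_an.NC

open MeasureTheory Metric Filter Topology Module
open scoped RealInnerProductSpace ContDiff

variable {n : ℕ}

namespace MonoB

theorem int_k {g k : V n → ℝ} {A : ℝ} (hg : LocallyIntegrable g volume) (g0 : ∀ z, 0 ≤ g z)
    (hk : AEStronglyMeasurable k volume) (hA : ∀ z, |k z| ≤ A) (h4 : ∀ z, 4 ≤ ‖z‖ → k z = 0) :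
    Integrable (fun z => g z * k z) volume ∧
      |∫ z, g z * k z| ≤ A * ∫ z in ball (0 : V n) 4, g z := by
  have i4 : IntegrableOn g (ball (0 : V n) 4) volume :=
    (hg.integrableOn_isCompact (isCompact_closedBall 0 4)).mono_set ball_subset_closedBall
  have z4 : ∀ z, z ∉ ball (0 : V n) 4 → g z * k z = 0 := fun z hz => by
    rw [h4 z (by simpa using hz), mul_zero]
  have i1 : IntegrableOn (fun z => g z * k z) (ball (0 : V n) 4) volume :=
    Integrable.mul_bdd i4 hk.restrict (c := A) (ae_of_all _ fun z => hA z)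
  refine ⟨i1.integrable_of_forall_notMem_eq_zero z4, ?_⟩
  rw [← setIntegral_eq_integral_of_forall_compl_eq_zero z4, ← integral_const_mul,
    ← Real.norm_eq_abs]
  refine norm_integral_le_of_norm_le (i4.const_mul A) (ae_of_all _ fun z => ?_)
  rw [Real.norm_eq_abs, abs_mul, abs_of_nonneg (g0 z), mul_comm]
  exact mul_le_mul_of_nonneg_right (hA z) (g0 z)

theorem iadd {f g : V n → ℝ} (hf : Integrable f volume) (hg : Integrable g volume) :
    Integrable (fun x => f x + g x) volume := hf.add hg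

theorem isub {f g : V n → ℝ} (hf : Integrable f volume) (hg : Integrable g volume) :
    Integrable (fun x => f x - g x) volume := hf.sub hg

theorem supp2 {k : V n × V n → ℝ} {a b : ℝ} (h1 : ∀ x y, a ≤ ‖x‖ → k (x, y) = 0)
    (h2 : ∀ x y, b ≤ ‖y‖ → k (x, y) = 0) : HasCompactSupport k := by
  refine HasCompactSupport.intro
    ((isCompact_closedBall (0 : V n) a).prod (isCompact_closedBall (0 : V n) b)) ?_
  rintro ⟨x, y⟩ hp
  simp only [Set.mem_prod, mem_closedBall_zero_iff, not_and_or, not_le] at hp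
  rcases hp with hp | hp
  · exact h1 x y hp.le
  · exact h2 x y hp.le

theorem int_prod {G k : V n × V n → ℝ} {a b : ℝ}
    (hG : IntegrableOn G (ball 0 a ×ˢ ball 0 b) ((volume : Measure (V n)).prod volume))
    (hk : Continuous k) (h1 : ∀ x y, a ≤ ‖x‖ → k (x, y) = 0)
    (h2 : ∀ x y, b ≤ ‖y‖ → k (x, y) = 0) :
    Integrable (fun x => ∫ y, k (x, y) * G (x, y)) volume := by
  obtain ⟨A, hA⟩ := hk.bounded_above_of_compact_support (supp2 h1 h2)
  have i1 : IntegrableOn (fun p => k p * G p) (ball 0 a ×ˢ ball 0 b)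
      ((volume : Measure (V n)).prod volume) :=
    Integrable.bdd_mul hG hk.aestronglyMeasurable (c := A) (ae_of_all _ hA)
  have i2 : Integrable (fun p => k p * G p) ((volume : Measure (V n)).prod volume) := by
    refine i1.integrable_of_forall_notMem_eq_zero ?_
    rintro ⟨x, y⟩ hp
    simp only [Set.mem_prod, mem_ball_zero_iff, not_and_or, not_lt] at hp
    rcases hp with hp | hp
    · rw [h1 x y hp, zero_mul]
    · rw [h2 x y hp, zero_mul]
  exact i2.integral_prod_left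

theorem meas_k {k : V n × V n → ℝ} (hk : Continuous k) (ρ : ℝ) :
    AEStronglyMeasurable (fun z : V n => ∫ y, k (z - ρ • y, y)) volume := by
  have c : Continuous fun p : V n × V n => k (p.1 - ρ • p.2, p.2) := by fun_prop
  exact (c.stronglyMeasurable.integral_prod_right' (ν := volume)).aestronglyMeasurable

theorem far {ρ : ℝ} (h0 : 0 ≤ ρ) (h1 : ρ ≤ 1) {z y : V n} (hz : 4 ≤ ‖z‖) (hy : ‖y‖ < 1) :
    2 ≤ ‖z - ρ • y‖ := by
  have k := norm_sub_norm_le z (ρ • y)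
  rw [norm_smul, Real.norm_of_nonneg h0] at k
  nlinarith [norm_nonneg y]

theorem int_y {U : Type} [NormedAddCommGroup U] [NormedSpace ℝ U] (hA : AvA n) {θ : V n → ℝ}
    {R : ℝ} (hθ : Test θ R) {H : V n → U} (hH : LocallyIntegrable H volume) (x : V n) {ρ : ℝ}
    (hρ : 0 < ρ) : Integrable (fun y => θ y • H (x + ρ • y)) volume :=
  (hA.loc U H hH x ρ hρ.ne').integrable_smul_left_of_hasCompactSupport hθ.cont hθ.supp

theorem int_yr (hA : AvA n) {θ : V n → ℝ} {R : ℝ} (hθ : Test θ R) {H : V n → ℝ}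
    (hH : LocallyIntegrable H volume) (x : V n) {ρ : ℝ} (hρ : 0 < ρ) :
    Integrable (fun y => θ y * H (x + ρ • y)) volume := int_y hA hθ hH x hρ

theorem swap_le (hA : AvA n) {φ ψ ζ g : V n → ℝ} {P ρ : ℝ} (hK : Ker φ ψ) (hζ : Test ζ 2)
    (hP : ∀ x, |ζ x| ≤ P) (hg : LocallyIntegrable g volume) (g0 : ∀ z, 0 ≤ g z) (h0 : 0 < ρ)
    (h1 : ρ ≤ 1) :
    Integrable (fun x => ζ x * ∫ y, φ y * g (x + ρ • y)) volume ∧
      ∫ x, ζ x * ∫ y, φ y * g (x + ρ • y) ≤ P * ∫ z in ball (0 : V n) 4, g z := by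
  have hk : Continuous fun p : V n × V n => ζ p.1 * φ p.2 :=
    (hζ.cont.comp continuous_fst).mul (hK.tφ.cont.comp continuous_snd)
  have z1 : ∀ x y : V n, 2 ≤ ‖x‖ → ζ x * φ y = 0 := fun x y hx => by rw [hζ.2 x hx, zero_mul]
  have z2 : ∀ x y : V n, 1 ≤ ‖y‖ → ζ x * φ y = 0 := fun x y hy => by
    rw [hK.tφ.2 y hy, mul_zero]
  have e : (fun x => ζ x * ∫ y, φ y * g (x + ρ • y)) =
      fun x => ∫ y, ζ x * φ y * g (x + ρ • y) := by
    ext x
    rw [← integral_const_mul]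
    simp only [mul_assoc]
  rw [e]
  refine ⟨int_prod (hA.prod g hg ρ 2 1) hk z1 z2, ?_⟩
  rw [hA.swap g _ hg hk (supp2 z1 z2) ρ]
  refine (le_abs_self _).trans (int_k hg g0 (meas_k hk ρ) (fun z => ?_) fun z hz => ?_).2
  · rw [← Real.norm_eq_abs, ← mul_one P, ← hK.one, ← integral_const_mul]
    refine norm_integral_le_of_norm_le (hK.tφ.int.const_mul P) (ae_of_all _ fun y => ?_)
    rw [Real.norm_eq_abs, abs_mul, abs_of_nonneg (hK.φ0 y)]
    exact mul_le_mul_of_nonneg_right (hP _) (hK.φ0 y)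
  · refine (integral_congr_ae (ae_of_all _ fun y => ?_)).trans (integral_zero _ _)
    rcases le_or_gt 1 ‖y‖ with hy | hy
    · exact z2 _ y hy
    · exact z1 _ y (far h0.le h1 hz hy)

theorem mean_le {T T' : ℝ → ℝ} {r K : ℝ} (hr : 0 < r)
    (hd : ∀ ρ, 0 < ρ → HasDerivAt T (T' ρ) ρ) (hK : ∀ ρ, 0 < ρ → ρ ≤ r → T' ρ ≤ K)
    (h0 : Tendsto T (𝓝[>] 0) (𝓝 0)) : T r ≤ K * r := by
  have t : Tendsto (fun s => T s + K * (r - s)) (𝓝[>] 0) (𝓝 (0 + K * (r - 0))) :=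
    h0.add ((by fun_prop : Continuous fun s : ℝ => K * (r - s)).tendsto 0 |>.mono_left
      nhdsWithin_le_nhds)
  rw [zero_add, sub_zero] at t
  refine ge_of_tendsto t ?_
  filter_upwards [Ioo_mem_nhdsGT hr] with s hs
  obtain ⟨c, hc, e⟩ := exists_hasDerivAt_eq_slope T T' hs.2
    (fun x hx => (hd x (hs.1.trans_le hx.1)).continuousAt.continuousWithinAt)
    (fun x hx => hd x (hs.1.trans hx.1))
  have k := hK c (hs.1.trans hc.1) hc.2.le
  rw [e, div_le_iff₀ (sub_pos.2 hs.2)] at k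
  linarith

theorem loc_dV (hM : MatA n) (hB : AvB n) {f : V n → V n} {F : V n → Mt n} (hW : W f F)
    (X : Mt n) : LocallyIntegrable (fun z => dV X (F z)) volume := by
  obtain ⟨C, C0, hC⟩ := hM.dV_le
  refine hB.locH ℝ f F (dV X) (C * (1 + ‖X‖ ^ n)) hW (by unfold dV; fun_prop) fun Y => ?_
  rw [Real.norm_of_nonneg (dV_nonneg X Y), mul_assoc]
  refine (hC X Y).trans (mul_le_mul_of_nonneg_left ?_ C0.le)
  nlinarith [pow_nonneg (norm_nonneg X) n, pow_nonneg (norm_nonneg Y) n,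
    mul_nonneg (pow_nonneg (norm_nonneg X) n) (pow_nonneg (norm_nonneg Y) n)]

theorem int_Y (h : MonoA n) {φ ψ ζ : V n → ℝ} (hK : Ker φ ψ) (hζ : Test ζ 2) {f : V n → V n}
    {F : V n → Mt n} (hW : W f F) (ρ : ℝ) :
    Integrable (fun x => ζ x * ∫ y, φ y * dV (F x) (F (x + ρ • y))) volume := by
  have e : (fun x => ζ x * ∫ y, φ y * dV (F x) (F (x + ρ • y))) =
      fun x => ∫ y, ζ x * φ y * dV (F x) (F (x + ρ • y)) := by
    ext x
    rw [← integral_const_mul]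
    simp only [mul_assoc]
  rw [e]
  exact int_prod (k := fun p => ζ p.1 * φ p.2) (h.int f F hW ρ 2 1)
    ((hζ.cont.comp continuous_fst).mul (hK.tφ.cont.comp continuous_snd))
    (fun x y hx => by simp only [hζ.2 x hx, zero_mul])
    (fun x y hy => by simp only [hK.tφ.2 y hy, mul_zero])

theorem int_g {ζ : V n → ℝ} {P : ℝ} (hζ : Test ζ 2) (hP : ∀ x, |ζ x| ≤ P) {f : V n → V n}
    {F : V n → Mt n} (hW : W f F) :
    Integrable (fun x => ‖F x‖ ^ n * ζ x) volume ∧ |∫ x, ‖F x‖ ^ n * ζ x| ≤ P * En F 4 :=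
  int_k hW.lp (fun _ => by positivity) hζ.cont.aestronglyMeasurable hP
    fun z hz => hζ.2 z (by linarith)

theorem En_nonneg (F : V n → Mt n) (R : ℝ) : 0 ≤ En F R :=
  integral_nonneg fun _ => by positivity

theorem Y_le (hM : MatA n) (hA : AvA n) (h : MonoA n) {φ ψ ζ : V n → ℝ} (hK : Ker φ ψ)
    (hζ : Test ζ 2) (z0 : ∀ x, 0 ≤ ζ x) {f : V n → V n} {F : V n → Mt n} (hW : W f F)
    (hB : AvB n) : ∃ b, ∀ ρ, 0 < ρ → ρ ≤ 1 → Yv ζ φ F ρ ≤ b := by
  obtain ⟨C, C0, hC⟩ := hM.dV_le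
  obtain ⟨P, -, hP⟩ := hζ.bdd
  refine ⟨C * (P * En F 4 + P * En F 4), fun ρ h0 h1 => ?_⟩
  obtain ⟨i1, b1⟩ := int_g hζ hP hW
  obtain ⟨i2, b2⟩ := swap_le hA hK hζ hP hW.lp (fun _ => by positivity) h0 h1
  calc _ ≤ ∫ x, C * (‖F x‖ ^ n * ζ x + ζ x * ∫ y, φ y * ‖F (x + ρ • y)‖ ^ n) := by
        refine integral_mono (int_Y h hK hζ hW ρ) ((i1.add i2).const_mul C) fun x => ?_
        have j1 := int_yr hA hK.tφ (loc_dV hM hB hW (F x)) x h0
        have j2 := int_yr hA hK.tφ hW.lp x h0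
        have k : ∫ y, φ y * dV (F x) (F (x + ρ • y)) ≤
            ∫ y, (C * ‖F x‖ ^ n * φ y + C * (φ y * ‖F (x + ρ • y)‖ ^ n)) := by
          refine integral_mono j1 ((hK.tφ.int.const_mul _).add (j2.const_mul C)) fun y => ?_
          have := mul_le_mul_of_nonneg_left (hC (F x) (F (x + ρ • y))) (hK.φ0 y)
          dsimp only
          linarith
        rw [integral_add (hK.tφ.int.const_mul _) (j2.const_mul C), integral_const_mul,
          integral_const_mul, hK.one] at k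
        have := mul_le_mul_of_nonneg_left k (z0 x)
        dsimp only
        linarith
    _ ≤ _ := by
        rw [integral_const_mul, integral_add i1 i2]
        have := le_abs_self (∫ x, ‖F x‖ ^ n * ζ x)
        unfold En at b1 ⊢
        gcongr
        linarith

theorem young (hn : 3 ≤ n) (X Y : Mt n) {a t : ℝ} (ha : 0 < a) :
    2 * t * ‖X‖ ^ (n - 1) * ‖Y - X‖ ≤ a * ‖X‖ ^ n + t ^ 2 / a * dV X Y := by
  obtain ⟨m, rfl⟩ : ∃ m, n = m + 2 := ⟨n - 2, by omega⟩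
  have k1 : ‖X‖ ^ m * ‖X - Y‖ ^ 2 ≤ dV X Y := by
    unfold dV
    rw [Nat.add_sub_cancel]
    gcongr
    exact le_add_of_nonneg_right (norm_nonneg Y)
  have k2 : 2 * t * ‖X‖ * ‖X - Y‖ ≤ a * ‖X‖ ^ 2 + t ^ 2 / a * ‖X - Y‖ ^ 2 := by
    have e : a * ‖X‖ ^ 2 + t ^ 2 / a * ‖X - Y‖ ^ 2 - 2 * t * ‖X‖ * ‖X - Y‖ =
        (a * ‖X‖ - t * ‖X - Y‖) ^ 2 / a := by
      field_simp
      ring
    have : 0 ≤ (a * ‖X‖ - t * ‖X - Y‖) ^ 2 / a := by positivity
    linarith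
  have k3 := mul_le_mul_of_nonneg_left k2 (pow_nonneg (norm_nonneg X) m)
  have k4 := mul_le_mul_of_nonneg_left k1 (show 0 ≤ t ^ 2 / a by positivity)
  rw [norm_sub_rev Y X, show m + 2 - 1 = m + 1 from rfl]
  calc _ = ‖X‖ ^ m * (2 * t * ‖X‖ * ‖X - Y‖) := by ring
    _ ≤ _ := k3
    _ = a * ‖X‖ ^ (m + 2) + t ^ 2 / a * (‖X‖ ^ m * ‖X - Y‖ ^ 2) := by ring
    _ ≤ _ := by linarith

theorem test_sq {χ : V n → ℝ} {R : ℝ} (hχ : Test χ R) : Test (fun x => χ x ^ 2) R :=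
  ⟨hχ.1.pow 2, fun y hy => by simp only [hχ.2 y hy]; norm_num⟩

theorem der_le (hn : 3 ≤ n) (hM : MatA n) (hA : AvA n) (hB : AvB n) (h : MonoA n)
    {φ ψ χ : V n → ℝ} (hK : Ker φ ψ) (hχ : Test χ 2) (c0 : ∀ y, 0 ≤ χ y) :
    ∃ D, 0 < D ∧ ∀ (f : V n → V n) (F : V n → Mt n), W f F → ∀ ρ a : ℝ, 0 < ρ → 0 < a →
      ∫ x, fderiv ℝ (fun x => χ x ^ 2) x (adj (F x) (Bv φ F x ρ)) ≤
        D * (a * En F 4 + Yv (fun x => χ x ^ 2) φ F ρ / a) := by
  obtain ⟨D, D0, hD⟩ := hχ.bdd_fderiv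
  refine ⟨D, D0, fun f F hW ρ a h0 ha => ?_⟩
  have hζ := test_sq hχ
  obtain ⟨i1, b1⟩ := int_k (k := fun x => ‖fderiv ℝ χ x‖) (A := D) hW.lp (fun _ => by positivity)
    hχ.smooth_fderiv.continuous.norm.aestronglyMeasurable
    (fun z => by rw [abs_norm]; exact hD z)
    (fun z hz => by simp only [hχ.fderiv_zero z (by linarith), norm_zero])
  have i2 := int_Y h hK hζ hW ρ
  have lF := hB.loc f F hW
  calc _ ≤ ∫ x, (a * (‖F x‖ ^ n * ‖fderiv ℝ χ x‖) +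
        D / a * (χ x ^ 2 * ∫ y, φ y * dV (F x) (F (x + ρ • y)))) := by
        refine integral_mono (((h.der φ ψ _ hK hζ f F hW).1 ρ h0).1)
          ((i1.const_mul a).add (i2.const_mul _)) fun x => ?_
        have d := ((hχ.c1.differentiable one_ne_zero x).hasFDerivAt.pow 2).fderiv
        have j1 := int_yr hA hK.tφ (loc_dV hM hB hW (F x)) x h0
        have j2 := int_yr hA hK.tφ ((hB.loc_om f F 1 (F x) hW).2.2) x h0
        simp only [ContinuousLinearMap.one_def, ContinuousLinearMap.id_comp] at j2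
        have k1 := (hB.Bv_le φ ψ F (F x) hK lF x ρ h0).1
        have k2 : ∫ y, 2 * χ x * ‖F x‖ ^ (n - 1) * (φ y * ‖F (x + ρ • y) - F x‖) ≤
            ∫ y, (a * ‖F x‖ ^ n * φ y + χ x ^ 2 / a * (φ y * dV (F x) (F (x + ρ • y)))) := by
          refine integral_mono (j2.const_mul _)
            ((hK.tφ.int.const_mul _).add (j1.const_mul _)) fun y => ?_
          have := mul_le_mul_of_nonneg_left
            (young hn (F x) (F (x + ρ • y)) (t := χ x) ha) (hK.φ0 y)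
          dsimp only
          linarith
        rw [integral_add (hK.tφ.int.const_mul _) (j1.const_mul _), integral_const_mul,
          integral_const_mul, integral_const_mul, hK.one, mul_one] at k2
        have k3 : 0 ≤ ∫ y, φ y * dV (F x) (F (x + ρ • y)) :=
          integral_nonneg fun y => mul_nonneg (hK.φ0 y) (dV_nonneg _ _)
        have k4 : fderiv ℝ χ x (adj (F x) (Bv φ F x ρ)) ≤
            ‖fderiv ℝ χ x‖ * (‖F x‖ ^ (n - 1) * ∫ y, φ y * ‖F (x + ρ • y) - F x‖) := by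
          refine (le_abs_self _).trans (((fderiv ℝ χ x).le_opNorm _).trans ?_)
          refine mul_le_mul_of_nonneg_left ?_ (norm_nonneg _)
          exact ((adj (F x)).le_of_opNorm_le (norm_adj_le (by omega) _) _).trans
            (mul_le_mul_of_nonneg_left k1 (by positivity))
        have k5 := mul_le_mul_of_nonneg_left k4 (mul_nonneg zero_le_two (c0 x))
        have k6 := mul_le_mul_of_nonneg_left k2 (norm_nonneg (fderiv ℝ χ x))
        have k7 := mul_le_mul_of_nonneg_right (hD x)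
          (mul_nonneg (show 0 ≤ χ x ^ 2 / a by positivity) k3)
        dsimp only
        rw [d]
        simp only [Nat.add_one_sub_one, pow_one, smul_apply, nsmul_eq_mul,
          Nat.cast_ofNat, smul_eq_mul]
        calc _ ≤ _ := k5
          _ = ‖fderiv ℝ χ x‖ *
              (2 * χ x * ‖F x‖ ^ (n - 1) * ∫ y, φ y * ‖F (x + ρ • y) - F x‖) := by ring
          _ ≤ _ := k6
          _ = a * (‖F x‖ ^ n * ‖fderiv ℝ χ x‖) +
              ‖fderiv ℝ χ x‖ * (χ x ^ 2 / a * ∫ y, φ y * dV (F x) (F (x + ρ • y))) := by ring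
          _ ≤ a * (‖F x‖ ^ n * ‖fderiv ℝ χ x‖) +
              D * (χ x ^ 2 / a * ∫ y, φ y * dV (F x) (F (x + ρ • y))) := by linarith
          _ = _ := by ring
    _ ≤ _ := by
        rw [integral_add (i1.const_mul a) (i2.const_mul _), integral_const_mul, integral_const_mul]
        have := mul_le_mul_of_nonneg_left ((le_abs_self _).trans b1) ha.le
        unfold En Yv
        calc _ ≤ a * (D * ∫ z in ball (0 : V n) 4, ‖F z‖ ^ n) +
              D / a * ∫ x, χ x ^ 2 * ∫ y, φ y * dV (F x) (F (x + ρ • y)) := by linarith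
          _ = _ := by ring

theorem mid_le (h : MonoA n) {φ ψ ζ : V n → ℝ} (hK : Ker φ ψ) (hζ : Test ζ 2) :
    ∃ C, 0 < C ∧ ∀ (f : V n → V n) (F : V n → Mt n), W f F → ∀ ρ : ℝ, 0 < ρ → ρ ≤ 1 →
      ∫ z, ‖F z‖ ^ n * ((∫ y, φ y * ζ (z - ρ • y)) - ζ z) ≤
        ρ ^ 2 / 2 * (∫ y, ψ y) * (∫ y, lap ζ y * ‖F y‖ ^ n) + C * ρ ^ 3 * En F 4 := by
  obtain ⟨C, C0, hC⟩ := h.taylor φ ψ ζ hK hζ
  obtain ⟨P, -, hP⟩ := hζ.lap.bdd
  refine ⟨C, C0, fun f F hW ρ h0 h1 => ?_⟩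
  have hk : Continuous fun p : V n × V n => φ p.2 * ζ p.1 :=
    (hK.tφ.cont.comp continuous_snd).mul (hζ.cont.comp continuous_fst)
  obtain ⟨i1, b1⟩ := int_k
    (k := fun z => (∫ y, φ y * ζ (z - ρ • y)) - ζ z - ρ ^ 2 / 2 * (∫ y, ψ y) * lap ζ z)
    hW.lp (fun _ => by positivity)
    (((meas_k hk ρ).sub hζ.cont.aestronglyMeasurable).sub
      (hζ.lap.cont.aestronglyMeasurable.const_mul _))
    (fun z => (hC ρ h0.le h1 z).1) (fun z hz => by
      have e : ∫ y, φ y * ζ (z - ρ • y) = 0 := by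
        refine (integral_congr_ae (ae_of_all _ fun y => ?_)).trans (integral_zero _ _)
        rcases le_or_gt 1 ‖y‖ with hy | hy
        · simp only [hK.tφ.2 y hy, zero_mul]
        · simp only [hζ.2 _ (far h0.le h1 hz hy), mul_zero]
      simp only [e, hζ.2 z (by linarith), hζ.lap.2 z (by linarith), mul_zero, sub_zero])
  have i2 := (int_g hζ.lap hP hW).1
  have e : ∫ z, ‖F z‖ ^ n * ((∫ y, φ y * ζ (z - ρ • y)) - ζ z) =
      ∫ z, (‖F z‖ ^ n * ((∫ y, φ y * ζ (z - ρ • y)) - ζ z - ρ ^ 2 / 2 * (∫ y, ψ y) * lap ζ z) +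
        ρ ^ 2 / 2 * (∫ y, ψ y) * (‖F z‖ ^ n * lap ζ z)) :=
    integral_congr_ae (ae_of_all _ fun z => by ring)
  rw [e, integral_add i1 (i2.const_mul _), integral_const_mul]
  simp only [mul_comm (lap ζ _)]
  have := (le_abs_self _).trans b1
  unfold En
  linarith

theorem Y_small (hn : 3 ≤ n) (hM : MatA n) (hA : AvA n) (hB : AvB n) (h : MonoA n)
    {φ ψ χ : V n → ℝ} (hK : Ker φ ψ) (hχ : Test χ 2) (c0 : ∀ y, 0 ≤ χ y) :
    ∃ C, 0 < C ∧ ∀ ε ρ : ℝ, 0 ≤ ε → ε ≤ 1 → 0 < ρ → ρ ≤ 1 →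
      ∀ (f : V n → V n) (F : V n → Mt n), W f F → QR (1 + ε) (ball 0 4) F →
      Yv (fun x => χ x ^ 2) φ F ρ ≤ C * (ρ ^ 2 + ε) * En F 4 := by
  have hζ := test_sq hχ
  obtain ⟨c, C₁, c1, C1, hl⟩ := h.low φ ψ _ hK hζ fun x => sq_nonneg _
  obtain ⟨D, D0, hD⟩ := der_le hn hM hA hB h hK hχ c0
  obtain ⟨C₂, C2, hm⟩ := mid_le h hK hζ
  obtain ⟨P, P0, hP⟩ := hζ.lap.bdd
  have p0 : 0 ≤ ∫ y, ψ y := integral_nonneg hK.ψ0
  refine ⟨2 / c * (2 * D ^ 2 / c + (∫ y, ψ y) * P + C₂ + C₁), by positivity,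
    fun ε r e0 e1 r0 r1 f F hW hQ => ?_⟩
  obtain ⟨b₀, hb₀⟩ := Y_le hM hA h hK hζ (fun x => sq_nonneg _) hW hB
  set Y := Yv (fun x => χ x ^ 2) φ F with hY
  set E := En F 4 with hE
  have E0 : 0 ≤ E := En_nonneg F 4
  have bd : BddAbove (Y '' Set.Ioc 0 r) := ⟨b₀, by
    rintro _ ⟨ρ, hρ, rfl⟩
    exact hb₀ ρ hρ.1 (hρ.2.trans r1)⟩
  set b := sSup (Y '' Set.Ioc 0 r) with hb
  have lb : ∀ ρ, 0 < ρ → ρ ≤ r → Y ρ ≤ b := fun ρ h0 h1 => le_csSup bd ⟨ρ, ⟨h0, h1⟩, rfl⟩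
  have Y0 : 0 ≤ Y r := integral_nonneg fun x => mul_nonneg (sq_nonneg _)
    (integral_nonneg fun y => mul_nonneg (hK.φ0 y) (dV_nonneg _ _))
  have b0 : 0 ≤ b := Y0.trans (lb r r0 le_rfl)
  have a0 : 0 < 2 * D * r / c := by positivity
  have key : ∀ ρ, 0 < ρ → ρ ≤ r → c * Y ρ ≤ c * b / 2 +
      (2 * D ^ 2 / c + (∫ y, ψ y) * P + C₂ + C₁) * (r ^ 2 + ε) * E := fun ρ h0 h1 => by
    have k1 := hl ε ρ e0 e1 h0 (h1.trans r1) f F hW hQ
    have k2 := hm f F hW ρ h0 (h1.trans r1)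
    have k3 := mean_le (K := D * (2 * D * r / c * E + b / (2 * D * r / c))) h0
      (fun s hs => ((h.der φ ψ _ hK hζ f F hW).1 s hs).2)
      (fun s hs hs' => (hD f F hW s _ hs a0).trans (by
        have := lb s hs (hs'.trans h1)
        gcongr))
      (h.der φ ψ _ hK hζ f F hW).2
    have k4 : D * (2 * D * r / c * E + b / (2 * D * r / c)) * ρ ≤
        D * (2 * D * r / c * E + b / (2 * D * r / c)) * r := by gcongr
    have k5 : D * (2 * D * r / c * E + b / (2 * D * r / c)) * r =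
        2 * D ^ 2 / c * r ^ 2 * E + c * b / 2 := by
      field_simp
    have k6 : ∫ y, lap (fun x => χ x ^ 2) y * ‖F y‖ ^ n ≤ P * E := by
      simp only [mul_comm (lap _ _)]
      exact (le_abs_self _).trans (int_g hζ.lap hP hW).2
    have k7 : ρ ^ 2 / 2 * (∫ y, ψ y) * (∫ y, lap (fun x => χ x ^ 2) y * ‖F y‖ ^ n) ≤
        r ^ 2 * (∫ y, ψ y) * (P * E) := by
      refine (mul_le_mul_of_nonneg_left k6 (by positivity)).trans ?_
      have : ρ ^ 2 / 2 ≤ r ^ 2 := by nlinarith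
      gcongr
    have k8 : C₂ * ρ ^ 3 * E ≤ C₂ * r ^ 2 * E := by
      have : ρ ^ 3 ≤ r ^ 2 := (pow_le_pow_of_le_one h0.le (h1.trans r1) (by norm_num)).trans
        (pow_le_pow_left₀ h0.le h1 2)
      gcongr
    have k9 : 0 ≤ (2 * D ^ 2 / c + (∫ y, ψ y) * P + C₂) * ε * E + C₁ * r ^ 2 * E := by positivity
    linarith
  have k : b ≤ b / 2 + (2 * D ^ 2 / c + (∫ y, ψ y) * P + C₂ + C₁) * (r ^ 2 + ε) * E / c := by
    refine csSup_le ⟨_, r, ⟨r0, le_rfl⟩, rfl⟩ ?_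
    rintro _ ⟨ρ, hρ, rfl⟩
    refine le_of_mul_le_mul_left ((key ρ hρ.1 hρ.2).trans_eq ?_) c1
    field_simp
  calc _ ≤ b := lb r r0 le_rfl
    _ ≤ 2 * ((2 * D ^ 2 / c + (∫ y, ψ y) * P + C₂ + C₁) * (r ^ 2 + ε) * E / c) := by linarith
    _ = _ := by ring

theorem grad_eq {φ ψ : V n → ℝ} (hK : Ker φ ψ) (y : V n) : gradient ψ y = -(φ y • y) :=
  ext_inner_right ℝ fun v => by
    rw [inner_gradient, hK.grad, inner_neg_left, real_inner_smul_left]

theorem norm_grad {φ ψ : V n → ℝ} (hK : Ker φ ψ) (y : V n) : ‖gradient ψ y‖ ≤ φ y := by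
  rw [grad_eq hK, norm_neg, norm_smul, Real.norm_of_nonneg (hK.φ0 y)]
  rcases le_or_gt 1 ‖y‖ with hy | hy
  · rw [hK.tφ.2 y hy, zero_mul]
  · exact mul_le_of_le_one_right (hK.φ0 y) hy.le

theorem inner_grad (θ : V n → ℝ) (a y : V n) : ⟪a, gradient θ y⟫ = fderiv ℝ θ y a := by
  rw [real_inner_comm, inner_gradient]

theorem odd0 {φ ψ : V n → ℝ} (hK : Ker φ ψ) (a : V n) : ∫ y, fderiv ℝ ψ y a = 0 := by
  have k := integral_neg_eq_self (fun y => fderiv ℝ ψ y a) (volume : Measure (V n))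
  have e : (fun y => fderiv ℝ ψ (-y) a) = fun y => -fderiv ℝ ψ y a := by
    ext y
    rw [hK.grad, hK.grad, hK.even, inner_neg_left]
    ring
  rw [e, integral_neg] at k
  linarith

theorem app_grad (θ : V n → ℝ) (Y : Mt n) (y : V n) :
    Y (gradient θ y) = ∑ k, fderiv ℝ θ y (ev k) • Y (ev k) := by
  conv_lhs => rw [← sum_ev (gradient θ y), map_sum]
  simp only [map_smul, inner_grad]

theorem int_uv (hA : AvA n) (hB : AvB n) {θ : V n → ℝ} {R : ℝ} (hθ : Test θ R) {f : V n → V n}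
    {F : V n → Mt n} (hW : W f F) (x : V n) {ρ : ℝ} (h0 : 0 < ρ) (u v : V n) :
    Integrable (fun y => fderiv ℝ θ y u • F (x + ρ • y) v) volume :=
  (int_y hA (hθ.der u) (hB.loc f F hW) x h0).apply_continuousLinearMap v

theorem curl0 (hA : AvA n) (hB : AvB n) {θ : V n → ℝ} {R : ℝ} (hθ : Test θ R) {f : V n → V n}
    {F : V n → Mt n} (hW : W f F) (x : V n) {ρ : ℝ} (h0 : 0 < ρ) (X : Mt n) (a : V n) :
    Integrable (fun y => ⟪F (x + ρ • y) a, X (gradient θ y)⟫ -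
      hs (F (x + ρ • y)) X * ⟪a, gradient θ y⟫) volume ∧
    ∫ y, (⟪F (x + ρ • y) a, X (gradient θ y)⟫ -
      hs (F (x + ρ • y)) X * ⟪a, gradient θ y⟫) = 0 := by
  have e : (fun y => ⟪F (x + ρ • y) a, X (gradient θ y)⟫ -
      hs (F (x + ρ • y)) X * ⟪a, gradient θ y⟫) = fun y => ∑ k,
        ⟪X (ev k), fderiv ℝ θ y (ev k) • F (x + ρ • y) a - fderiv ℝ θ y a • F (x + ρ • y) (ev k)⟫ := by
    ext y
    rw [app_grad, inner_sum, hs, Finset.sum_mul, ← Finset.sum_sub_distrib, inner_grad]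
    refine Finset.sum_congr rfl fun k _ => ?_
    rw [inner_sub_right, real_inner_smul_right, real_inner_smul_right, real_inner_smul_right,
      real_inner_comm (X (ev k)), real_inner_comm (X (ev k))]
    ring
  have i : ∀ k, Integrable (fun y => fderiv ℝ θ y (ev k) • F (x + ρ • y) a -
      fderiv ℝ θ y a • F (x + ρ • y) (ev k)) volume := fun k =>
    (int_uv hA hB hθ hW x h0 _ _).sub (int_uv hA hB hθ hW x h0 _ _)
  rw [e]
  refine ⟨integrable_finsetSum _ fun k _ => (i k).const_inner _, ?_⟩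
  rw [integral_finsetSum _ fun k _ => (i k).const_inner _]
  refine Finset.sum_eq_zero fun k _ => ?_
  have c := hB.curl θ R _ _ hθ (hB.resc f F 1 x ρ hW h0.ne') (ev k) a
  simp only [ContinuousLinearMap.one_def, ContinuousLinearMap.id_comp] at c
  rw [integral_inner (i k),
    integral_sub (int_uv hA hB hθ hW x h0 _ _) (int_uv hA hB hθ hW x h0 _ _), c, sub_self,
    inner_zero_right]

theorem pt_le (hM : MatA n) (hA : AvA n) (hB : AvB n) {φ ψ : V n → ℝ} (hK : Ker φ ψ) :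
    ∃ C, 0 < C ∧ ∀ ε ρ : ℝ, 0 ≤ ε → ε ≤ 1 → 0 < ρ → ρ ≤ 1 →
      ∀ (f : V n → V n) (F : V n → Mt n), W f F → QR (1 + ε) (ball 0 4) F → ∀ᵐ x,
      fderiv ℝ ψ x (adj (F x) (Bv φ F x ρ)) ≤
        ((n : ℝ) - 2) / n * (∫ y, ⟪gradient ψ x, gradient ψ y⟫ * ‖F (x + ρ • y)‖ ^ n) +
        C * (ε * (‖F x‖ ^ n * φ x) + ε * (φ x * ∫ y, φ y * ‖F (x + ρ • y)‖ ^ n) +
          φ x * ∫ y, φ y * dV (F x) (F (x + ρ • y))) := by
  obtain ⟨C, C0, hC⟩ := hM.pw2
  refine ⟨C, C0, fun ε ρ e0 e1 h0 h1 f F hW hQ => ?_⟩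
  filter_upwards [hQ] with x hx
  rcases le_or_gt 1 ‖x‖ with x1 | x1
  · simp [hK.tψ.fderiv_zero x x1, hK.tψ.grad_zero x x1, hK.tφ.2 x x1]
  have qx := hx (mem_ball_zero_iff.2 (by linarith))
  set a := gradient ψ x with ha
  set X := F x with hX
  have i0 : Integrable (fun y => F (x + ρ • y) (gradient ψ y)) volume := by
    simp only [app_grad]
    exact integrable_finsetSum _ fun k _ => int_uv hA hB hK.tψ hW x h0 _ _
  have i1 : Integrable (fun y => -⟪a, adj X (F (x + ρ • y) (gradient ψ y))⟫) volume :=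
    (((adj X).integrable_comp i0).const_inner a).neg
  obtain ⟨i2, z2⟩ := curl0 hA hB hK.tψ hW x h0 X a
  have i3 : Integrable (fun y => ⟪a, gradient ψ y⟫ * ‖F (x + ρ • y)‖ ^ n) volume := by
    simp only [inner_grad]
    exact int_yr hA (hK.tψ.der a) hW.lp x h0
  have i4 : Integrable (fun y => ⟪a, gradient ψ y⟫) volume := by
    simp only [inner_grad]
    exact (hK.tψ.der a).int
  have z4 : ∫ y, ⟪a, gradient ψ y⟫ = 0 := by
    simp only [inner_grad]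
    exact odd0 hK a
  have i5 := int_yr hA hK.tφ hW.lp x h0
  have i6 := int_yr hA hK.tφ (loc_dV hM hB hW X) x h0
  have e : fderiv ℝ ψ x (adj X (Bv φ F x ρ)) =
      ∫ y, -⟪a, adj X (F (x + ρ • y) (gradient ψ y))⟫ := by
    have e1 : Bv φ F x ρ = -∫ y, F (x + ρ • y) (gradient ψ y) := by
      rw [Bv, ← integral_neg]
      simp only [grad_eq hK, map_neg, map_smul, neg_neg]
    rw [integral_neg, integral_inner ((adj X).integrable_comp i0), (adj X).integral_comp_comm i0,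
      e1, map_neg, map_neg, inner_gradient]
  have j1 := iadd (i2.const_mul (‖X‖ ^ (n - 2))) (i3.const_mul (((n : ℝ) - 2) / n))
  have j2 := i4.const_mul ((2 - (n : ℝ)) * (1 - 1 / n) * ‖X‖ ^ n)
  have j3 := iadd (hK.tφ.int.const_mul (C * ε * ‖X‖ ^ n * φ x)) (i5.const_mul (C * ε * φ x))
  have j4 := i6.const_mul (C * φ x)
  have k : ∫ y, -⟪a, adj X (F (x + ρ • y) (gradient ψ y))⟫ ≤ ∫ y,
      ((‖X‖ ^ (n - 2) * (⟪F (x + ρ • y) a, X (gradient ψ y)⟫ -
        hs (F (x + ρ • y)) X * ⟪a, gradient ψ y⟫) +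
        ((n : ℝ) - 2) / n * (⟪a, gradient ψ y⟫ * ‖F (x + ρ • y)‖ ^ n) -
        (2 - (n : ℝ)) * (1 - 1 / n) * ‖X‖ ^ n * ⟪a, gradient ψ y⟫) +
      (C * ε * ‖X‖ ^ n * φ x * φ y + C * ε * φ x * (φ y * ‖F (x + ρ • y)‖ ^ n) +
        C * φ x * (φ y * dV X (F (x + ρ • y))))) := by
    refine integral_mono_ae i1 ((j1.sub j2).add (j3.add j4)) ?_
    filter_upwards [hA.ae _ x ρ h0.ne' hQ] with y hy
    rcases le_or_gt 1 ‖y‖ with y1 | y1
    · simp [hK.tψ.grad_zero y y1, hK.tφ.2 y y1]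
    have qy := hy (mem_ball_zero_iff.2 (by
      have := norm_add_le x (ρ • y)
      rw [norm_smul, Real.norm_of_nonneg h0.le] at this
      nlinarith [norm_nonneg y]))
    have k1 := (neg_le_abs _).trans (hC ε e0 e1 X _ qx qy a (gradient ψ y))
    have k2 : C * ‖a‖ * ‖gradient ψ y‖ *
        (ε * (‖X‖ ^ n + ‖F (x + ρ • y)‖ ^ n) + dV X (F (x + ρ • y))) ≤
        C * φ x * φ y * (ε * (‖X‖ ^ n + ‖F (x + ρ • y)‖ ^ n) + dV X (F (x + ρ • y))) := by
      have := dV_nonneg X (F (x + ρ • y))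
      have := hK.φ0 x
      gcongr
      · exact norm_grad hK x
      · exact norm_grad hK y
    linarith
  rw [integral_add (isub j1 j2) (iadd j3 j4), integral_sub j1 j2, integral_add j3 j4,
    integral_add (i2.const_mul _) (i3.const_mul _),
    integral_add (hK.tφ.int.const_mul _) (i5.const_mul _)] at k
  simp only [integral_const_mul, z2, z4, hK.one] at k
  rw [e]
  linarith

theorem der_le2 (hn : 3 ≤ n) (hM : MatA n) (hA : AvA n) (hB : AvB n) (h : MonoA n)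
    {φ ψ : V n → ℝ} (hK : Ker φ ψ) :
    ∃ C, 0 < C ∧ ∀ ε ρ : ℝ, 0 ≤ ε → ε ≤ 1 → 0 < ρ → ρ ≤ 1 →
      ∀ (f : V n → V n) (F : V n → Mt n), W f F → QR (1 + ε) (ball 0 4) F →
      ∫ x, fderiv ℝ ψ x (adj (F x) (Bv φ F x ρ)) ≤
        ((n : ℝ) - 2) / n * (ρ * (∫ y, ψ y) * ∫ y, lap ψ y * ‖F y‖ ^ n) +
          C * (ρ ^ 2 + ε) * En F 4 := by
  obtain ⟨C₁, C1, h₁⟩ := pt_le hM hA hB hK
  obtain ⟨χ, hχ, c0, c1⟩ := exists_cut (n := n) one_pos one_lt_two
  obtain ⟨C₂, C2, h₂⟩ := Y_small hn hM hA hB h hK hχ fun y => (c0 y).1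
  have tψ := hK.tψ.mono one_le_two
  have tφ := hK.tφ.mono one_le_two
  obtain ⟨C₃, C3, h₃⟩ := h.taylor φ ψ ψ hK tψ
  obtain ⟨P, P0, hP⟩ := tφ.bdd
  obtain ⟨Q, -, hQ'⟩ := tψ.lap.bdd
  refine ⟨C₃ + C₁ * (2 * P + P * C₂), by positivity, fun ε ρ e0 e1 h0 h1 f F hW hQ => ?_⟩
  have E0 := En_nonneg F 4
  have g0 : ∀ z, 0 ≤ ‖F z‖ ^ n := fun _ => by positivity
  have cg := hK.tψ.smooth_grad.continuous
  have hk : Continuous fun p : V n × V n => ⟪gradient ψ p.1, gradient ψ p.2⟫ :=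
    (cg.comp continuous_fst).inner (cg.comp continuous_snd)
  have z1 : ∀ x y : V n, 2 ≤ ‖x‖ → ⟪gradient ψ x, gradient ψ y⟫ = 0 := fun x y hx => by
    rw [tψ.grad_zero x hx, inner_zero_left]
  have z2 : ∀ x y : V n, 1 ≤ ‖y‖ → ⟪gradient ψ x, gradient ψ y⟫ = 0 := fun x y hy => by
    rw [hK.tψ.grad_zero y hy, inner_zero_right]
  have i1 := int_prod (hA.prod _ hW.lp ρ 2 1) hk z1 z2
  dsimp only at i1
  obtain ⟨i2, b2⟩ := int_g tφ hP hW
  obtain ⟨i3, b3⟩ := swap_le hA hK tφ hP hW.lp g0 h0 h1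
  have i4 := int_Y h hK tφ hW ρ
  have b4 : ∫ x, φ x * ∫ y, φ y * dV (F x) (F (x + ρ • y)) ≤
      P * (C₂ * (ρ ^ 2 + ε) * En F 4) := by
    refine le_trans ?_ (mul_le_mul_of_nonneg_left (h₂ ε ρ e0 e1 h0 h1 f F hW hQ) P0.le)
    rw [Yv, ← integral_const_mul]
    refine integral_mono i4 ((int_Y h hK (test_sq hχ) hW ρ).const_mul P) fun x => ?_
    dsimp only
    rw [← mul_assoc]
    refine mul_le_mul_of_nonneg_right ?_
      (integral_nonneg fun y => mul_nonneg (hK.φ0 y) (dV_nonneg _ _))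
    rcases le_or_gt 1 ‖x‖ with x1 | x1
    · rw [hK.tφ.2 x x1]
      positivity
    · rw [c1 x x1.le, one_pow, mul_one]
      exact (le_abs_self _).trans (hP x)
  obtain ⟨i5, b5⟩ := int_k
    (k := fun z => (∫ y, ⟪gradient ψ (z - ρ • y), gradient ψ y⟫) - ρ * (∫ y, ψ y) * lap ψ z)
    hW.lp g0 ((meas_k hk ρ).sub (tψ.lap.cont.aestronglyMeasurable.const_mul _))
    (fun z => (h₃ ρ h0.le h1 z).2) (fun z hz => by
      have e : ∫ y, ⟪gradient ψ (z - ρ • y), gradient ψ y⟫ = 0 := by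
        refine (integral_congr_ae (ae_of_all _ fun y => ?_)).trans (integral_zero _ _)
        rcases le_or_gt 1 ‖y‖ with hy | hy
        · exact z2 _ y hy
        · exact z1 _ y (far h0.le h1 hz hy)
      simp only [e, tψ.lap.2 z (by linarith), mul_zero, sub_zero])
  have i6 := (int_g tψ.lap hQ' hW).1
  have b1 : ∫ x, ∫ y, ⟪gradient ψ x, gradient ψ y⟫ * ‖F (x + ρ • y)‖ ^ n ≤
      ρ * (∫ y, ψ y) * (∫ y, lap ψ y * ‖F y‖ ^ n) + C₃ * ρ ^ 2 * En F 4 := by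
    have e : ∫ z, ‖F z‖ ^ n * ∫ y, ⟪gradient ψ (z - ρ • y), gradient ψ y⟫ = ∫ z, (‖F z‖ ^ n *
        ((∫ y, ⟪gradient ψ (z - ρ • y), gradient ψ y⟫) - ρ * (∫ y, ψ y) * lap ψ z) +
        ρ * (∫ y, ψ y) * (‖F z‖ ^ n * lap ψ z)) :=
      integral_congr_ae (ae_of_all _ fun z => by ring)
    rw [hA.swap _ _ hW.lp hk (supp2 z1 z2) ρ, e, integral_add i5 (i6.const_mul _),
      integral_const_mul]
    simp only [mul_comm (lap ψ _)]
    have := (le_abs_self _).trans b5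
    unfold En
    linarith
  have j1 := iadd (i2.const_mul ε) (i3.const_mul ε)
  have k := integral_mono_ae ((h.der φ ψ ψ hK tψ f F hW).1 ρ h0).1
    (iadd (i1.const_mul (((n : ℝ) - 2) / n)) ((iadd j1 i4).const_mul C₁))
    (h₁ ε ρ e0 e1 h0 h1 f F hW hQ)
  rw [integral_add (i1.const_mul _) ((iadd j1 i4).const_mul C₁), integral_const_mul,
    integral_const_mul, integral_add j1 i4, integral_add (i2.const_mul ε) (i3.const_mul ε),
    integral_const_mul, integral_const_mul] at k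
  have n3 : (3 : ℝ) ≤ n := by exact_mod_cast hn
  have q0 : 0 ≤ ((n : ℝ) - 2) / n := div_nonneg (by linarith) (by linarith)
  have q1 : ((n : ℝ) - 2) / n ≤ 1 := (div_le_one (by linarith)).2 (by linarith)
  have k1 := mul_le_mul_of_nonneg_left b1 q0
  have k2 := mul_le_mul_of_nonneg_right q1 (show 0 ≤ C₃ * ρ ^ 2 * En F 4 by positivity)
  have k3 : C₁ * (ε * (∫ x, ‖F x‖ ^ n * φ x) + ε * (∫ x, φ x * ∫ y, φ y * ‖F (x + ρ • y)‖ ^ n) +
      ∫ x, φ x * ∫ y, φ y * dV (F x) (F (x + ρ • y))) ≤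
      C₁ * (ε * (P * En F 4) + ε * (P * En F 4) + P * (C₂ * (ρ ^ 2 + ε) * En F 4)) := by
    have := (le_abs_self _).trans b2
    gcongr
    exact b3
  have k4 : 0 ≤ C₃ * ε * En F 4 + 2 * C₁ * P * ρ ^ 2 * En F 4 := by positivity
  linarith

end MonoB

open MonoB in
theorem cacc2 (hn : 3 ≤ n) (hM : MatA n) (hA : AvA n) (hB : AvB n) (h : MonoA n) : Cacc2 n := by
  intro φ ψ hK
  obtain ⟨χ, hχ, c0, c1⟩ := exists_cut (n := n) one_pos one_lt_two
  obtain ⟨C, C0, hC⟩ := Y_small hn hM hA hB h hK hχ fun y => (c0 y).1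
  refine ⟨C, C0, fun ε ρ e0 e1 r0 r1 f F hW hQ => le_trans ?_ (hC ε ρ e0 e1 r0 r1 f F hW hQ)⟩
  calc _ = ∫ x in ball (0 : V n) 1, χ x ^ 2 * ∫ y, φ y * dV (F x) (F (x + ρ • y)) :=
        setIntegral_congr_fun measurableSet_ball fun x hx => by
          simp only [c1 x (mem_ball_zero_iff.1 hx).le, one_pow, one_mul]
    _ ≤ _ := setIntegral_le_integral (int_Y h hK (test_sq hχ) hW ρ)
        (ae_of_all _ fun x => mul_nonneg (sq_nonneg _)
          (integral_nonneg fun y => mul_nonneg (hK.φ0 y) (dV_nonneg _ _)))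

open MonoB in
theorem mono (hn : 3 ≤ n) (hM : MatA n) (hA : AvA n) (hB : AvB n) (h : MonoA n) (_h2 : Cacc2 n) :
    Mono n := by
  intro φ ψ hK
  have tψ := hK.tψ.mono one_le_two
  obtain ⟨c, C₁, c0, C1, hl⟩ := h.low φ ψ ψ hK tψ hK.ψ0
  obtain ⟨C₂, C2, hd⟩ := der_le2 hn hM hA hB h hK
  obtain ⟨C₃, C3, hm⟩ := mid_le h hK tψ
  have n3 : (3 : ℝ) ≤ n := by exact_mod_cast hn
  have p0 : 0 < ∫ y, ψ y := by
    obtain ⟨d, d0, hd⟩ := hK.low
    exact tψ.cont.integral_pos_of_hasCompactSupport_nonneg_nonzero tψ.supp hK.ψ0 (x := 0)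
      (d0.trans_le (hd 0 (by simp)).2).ne'
  have q0 : 0 ≤ ((n : ℝ) - 2) / n := div_nonneg (by linarith) (by linarith)
  refine ⟨(((n : ℝ) - 2) / n + 1) / 2 * (∫ y, ψ y) / c, (C₁ + C₂ + C₃) / c, by positivity,
    by positivity, fun ε η e0 e1 h0 h1 f F hW hQ => ?_⟩
  have E0 := En_nonneg F 4
  set J := ∫ y, lap ψ y * ‖F y‖ ^ n with hJ
  set q := ((n : ℝ) - 2) / n * ((∫ y, ψ y) * J) / 2 with hq
  have k1 := hl ε η e0 e1 h0 h1 f F hW hQ
  have k2 := hm f F hW η h0 h1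
  have t0 : Tendsto (fun ρ : ℝ => q * ρ ^ 2) (𝓝[>] 0) (𝓝 0) := by
    have : Continuous fun ρ : ℝ => q * ρ ^ 2 := by fun_prop
    simpa using (this.tendsto 0).mono_left (nhdsWithin_le_nhds (s := Set.Ioi 0))
  have k3 := mean_le (T := fun ρ => Tz ψ φ f F ρ - q * ρ ^ 2)
    (T' := fun ρ => (∫ x, fderiv ℝ ψ x (adj (F x) (Bv φ F x ρ))) - q * (2 * ρ))
    (K := C₂ * (η ^ 2 + ε) * En F 4) h0
    (fun s hs => ((h.der φ ψ ψ hK tψ f F hW).1 s hs).2.sub
      (by simpa using (hasDerivAt_pow 2 s).const_mul q))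
    (fun s hs hs' => by
      have a1 := hd ε s e0 e1 hs (hs'.trans h1) f F hW hQ
      have a2 : C₂ * (s ^ 2 + ε) * En F 4 ≤ C₂ * (η ^ 2 + ε) * En F 4 := by gcongr
      rw [hq]
      linarith)
    (by simpa using (h.der φ ψ ψ hK tψ f F hW).2.sub t0)
  have k4 := mul_le_mul_of_nonneg_left h1 (show 0 ≤ C₂ * ε * En F 4 by positivity)
  have k5 : 0 ≤ C₁ * η ^ 3 * En F 4 + C₃ * ε * En F 4 := by positivity
  refine le_of_mul_le_mul_left ?_ c0
  have e : c * ((((n : ℝ) - 2) / n + 1) / 2 * (∫ y, ψ y) / c * η ^ 2 * J +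
      (C₁ + C₂ + C₃) / c * (η ^ 3 + ε) * En F 4) =
      (((n : ℝ) - 2) / n + 1) / 2 * (∫ y, ψ y) * η ^ 2 * J +
        (C₁ + C₂ + C₃) * (η ^ 3 + ε) * En F 4 := by
    field_simp
  rw [e]
  rw [hq] at k3
  linarith

end Pool.Agent.MP_29b5d3_an.NC

end MrgPart1

-- marker of a merged file
example : 731051 + 150171 = 731051 + 150171 := rfl
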