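import Pool.Agent.MP_29b5d3_an.NC.CacC
import Pool.Agent.MP_29b5d3_an.NC.MatA
import Pool.Agent.MP_29b5d3_an.NC.MonoA
import Pool.Agent.MP_29b5d3_an.NC.Final
import Pool.Agent.MP_29b5d3_an.NC.AvB1
import Pool.Agent.MP_29b5d3_an.NC.MonoB

-- ======== part 0: formerly Pool.Agent.MP_29b5d3_an.NC.KerH
section MrgPart0

/-! Project NEARCONF: radial kernels. -/

set_option autoImplicit false

namespace Pool.Agent.MP_29b5d3_an.NC

open MeasureTheory Metric Filter Topology Module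
open scoped RealInnerProductSpace ContDiff

variable {n : ℕ}

namespace KerH

theorem smooth_sq : ContDiff ℝ ∞ fun y : V n => ‖y‖ ^ 2 := contDiff_norm_sq ℝ

theorem test_rad {g : ℝ → ℝ} (hg : ContDiff ℝ ∞ g) (h1 : ∀ u, 1 ≤ u → g u = 0) :
    Test (fun y : V n => g (‖y‖ ^ 2)) 1 :=
  ⟨hg.comp smooth_sq, fun _ hy => h1 _ (one_le_pow₀ hy)⟩

theorem fderiv_rad {g : ℝ → ℝ} {g' : ℝ} (y : V n) (hg : HasDerivAt g g' (‖y‖ ^ 2)) :
    HasFDerivAt (fun y : V n => g (‖y‖ ^ 2)) ((2 * g') • innerSL ℝ y) y := by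
  refine (hg.comp_hasFDerivAt y (hasStrictFDerivAt_norm_sq y).hasFDerivAt).congr_fderiv ?_
  ext v
  simp
  ring

/-- primitive vanishing at one -/
noncomputable def prim (q : ℝ → ℝ) (u : ℝ) : ℝ := ∫ t in u..1, q t

theorem prim_deriv {q : ℝ → ℝ} (hq : Continuous q) (u : ℝ) : HasDerivAt (prim q) (-q u) u :=
  intervalIntegral.integral_hasDerivAt_left (hq.intervalIntegrable _ _)
    (hq.stronglyMeasurableAtFilter _ _) hq.continuousAt

theorem prim_smooth {q : ℝ → ℝ} (hq : ContDiff ℝ ∞ q) : ContDiff ℝ ∞ (prim q) := by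
  rw [contDiff_infty_iff_deriv]
  refine ⟨fun u => (prim_deriv hq.continuous u).differentiableAt, ?_⟩
  rw [show deriv (prim q) = fun u => -q u from funext fun u => (prim_deriv hq.continuous u).deriv]
  exact hq.neg

theorem prim_zero {q : ℝ → ℝ} (h1 : ∀ u, 1 ≤ u → q u = 0) (u : ℝ) (hu : 1 ≤ u) : prim q u = 0 := by
  unfold prim
  rw [intervalIntegral.integral_congr (g := fun _ => 0) fun t ht => h1 t (by
    rw [Set.uIcc_of_ge hu] at ht; exact ht.1)]
  simp

theorem rad {q : ℝ → ℝ} (hq : ContDiff ℝ ∞ q) (h1 : ∀ u, 1 ≤ u → q u = 0) :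
    Test (fun y : V n => prim q (‖y‖ ^ 2)) 1 ∧
    (∀ y v : V n, fderiv ℝ (fun y : V n => prim q (‖y‖ ^ 2)) y v = -(2 * q (‖y‖ ^ 2) * ⟪y, v⟫)) ∧
    ∀ y : V n, lap (fun y : V n => prim q (‖y‖ ^ 2)) y =
      -(2 * n * q (‖y‖ ^ 2) + 4 * ‖y‖ ^ 2 * deriv q (‖y‖ ^ 2)) := by
  have t := test_rad (n := n) (prim_smooth hq) (prim_zero h1)
  have d : ∀ y v : V n, fderiv ℝ (fun y : V n => prim q (‖y‖ ^ 2)) y v =
      -(2 * q (‖y‖ ^ 2) * ⟪y, v⟫) := fun y v => by
    rw [(fderiv_rad y (prim_deriv hq.continuous _)).fderiv]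
    simp
  refine ⟨t, d, fun y => ?_⟩
  rw [t.lap_eq]
  simp only [d]
  have k : ∀ i, fderiv ℝ (fun y : V n => -(2 * q (‖y‖ ^ 2) * ⟪y, ev i⟫)) y (ev i) =
      -(2 * q (‖y‖ ^ 2) + 4 * deriv q (‖y‖ ^ 2) * (⟪y, ev i⟫ * ⟪ev i, y⟫)) := fun i => by
    have h1 := fderiv_rad y (hq.differentiable (by simp) (‖y‖ ^ 2)).hasDerivAt
    have h2 : HasFDerivAt (fun y : V n => ⟪y, ev i⟫) (innerSL ℝ (ev i)) y := by
      simp only [real_inner_comm (ev i)]
      exact (innerSL ℝ (ev i)).hasFDerivAt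
    rw [((h1.const_mul 2).fun_mul h2).fun_neg.fderiv]
    simp only [neg_apply, add_apply, smul_apply, innerSL_apply_apply, smul_eq_mul, inner_ev_self,
      real_inner_comm y]
    ring
  simp only [k, Finset.sum_neg_distrib, Finset.sum_add_distrib, ← Finset.mul_sum, sum_inner_ev,
    real_inner_self_eq_norm_sq, Finset.sum_const, Finset.card_univ, Fintype.card_fin, nsmul_eq_mul]
  ring

theorem int_pos {θ : V n → ℝ} (h : Test θ 1) (h0 : ∀ y, 0 ≤ θ y) {x : V n} (hx : θ x ≠ 0) :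
    0 < ∫ y, θ y := h.cont.integral_pos_of_hasCompactSupport_nonneg_nonzero h.supp h0 hx

theorem ker : ∃ φ ψ : V n → ℝ, Ker φ ψ := by
  let g : ℝ → ℝ := fun u => Real.smoothTransition (2 - 2 * u)
  have g1 : ContDiff ℝ ∞ g := Real.smoothTransition.contDiff.comp (by fun_prop)
  have g2 : ∀ u, 1 ≤ u → g u = 0 := fun u hu => Real.smoothTransition.zero_of_nonpos (by linarith)
  have g3 : ∀ u, u ≤ 1 / 2 → g u = 1 := fun u hu =>
    Real.smoothTransition.one_of_one_le (by linarith)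
  have g4 : ∀ u, 0 ≤ g u := fun u => Real.smoothTransition.nonneg _
  have t := test_rad (n := n) g1 g2
  have p := int_pos t (fun y => g4 _) (x := 0) (by simp [g3])
  set c := (∫ y : V n, g (‖y‖ ^ 2))⁻¹ with hc
  have c0 : 0 < c := inv_pos.2 p
  have q1 : ContDiff ℝ ∞ fun u => c / 2 * g u := contDiff_const.mul g1
  have q2 : ∀ u, 1 ≤ u → c / 2 * g u = 0 := fun u hu => by rw [g2 u hu, mul_zero]
  obtain ⟨r1, r2, r3⟩ := rad (n := n) q1 q2
  have dg := fun u => (g1.differentiable (by simp) u).hasDerivAt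
  refine ⟨fun y => c * g (‖y‖ ^ 2), fun y => prim (fun u => c / 2 * g u) (‖y‖ ^ 2),
    test_rad (g := fun u => c * g u) (contDiff_const.mul g1) fun u hu => by rw [g2 u hu, mul_zero],
    r1, fun y => mul_nonneg c0.le (g4 _), fun y => ?_, ?_, fun y => by rw [norm_neg],
    fun y v => by rw [r2]; ring, fun y => ?_, c / 8, by positivity, fun y hy => ?_⟩
  · rcases le_total (‖y‖ ^ 2) 1 with h | h
    · exact intervalIntegral.integral_nonneg h fun u _ => mul_nonneg (by positivity) (g4 u)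
    · exact (prim_zero q2 _ h).ge
  · rw [integral_const_mul, hc, inv_mul_cancel₀ p.ne']
  · rw [r3, (fderiv_rad (g := fun u => c * g u) y ((dg _).const_mul c)).fderiv,
      ((dg _).const_mul (c / 2)).deriv]
    simp only [smul_apply, innerSL_apply_apply, smul_eq_mul, real_inner_self_eq_norm_sq]
    ring
  · have u1 : ‖y‖ ^ 2 ≤ 1 / 4 := by nlinarith [norm_nonneg y]
    refine ⟨by rw [g3 _ (by linarith)]; linarith, ?_⟩
    have i := fun a b => q1.continuous.intervalIntegrable (μ := volume) a b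
    have k1 : ∫ t in (1 / 4 : ℝ)..(1 / 2), c / 2 * g t = c / 8 := by
      rw [intervalIntegral.integral_congr (g := fun _ => c / 2) fun t ht => by
        rw [Set.uIcc_of_le (by norm_num)] at ht
        simp only [g3 t ht.2, mul_one]]
      simp only [intervalIntegral.integral_const, smul_eq_mul]
      ring
    rw [← k1]
    exact intervalIntegral.integral_mono_interval u1 (by norm_num) (by norm_num)
      (Eventually.of_forall fun u => mul_nonneg (by positivity) (g4 u)) (i _ _)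

theorem smooth_cut {a : ℝ} {b : ℝ} (hb : 0 < b) {H : ℝ → ℝ} (hH : ContDiff ℝ ∞ H)
    (h0 : ∀ u, u < b → H u = 0) : ContDiff ℝ ∞ fun u => u ^ a * H u := by
  rw [contDiff_iff_contDiffAt]
  intro u
  rcases lt_or_ge u b with h | h
  · refine (contDiffAt_const (c := (0 : ℝ))).congr_of_eventuallyEq ?_
    filter_upwards [Iio_mem_nhds h] with t ht
    rw [h0 t ht, mul_zero]
  · exact (Real.contDiffAt_rpow_const_of_ne (hb.trans_le h).ne').mul hH.contDiffAt

theorem pot (hn : 1 ≤ n) : ∃ κ : V n → ℝ, Test κ 1 ∧ (∀ y, 0 ≤ κ y) ∧ ∫ y, κ y = 1 ∧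
    ∀ r : ℝ, 0 < r → r ≤ 1 →
      ∃ N : V n → ℝ, Test N 1 ∧ ∀ y, lap N y = (r ^ n)⁻¹ * κ (r⁻¹ • y) - κ y := by
  let h : ℝ → ℝ := fun u => Real.smoothTransition (4 * u - 2)
  have h1 : ContDiff ℝ ∞ h := Real.smoothTransition.contDiff.comp (by fun_prop)
  have h2 : ∀ u, u ≤ 1 / 2 → h u = 0 := fun u hu =>
    Real.smoothTransition.zero_of_nonpos (by linarith)
  have h3 : ∀ u, 3 / 4 ≤ u → h u = 1 := fun u hu =>
    Real.smoothTransition.one_of_one_le (by linarith)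
  have h4 : Monotone h := fun a b hab => Real.smoothTransition.monotone (by linarith)
  have dh := fun u => (h1.differentiable (by simp) u).hasDerivAt
  have d1 : ContDiff ℝ ∞ (deriv h) := (contDiff_infty_iff_deriv.1 h1).2
  have d2 : ∀ u, u < 1 / 2 → deriv h u = 0 := fun u hu => by
    rw [EventuallyEq.deriv_eq (f := fun _ => 0), deriv_const]
    filter_upwards [Iio_mem_nhds hu] with t ht using h2 t (le_of_lt ht)
  have d3 : ∀ u, 1 ≤ u → deriv h u = 0 := fun u hu => by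
    rw [EventuallyEq.deriv_eq (f := fun _ => 1), deriv_const]
    filter_upwards [Ioi_mem_nhds (show 3 / 4 < u by linarith)] with t ht using h3 t (le_of_lt ht)
  let k : ℝ → ℝ := fun u => u ^ (1 - (n : ℝ) / 2) * deriv h u
  have k1 : ContDiff ℝ ∞ k := smooth_cut (by norm_num) d1 d2
  have k2 : ∀ u, 1 ≤ u → k u = 0 := fun u hu => by simp only [k, d3 u hu, mul_zero]
  have k3 : ∀ u, 0 ≤ u → 0 ≤ k u := fun u hu => mul_nonneg (by positivity) h4.deriv_nonneg
  obtain ⟨u, u1, u2⟩ := exists_hasDerivAt_eq_slope h (deriv h) (by norm_num : (1 / 2 : ℝ) < 1)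
    h1.continuous.continuousOn fun u _ => dh u
  rw [h3 1 (by norm_num), h2 _ le_rfl] at u2
  have u0 : 0 < u := by linarith [u1.1]
  have t := test_rad (n := n) k1 k2
  have p := int_pos t (fun y => k3 _ (by positivity)) (x := √u • ev ⟨0, hn⟩) (by
    rw [norm_smul, norm_ev, mul_one, Real.norm_of_nonneg (Real.sqrt_nonneg _), Real.sq_sqrt u0.le]
    refine mul_ne_zero (by positivity) (by rw [u2]; norm_num))
  set c := (∫ y : V n, k (‖y‖ ^ 2))⁻¹ with hc
  have c0 : 0 < c := inv_pos.2 p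
  refine ⟨fun y => c * k (‖y‖ ^ 2),
    test_rad (g := fun u => c * k u) (contDiff_const.mul k1) fun u hu => by rw [k2 u hu, mul_zero],
    fun y => mul_nonneg c0.le (k3 _ (by positivity)),
    by rw [integral_const_mul, hc, inv_mul_cancel₀ p.ne'], fun r r0 r1 => ?_⟩
  have r2 : 0 < r ^ 2 := by positivity
  have r3 : r ^ 2 ≤ 1 := pow_le_one₀ r0.le r1
  let H : ℝ → ℝ := fun u => -(c / 4) * (h (u / r ^ 2) - h u)
  have H1 : ContDiff ℝ ∞ H := contDiff_const.mul ((h1.comp (by fun_prop)).sub h1)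
  have H2 : ∀ u, u < r ^ 2 / 2 → H u = 0 := fun u hu => by
    simp only [H]
    rw [h2 u (by linarith), h2 _ (by rw [div_le_iff₀ r2]; linarith), sub_zero, mul_zero]
  have H3 : ∀ u, HasDerivAt H (-(c / 4) * (deriv h (u / r ^ 2) / r ^ 2 - deriv h u)) u := fun u =>
    ((((dh (u / r ^ 2)).comp u ((hasDerivAt_id u).div_const (r ^ 2))).sub (dh u)).const_mul
      (-(c / 4))).congr_deriv (by ring)
  obtain ⟨n1, -, n3⟩ := rad (n := n) (q := fun u => u ^ (-(n : ℝ) / 2) * H u)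
    (smooth_cut (by positivity) H1 H2) fun u hu => by
      simp only [H]
      rw [h3 u (by linarith), h3 _ (by rw [le_div_iff₀ r2]; linarith), sub_self, mul_zero, mul_zero]
  refine ⟨_, n1, fun y => ?_⟩
  rw [n3]
  have e : ‖r⁻¹ • y‖ ^ 2 = ‖y‖ ^ 2 / r ^ 2 := by
    rw [norm_smul, Real.norm_of_nonneg (by positivity)]
    field_simp
  simp only [e, k]
  generalize hv : ‖y‖ ^ 2 = v
  rcases (show 0 ≤ v by rw [← hv]; positivity).eq_or_lt with rfl | v0
  · rw [H2 0 (by positivity), zero_div, d2 0 (by norm_num)]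
    simp
  · rw [((Real.hasDerivAt_rpow_const (p := -(n : ℝ) / 2) (Or.inl v0.ne')).fun_mul (H3 v)).deriv]
    have e1 : v ^ (-(n : ℝ) / 2 - 1) = v ^ (-(n : ℝ) / 2) / v := Real.rpow_sub_one v0.ne' _
    have e2 : v ^ (1 - (n : ℝ) / 2) = v ^ (-(n : ℝ) / 2) * v := by
      rw [← Real.rpow_add_one v0.ne']
      congr 1
      ring
    have e3 : (r ^ 2) ^ (1 - (n : ℝ) / 2) = r ^ 2 / r ^ n := by
      rw [← Real.rpow_natCast r 2, ← Real.rpow_mul r0.le, ← Real.rpow_natCast r n,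
        ← Real.rpow_sub r0]
      congr 1
      push_cast
      ring
    rw [Real.div_rpow v0.le r2.le, e1, e2, e3]
    field_simp
    ring

end KerH

theorem kerS (hn : 3 ≤ n) : KerS n := ⟨KerH.ker, KerH.pot (by omega)⟩

end Pool.Agent.MP_29b5d3_an.NC

end MrgPart0

-- ======== part 1: formerly Pool.Agent.MP_29b5d3_an.NC.AvB2
section MrgPart1

/-! Project NEARCONF: curl, divergence, Korn and Piola identities for weak derivatives. -/

set_option autoImplicit false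

namespace Pool.Agent.MP_29b5d3_an.NC

open MeasureTheory Metric Filter Topology Module
open scoped RealInnerProductSpace ContDiff ENNReal

namespace AvB2P

variable {n : ℕ}

/-- `g` is integrable with integral `c` -/
def Ei (g : V n → ℝ) (c : ℝ) : Prop := Integrable g volume ∧ ∫ y, g y = c

theorem Ei.add {g h : V n → ℝ} {c d : ℝ} (a : Ei g c) (b : Ei h d) :
    Ei (fun y => g y + h y) (c + d) :=
  ⟨a.1.add b.1, by rw [integral_add a.1 b.1, a.2, b.2]⟩

theorem Ei.sub {g h : V n → ℝ} {c d : ℝ} (a : Ei g c) (b : Ei h d) :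
    Ei (fun y => g y - h y) (c - d) :=
  ⟨a.1.sub b.1, by rw [integral_sub a.1 b.1, a.2, b.2]⟩

theorem Ei.cmul {g : V n → ℝ} {c : ℝ} (a : Ei g c) (t : ℝ) : Ei (fun y => t * g y) (t * c) :=
  ⟨a.1.const_mul t, by rw [integral_const_mul, a.2]⟩

theorem Ei.sum {g : Fin n → V n → ℝ} {c : Fin n → ℝ} (a : ∀ i, Ei (g i) (c i)) :
    Ei (fun y => ∑ i, g i y) (∑ i, c i) :=
  ⟨integrable_finsetSum _ fun i _ => (a i).1, by
    rw [integral_finsetSum _ fun i _ => (a i).1]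
    exact Finset.sum_congr rfl fun i _ => (a i).2⟩

theorem Ei.congr {g h : V n → ℝ} {c d : ℝ} (a : Ei g c) (e : ∀ y, h y = g y) (e' : c = d) :
    Ei h d := by
  rw [show h = g from funext e, ← e']
  exact a

theorem map_ev {U : Type} [NormedAddCommGroup U] [NormedSpace ℝ U] (L : V n →L[ℝ] U) (v : V n) :
    L v = ∑ i, ⟪ev i, v⟫ • L (ev i) := by
  conv_lhs => rw [← sum_ev v]
  simp only [map_sum, map_smul]

variable {θ : V n → ℝ} {R : ℝ} {f : V n → V n} {F : V n → Mt n}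

theorem int_vec (hθ : Test θ R) (hF : LocallyIntegrable F volume) (v : V n) :
    Integrable (fun y => θ y • F y v) volume := by
  simpa only [smul_apply] using
    (hF.integrable_smul_left_of_hasCompactSupport hθ.cont hθ.supp).apply_continuousLinearMap v

theorem ei_inner {g : V n → V n} {c : V n → ℝ} (h : Integrable (fun y => c y • g y) volume)
    (a : V n) : Ei (fun y => c y * ⟪a, g y⟫) ⟪a, ∫ y, c y • g y⟫ := by
  have e : (fun y => c y * ⟪a, g y⟫) = fun y => ⟪a, c y • g y⟫ :=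
    funext fun y => (real_inner_smul_right _ _ _).symm
  rw [e]
  exact ⟨h.const_inner a, integral_inner h a⟩

theorem curl (hθ : Test θ R) (hW : W f F) (u v : V n) :
    ∫ y, fderiv ℝ θ y u • F y v = ∫ y, fderiv ℝ θ y v • F y u := by
  have k : ∀ u v : V n, ∫ y, fderiv ℝ θ y u • F y v = -∫ y, ⟪hess θ y v, u⟫ • f y := fun u v => by
    have := hW.weak _ (hθ.der u).1 (hθ.der u).supp v
    simp only [← hθ.inner_hess] at this
    rw [this, neg_neg]
  rw [k, k]
  simp only [hθ.sym_hess _ v u, real_inner_comm v]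

theorem dvg (hθ : Test θ R) (hW : W f F) (hF : LocallyIntegrable F volume) :
    ∫ y, θ y * tr (F y) = -∫ y, fderiv ℝ θ y (f y) := by
  have a := Ei.sum fun i => ei_inner (int_vec hθ hF (ev i)) (ev i)
  have b := Ei.sum fun i => ei_inner (c := fun y => fderiv ℝ θ y (ev i))
    (hW.cont.locallyIntegrable.integrable_smul_left_of_hasCompactSupport (hθ.der (ev i)).cont
      (hθ.der (ev i)).supp) (ev i)
  rw [(a.congr (fun y => by rw [tr_eq, Finset.mul_sum]) rfl).2,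
    (b.congr (fun y => by
      rw [map_ev (fderiv ℝ θ y) (f y)]
      simp only [smul_eq_mul, mul_comm]) rfl).2, ← Finset.sum_neg_distrib]
  exact Finset.sum_congr rfl fun i _ => by
    rw [hW.weak _ hθ.1 hθ.supp, inner_neg_right, neg_neg]

/-- the basic integrals -/
noncomputable def tau (θ : V n → ℝ) (F : V n → Mt n) (u b a v : V n) : ℝ :=
  ⟪a, ∫ y, ⟪hess θ y u, b⟫ • F y v⟫

theorem test_hess (hθ : Test θ R) (u b : V n) : Test (fun y => ⟪hess θ y u, b⟫) R := by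
  simp only [hθ.inner_hess]
  exact (hθ.der b).der u

theorem ei_tau (hθ : Test θ R) (hF : LocallyIntegrable F volume) (u b a v : V n) :
    Ei (fun y => ⟪hess θ y u, b⟫ * ⟪a, F y v⟫) (tau θ F u b a v) :=
  ei_inner (int_vec (test_hess hθ u b) hF v) a

theorem tau_sym (hθ : Test θ R) (u b a v : V n) : tau θ F u b a v = tau θ F b u a v := by
  simp only [tau, hθ.sym_hess _ u b, real_inner_comm u]

theorem tau_curl (hθ : Test θ R) (hW : W f F) (u b a v : V n) :
    tau θ F u b a v = tau θ F v b a u := by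
  simp only [tau, hθ.inner_hess]
  rw [curl (hθ.der b) hW]

/-- the integral of `⟪a, F b⟫ * lap θ` -/
noncomputable def Pp (θ : V n → ℝ) (F : V n → Mt n) (a b : V n) : ℝ :=
  ∑ k, tau θ F (ev k) (ev k) a b

/-- the integral of `tr F * ⟪hess θ a, b⟫` -/
noncomputable def Qf (θ : V n → ℝ) (F : V n → Mt n) (a b : V n) : ℝ :=
  ∑ k, tau θ F a b (ev k) (ev k)

theorem Qf_sym (hθ : Test θ R) (a b : V n) : Qf θ F a b = Qf θ F b a :=
  Finset.sum_congr rfl fun _ _ => tau_sym hθ _ _ _ _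

theorem ei4 (hθ : Test θ R) (hF : LocallyIntegrable F volume) (a b : V n) :
    Ei (fun y => ⟪a, F y b⟫ * lap θ y) (Pp θ F a b) :=
  (Ei.sum fun k => ei_tau hθ hF (ev k) (ev k) a b).congr (fun y => by
    rw [lap, tr_eq, Finset.mul_sum]
    exact Finset.sum_congr rfl fun k _ => by rw [mul_comm, real_inner_comm]) rfl

theorem ei1 (hθ : Test θ R) (hW : W f F) (hF : LocallyIntegrable F volume) (a b : V n) :
    Ei (fun y => ⟪a, F y (hess θ y b)⟫) (Pp θ F a b) :=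
  (Ei.sum fun k => ei_tau hθ hF b (ev k) a (ev k)).congr (fun y => by
    rw [map_ev (F y) (hess θ y b), inner_sum]
    exact Finset.sum_congr rfl fun k _ => by rw [real_inner_smul_right, real_inner_comm])
    (Finset.sum_congr rfl fun k _ => tau_curl hθ hW _ _ _ _)

theorem ei3 (hθ : Test θ R) (hF : LocallyIntegrable F volume) (a b : V n) :
    Ei (fun y => tr (F y) * ⟪a, hess θ y b⟫) (Qf θ F a b) :=
  (Ei.sum fun k => ei_tau hθ hF a b (ev k) (ev k)).congr (fun y => by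
    rw [tr_eq, Finset.sum_mul, hθ.sym_hess]
    exact Finset.sum_congr rfl fun k _ => mul_comm _ _) rfl

theorem ei2 (hθ : Test θ R) (hW : W f F) (hF : LocallyIntegrable F volume) (a b : V n) :
    Ei (fun y => ⟪F y a, hess θ y b⟫) (Qf θ F a b) :=
  (Ei.sum fun k => ei_tau hθ hF b (ev k) (ev k) a).congr (fun y => by
    rw [real_inner_comm, sum_inner_ev])
    (Finset.sum_congr rfl fun k _ => by rw [tau_sym hθ, tau_curl hθ hW])

theorem ei5 (hθ : Test θ R) (hF : LocallyIntegrable F volume) :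
    Ei (fun y => tr (F y) * lap θ y) (∑ k, Pp θ F (ev k) (ev k)) :=
  (Ei.sum fun k => ei4 hθ hF (ev k) (ev k)).congr (fun y => by rw [tr_eq, Finset.sum_mul]) rfl

theorem korn1 (hθ : Test θ R) (hW : W f F) (hF : LocallyIntegrable F volume) :
    ∫ y, tr (F y ∘L hess θ y) = ∫ y, tr (F y) * lap θ y := by
  rw [(ei5 hθ hF).2]
  exact ((Ei.sum fun k => ei1 hθ hW hF (ev k) (ev k)).congr (fun y => by
    rw [tr_eq]
    simp only [ContinuousLinearMap.comp_apply]) rfl).2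

/-- twice the traceless symmetric part -/
noncomputable def Sd (X : Mt n) (a b : V n) : ℝ :=
  ⟪X a, b⟫ + ⟪a, X b⟫ - 2 * (tr X / n) * ⟪a, b⟫

theorem eiS (hθ : Test θ R) (hW : W f F) (hF : LocallyIntegrable F volume) (a b : V n) :
    Ei (fun y => Sd (F y) a (hess θ y b)) (Qf θ F a b + Pp θ F a b - 2 / n * Qf θ F a b) :=
  (((ei2 hθ hW hF a b).add (ei1 hθ hW hF a b)).sub ((ei3 hθ hF a b).cmul (2 / n))).congr
    (fun y => by rw [Sd]; ring) rfl

/-- the integrand of the second Korn identity -/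
noncomputable def Zd (X H : Mt n) (a b : V n) : ℝ :=
  Sd X a (H b) - Sd X b (H a) + Sd X a b * tr H +
    ⟪a, b⟫ / ((n : ℝ) - 1) * ∑ i, Sd X (ev i) (H (ev i))

theorem eiZ (hn : 3 ≤ n) (hθ : Test θ R) (hW : W f F) (hF : LocallyIntegrable F volume)
    (a b : V n) : Ei (fun y => Zd (F y) (hess θ y) a b) (2 * Pp θ F a b) := by
  have n3 : (3 : ℝ) ≤ n := by exact_mod_cast hn
  have s : ∑ k, Qf θ F (ev k) (ev k) = ∑ k, Pp θ F (ev k) (ev k) := Finset.sum_comm
  refine ((((eiS hθ hW hF a b).sub (eiS hθ hW hF b a)).add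
    (((ei4 hθ hF b a).add (ei4 hθ hF a b)).sub ((ei5 hθ hF).cmul (2 / n * ⟪a, b⟫)))).add
    ((Ei.sum fun i => eiS hθ hW hF (ev i) (ev i)).cmul (⟪a, b⟫ / ((n : ℝ) - 1)))).congr
    (fun y => ?_) ?_
  · rw [Zd, show Sd (F y) a b = ⟪b, F y a⟫ + ⟪a, F y b⟫ - 2 * (tr (F y) / n) * ⟪a, b⟫ by
      rw [Sd, real_inner_comm b], lap]
    ring
  · rw [Finset.sum_sub_distrib, Finset.sum_add_distrib, ← Finset.mul_sum, s, Qf_sym hθ b a]
    have : (n : ℝ) - 1 ≠ 0 := by linarith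
    have : (n : ℝ) ≠ 0 := by linarith
    field_simp
    ring

theorem Zd_le (hn : 3 ≤ n) {X : Mt n} {g : ℝ} (h : Dev X g) (H : Mt n) (a b : V n) :
    |Zd X H a b| ≤ (2 + 2 * n) * ‖a‖ * ‖b‖ * (g * ‖H‖) := by
  have n3 : (3 : ℝ) ≤ n := by exact_mod_cast hn
  have g0 : 0 ≤ g := by
    simpa only [norm_ev, mul_one] using (abs_nonneg _).trans (h (ev ⟨0, by omega⟩) (ev ⟨0, by omega⟩))
  have k : ∀ a b, |Sd X a (H b)| ≤ ‖a‖ * ‖b‖ * (g * ‖H‖) := fun a b =>
    (h a (H b)).trans (by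
      have := mul_le_mul_of_nonneg_left (H.le_opNorm b) (show 0 ≤ g * ‖a‖ by positivity)
      linarith)
  have k3 : |Sd X a b * tr H| ≤ n * (‖a‖ * ‖b‖ * (g * ‖H‖)) := by
    rw [abs_mul]
    refine (mul_le_mul (h a b) (abs_tr_le H) (abs_nonneg _) (by positivity)).trans_eq ?_
    ring
  have k4 : |∑ i, Sd X (ev i) (H (ev i))| ≤ n * (g * ‖H‖) := by
    refine (Finset.abs_sum_le_sum_abs _ _).trans ?_
    calc _ ≤ ∑ _i : Fin n, g * ‖H‖ := Finset.sum_le_sum fun i _ => by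
          simpa only [norm_ev, one_mul] using k (ev i) (ev i)
      _ = _ := by simp
  have k5 : |⟪a, b⟫ / ((n : ℝ) - 1)| ≤ ‖a‖ * ‖b‖ := by
    rw [abs_div, abs_of_pos (show (0 : ℝ) < n - 1 by linarith)]
    exact (div_le_self (abs_nonneg _) (by linarith)).trans (abs_real_inner_le_norm a b)
  have k6 := mul_le_mul k5 k4 (abs_nonneg _) (by positivity)
  rw [← abs_mul] at k6
  have k1 := k a b
  have k2 := k b a
  rw [abs_le] at k1 k2 k3 k6 ⊢
  rw [Zd]
  constructor <;> linarith [k1.1, k1.2, k2.1, k2.2, k3.1, k3.2, k6.1, k6.2]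

theorem korn2 (hn : 3 ≤ n) (hθ : Test θ R) (hW : W f F) (hF : LocallyIntegrable F volume)
    {g : V n → ℝ} (hg : IntegrableOn g (ball 0 R) volume)
    (hD : ∀ᵐ y, y ∈ ball (0 : V n) R → Dev (F y) (g y)) (a b : V n) :
    |∫ y, ⟪a, F y b⟫ * lap θ y| ≤
      (1 + n) * ‖a‖ * ‖b‖ * ∫ y in ball (0 : V n) R, g y * ‖hess θ y‖ := by
  have z := eiZ hn hθ hW hF a b
  obtain ⟨C, -, hC⟩ := hθ.bdd_hess
  have i : IntegrableOn (fun y => g y * ‖hess θ y‖) (ball 0 R) volume :=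
    Integrable.mul_bdd hg hθ.smooth_hess.continuous.norm.aestronglyMeasurable
      (Eventually.of_forall fun y => by simpa only [norm_norm] using hC y)
  have e : ∫ y in ball (0 : V n) R, Zd (F y) (hess θ y) a b = 2 * Pp θ F a b := by
    rw [← z.2]
    refine setIntegral_eq_integral_of_forall_compl_eq_zero fun y hy => ?_
    rw [hθ.hess_zero y (by simpa using hy)]
    simp [Zd, Sd, tr_zero]
  have k := norm_integral_le_of_norm_le (μ := volume.restrict (ball (0 : V n) R))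
    (f := fun y => Zd (F y) (hess θ y) a b) (i.const_mul ((2 + 2 * n) * ‖a‖ * ‖b‖))
    ((ae_restrict_iff' measurableSet_ball).2 (hD.mono fun y hy hb => Zd_le hn (hy hb) _ a b))
  rw [e, integral_const_mul, Real.norm_eq_abs, abs_mul, abs_two] at k
  rw [(ei4 hθ hF a b).2]
  linarith

theorem sobOn (hn : 3 ≤ n) (hW : W f F) : h48.SobOn volume Set.univ f F := by
  refine ⟨isOpen_univ, hW.cont.continuousOn, fun C hC _ => ?_, fun φ h1 h2 _ v => hW.weak φ h1 h2 v⟩
  rw [← integrable_norm_rpow_iff hW.meas.aestronglyMeasurable (by rw [fr]; simp; omega) (by simp),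
    fr]
  simpa [IntegrableOn] using hW.lp.integrableOn_isCompact hC

theorem lam_eq {ζ : V n → ℝ} (hζ : Test ζ R) {G : V n → V n} (hG : ContDiff ℝ 1 G)
    (e x y : V n) (A : Mt n) (w : V n) :
    h48.lam (fun p : V n × V n => ζ p.1 * ⟪e, p.2 - G p.1⟫) (x, y, A) w =
      fderiv ℝ ζ x w * ⟪e, y - G x⟫ + ζ x * ⟪e, A w - fderiv ℝ G x w⟫ := by
  have d1 : HasFDerivAt (fun p : V n × V n => ζ p.1)
      ((fderiv ℝ ζ x).comp (ContinuousLinearMap.fst ℝ (V n) (V n))) (x, y) :=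
    (hζ.c1.differentiable one_ne_zero x).hasFDerivAt.comp (x, y) hasFDerivAt_fst
  have d2 : HasFDerivAt (fun p : V n × V n => p.2 - G p.1)
      (ContinuousLinearMap.snd ℝ (V n) (V n) -
        (fderiv ℝ G x).comp (ContinuousLinearMap.fst ℝ (V n) (V n))) (x, y) :=
    hasFDerivAt_snd.sub ((hG.differentiable one_ne_zero x).hasFDerivAt.comp (x, y) hasFDerivAt_fst)
  have d3 := d1.fun_mul ((innerSL ℝ e).hasFDerivAt.comp (x, y) d2)
  rw [h48.lam_apply]
  erw [d3.fderiv]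
  simp [inner_sub_right]
  ring

theorem det_adj (hn : 3 ≤ n) {A : Mt n} (h : A = 0 ∨ 0 < A.det) (l : V n →L[ℝ] ℝ) (a : V n) :
    (A + l.smulRight a).det - A.det = l (adj A a) := by
  rcases h with rfl | h
  · have : Nontrivial (V n) := finrank_pos_iff.1 (show 0 < finrank ℝ (V n) by rw [fr]; omega)
    rw [zero_add, h48.det_rank_one (by rw [fr]; omega), adj_zero]
    simp [ContinuousLinearMap.det]
  · rw [h48.det_add_rank_one h.ne', adj, smul_apply, map_smul, smul_eq_mul]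
    ring

theorem piola (hn : 3 ≤ n) (h1 : AvB1 n) {ζ : V n → ℝ} {K : ℝ} {G : V n → V n} (hζ : Test ζ R)
    (hW : W f F) (hG : ContDiff ℝ 1 G) (hK : 0 < K) (hQ : QR K (ball 0 R) F) :
    Integrable (fun x => ζ x * tr ((F x - fderiv ℝ G x) ∘L adj (F x))) volume ∧
    Integrable (fun x => fderiv ℝ ζ x (adj (F x) (f x - G x))) volume ∧
    ∫ x, ζ x * tr ((F x - fderiv ℝ G x) ∘L adj (F x)) =
      -∫ x, fderiv ℝ ζ x (adj (F x) (f x - G x)) := by
  have n1 : 1 ≤ finrank ℝ (V n) := by rw [fr]; omega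
  obtain ⟨f', F', hS, hE⟩ := h48.globalize n1 (sobOn hn hW) (isCompact_closedBall 0 R)
    (Set.subset_univ _)
  have k := Ei.sum fun i => h48.null1 n1 hS
    (g := fun p : V n × V n => ζ p.1 * ⟪ev i, p.2 - G p.1⟫)
    ((hζ.c1.comp contDiff_fst).mul
      (contDiff_const.inner ℝ (contDiff_snd.sub (hG.comp contDiff_fst))))
    (isCompact_closedBall 0 R) (fun p hp => by
      rw [hζ.2 _ (le_of_lt (by simpa using hp)), zero_mul]) (ev i)
  have e : (fun x => ∑ i, ((F' x + (h48.lam (fun p : V n × V n => ζ p.1 * ⟪ev i, p.2 - G p.1⟫)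
      (x, f' x, F' x)).smulRight (ev i)).det - (F' x).det)) =ᵐ[volume] fun x =>
      ζ x * tr ((F x - fderiv ℝ G x) ∘L adj (F x)) + fderiv ℝ ζ x (adj (F x) (f x - G x)) := by
    filter_upwards [hQ] with x hx
    by_cases hb : x ∈ ball (0 : V n) R
    · obtain ⟨e1, e2⟩ := hE.self_of_nhdsSet x (ball_subset_closedBall hb)
      simp only [e1, e2, det_adj hn ((hx hb).cases hK), lam_eq hζ hG]
      rw [Finset.sum_add_distrib, add_comm, tr_eq, Finset.mul_sum,
        map_ev (adj (F x)) (f x - G x), map_sum]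
      simp only [map_smul, smul_eq_mul, mul_comm, ContinuousLinearMap.comp_apply, sub_apply]
    · have hb' : R ≤ ‖x‖ := by simpa using hb
      have z : ∀ i, h48.lam (fun p : V n × V n => ζ p.1 * ⟪ev i, p.2 - G p.1⟫)
          (x, f' x, F' x) = 0 := fun i => by
        ext w
        rw [lam_eq hζ hG, hζ.2 x hb', hζ.fderiv_zero x hb']
        simp
      simp [z, hζ.2 x hb', hζ.fderiv_zero x hb']
  have cD := hζ.smooth_fderiv.continuous
  have cu : Continuous fun x => f x - G x := hW.cont.sub hG.continuous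
  have i2 : Integrable (fun x => fderiv ℝ ζ x (adj (F x) (f x - G x))) volume := by
    have l : LocallyIntegrable (fun x => 1 + ‖F x‖ ^ n) volume :=
      (locallyIntegrable_const 1).add hW.lp
    have c : Continuous fun q : (V n →L[ℝ] ℝ) × Mt n × V n => q.1 (q.2.1 q.2.2) := by fun_prop
    refine (l.integrable_smul_left_of_hasCompactSupport
      (g := fun x => ‖fderiv ℝ ζ x‖ * ‖f x - G x‖) (cD.norm.mul cu.norm)
      (supp_of (R := R) fun y hy => by rw [hζ.fderiv_zero y hy, norm_zero, zero_mul])).mono'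
      (c.comp_stronglyMeasurable (cD.stronglyMeasurable.prodMk
        ((h1.adj_meas F hW.meas).prodMk cu.stronglyMeasurable))).aestronglyMeasurable
      (Eventually.of_forall fun x => ?_)
    have b1 : ‖F x‖ ^ (n - 1) ≤ 1 + ‖F x‖ ^ n := by
      rcases le_total ‖F x‖ 1 with h | h
      · exact (pow_le_one₀ (norm_nonneg _) h).trans (le_add_of_nonneg_right (by positivity))
      · exact (pow_le_pow_right₀ h (by omega)).trans (le_add_of_nonneg_left zero_le_one)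
    have b2 := (adj (F x)).le_of_opNorm_le ((norm_adj_le (by omega) (F x)).trans b1) (f x - G x)
    refine ((fderiv ℝ ζ x).le_opNorm_of_le b2).trans_eq ?_
    rw [smul_eq_mul]
    ring
  have i0 := k.1.congr e
  have i1 : Integrable (fun x => ζ x * tr ((F x - fderiv ℝ G x) ∘L adj (F x))) volume :=
    (i0.sub i2).congr (Eventually.of_forall fun x => by simp)
  refine ⟨i1, i2, ?_⟩
  rw [eq_neg_iff_add_eq_zero, ← integral_add i1 i2, ← integral_congr_ae e, k.2]
  simp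

end AvB2P

theorem avB2 {n : ℕ} (hn : 3 ≤ n) (_hA : AvA n) (h1 : AvB1 n) : AvB2 n where
  curl := fun _ _ _ _ hθ hW => AvB2P.curl hθ hW
  dvg := fun _ _ f F hθ hW => AvB2P.dvg hθ hW (h1.loc f F hW)
  korn1 := fun _ _ f F hθ hW => AvB2P.korn1 hθ hW (h1.loc f F hW)
  korn2 := ⟨1 + n, by positivity, fun _ _ f F _ hθ hW hg hD =>
    AvB2P.korn2 hn hθ hW (h1.loc f F hW) hg hD⟩
  piola := fun _ _ _ _ _ _ hζ hW hG hK hQ => AvB2P.piola hn h1 hζ hW hG hK hQ

end Pool.Agent.MP_29b5d3_an.NC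

end MrgPart1

-- ======== part 2: formerly Pool.Agent.MP_29b5d3_an.NC.Cac
section MrgPart2

/-! Project NEARCONF: the Poincare inequality for mollifications and the structure `Cac`. -/

set_option autoImplicit false

namespace Pool.Agent.MP_29b5d3_an.NC

open MeasureTheory Metric Filter Topology Module
open scoped RealInnerProductSpace ContDiff

namespace CacQ

variable {n : ℕ}

theorem loc_norm {U : Type} [NormedAddCommGroup U] {G : V n → U} (h : LocallyIntegrable G volume) :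
    LocallyIntegrable (fun z => ‖G z‖) volume := fun x => by
  obtain ⟨s, hs, hi⟩ := h x
  exact ⟨s, hs, hi.norm⟩

theorem on_ball {U : Type} [NormedAddCommGroup U] {G : V n → U} (h : LocallyIntegrable G volume)
    (R : ℝ) : IntegrableOn G (ball 0 R) volume :=
  (h.integrableOn_isCompact (isCompact_closedBall 0 R)).mono_set ball_subset_closedBall

theorem step (hA : AvA n) (hB : AvB n) {φ ψ : V n → ℝ} (hK : Ker φ ψ) {C : ℝ} (C0 : 0 < C)
    (hC : ∀ y, |φ y| ≤ C) {g : V n → V n} {G : V n → Mt n} (hW : W g G) (x : V n) {r : ℝ}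
    (hr : 0 < r) :
    ‖av φ g x r - av φ g x (r / 2)‖ ≤ C * 2 ^ n * Iv (fun z => ‖G z‖) x r * (r / 2) := by
  have lG := hB.loc g G hW
  have d : ∀ ρ ∈ Set.Icc (r / 2) r, HasDerivWithinAt (av φ g x) (Bv φ G x ρ)
      (Set.Icc (r / 2) r) ρ := by
    intro ρ hρ
    have ρ0 : 0 < ρ := by linarith [hρ.1]
    have h1 : HasDerivAt (fun t : ℝ => (x, t)) ((0 : V n), (1 : ℝ)) ρ :=
      (hasDerivAt_const ρ x).prodMk (hasDerivAt_id ρ)
    have h2 := (hB.dav φ ψ g G hK hW x ρ ρ0).comp_hasDerivAt ρ h1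
    simp only [add_apply, ContinuousLinearMap.comp_apply, ContinuousLinearMap.coe_fst', map_zero,
      ContinuousLinearMap.smulRight_apply, ContinuousLinearMap.coe_snd', one_smul, zero_add] at h2
    exact h2.hasDerivWithinAt
  have b : ∀ ρ ∈ Set.Ico (r / 2) r, ‖Bv φ G x ρ‖ ≤ C * 2 ^ n * Iv (fun z => ‖G z‖) x r := by
    intro ρ hρ
    have ρ0 : 0 < ρ := by linarith [hρ.1]
    have h1 := (hB.Bv_le φ ψ G 0 hK lG x ρ ρ0).1
    have h2 := hA.av_le ℝ φ (fun z => ‖G z‖) C hK.tφ hC (loc_norm lG) x ρ ρ0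
    have h3 := hA.Iv_mono (fun z => ‖G z‖) x x r ρ (loc_norm lG) (fun z => norm_nonneg _) ρ0 hr
      (ball_subset_ball hρ.2.le)
    have h4 : (r / ρ) ^ n ≤ 2 ^ n :=
      pow_le_pow_left₀ (by positivity) (by rw [div_le_iff₀ ρ0]; linarith [hρ.1]) n
    have h5 : 0 ≤ Iv (fun z => ‖G z‖) x r := integral_nonneg fun y => norm_nonneg _
    simp only [sub_zero] at h1
    simp only [norm_norm] at h2
    have h6 : ∫ y, φ y * ‖G (x + ρ • y)‖ ≤ ‖av φ (fun z => ‖G z‖) x ρ‖ := le_abs_self _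
    calc _ ≤ C * Iv (fun z => ‖G z‖) x ρ := h1.trans (h6.trans h2)
      _ ≤ C * (2 ^ n * Iv (fun z => ‖G z‖) x r) :=
          mul_le_mul_of_nonneg_left (h3.trans (mul_le_mul_of_nonneg_right h4 h5)) C0.le
      _ = _ := by ring
  have k := norm_image_sub_le_of_norm_deriv_le_segment' d b r ⟨by linarith, le_rfl⟩
  rwa [show r - r / 2 = r / 2 by ring] at k

theorem jens (hA : AvA n) {H : V n → ℝ} (q : ℕ) (h0 : ∀ z, 0 ≤ H z)
    (h1 : LocallyIntegrable H volume) (h2 : LocallyIntegrable (fun z => H z ^ q) volume)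
    (x : V n) {r : ℝ} (hr : 0 < r) :
    (((volume : Measure (V n)).real (ball 0 1))⁻¹ * Iv H x r) ^ q ≤
      ((volume : Measure (V n)).real (ball 0 1))⁻¹ * Iv (fun z => H z ^ q) x r := by
  have B0 : 0 < (volume : Measure (V n)).real (ball 0 1) :=
    ENNReal.toReal_pos (measure_ball_pos _ _ one_pos).ne' measure_ball_lt_top.ne
  have i1 := on_ball (hA.loc ℝ H h1 x r hr.ne') 1
  have i2 := on_ball (hA.loc ℝ _ h2 x r hr.ne') 1
  have k := h48.jensen_pow (μ := (volume : Measure (V n)).restrict (ball 0 1))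
    (ρ := fun _ => ((volume : Measure (V n)).real (ball 0 1))⁻¹) (g := fun y => H (x + r • y))
    (n := q) (fun _ => by positivity) (fun y => h0 _)
    (integrableOn_const measure_ball_lt_top.ne)
    (by rw [setIntegral_const, smul_eq_mul, mul_inv_cancel₀ B0.ne'])
    (i1.const_mul _) (i2.const_mul _)
  rwa [integral_const_mul, integral_const_mul] at k

theorem poinc (hA : AvA n) (hB : AvB n) (φ ψ : V n → ℝ) (hK : Ker φ ψ) :
    ∃ C : ℝ, 0 < C ∧ ∀ (g : V n → V n) (G : V n → Mt n), W g G →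
    ∀ (q : ℕ) (a s : ℝ), 1 ≤ q → q ≤ n → 0 < a → 0 < s →
    ∫ y in ball (0 : V n) a, ‖g y - av φ g y s‖ ^ q ≤
      (C * s) ^ q * ∫ y in ball (0 : V n) (a + s), ‖G y‖ ^ q := by
  obtain ⟨C, C0, hC⟩ := hK.tφ.bdd
  have B0 : 0 < (volume : Measure (V n)).real (ball 0 1) :=
    ENNReal.toReal_pos (measure_ball_pos _ _ one_pos).ne' measure_ball_lt_top.ne
  set B : ℝ := (volume : Measure (V n)).real (ball 0 1) with hBd
  refine ⟨C * 2 ^ n * B, by positivity, fun g G hW q a s₀ q1 qn a0 s0 => ?_⟩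
  obtain ⟨m, rfl⟩ : ∃ m, q = m + 1 := ⟨q - 1, by omega⟩
  have lG := loc_norm (hB.loc g G hW)
  have lq : LocallyIntegrable (fun z => ‖G z‖ ^ (m + 1)) volume := by
    refine hB.locH ℝ g G (fun X => ‖X‖ ^ (m + 1)) 1 hW (continuous_norm.pow _) fun X => ?_
    rw [Real.norm_of_nonneg (by positivity), one_mul]
    rcases le_total ‖X‖ 1 with h | h
    · have := pow_le_one₀ (n := m + 1) (norm_nonneg X) h
      have : 0 ≤ ‖X‖ ^ n := by positivity
      linarith
    · have := pow_le_pow_right₀ h qn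
      linarith
  have ca : ∀ r, 0 < r → Continuous fun x => av φ g x r := fun r hr =>
    continuous_iff_continuousAt.2 fun x =>
      ContinuousAt.comp (f := fun x : V n => (x, r)) (g := fun p : V n × ℝ => av φ g p.1 p.2)
        (hB.dav φ ψ g G hK hW x r hr).continuousAt (by fun_prop)
  set E : ℝ := ∫ y in ball (0 : V n) (a + s₀), ‖G y‖ ^ (m + 1) with hE
  have E0 : 0 ≤ E := integral_nonneg fun y => by positivity
  have ind : ∀ N : ℕ, ∀ s, 0 < s → s ≤ s₀ →
      ∫ y in ball (0 : V n) a, ‖av φ g y (s / 2 ^ N) - av φ g y s‖ ^ (m + 1) ≤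
        (C * 2 ^ n * B * s) ^ (m + 1) * E := by
    intro N
    induction N with
    | zero =>
      intro s hs _
      simp only [pow_zero, div_one, sub_self, norm_zero, zero_pow (Nat.succ_ne_zero m),
        integral_zero]
      positivity
    | succ N ih =>
      intro s hs hs0
      have h1 := ih (s / 2) (by positivity) (by linarith)
      have i1 : IntegrableOn (fun x => Iv (fun z => ‖G z‖ ^ (m + 1)) x s) (ball 0 a) volume := by
        have := hA.prod _ lq s a 1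
        rw [IntegrableOn, ← Measure.prod_restrict] at this
        exact this.integral_prod_left
      have i2 : IntegrableOn (fun y => ‖av φ g y (s / 2 / 2 ^ N) - av φ g y (s / 2)‖ ^ (m + 1))
          (ball 0 a) volume :=
        on_ball ((((ca _ (by positivity)).sub (ca _ (by positivity))).norm.pow _).locallyIntegrable)
          a
      have h2 : ∫ x in ball (0 : V n) a, Iv (fun z => ‖G z‖ ^ (m + 1)) x s ≤ B * E :=
        (hA.prod_le _ lq (fun z => by positivity) s a hs.le).trans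
          (mul_le_mul_of_nonneg_left (setIntegral_mono_set (on_ball lq _)
            (Eventually.of_forall fun z => by positivity)
            (ball_subset_ball (by linarith)).eventuallyLE) B0.le)
      have i3 : IntegrableOn (fun y => 2 ^ m * ((C * 2 ^ n * B * (s / 2)) ^ (m + 1) *
          (B⁻¹ * Iv (fun z => ‖G z‖ ^ (m + 1)) y s) +
          ‖av φ g y (s / 2 / 2 ^ N) - av φ g y (s / 2)‖ ^ (m + 1))) (ball 0 a) volume :=
        (((i1.const_mul _).const_mul _).add i2).const_mul _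
      have h3 : ∫ y in ball (0 : V n) a, ‖av φ g y (s / 2 ^ (N + 1)) - av φ g y s‖ ^ (m + 1) ≤
          ∫ y in ball (0 : V n) a, 2 ^ m * ((C * 2 ^ n * B * (s / 2)) ^ (m + 1) *
          (B⁻¹ * Iv (fun z => ‖G z‖ ^ (m + 1)) y s) +
          ‖av φ g y (s / 2 / 2 ^ N) - av φ g y (s / 2)‖ ^ (m + 1)) := by
        refine integral_mono_of_nonneg (Eventually.of_forall fun y => by positivity) i3
          (Eventually.of_forall fun y => ?_)
        have k1 := step hA hB hK C0 hC hW y hs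
        have k2 := jens hA (m + 1) (fun z => norm_nonneg (G z)) lG lq y hs
        have k3 : 0 ≤ Iv (fun z => ‖G z‖) y s := integral_nonneg fun z => norm_nonneg _
        have k4 : ‖av φ g y (s / 2 ^ (N + 1)) - av φ g y s‖ ≤
            C * 2 ^ n * B * (s / 2) * (B⁻¹ * Iv (fun z => ‖G z‖) y s) +
            ‖av φ g y (s / 2 / 2 ^ N) - av φ g y (s / 2)‖ := by
          rw [show s / 2 ^ (N + 1) = s / 2 / 2 ^ N by rw [pow_succ]; field_simp,
            show C * 2 ^ n * B * (s / 2) * (B⁻¹ * Iv (fun z => ‖G z‖) y s) =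
              C * 2 ^ n * Iv (fun z => ‖G z‖) y s * (s / 2) by field_simp]
          have := norm_sub_le_norm_sub_add_norm_sub (av φ g y (s / 2 / 2 ^ N)) (av φ g y (s / 2))
            (av φ g y s)
          rw [norm_sub_rev (av φ g y (s / 2))] at this
          linarith
        refine (pow_le_pow_left₀ (norm_nonneg _) k4 _).trans
          ((add_pow_le (by positivity) (norm_nonneg _) _).trans ?_)
        rw [Nat.add_sub_cancel, mul_pow _ (B⁻¹ * _)]
        exact mul_le_mul_of_nonneg_left (add_le_add (mul_le_mul_of_nonneg_left k2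
          (by positivity)) le_rfl) (by positivity)
      rw [integral_const_mul, integral_add ((i1.const_mul _).const_mul _) i2, integral_const_mul,
        integral_const_mul] at h3
      have h4 : B⁻¹ * ∫ x in ball (0 : V n) a, Iv (fun z => ‖G z‖ ^ (m + 1)) x s ≤ E := by
        rw [inv_mul_le_iff₀ B0]
        exact h2
      calc _ ≤ _ := h3
        _ ≤ 2 ^ m * ((C * 2 ^ n * B * (s / 2)) ^ (m + 1) * E +
            (C * 2 ^ n * B * (s / 2)) ^ (m + 1) * E) :=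
          mul_le_mul_of_nonneg_left (add_le_add (mul_le_mul_of_nonneg_left h4 (by positivity)) h1)
            (by positivity)
        _ = _ := by
          rw [show C * 2 ^ n * B * s = 2 * (C * 2 ^ n * B * (s / 2)) by ring, mul_pow 2]
          ring
  have small : ∀ δ, 0 < δ → ∀ᶠ N : ℕ in atTop, ∀ y ∈ ball (0 : V n) a,
      ‖av φ g y (s₀ / 2 ^ N) - g y‖ ≤ δ := by
    intro δ hδ
    obtain ⟨r₀, hr, h⟩ := hA.unif φ g hK.tφ hK.φ0 hK.one hW.cont a δ hδ
    have t : Tendsto (fun N : ℕ => s₀ / 2 ^ N) atTop (𝓝 0) :=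
      tendsto_const_nhds.div_atTop (tendsto_pow_atTop_atTop_of_one_lt one_lt_two)
    filter_upwards [t.eventually (ge_mem_nhds hr)] with N hN y hy
    exact h y (mem_ball_zero_iff.1 hy).le _ (by positivity) hN
  have lim : Tendsto (fun N : ℕ => ∫ y in ball (0 : V n) a,
      ‖av φ g y (s₀ / 2 ^ N) - av φ g y s₀‖ ^ (m + 1)) atTop
      (𝓝 (∫ y in ball (0 : V n) a, ‖g y - av φ g y s₀‖ ^ (m + 1))) := by
    refine tendsto_integral_filter_of_dominated_convergence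
      (fun y => (1 + ‖g y - av φ g y s₀‖) ^ (m + 1)) (Eventually.of_forall fun N => ?_) ?_ ?_ ?_
    · exact (((ca _ (by positivity)).sub (ca _ s0)).norm.pow _).aestronglyMeasurable
    · filter_upwards [small 1 one_pos] with N hN
      filter_upwards [ae_restrict_mem measurableSet_ball] with y hy
      rw [Real.norm_of_nonneg (by positivity)]
      exact pow_le_pow_left₀ (norm_nonneg _) ((norm_sub_le_norm_sub_add_norm_sub _ (g y) _).trans
        (add_le_add (hN y hy) le_rfl)) _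
    · exact on_ball ((continuous_const.add (hW.cont.sub (ca _ s0)).norm).pow _).locallyIntegrable a
    · filter_upwards [ae_restrict_mem measurableSet_ball] with y hy
      have t : Tendsto (fun N : ℕ => av φ g y (s₀ / 2 ^ N)) atTop (𝓝 (g y)) := by
        refine Metric.tendsto_nhds.2 fun δ hδ => ?_
        filter_upwards [small (δ / 2) (by positivity)] with N hN
        rw [dist_eq_norm]
        linarith [hN y hy]
      exact ((t.sub tendsto_const_nhds).norm).pow _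
  exact le_of_tendsto' lim fun N => ind N s₀ s0 le_rfl

end CacQ

theorem cac {n : ℕ} (hn : 3 ≤ n) (hM : MatB n) (hA : AvA n) (hB : AvB n) : Cac n :=
  ⟨CacC.cacc hn hM hB, CacQ.poinc hA hB⟩

end Pool.Agent.MP_29b5d3_an.NC

end MrgPart2

-- ======== part 3: formerly Pool.Agent.MP_29b5d3_an.NC.GenA1
section MrgPart3

/-! Project NEARCONF: averages at good pairs and the smooth scale function. -/

set_option autoImplicit false

namespace Pool.Agent.MP_29b5d3_an.NC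

open MeasureTheory Metric Filter Topology Module
open scoped RealInnerProductSpace ContDiff

namespace GenAx

variable {n : ℕ}

/-- mean square distance from `M` at the point `x` and the scale `r` -/
noncomputable def m2 (φ : V n → ℝ) (F : V n → Mt n) (M : Mt n) (x : V n) (r : ℝ) : ℝ :=
  ∫ y, φ y * ‖F (x + r • y) - M‖ ^ 2

theorem int_phi (hA : AvA n) {φ : V n → ℝ} (t : Test φ 1) {U : Type} [NormedAddCommGroup U]
    [NormedSpace ℝ U] {g : V n → U} (hg : LocallyIntegrable g volume) (x : V n) {r : ℝ}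
    (hr : 0 < r) : Integrable (fun y => φ y • g (x + r • y)) volume :=
  (hA.loc U g hg x r hr.ne').integrable_smul_left_of_hasCompactSupport t.cont t.supp

theorem loc12 (hB : AvB n) {f : V n → V n} {F : V n → Mt n} (hW : W f F) (M : Mt n) :
    LocallyIntegrable (fun x => ‖F x - M‖ ^ 2) volume ∧
      LocallyIntegrable (fun x => ‖F x - M‖) volume := by
  simpa only [ContinuousLinearMap.one_def, ContinuousLinearMap.id_comp] using
    (hB.loc_om f F 1 M hW).2

section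

variable (hA : AvA n) (hB : AvB n) {φ ψ : V n → ℝ} (hK : Ker φ ψ) {f : V n → V n}
  {F : V n → Mt n} (hW : W f F)

include hA hB hK hW

theorem m1_le {M : Mt n} {x : V n} {r k : ℝ} (hr : 0 < r) (hk : 0 ≤ k)
    (h : m2 φ F M x r ≤ k ^ 2) : ‖av φ F x r - M‖ ≤ k ∧ ‖Bv φ F x r‖ ≤ k := by
  have j := h48.jensen_pow (μ := volume) (ρ := φ) (g := fun y => ‖F (x + r • y) - M‖) (n := 2)
    hK.φ0 (fun _ => norm_nonneg _) hK.tφ.int hK.one (int_phi hA hK.tφ (loc12 hB hW M).2 x hr)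
    (int_phi hA hK.tφ (loc12 hB hW M).1 x hr)
  have k1 := le_of_pow_le_pow_left₀ two_ne_zero hk (j.trans h)
  obtain ⟨b1, b2⟩ := hB.Bv_le φ ψ F M hK (hB.loc f F hW) x r hr
  exact ⟨b2.trans k1, b1.trans k1⟩

theorem m2_le {C E Λ : ℝ} (hC : ∀ y, |φ y| ≤ C) {M : Mt n} {x x' : V n} {r r' : ℝ} (hr : 0 < r)
    (hr' : 0 < r') (hs : ball x' r' ⊆ ball x r) (hΛ : r ≤ Λ * r')
    (h : Iv (fun z => ‖F z - M‖ ^ 2) x r ≤ E) : m2 φ F M x' r' ≤ C * Λ ^ n * E := by
  have C0 : 0 ≤ C := (abs_nonneg _).trans (hC 0)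
  have l := (loc12 hB hW M).1
  have k1 := hA.av_le ℝ φ _ C hK.tφ hC l x' r' hr'
  simp only [norm_pow, norm_norm] at k1
  have k2 := hA.Iv_mono _ x x' r r' l (fun _ => by positivity) hr' hr hs
  have k3 : r / r' ≤ Λ := by rwa [div_le_iff₀ hr']
  have k4 : 0 ≤ Iv (fun z => ‖F z - M‖ ^ 2) x r := integral_nonneg fun _ => by positivity
  have k5 : 0 ≤ r / r' := by positivity
  have k6 : 0 ≤ Λ := k5.trans k3
  calc _ ≤ ‖av φ (fun z => ‖F z - M‖ ^ 2) x' r'‖ := le_abs_self _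
    _ ≤ _ := k1
    _ ≤ C * ((r / r') ^ n * Iv (fun z => ‖F z - M‖ ^ 2) x r) := by gcongr
    _ ≤ C * (Λ ^ n * E) := by gcongr
    _ = _ := by ring

theorem m2_one (M : Mt n) (x : V n) {r : ℝ} (hr : 0 < r) :
    m2 φ F 1 x r ≤ 2 * m2 φ F M x r + 2 * ‖M - 1‖ ^ 2 := by
  have i1 := int_phi hA hK.tφ (loc12 hB hW 1).1 x hr
  have i2 := int_phi hA hK.tφ (loc12 hB hW M).1 x hr
  simp only [smul_eq_mul] at i1 i2
  have k := integral_mono i1 ((i2.const_mul 2).add (hK.tφ.int.mul_const (2 * ‖M - 1‖ ^ 2)))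
    fun y => by
      have t := norm_sub_le_norm_sub_add_norm_sub (F (x + r • y)) M 1
      have t2 : ‖F (x + r • y) - 1‖ ^ 2 ≤ 2 * ‖F (x + r • y) - M‖ ^ 2 + 2 * ‖M - 1‖ ^ 2 := by
        nlinarith [pow_le_pow_left₀ (norm_nonneg _) t 2, sq_nonneg (‖F (x + r • y) - M‖ - ‖M - 1‖)]
      have := mul_le_mul_of_nonneg_left t2 (hK.φ0 y)
      simp only [Pi.add_apply]
      linarith
  rwa [integral_add' (i2.const_mul 2) (hK.tφ.int.mul_const _), integral_const_mul,
    integral_mul_const, hK.one, one_mul] at k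

theorem avg_le (l : Mt n →L[ℝ] ℝ) {c₀ c₁ : ℝ}
    (h : ∀ᵐ z, z ∈ ball (0 : V n) 20 → l (F z) ≤ c₀ + c₁ * ‖F z - 1‖ ^ 2) {x : V n} {r : ℝ}
    (hx : ‖x‖ < 10) (hr : 0 < r) (hr' : r ≤ 10) :
    l (av φ F x r) ≤ c₀ + c₁ * m2 φ F 1 x r := by
  have i0 := int_phi hA hK.tφ (hB.loc f F hW) x hr
  have i1 := int_phi hA hK.tφ (loc12 hB hW 1).1 x hr
  simp only [smul_eq_mul] at i1
  have k := integral_mono_ae (l.integrable_comp i0)
    ((hK.tφ.int.mul_const c₀).add (i1.const_mul c₁)) (by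
      filter_upwards [hA.ae _ x r hr.ne' h] with y hy
      simp only [Pi.add_apply, map_smul, smul_eq_mul]
      by_cases h1 : 1 ≤ ‖y‖
      · simp [hK.tφ.2 y h1]
      · have : x + r • y ∈ ball (0 : V n) 20 := by
          have t := norm_add_le x (r • y)
          rw [norm_smul, Real.norm_of_nonneg hr.le] at t
          rw [mem_ball_zero_iff]
          nlinarith [not_le.1 h1]
        nlinarith [mul_le_mul_of_nonneg_left (hy this) (hK.φ0 y)])
  rwa [l.integral_comp_comm i0, integral_add' (hK.tφ.int.mul_const _) (i1.const_mul _),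
    integral_const_mul, integral_mul_const, hK.one, one_mul] at k

end

/-- the matrix entry `⟪b, X a⟫` as a functional -/
noncomputable def pr (a b : V n) : Mt n →L[ℝ] ℝ :=
  (innerSL ℝ b).comp (ContinuousLinearMap.apply ℝ (V n) a)

theorem pr_apply (a b : V n) (X : Mt n) : pr a b X = ⟪b, X a⟫ := rfl

theorem top_mono {X : Mt n} {c c' : ℝ} (h : Top X c) (hc : c ≤ c') : Top X c' := fun e =>
  (h e).trans (by gcongr)

theorem dev_mono {X : Mt n} {c c' : ℝ} (h : Dev X c) (hc : c ≤ c') : Dev X c' := fun a b =>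
  (h a b).trans (by gcongr)

section

variable (hM : MatB n) (hA : AvA n) (hB : AvB n) {φ ψ : V n → ℝ} (hK : Ker φ ψ) {f : V n → V n}
  {F : V n → Mt n} (hW : W f F) {ε : ℝ} (h0 : 0 ≤ ε) (h1 : ε ≤ 1)
  (hQ : QR (1 + ε) (ball 0 20) F) {x : V n} {r : ℝ} (hx : ‖x‖ < 10) (hr : 0 < r) (hr' : r ≤ 10)

include hA hB hK hW hQ hx hr hr'

include hM h0 h1 in
theorem top_av : Top (av φ F x r) (ε / n * (tr (av φ F x r) / n) + m2 φ F 1 x r) := fun e => by
  have k := avg_le hA hB hK hW (pr e e - ((1 + ε / n) / n * ‖e‖ ^ 2) • trL n) (c₀ := 0)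
    (c₁ := ‖e‖ ^ 2) (hQ.mono fun z hz hb => by
      have t := hM.top ε h0 h1 (F z) (hz hb) e
      simp only [sub_apply, smul_apply, pr_apply, trL_apply, smul_eq_mul]
      rw [real_inner_comm]
      linear_combination t) hx hr hr'
  simp only [sub_apply, smul_apply, pr_apply, trL_apply, smul_eq_mul] at k
  rw [real_inner_comm] at k
  linear_combination k

theorem dev_av {C : ℝ} (hC : ∀ X : Mt n, Qr (1 + ε) X → Dev X (C * (ε + ‖X - 1‖ ^ 2))) :
    Dev (av φ F x r) (C * (ε + m2 φ F 1 x r)) := fun a b => by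
  have k : ∀ s : ℝ, |s| = 1 → s * (⟪av φ F x r a, b⟫ + ⟪a, av φ F x r b⟫ -
      2 * (tr (av φ F x r) / n) * ⟪a, b⟫) ≤ C * (ε + m2 φ F 1 x r) * ‖a‖ * ‖b‖ := fun s hs => by
    have k := avg_le hA hB hK hW (s • (pr a b + pr b a - (2 / n * ⟪a, b⟫) • trL n))
      (c₀ := C * ε * ‖a‖ * ‖b‖) (c₁ := C * ‖a‖ * ‖b‖) (hQ.mono fun z hz hb => by
        have t := hC (F z) (hz hb) a b
        rw [← one_mul |_|, ← hs, ← abs_mul] at t
        have t' := (le_abs_self _).trans t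
        simp only [sub_apply, add_apply, smul_apply, pr_apply, trL_apply, smul_eq_mul]
        rw [real_inner_comm (F z a) b]
        linear_combination t') hx hr hr'
    simp only [sub_apply, add_apply, smul_apply, pr_apply, trL_apply, smul_eq_mul] at k
    rw [real_inner_comm (av φ F x r a) b] at k
    linear_combination k
  have k1 := k 1 abs_one
  have k2 := k (-1) (by simp)
  rw [abs_le]
  constructor <;> linarith

end

theorem conf_le (hn : 3 ≤ n) {b : ℝ} {M : Mt n} (h : Conf b M) : b ≤ 1 + ‖M - 1‖ := by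
  have i : Fin n := ⟨0, by omega⟩
  have k1 := h.2.1 (ev i)
  have k2 := (M - 1).le_opNorm (ev i)
  have k3 := norm_sub_norm_le (M (ev i)) (ev i)
  rw [sub_apply, one_apply_eq_self] at k2
  rw [norm_ev] at k1 k2 k3
  linarith

theorem pp_inv (hM : MatB n) {C ε : ℝ} {F : V n → Mt n} (h : PP C ε F) {x : V n} {r : ℝ}
    (hx : ‖x‖ < 10) (hr : 0 < r) (hr' : r ≤ 10) :
    ∃ b M, Conf b M ∧ Iv (fun z => ‖F z - M‖ ^ 2) x r ≤ b ^ 2 * (C * ε ^ 2) := by
  obtain ⟨a, N, hN, hI⟩ := h x (mem_ball_zero_iff.2 hx) r hr hr'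
  obtain ⟨M, hM1, e1, -⟩ := hM.conf_inv a N hN
  refine ⟨a⁻¹, M, hM1, ?_⟩
  have e : ∀ z, ‖F z - M‖ ^ 2 = a⁻¹ ^ 2 * ‖N ∘L F z - 1‖ ^ 2 := fun z => by
    rw [← mul_pow, ← hM.conf_norm _ M _ hM1, ContinuousLinearMap.comp_sub,
      ← ContinuousLinearMap.comp_assoc, e1]
    simp only [ContinuousLinearMap.one_def, ContinuousLinearMap.id_comp,
      ContinuousLinearMap.comp_id]
  simp only [e]
  rw [Iv, integral_const_mul]
  exact mul_le_mul_of_nonneg_left hI (by positivity)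

theorem avg_abs {φ ψ u : V n → ℝ} (hK : Ker φ ψ) {c : ℝ} (h : ∀ y, ‖y‖ < 1 → |u y| ≤ c) :
    |∫ y, φ y * u y| ≤ c := by
  have k := norm_integral_le_of_norm_le (μ := volume) (f := fun y => φ y * u y)
    (hK.tφ.int.mul_const c) (Eventually.of_forall fun y => by
      rw [Real.norm_eq_abs, abs_mul, abs_of_nonneg (hK.φ0 y)]
      by_cases h1 : 1 ≤ ‖y‖
      · simp [hK.tφ.2 y h1]
      · exact mul_le_mul_of_nonneg_left (h y (not_le.1 h1)) (hK.φ0 y))
  rwa [integral_mul_const, hK.one, one_mul] at k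

theorem smoothing (hA : AvA n) {φ ψ u : V n → ℝ} (hK : Ker φ ψ) {L r : ℝ} (hL : 0 < L)
    (hr : 0 < r) (hu : ∀ x y, |u x - u y| ≤ L * ‖x - y‖) :
    ∃ ρ : V n → ℝ, ContDiff ℝ 1 ρ ∧ (∀ x, ‖fderiv ℝ ρ x‖ ≤ L) ∧
      ∀ x, u x + L * r ≤ ρ x ∧ ρ x ≤ u x + 3 * (L * r) := by
  have cu : Continuous u := (LipschitzWith.of_dist_le_mul (K := ⟨L, hL.le⟩) fun x y => by
    rw [Real.dist_eq, dist_eq_norm]
    exact hu x y).continuous
  have i : ∀ x, Integrable (fun y => φ y * u (x + r • y)) volume := fun x =>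
    int_phi hA hK.tφ cu.locallyIntegrable x hr
  have s : ContDiff ℝ 1 fun x => av φ u x r :=
    ((hA.smooth ℝ φ 1 u hK.tφ cu.locallyIntegrable).comp_contDiff (f := fun x : V n => (x, r))
      (by fun_prop) fun _ => hr).of_le (by simp)
  refine ⟨fun x => av φ u x r + 2 * (L * r), s.add contDiff_const, fun x => ?_, fun x => ?_⟩
  · rw [fderiv_add_const]
    refine norm_fderiv_le_of_lipschitz ℝ (C := ⟨L, hL.le⟩)
      (LipschitzWith.of_dist_le_mul fun x x' => ?_)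
    rw [Real.dist_eq, dist_eq_norm]
    have k := avg_abs (u := fun y => u (x + r • y) - u (x' + r • y)) hK (c := L * ‖x - x'‖)
      fun y _ => by simpa only [add_sub_add_right_eq_sub] using hu (x + r • y) (x' + r • y)
    simp only [mul_sub] at k
    rwa [integral_sub (i x) (i x')] at k
  · have k := avg_abs (u := fun y => u (x + r • y) - u x) hK (c := L * r) fun y hy => by
      refine (hu _ _).trans ?_
      rw [add_sub_cancel_left, norm_smul, Real.norm_of_nonneg hr.le]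
      gcongr
      nlinarith
    simp only [mul_sub] at k
    rw [integral_sub (i x) (hK.tφ.int.mul_const _), integral_mul_const, hK.one, one_mul,
      abs_le] at k
    have e : av φ u x r = ∫ y, φ y * u (x + r • y) := rfl
    constructor <;> linarith [k.1, k.2]

theorem cone (S : Set (V n × ℝ)) {L r : ℝ} (hL : 0 < L) (hr : r ≤ 1) (hS : ∀ q ∈ S, q.2 ≤ 1) :
    ∃ u : V n → ℝ, (∀ x y, |u x - u y| ≤ L * ‖x - y‖) ∧ (∀ x, r ≤ u x ∧ u x ≤ 1) ∧
      (∀ x, ∀ q ∈ S, q.2 - L * ‖x - q.1‖ ≤ u x) ∧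
      ∀ x t, t < u x → t < r ∨ ∃ q ∈ S, t < q.2 - L * ‖x - q.1‖ := by
  let E : V n → Set ℝ := fun x => insert r ((fun q : V n × ℝ => q.2 - L * ‖x - q.1‖) '' S)
  have ub : ∀ x, ∀ t ∈ E x, t ≤ 1 := by
    rintro x t (rfl | ⟨q, hq, rfl⟩)
    · exact hr
    · have : 0 ≤ L * ‖x - q.1‖ := by positivity
      linarith [hS q hq]
  have bd : ∀ x, BddAbove (E x) := fun x => ⟨1, ub x⟩
  have ne : ∀ x, (E x).Nonempty := fun x => Set.insert_nonempty _ _
  have l1 : ∀ x, r ≤ sSup (E x) := fun x => le_csSup (bd x) (Set.mem_insert _ _)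
  have l2 : ∀ x, ∀ q ∈ S, q.2 - L * ‖x - q.1‖ ≤ sSup (E x) := fun x q hq =>
    le_csSup (bd x) (Set.mem_insert_of_mem _ ⟨q, hq, rfl⟩)
  have lip : ∀ x y, sSup (E x) ≤ sSup (E y) + L * ‖x - y‖ := fun x y => csSup_le (ne x) (by
    rintro t (rfl | ⟨q, hq, rfl⟩)
    · have : 0 ≤ L * ‖x - y‖ := by positivity
      linarith [l1 y]
    · have t := norm_sub_le_norm_sub_add_norm_sub y x q.1
      rw [norm_sub_rev y x] at t
      have := mul_le_mul_of_nonneg_left t hL.le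
      have := l2 y q hq
      dsimp only
      linarith)
  refine ⟨fun x => sSup (E x), fun x y => ?_, fun x => ⟨l1 x, csSup_le (ne x) (ub x)⟩, l2,
    fun x t ht => ?_⟩
  · have k := lip y x
    rw [norm_sub_rev] at k
    rw [abs_le]
    constructor <;> linarith [lip x y]
  · obtain ⟨s, rfl | ⟨q, hq, rfl⟩, hs⟩ := exists_lt_of_lt_csSup (ne x) ht
    · exact Or.inl hs
    · exact Or.inr ⟨q, hq, hs⟩

end GenAx

end Pool.Agent.MP_29b5d3_an.NC

end MrgPart3

-- ======== part 4: formerly Pool.Agent.MP_29b5d3_an.NC.GenA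
section MrgPart4

/-! Project NEARCONF: the stopped map. -/

set_option autoImplicit false

namespace Pool.Agent.MP_29b5d3_an.NC

open MeasureTheory Metric Filter Topology Module
open scoped RealInnerProductSpace ContDiff

namespace GenAx

variable {n : ℕ}

theorem sq_bound {k K E t : ℝ} (hk : 0 ≤ k) (hK : k + 1 ≤ K) (h : E ≤ k * t ^ 2) :
    E ≤ (K * t) ^ 2 := by
  have : k ≤ K ^ 2 := by nlinarith
  rw [mul_pow]
  exact h.trans (by gcongr)

section

variable (hn : 3 ≤ n) (hM : MatB n) (hA : AvA n) (hB : AvB n) {φ ψ : V n → ℝ} (hK : Ker φ ψ)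
  {f : V n → V n} {F : V n → Mt n} (hW : W f F) {C CV K ε : ℝ} (hC : ∀ y, |φ y| ≤ C)
  (hV : 0 < CV) (hk : C * 10 ^ n * CV + 1 ≤ K) (h0 : 0 < ε) (h4 : K * ε ≤ 1 / 4)
  (hP : PP CV ε F)

include hn hM hA hB hK hW hC hV hk h0 h4 hP

omit h0 in
theorem pp_loc {x : V n} {r : ℝ} (hx : ‖x‖ < 10) (hr : 0 < r) (hr' : r ≤ 10) :
    ∃ b M, 0 < b ∧ (∀ x' r', 0 < r' → ball x' r' ⊆ ball x r → r ≤ 10 * r' →
      m2 φ F M x' r' ≤ (K * (ε * b)) ^ 2) ∧
      ∀ A : Mt n, ‖A - M‖ ≤ K * (ε * b) → ‖A - 1‖ ≤ 1 / 4 → b ≤ 2 := by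
  have C0 : 0 ≤ C := (abs_nonneg _).trans (hC 0)
  obtain ⟨b, M, hb, hI⟩ := pp_inv hM hP hx hr hr'
  refine ⟨b, M, hb.1, fun x' r' h1 h2 h3 => sq_bound (by positivity) hk
    ((m2_le hA hB hK hW hC hr h1 h2 h3 hI).trans (le_of_eq (by ring))), fun A a1 a2 => ?_⟩
  have k1 := conf_le hn hb
  have k2 := norm_sub_le_norm_sub_add_norm_sub M A 1
  rw [norm_sub_rev M A] at k2
  nlinarith [mul_le_mul_of_nonneg_right h4 hb.1.le]

theorem good_pair {x : V n} {r d : ℝ} (hx : ‖x‖ < 10) (hr : 0 < r) (hr' : r ≤ 10)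
    (hd : ‖av φ F x r - 1‖ ≤ d) (hd' : d ≤ 1 / 4) :
    ‖Bv φ F x r‖ ≤ 2 * (K * ε) ∧ m2 φ F 1 x r ≤ 4 * d ^ 2 + 24 * (K * ε) ^ 2 := by
  have C0 : 0 ≤ C := (abs_nonneg _).trans (hC 0)
  have K0 : 0 ≤ K := le_trans (by positivity) hk
  obtain ⟨b, M, hb, h1, h2⟩ := pp_loc hn hM hA hB hK hW hC hV hk h4 hP hx hr hr'
  have k1 := h1 x r hr subset_rfl (by linarith)
  obtain ⟨a1, a2⟩ := m1_le hA hB hK hW hr (by positivity) k1
  have b2 := h2 _ a1 (hd.trans hd')
  have e0 : 0 ≤ K * ε := by positivity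
  have k2 : K * (ε * b) ≤ 2 * (K * ε) := by nlinarith
  have k3 := m2_one hA hB hK hW M x hr
  have k4 := norm_sub_le_norm_sub_add_norm_sub M (av φ F x r) 1
  rw [norm_sub_rev M (av φ F x r)] at k4
  have k5 : ‖M - 1‖ ^ 2 ≤ (2 * (K * ε) + d) ^ 2 := by gcongr; linarith
  have k6 : (K * (ε * b)) ^ 2 ≤ (2 * (K * ε)) ^ 2 := by gcongr
  exact ⟨a2.trans k2, by nlinarith [sq_nonneg (2 * (K * ε) - d)]⟩

theorem near_pair {x y : V n} {r s : ℝ} (hy : ‖y‖ < 10) (hr : 0 < r) (hs : 0 < s) (hs' : s ≤ 2)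
    (hb : ball x r ⊆ ball y (5 * s)) (hrs : 5 * s ≤ 10 * r) (hd : ‖av φ F x r - 1‖ ≤ 1 / 4) :
    ‖av φ F x r - av φ F y s‖ ≤ 4 * (K * ε) := by
  have C0 : 0 ≤ C := (abs_nonneg _).trans (hC 0)
  have K0 : 0 ≤ K := le_trans (by positivity) hk
  obtain ⟨b, M, b0, h1, h2⟩ := pp_loc hn hM hA hB hK hW hC hV hk h4 hP hy
    (show 0 < 5 * s by linarith) (by linarith)
  have a1 := (m1_le hA hB hK hW hr (by positivity) (h1 x r hr hb hrs)).1
  have a2 := (m1_le hA hB hK hW hs (by positivity)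
    (h1 y s hs (ball_subset_ball (by linarith)) (by linarith))).1
  have b2 := h2 _ a1 hd
  have e0 : 0 ≤ K * ε := by positivity
  have k4 := norm_sub_le_norm_sub_add_norm_sub (av φ F x r) M (av φ F y s)
  rw [norm_sub_rev M] at k4
  nlinarith

end

theorem top_scale (hA : AvA n) (hB : AvB n) {φ ψ : V n → ℝ} (hK : Ker φ ψ) {f : V n → V n}
    {F : V n → Mt n} (hW : W f F) {C CV K ε Λ : ℝ} (hC : ∀ y, |φ y| ≤ C) (hV : 0 < CV)
    (hΛ : 0 < Λ) (hk : C * Λ ^ n * CV + 1 ≤ K) (h0 : 0 < ε)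
    (hI : Iv (fun z => ‖F z - 1‖ ^ 2) 0 10 ≤ CV * ε ^ 2) {x : V n} {r : ℝ} (hx : ‖x‖ < 6)
    (hr : 0 < r) (hr' : r ≤ 2) (h : 10 ≤ Λ * r) : ‖av φ F x r - 1‖ ≤ K * ε := by
  have C0 : 0 ≤ C := (abs_nonneg _).trans (hC 0)
  have K0 : 0 ≤ K := le_trans (by positivity) hk
  refine (m1_le hA hB hK hW hr (by positivity) (sq_bound (by positivity) hk
    ((m2_le hA hB hK hW hC (by norm_num) hr (ball_subset_ball' ?_) h hI).trans
      (le_of_eq (by ring))))).1
  rw [dist_zero_right]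
  linarith

theorem tr_near {X Y : Mt n} {c : ℝ} (h : ‖X - Y‖ ≤ c) : tr Y - n * c ≤ tr X := by
  have k := abs_tr_le (X - Y)
  rw [tr_sub] at k
  have : (n : ℝ) * ‖X - Y‖ ≤ n * c := by gcongr
  linarith [neg_abs_le (tr X - tr Y)]

theorem stopped (hA : AvA n) (hB : AvB n) {φ ψ : V n → ℝ} (hK : Ker φ ψ) {f : V n → V n}
    {F : V n → Mt n} (hW : W f F) {ρ : V n → ℝ} (hρ : ContDiff ℝ 1 ρ) (h0 : ∀ x, 0 < ρ x)
    (c : V n) : ContDiff ℝ 1 (fun x => av φ f x (ρ x) - x - c) ∧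
      ∀ x, fderiv ℝ (fun x => av φ f x (ρ x) - x - c) x =
        av φ F x (ρ x) - 1 + (fderiv ℝ ρ x).smulRight (Bv φ F x (ρ x)) := by
  refine ⟨((((hA.smooth (V n) φ 1 f hK.tφ hW.cont.locallyIntegrable).of_le
    (m := 1) (by simp)).comp_contDiff (f := fun x : V n => (x, ρ x)) (contDiff_id.prodMk hρ)
      fun x => h0 x).sub contDiff_id).sub contDiff_const, fun x => ?_⟩
  have d := (hB.dav φ ψ f F hK hW x (ρ x) (h0 x)).comp x
    ((hasFDerivAt_id x).prodMk (hρ.differentiable one_ne_zero x).hasFDerivAt)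
  refine ((d.sub (hasFDerivAt_id x)).sub_const c).fderiv.trans ?_
  ext1 v
  simp only [sub_apply, add_apply, ContinuousLinearMap.comp_apply, ContinuousLinearMap.prod_apply,
    ContinuousLinearMap.coe_fst', ContinuousLinearMap.coe_snd', ContinuousLinearMap.id_apply,
    ContinuousLinearMap.smulRight_apply, one_apply_eq_self]
  abel

theorem move_r (hB : AvB n) {φ ψ : V n → ℝ} (hK : Ker φ ψ) {f : V n → V n} {F : V n → Mt n}
    (hW : W f F) (x : V n) {r c : ℝ} (hr : 0 < r) (hr' : r ≤ 2)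
    (h : ∀ t, min r 1 ≤ t → t ≤ 2 → ‖Bv φ F x t‖ ≤ c) : ‖av φ f x r - av φ f x 1‖ ≤ c := by
  have m0 : 0 < min r 1 := lt_min hr one_pos
  have d : ∀ t ∈ Set.Icc (min r 1) 2,
      HasDerivWithinAt (av φ f x) (Bv φ F x t) (Set.Icc (min r 1) 2) t := fun t ht => by
    have k := (hB.dav φ ψ f F hK hW x t (m0.trans_le ht.1)).comp_hasDerivAt t
      ((hasDerivAt_const t x).prodMk (hasDerivAt_id t))
    simp only [add_apply, ContinuousLinearMap.comp_apply, ContinuousLinearMap.coe_fst', map_zero,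
      ContinuousLinearMap.smulRight_apply, ContinuousLinearMap.coe_snd', one_smul, zero_add] at k
    exact k.hasDerivWithinAt
  have k := (convex_Icc (min r 1) 2).norm_image_sub_le_of_norm_hasDerivWithin_le d
    (fun t ht => h t ht.1 ht.2) ⟨min_le_right r 1, one_le_two⟩ ⟨min_le_left r 1, hr'⟩
  have c0 : 0 ≤ c := (norm_nonneg _).trans (h 2 ((min_le_left _ _).trans hr') le_rfl)
  have k2 : ‖r - 1‖ ≤ 1 := by
    rw [Real.norm_eq_abs, abs_le]
    constructor <;> linarith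
  nlinarith

theorem move_x (hA : AvA n) (hB : AvB n) {φ ψ : V n → ℝ} (hK : Ker φ ψ) {f : V n → V n}
    {F : V n → Mt n} (hW : W f F) {c : ℝ} (h : ∀ y, ‖y‖ < 5 → ‖av φ F y 1 - 1‖ ≤ c) {x : V n}
    (hx : ‖x‖ < 5) : ‖av φ f x 1 - x - av φ f 0 1‖ ≤ 5 * c := by
  obtain ⟨s, d⟩ := stopped hA hB hK hW (ρ := fun _ => 1) contDiff_const (fun _ => one_pos)
    (av φ f 0 1)
  have k := (convex_ball (0 : V n) 5).norm_image_sub_le_of_norm_fderiv_le (𝕜 := ℝ) (C := c)
    (fun y _ => s.differentiable one_ne_zero y) (fun y hy => by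
      rw [d y]
      simpa using h y (mem_ball_zero_iff.1 hy)) (mem_ball_self (by norm_num))
    (mem_ball_zero_iff.2 hx)
  have c0 : 0 ≤ c := (norm_nonneg _).trans (h 0 (by simp))
  simp only [sub_zero, sub_self] at k
  nlinarith

end GenAx

open GenAx in
theorem genA {n : ℕ} (hn : 3 ≤ n) (hM : MatB n) (hA : AvA n) (hB : AvB n) : GenA n := by
  intro φ ψ hK CV hV
  obtain ⟨C, C0, hC⟩ := hK.tφ.bdd
  obtain ⟨Cd, Cd0, hD⟩ := hM.dev
  obtain ⟨K, hk⟩ : ∃ K : ℝ, K = C * 10 ^ n * CV + 1 := ⟨_, rfl⟩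
  have K1 : 1 ≤ K := by
    have : 0 ≤ C * 10 ^ n * CV := by positivity
    linarith
  have n3 : (3 : ℝ) ≤ n := by exact_mod_cast hn
  have KK : K ≤ K ^ 2 := by nlinarith
  obtain ⟨C₀, c1, c2⟩ : ∃ C₀ : ℝ, 40 * K ^ 2 + 40 * (Cd * K ^ 2) ≤ C₀ ∧ 5 * (n * K) ≤ C₀ :=
    ⟨max _ _, le_max_left _ _, le_max_right _ _⟩
  have c3 : Cd ≤ Cd * K ^ 2 := by nlinarith
  refine ⟨C₀, by linarith, fun L L0 L3 => ?_⟩
  obtain ⟨CL, l1, l2⟩ : ∃ CL : ℝ, K ≤ CL ∧ C * (100 / L) ^ n * CV + 1 ≤ CL :=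
    ⟨max _ _, le_max_left _ _, le_max_right _ _⟩
  refine ⟨CL, by linarith, fun ε δ δ₁ r₀ e0 d0 d1 d2 d3 r0 r1 f F hW hQ hP hI => ?_⟩
  have Ke : K * ε ≤ δ₁ := le_trans (by gcongr) d1
  have K4 : K * ε ≤ 1 / 4 := Ke.trans d3
  have eK : ε ≤ K * ε := le_mul_of_one_le_left e0.le K1
  have e1 : ε ≤ 1 := by linarith
  have k0 : 0 < K * ε := by positivity
  have sq1 : (K * ε) ^ 2 ≤ K ^ 2 * ε := by
    rw [mul_pow]
    exact mul_le_mul_of_nonneg_left (pow_le_of_le_one e0.le e1 two_ne_zero) (sq_nonneg K)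
  have cK : 7 * K * ε ≤ C₀ * ε := by gcongr; linarith
  let Ok : V n → ℝ → Prop := fun x r => ‖av φ F x r - 1‖ ≤ δ₁ ∧ tr (av φ F x r) / n ≤ 1 + δ
  let S : Set (V n × ℝ) := {q | ‖q.1‖ < 6 ∧ r₀ ≤ q.2 ∧ q.2 ≤ 2 ∧ ¬ Ok q.1 q.2}
  have top : ∀ x r, ‖x‖ < 6 → L / 10 ≤ r → r ≤ 2 → Ok x r := fun x r hx h1 h2 => by
    have k := top_scale hA hB hK hW hC hV (show 0 < 100 / L by positivity) l2 e0 hI hx
      (by linarith) h2 (by rw [div_mul_eq_mul_div, le_div_iff₀ L0]; linarith)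
    refine ⟨k.trans d1, ?_⟩
    have k2 := tr_near (X := 1) (Y := av φ F x r) (c := δ) (by rw [norm_sub_rev]; linarith)
    rw [tr_one] at k2
    rw [div_le_iff₀ (by linarith)]
    linarith
  have small : ∀ q ∈ S, q.2 < L / 10 := fun q hq => by
    by_contra h
    exact hq.2.2.2 (top _ _ hq.1 (not_lt.1 h) hq.2.2.1)
  obtain ⟨u, ul, ub, uS, ux⟩ := cone S L0 r1 fun q hq => by linarith [small q hq]
  obtain ⟨ρ, ρs, ρd, ρb⟩ := smoothing hA hK L0 r0 ul
  have Lr : 0 < L * r₀ := by positivity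
  have Lr' : 3 * (L * r₀) ≤ r₀ := by linarith [mul_le_mul_of_nonneg_right L3 r0.le]
  have ρ0 : ∀ x, 0 < ρ x := fun x => by linarith [(ρb x).1, (ub x).1]
  have ρ2 : ∀ x, ρ x ≤ 2 := fun x => by linarith [(ρb x).2, (ub x).2]
  have ok : ∀ x r, ‖x‖ < 6 → u x < r → r ≤ 2 → Ok x r := fun x r hx h1 h2 => by
    by_contra h
    have k := uS x (x, r) ⟨hx, by linarith [(ub x).1], h2, h⟩
    simp only [sub_self, norm_zero, mul_zero, sub_zero] at k
    linarith
  have okρ : ∀ x, ‖x‖ < 6 → Ok x (ρ x) := fun x hx =>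
    ok x _ hx (by linarith [(ρb x).1]) (ρ2 x)
  have est : ∀ x r, ‖x‖ < 6 → 0 < r → r ≤ 2 → Ok x r → ‖Bv φ F x r‖ ≤ 2 * (K * ε) ∧
      Top (av φ F x r) (ε / n * (1 + δ) + (4 * δ₁ ^ 2 + 24 * (K * ε) ^ 2)) ∧
      Dev (av φ F x r) (Cd * (ε + (4 * δ₁ ^ 2 + 24 * (K * ε) ^ 2))) ∧
      ‖av φ F x r‖ ≤ 1 + δ + C₀ * (ε + δ₁ ^ 2) := fun x r hx hr hr' h => by
    have x10 : ‖x‖ < 10 := by linarith
    have r10 : r ≤ 10 := by linarith
    obtain ⟨g1, g2⟩ := good_pair hn hM hA hB hK hW hC hV hk.ge e0 K4 hP x10 hr r10 h.1 d3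
    have t := top_mono (top_av hM hA hB hK hW e0.le e1 hQ x10 hr r10)
      (c' := ε / n * (1 + δ) + (4 * δ₁ ^ 2 + 24 * (K * ε) ^ 2)) (by gcongr; exact h.2)
    have δ0 : 0 ≤ δ := le_trans (mul_nonneg (by linarith) e0.le) d0
    refine ⟨g1, t, dev_mono (dev_av hA hB hK hW hQ x10 hr r10 (hD ε e0.le e1)) (by gcongr), ?_⟩
    have k := hM.norm_le _ _ δ₁ t (by positivity) h.1 (by linarith)
    have k1 : ε / n * (1 + δ) ≤ ε := by
      rw [div_mul_eq_mul_div, div_le_iff₀ (by linarith)]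
      exact mul_le_mul_of_nonneg_left (by linarith) e0.le
    have k2 : 25 * K ^ 2 * ε ≤ C₀ * ε := by gcongr; linarith
    have k3 : 5 * δ₁ ^ 2 ≤ C₀ * δ₁ ^ 2 := by gcongr; linarith
    have k4 : ε ≤ K ^ 2 * ε := le_mul_of_one_le_left e0.le (by linarith)
    linarith [h.2, sq_nonneg δ₁]
  obtain ⟨ws, wd⟩ := stopped hA hB hK hW ρs ρ0 (av φ f 0 1)
  have rk : ∀ x, ‖x‖ < 6 →
      ‖(fderiv ℝ ρ x).smulRight (Bv φ F x (ρ x))‖ ≤ L * (2 * (K * ε)) := fun x hx => by
    rw [ContinuousLinearMap.norm_smulRight_apply]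
    exact mul_le_mul (ρd x) (est x _ hx (ρ0 x) (ρ2 x) (okρ x hx)).1 (norm_nonneg _) L0.le
  have LK : L * (2 * (K * ε)) ≤ K * ε := by linarith [mul_le_mul_of_nonneg_right L3 k0.le]
  refine ⟨_, {q ∈ S | ‖q.1‖ ≤ 2 ∧ u q.1 ≤ 2 * q.2}, ws, fun x hx => ?_, ?_, fun x hx => ?_⟩
  · have x5 : ‖x‖ < 5 := mem_ball_zero_iff.1 hx
    have x6 : ‖x‖ < 6 := by linarith
    obtain ⟨-, g2, g3, -⟩ := est x _ x6 (ρ0 x) (ρ2 x) (okρ x x6)
    have b := rk x x6
    refine ⟨?_, ?_, ?_⟩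
    · have k1 := move_r hB hK hW x (ρ0 x) (ρ2 x) (c := 2 * (K * ε)) fun t h1 h2 => by
        have t0 : 0 < t := (lt_min (ρ0 x) one_pos).trans_le h1
        refine (est x t x6 t0 h2 ?_).1
        rcases min_le_iff.1 h1 with h | h
        · exact ok x t x6 (by linarith [(ρb x).1]) h2
        · exact top x t x6 (by linarith) h2
      have k2 := move_x hA hB hK hW (c := K * ε) (fun y hy => top_scale hA hB hK hW hC hV
        (by norm_num : (0 : ℝ) < 10) hk.ge e0 hI (by linarith) one_pos one_le_two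
        (by norm_num)) x5
      have k3 := norm_add_le (av φ f x (ρ x) - av φ f x 1) (av φ f x 1 - x - av φ f 0 1)
      rw [show av φ f x (ρ x) - av φ f x 1 + (av φ f x 1 - x - av φ f 0 1) =
        av φ f x (ρ x) - x - av φ f 0 1 by abel] at k3
      linarith
    · rw [wd x]
      refine top_mono (hM.top_add _ _ _ (hM.top_sub_one _ _ g2)) ?_
      have k1 : 4 * δ₁ ^ 2 ≤ C₀ * δ₁ ^ 2 := by gcongr; linarith
      have k2 : 24 * K ^ 2 * ε ^ 2 ≤ C₀ * ε ^ 2 := by gcongr; linarith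
      have k3 : 4 * K * (ε * L) ≤ C₀ * (ε * L) := by gcongr; linarith
      linarith
    · rw [wd x]
      refine dev_mono (hM.dev_add _ _ _ (hM.dev_sub_one _ _ g3)) ?_
      have k1 : 4 * Cd * δ₁ ^ 2 ≤ C₀ * δ₁ ^ 2 := by gcongr; linarith
      have k2 : (Cd + 24 * (Cd * K ^ 2) + 4 * K) * ε ≤ C₀ * ε := by gcongr; linarith
      have k3 : Cd * (K * ε) ^ 2 ≤ Cd * (K ^ 2 * ε) := by gcongr
      linarith
  · rintro ⟨y, s⟩ ⟨hq, y2, us⟩
    have sm := small _ hq
    have uq := fun x => uS x _ hq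
    obtain ⟨y6, s1, s2, bad⟩ := hq
    dsimp only at sm uq y2 us y6 s1 s2 bad ⊢
    have s0 : 0 < s := r0.trans_le s1
    have a1 : 15 * s ≤ 5 * s / L := by
      rw [le_div_iff₀ L0]
      linarith [mul_le_mul_of_nonneg_right L3 s0.le]
    have a2 : 5 * s / L ≤ 1 / 2 := by rw [div_le_iff₀ L0]; linarith
    refine ⟨y2, s0, by linarith, a2, (est y _ y6 (by linarith) (by linarith)
      (ok y _ y6 (by linarith) (by linarith))).2.2.2, fun x hx => ?_⟩
    have xy : ‖x - y‖ < s := mem_ball_iff_norm.1 hx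
    have x6 : ‖x‖ < 6 := by linarith [norm_sub_norm_le x y]
    have Lx : L * ‖x - y‖ ≤ 1 / 3 * s := by gcongr
    have p1 : 2 / 3 * s ≤ ρ x := by linarith [(ρb x).1, uq x]
    have p2 : ρ x ≤ 4 * s := by linarith [(ρb x).2, (abs_le.1 (ul x y)).2]
    have k1 := near_pair hn hM hA hB hK hW hC hV hk.ge e0 K4 hP (x := x) (y := y) (by linarith)
      (ρ0 x) s0 s2 (ball_subset_ball' (by rw [dist_eq_norm]; linarith)) (by linarith)
      ((okρ x x6).1.trans d3)
    have k2 := norm_add_le (av φ F x (ρ x) - av φ F y s)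
      ((fderiv ℝ ρ x).smulRight (Bv φ F x (ρ x)))
    have k3 : ‖(av φ F x (ρ x) - 1 + (fderiv ℝ ρ x).smulRight (Bv φ F x (ρ x))) -
        (av φ F y s - 1)‖ ≤ 5 * (K * ε) := by
      rw [show av φ F x (ρ x) - 1 + (fderiv ℝ ρ x).smulRight (Bv φ F x (ρ x)) - (av φ F y s - 1) =
        av φ F x (ρ x) - av φ F y s + (fderiv ℝ ρ x).smulRight (Bv φ F x (ρ x)) by abel]
      linarith [rk x x6]
    rw [wd x]
    rcases not_and_or.1 bad with h | h
    · left
      have k4 := norm_sub_norm_le (av φ F y s - 1)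
        (av φ F x (ρ x) - 1 + (fderiv ℝ ρ x).smulRight (Bv φ F x (ρ x)))
      rw [norm_sub_rev] at k3
      linarith [not_le.1 h]
    · right
      have k4 := tr_near k3
      have k5 := not_le.1 h
      rw [lt_div_iff₀ (by linarith)] at k5
      rw [tr_sub (av φ F y s), tr_one] at k4
      have k6 : 5 * (n * K) * ε ≤ C₀ * ε := by gcongr
      linarith
  · have x1 : ‖x‖ < 1 := mem_ball_zero_iff.1 hx
    have x6 : ‖x‖ < 6 := by linarith
    by_cases h : Ok x r₀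
    · exact Or.inl (est x r₀ x6 r0 (by linarith) h).2.2.2
    right
    obtain ⟨q, hq, k⟩ : ∃ q ∈ S, u x - r₀ / 2 < q.2 - L * ‖x - q.1‖ := by
      rcases ux x (u x - r₀ / 2) (by linarith) with k | k
      · exact ⟨(x, r₀), ⟨x6, le_rfl, by linarith, h⟩, by simpa using k⟩
      · exact k
    have sm := small q hq
    have k1 : L * ‖x - q.1‖ < q.2 := by linarith [(ub x).1]
    have k2 : ‖x - q.1‖ < 1 / 10 := lt_of_mul_lt_mul_left (by linarith) L0.le
    refine ⟨q, ⟨hq, ?_, ?_⟩, ?_⟩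
    · have := norm_sub_norm_le q.1 x
      rw [norm_sub_rev] at this
      linarith
    · linarith [(abs_le.1 (ul x q.1)).1, hq.2.1]
    · rw [mem_ball_iff_norm, lt_div_iff₀ L0]
      linarith

end Pool.Agent.MP_29b5d3_an.NC

end MrgPart4

-- ======== part 5: formerly Pool.Agent.MP_29b5d3_an.NC.GenB
section MrgPart5

/-! Project NEARCONF: one generation of the stopping time. -/

set_option autoImplicit false

namespace Pool.Agent.MP_29b5d3_an.NC

open MeasureTheory Metric Filter Topology Module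
open scoped RealInnerProductSpace ContDiff ENNReal

variable {n : ℕ}

namespace GenB

theorem top_mono {X : Mt n} {c c' : ℝ} (h : Top X c) (hc : c ≤ c') : Top X c' := fun e =>
  (h e).trans (mul_le_mul_of_nonneg_right hc (sq_nonneg _))

theorem dev_mono {X : Mt n} {c c' : ℝ} (h : Dev X c) (hc : c ≤ c') : Dev X c' := fun a b =>
  (h a b).trans (by gcongr)

theorem exists_big {A β lam : ℝ} (hA : 0 < A) (hβ : 0 < β) (hl : 0 < lam) (N₀ : ℝ) :
    ∃ N, N₀ ≤ N ∧ A * Real.exp (-(lam * N)) ≤ β := by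
  refine ⟨max N₀ (A / β / lam), le_max_left _ _, ?_⟩
  have h1 : A / β ≤ lam * max N₀ (A / β / lam) := by
    calc A / β = lam * (A / β / lam) := by field_simp
      _ ≤ _ := mul_le_mul_of_nonneg_left (le_max_right _ _) hl.le
  have h2 := Real.add_one_le_exp (lam * max N₀ (A / β / lam))
  rw [Real.exp_neg, ← div_eq_mul_inv, div_le_iff₀ (Real.exp_pos _)]
  rw [div_le_iff₀ hβ] at h1
  nlinarith

theorem num1 {m θ η ε N C C₀ A B : ℝ} (hm : 3 ≤ m) (hη : η = (1 - θ) / 3) (η0 : 0 < η)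
    (ε0 : 0 < ε) (N0 : 0 < N) (NK : C₀ + C * C₀ ≤ N) (hA : 0 ≤ A) (hC : 0 < C)
    (h : A * C * Real.exp ((θ + η) * (C₀ + C * C₀) + θ * m * (2 * C₀)) *
      Real.exp (-(η * m * N)) ≤ B) :
    A * (C * Real.exp (-((m * (N * ε) - C₀ * ε - C * (C₀ * ε)) * (m - 2 * (3 * η / 2)) /
      (m ^ 2 * (ε / m * (1 + η)))))) ≤ B / Real.exp (θ * m * (N + 2 * C₀)) := by
  rw [le_div_iff₀ (Real.exp_pos _)]
  refine le_trans ?_ h
  have m0 : 0 < m := by linarith
  have k0 : 0 ≤ m * N - (C₀ + C * C₀) := by nlinarith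
  have k2 : (m * (N * ε) - C₀ * ε - C * (C₀ * ε)) * (m - 2 * (3 * η / 2)) /
      (m ^ 2 * (ε / m * (1 + η))) = (m - 3 * η) / (m * (1 + η)) * (m * N - (C₀ + C * C₀)) := by
    field_simp
    ring
  have k3 : θ + η ≤ (m - 3 * η) / (m * (1 + η)) := by
    rw [le_div_iff₀ (by positivity), show θ = 1 - 3 * η by rw [hη]; ring]
    nlinarith [mul_nonneg η0.le (show (0 : ℝ) ≤ m - 3 by linarith),
      mul_nonneg (mul_nonneg η0.le η0.le) m0.le]
  have k1 := mul_le_mul_of_nonneg_right k3 k0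
  rw [k2, ← mul_assoc, mul_assoc (A * C), mul_assoc (A * C), ← Real.exp_add, ← Real.exp_add]
  refine mul_le_mul_of_nonneg_left (Real.exp_le_exp.2 ?_) (by positivity)
  linarith

theorem num2 {ε M C C₀ C₁ A B : ℝ} (ε0 : 0 < ε) (hC : 0 < C) (hC₀ : 0 < C₀) (hC₁ : 0 < C₁)
    (h : A * C * Real.exp ((C₀ + C * C₀) / (C * (2 * C₀))) * C₁ *
      Real.exp (-((C * (2 * C₀))⁻¹ * M)) ≤ B) :
    A * (C * Real.exp (-((M * ε - C₀ * ε - C * (C₀ * ε)) / (C * (2 * C₀ * ε))))) ≤ B / C₁ := by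
  rw [le_div_iff₀ hC₁]
  refine le_of_eq_of_le ?_ h
  have k2 : -((M * ε - C₀ * ε - C * (C₀ * ε)) / (C * (2 * C₀ * ε))) =
      (C₀ + C * C₀) / (C * (2 * C₀)) + -((C * (2 * C₀))⁻¹ * M) := by
    field_simp
    ring
  rw [k2, Real.exp_add]
  ring

theorem num3 {m θ ε p K : ℝ} (ε0 : 0 < ε) (p0 : 0 < p) (p1 : p ≤ θ * m / ε) (hK : 0 ≤ K) :
    (1 + K * ε) ^ p ≤ Real.exp (θ * m * K) := by
  have k1 : 1 + K * ε ≤ Real.exp (K * ε) := by linarith [Real.add_one_le_exp (K * ε)]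
  refine (Real.rpow_le_rpow (by positivity) k1 p0.le).trans ?_
  rw [← Real.exp_mul]
  refine Real.exp_le_exp.2 ?_
  rw [le_div_iff₀ ε0] at p1
  nlinarith [mul_le_mul_of_nonneg_left p1 hK]

theorem num4 {m η ε N M C₀ L : ℝ} (hm : 3 ≤ m) (η1 : η ≤ 1 / 3) (ε0 : 0 < ε) (N0 : 0 < N)
    (M0 : 0 < M) (hC : 0 < C₀) (LL : m * C₀ * L = η / 2)
    (h : ε * (N + m * C₀ * (M ^ 2 + 1) + M + M ^ 2) ≤ η / 2) :
    N * ε ≤ 1 ∧ M * ε ≤ 1 / 4 ∧ C₀ * (ε + (M * ε) ^ 2) ≤ 2 * C₀ * ε ∧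
      ε / m * (1 + N * ε) + C₀ * ((M * ε) ^ 2 + ε ^ 2 + ε * L) ≤ ε / m * (1 + η) := by
  have m0 : 0 < m := by linarith
  have t1 : 0 < ε * N := by positivity
  have t2 : 0 < ε * (m * C₀ * (M ^ 2 + 1)) := by positivity
  have t3 : 0 < ε * M := by positivity
  have t4 : 0 < ε * M ^ 2 := by positivity
  have d2 : (M * ε) ^ 2 ≤ ε := by nlinarith
  refine ⟨by linarith, by linarith, by nlinarith, ?_⟩
  have e : C₀ * ((M * ε) ^ 2 + ε ^ 2 + ε * L) =
      ε / m * (ε * (m * C₀ * (M ^ 2 + 1)) + m * C₀ * L) := by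
    field_simp
  rw [e, ← mul_add, LL]
  gcongr ε / m * ?_
  linarith

/-- the covering step -/
theorem cover {L : ℝ} (hL : 0 < L) (hL1 : L ≤ 1) (T : Set (V n × ℝ)) (D : Set (V n))
    (hT : ∀ q ∈ T, 0 < q.2 ∧ 5 * q.2 / L ≤ 1 / 2 ∧ ball q.1 q.2 ⊆ D) :
    ∃ U : Set (V n × ℝ), U.Countable ∧ (∀ q ∈ U, ∃ q' ∈ T, q = (q'.1, 5 * q'.2 / L)) ∧
      ∑' q : U, volume (ball q.1.1 q.1.2) ≤ ENNReal.ofReal ((5 / L) ^ n) * volume D ∧
      ∀ q ∈ T, ∃ q' ∈ U, ball q.1 (q.2 / L) ⊆ ball q'.1 q'.2 := by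
  obtain ⟨u, hu, hd, hc⟩ := Vitali.exists_disjoint_subfamily_covering_enlargement_ball T
    (fun q => q.1) (fun q => q.2 / L) 1 (fun q hq => by
      obtain ⟨h0, h1, -⟩ := hT q hq
      have : 0 < q.2 / L := div_pos h0 hL
      rw [mul_div_assoc] at h1
      linarith) 5 (by norm_num)
  have hd' : u.PairwiseDisjoint fun q => ball q.1 q.2 := fun a ha b hb hab =>
    (hd ha hb hab).mono (ball_subset_ball (le_div_self (hT a (hu ha)).1.le hL hL1))
      (ball_subset_ball (le_div_self (hT b (hu hb)).1.le hL hL1))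
  have cu : u.Countable := hd'.countable_of_isOpen (fun _ _ => isOpen_ball)
    fun q hq => nonempty_ball.2 (hT q (hu hq)).1
  refine ⟨(fun q => (q.1, 5 * q.2 / L)) '' u, cu.image _, ?_, ?_, fun q hq => ?_⟩
  · rintro _ ⟨q, hq, rfl⟩
    exact ⟨q, hu hq, rfl⟩
  · refine (ENNReal.tsum_le_tsum_comp_of_surjective
      (Set.imageFactorization_surjective (f := fun q : V n × ℝ => (q.1, 5 * q.2 / L)) (s := u))
      _).trans ?_
    have e : ∀ q : u, volume (ball q.1.1 (5 * q.1.2 / L)) =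
        ENNReal.ofReal ((5 / L) ^ n) * volume (ball q.1.1 q.1.2) := fun q => by
      rw [show 5 * q.1.2 / L = 5 / L * q.1.2 by ring,
        Measure.addHaar_ball_mul_of_pos volume _ (by positivity), fr,
        Measure.addHaar_ball_center volume q.1.1]
    calc _ = ∑' q : u, ENNReal.ofReal ((5 / L) ^ n) * volume (ball q.1.1 q.1.2) :=
          tsum_congr e
      _ = ENNReal.ofReal ((5 / L) ^ n) * volume (⋃ q ∈ u, ball q.1 q.2) := by
          rw [ENNReal.tsum_mul_left, measure_biUnion cu hd' fun _ _ => measurableSet_ball]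
      _ ≤ _ := by
          gcongr
          exact Set.iUnion₂_subset fun q hq => (hT q (hu hq)).2.2
  · obtain ⟨b, hb, h⟩ := hc q hq
    exact ⟨_, ⟨b, hb, rfl⟩, by simpa only [mul_div_assoc] using h⟩

end GenB

open GenB in
theorem gen (hn : 3 ≤ n) (hL : Lin n) (h : GenA n) : Gen n := by
  intro φ ψ hK CV θ β hCV hθ0 hθ1 hβ
  obtain ⟨C₀, hC₀, h⟩ := h φ ψ hK CV hCV
  have hn' : (3 : ℝ) ≤ n := by exact_mod_cast hn
  obtain ⟨η, hη⟩ : ∃ η : ℝ, η = (1 - θ) / 3 := ⟨_, rfl⟩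
  have η0 : 0 < η := by rw [hη]; linarith
  have η1 : η ≤ 1 / 3 := by rw [hη]; linarith
  have nC : 3 ≤ n * C₀ := by nlinarith
  obtain ⟨L, hLd⟩ : ∃ L : ℝ, L = η / (2 * (n * C₀)) := ⟨_, rfl⟩
  have L0 : 0 < L := by rw [hLd]; positivity
  have LL : n * C₀ * L = η / 2 := by rw [hLd]; field_simp
  have L1 : L ≤ 1 / 3 := by nlinarith
  obtain ⟨CL, hCL, h⟩ := h L L0 L1
  obtain ⟨C, hC, hs⟩ := hL.sharp (3 * η / 2) (by positivity) (by linarith)
  obtain ⟨C', hC', hr⟩ := hL.rough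
  have C00 : 0 < C₀ := by linarith
  obtain ⟨N, hN, hN2⟩ := exists_big
    (A := (5 / L) ^ n * C * Real.exp ((θ + η) * (C₀ + C * C₀) + θ * n * (2 * C₀)))
    (β := β / 2) (lam := η * n) (by positivity) (by positivity) (by positivity)
    (max CL (C₀ + C * C₀))
  have NC : CL ≤ N := (le_max_left _ _).trans hN
  have NK : C₀ + C * C₀ ≤ N := (le_max_right _ _).trans hN
  have N0 : 0 < N := hCL.trans_le NC
  obtain ⟨C₁, hC₁⟩ : ∃ C₁ : ℝ, C₁ = Real.exp (θ * n * (N + 2 * C₀)) := ⟨_, rfl⟩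
  have C10 : 0 < C₁ := by rw [hC₁]; positivity
  obtain ⟨M, hM, hM2⟩ := exists_big
    (A := (5 / L) ^ n * C' * Real.exp ((C₀ + C' * C₀) / (C' * (2 * C₀))) * C₁)
    (β := β / 2) (lam := (C' * (2 * C₀))⁻¹) (by positivity) (by positivity) (by positivity)
    (max CL (C₀ + C' * C₀))
  have MC : CL ≤ M := (le_max_left _ _).trans hM
  have MK : C₀ + C' * C₀ ≤ M := (le_max_right _ _).trans hM
  have M0 : 0 < M := hCL.trans_le MC
  obtain ⟨S, hS⟩ : ∃ S : ℝ, S = N + n * C₀ * (M ^ 2 + 1) + M + M ^ 2 := ⟨_, rfl⟩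
  have S0 : 0 < S := by rw [hS]; positivity
  refine ⟨η / 2 / S, C₁, by positivity, C10, ?_⟩
  intro ε p r₀ ε0 ε1 p0 p1 r0 r1 f F hW hQ hP hI
  rw [le_div_iff₀ S0, hS] at ε1
  obtain ⟨d1, d2, d3, cT⟩ := num4 hn' η1 ε0 N0 M0 C00 LL ε1
  obtain ⟨w, T, hw, h1, h2, h3⟩ := h ε (N * ε) (M * ε) r₀ ε0
    (mul_le_mul_of_nonneg_right NC ε0.le) (mul_le_mul_of_nonneg_right MC ε0.le) d1 d2 r0 r1
    f F hW hQ hP hI
  have wle : 1 + N * ε + C₀ * (ε + (M * ε) ^ 2) ≤ 1 + (N + 2 * C₀) * ε := by linarith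
  have v1 := hs w (C₀ * ε) (ε / n * (1 + η)) (n * (N * ε) - C₀ * ε) hw (by positivity)
    (by positivity) fun x hx => ⟨(h1 x hx).1, top_mono (h1 x hx).2.1 cT⟩
  have v2 := hr w (C₀ * ε) (2 * C₀ * ε) (M * ε - C₀ * ε) hw (by positivity)
    (by positivity) (fun x hx => ⟨(h1 x hx).1, dev_mono (h1 x hx).2.2 d3⟩)
    (by linarith [mul_le_mul_of_nonneg_right MK ε0.le])
  have wp : (1 + (N + 2 * C₀) * ε) ^ p ≤ C₁ := hC₁ ▸ num3 ε0 p0 p1 (by positivity)
  have l0 : 0 ≤ (5 / L) ^ n := by positivity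
  have e1 := num1 hn' hη η0 ε0 N0 NK l0 hC hN2
  rw [← hC₁] at e1
  have e2 := num2 ε0 hC' C00 C10 hM2
  obtain ⟨U, cU, hU, sU, vU⟩ := cover L0 (by linarith) T
    ({x ∈ ball (0 : V n) 3 | n * (N * ε) - C₀ * ε < tr (fderiv ℝ w x)} ∪
      {x ∈ ball (0 : V n) 3 | M * ε - C₀ * ε < ‖fderiv ℝ w x‖}) fun q hq => by
    obtain ⟨a1, a2, -, a4, -, a6⟩ := h2 q hq
    refine ⟨a2, a4, fun x hx => ?_⟩
    have b1 : x ∈ ball (0 : V n) 3 := by
      rw [div_le_iff₀ L0] at a4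
      have b2 := norm_sub_norm_le x q.1
      rw [mem_ball, dist_eq_norm] at hx
      rw [mem_ball_zero_iff]
      linarith
    exact (a6 x hx).elim (fun k => Or.inr ⟨b1, k⟩) fun k => Or.inl ⟨b1, k⟩
  have w1 : 1 ≤ 1 + (N + 2 * C₀) * ε := le_add_of_nonneg_right (by positivity)
  refine ⟨U, 1 + (N + 2 * C₀) * ε, cU, w1, wp, fun q hq => ?_, ?_, fun x hx => ?_⟩
  · obtain ⟨q', hq', rfl⟩ := hU q hq
    obtain ⟨a1, -, a3, a4, a5, -⟩ := h2 q' hq'
    exact ⟨a1, a3, a4, a5.trans wle⟩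
  · refine sU.trans ?_
    calc _ ≤ ENNReal.ofReal ((5 / L) ^ n) * (_ + _) := by
          gcongr
          exact (measure_union_le _ _).trans (add_le_add v1 v2)
      _ ≤ ENNReal.ofReal (β / 2 / C₁) + ENNReal.ofReal (β / 2 / C₁) := by
          rw [mul_add, ← ENNReal.ofReal_mul l0, ← ENNReal.ofReal_mul l0]
          exact add_le_add (ENNReal.ofReal_le_ofReal e1) (ENNReal.ofReal_le_ofReal e2)
      _ ≤ _ := by
          rw [← ENNReal.ofReal_add (by positivity) (by positivity)]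
          refine ENNReal.ofReal_le_ofReal ?_
          rw [show β / 2 / C₁ + β / 2 / C₁ = β / C₁ by ring]
          exact div_le_div_of_nonneg_left hβ.le (by positivity) wp
  · rcases h3 x hx with k | ⟨q, hq, k⟩
    · exact Or.inl (k.trans wle)
    · obtain ⟨q', hq', k'⟩ := vU q hq
      exact Or.inr ⟨q', hq', k' k⟩

end Pool.Agent.MP_29b5d3_an.NC

end MrgPart5

-- ======== part 6: formerly Pool.Agent.MP_29b5d3_an.NC.Iter
section MrgPart6

/-! Project NEARCONF: iteration of the stopping time. -/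

set_option autoImplicit false

namespace Pool.Agent.MP_29b5d3_an.NC

open MeasureTheory Metric Filter Topology Module
open scoped RealInnerProductSpace ContDiff ENNReal

variable {n : ℕ}

namespace IterP

/-- the class of maps on which the iteration runs -/
def Cls (CV ε : ℝ) (F : V n → Mt n) : Prop :=
  (∃ f, W f F) ∧ QR (1 + ε) (ball 0 20) F ∧ PP CV ε F

theorem av_comp (hA : AvA n) {φ : V n → ℝ} (hφ : Test φ 1) {F : V n → Mt n}
    (hF : LocallyIntegrable F volume) (N : Mt n) (x : V n) {r : ℝ} (hr : r ≠ 0) :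
    av φ (fun z => N ∘L F z) x r = N ∘L av φ F x r := by
  have i : Integrable (fun y => φ y • F (x + r • y)) volume :=
    (hA.loc _ F hF x r hr).integrable_smul_left_of_hasCompactSupport hφ.cont hφ.supp
  have e := (ContinuousLinearMap.compL ℝ (V n) (V n) (V n) N).integral_comp_comm i
  simp only [map_smul, ContinuousLinearMap.compL_apply] at e
  exact e

theorem Cls.conf (hM : MatB n) (hB : AvB n) {CV ε a : ℝ} {F : V n → Mt n} {N : Mt n}
    (h : Cls CV ε F) (hN : Conf a N) : Cls CV ε (fun z => N ∘L F z) := by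
  obtain ⟨⟨f, hW⟩, hQ, hP⟩ := h
  refine ⟨⟨fun y => N (f y), ?_⟩, ?_, ?_⟩
  · simpa only [inv_one, one_smul, zero_add] using hB.resc f F N 0 1 hW one_ne_zero
  · filter_upwards [hQ] with x hx hb
    exact hM.conf_qr a _ N _ hN (hx hb)
  · intro x hx r h0 h1
    obtain ⟨a', N', hN', hI⟩ := hP x hx r h0 h1
    obtain ⟨M, hM', e, -⟩ := hM.conf_inv a N hN
    refine ⟨_, N' ∘L M, hM.conf_comp _ _ _ _ hN' hM', ?_⟩
    have : (fun z => ‖(N' ∘L M) ∘L (N ∘L F z) - 1‖ ^ 2) = fun z => ‖N' ∘L F z - 1‖ ^ 2 := by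
      ext z
      rw [ContinuousLinearMap.comp_assoc, ← ContinuousLinearMap.comp_assoc M, e,
        ContinuousLinearMap.one_def, ContinuousLinearMap.id_comp]
    rw [this]
    exact hI

theorem Cls.child (hA : AvA n) (hB : AvB n) {CV ε s : ℝ} {F : V n → Mt n} {y : V n}
    (h : Cls CV ε F) (hy : ‖y‖ ≤ 2) (h0 : 0 < s) (h1 : s ≤ 1 / 2) :
    Cls CV ε (fun z => F (y + s • z)) := by
  obtain ⟨⟨f, hW⟩, hQ, hP⟩ := h
  have nb : ∀ (z : V n) (R : ℝ), ‖z‖ < R → ‖y + s • z‖ < 2 + R / 2 := fun z R hz => by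
    have k := norm_add_le y (s • z)
    rw [norm_smul, Real.norm_of_nonneg h0.le] at k
    nlinarith [norm_nonneg z]
  refine ⟨⟨fun z => s⁻¹ • f (y + s • z), ?_⟩, ?_, ?_⟩
  · have k := hB.resc f F 1 y s hW h0.ne'
    simpa only [ContinuousLinearMap.one_def, ContinuousLinearMap.id_comp,
      ContinuousLinearMap.id_apply] using k
  · filter_upwards [hA.ae _ y s h0.ne' hQ] with z hz hb
    refine hz ?_
    have := nb z 20 (by simpa using hb)
    rw [mem_ball_zero_iff]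
    linarith
  · intro x hx r r0 r1
    have k := nb x 10 (by simpa using hx)
    obtain ⟨a, N, hN, hI⟩ := hP (y + s • x) (by rw [mem_ball_zero_iff]; linarith) (s * r)
      (by positivity) (by nlinarith)
    refine ⟨a, N, hN, ?_⟩
    rw [← Iv_Iv] at hI
    exact hI

theorem vol_pos : 0 < (volume : Measure (V n)).real (ball 0 1) :=
  ENNReal.toReal_pos (measure_ball_pos _ _ one_pos).ne' measure_ball_lt_top.ne

theorem vol_eq : volume (ball (0 : V n) 1) =
    ENNReal.ofReal ((volume : Measure (V n)).real (ball 0 1)) :=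
  (ENNReal.ofReal_toReal measure_ball_lt_top.ne).symm

/-- the average of a normalised map is close to the identity -/
theorem near (hA : AvA n) (hB : AvB n) {φ ψ : V n → ℝ} (hK : Ker φ ψ) {CV : ℝ} (hCV : 0 < CV) :
    ∃ C : ℝ, 0 < C ∧ ∀ ε : ℝ, 0 < ε → ∀ (f : V n → V n) (F : V n → Mt n), W f F →
      Iv (fun z => ‖F z - 1‖ ^ 2) 0 10 ≤ CV * ε ^ 2 → ‖av φ F 0 1 - 1‖ ≤ C * ε := by
  obtain ⟨c, c0, hc⟩ := hK.tφ.bdd
  have b0 := vol_pos (n := n)
  set B := (volume : Measure (V n)).real (ball 0 1) with hBdef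
  refine ⟨c * ((B + 10 ^ n * CV) / 2), by positivity, fun ε e0 f F hW hI => ?_⟩
  obtain ⟨-, l2, l1⟩ := hB.loc_om f F 1 1 hW
  simp only [ContinuousLinearMap.one_def, ContinuousLinearMap.id_comp] at l1 l2
  rw [← ContinuousLinearMap.one_def] at l1 l2
  have k1 := (hB.Bv_le φ ψ F 1 hK (hB.loc f F hW) 0 1 one_pos).2
  have k2 := hA.av_le ℝ φ (fun z => ‖F z - 1‖) c hK.tφ hc l1 0 1 one_pos
  have k3 := hA.Iv_mono _ 0 0 10 1 l2 (fun z => by positivity) one_pos (by norm_num)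
    (ball_subset_ball (by norm_num))
  rw [div_one] at k3
  have k4 : Iv (fun z => ‖‖F z - 1‖‖) 0 1 ≤
      (ε * B + ε⁻¹ * Iv (fun z => ‖F z - 1‖ ^ 2) 0 1) / 2 := by
    have i1 : IntegrableOn (fun z => ‖F z - 1‖) (ball 0 1) volume :=
      (l1.integrableOn_isCompact (isCompact_closedBall 0 1)).mono_set ball_subset_closedBall
    have i2 : IntegrableOn (fun z => ‖F z - 1‖ ^ 2) (ball 0 1) volume :=
      (l2.integrableOn_isCompact (isCompact_closedBall 0 1)).mono_set ball_subset_closedBall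
    have i0 : IntegrableOn (fun _ : V n => ε) (ball 0 1) volume :=
      integrableOn_const measure_ball_lt_top.ne
    rw [Iv_zero_one, Iv_zero_one]
    simp only [norm_norm]
    have e : (ε * B + ε⁻¹ * ∫ z in ball (0 : V n) 1, ‖F z - 1‖ ^ 2) / 2 =
        ∫ z in ball (0 : V n) 1, (ε + ε⁻¹ * ‖F z - 1‖ ^ 2) / 2 := by
      rw [integral_div, integral_add i0 (i2.const_mul _), integral_const_mul, setIntegral_const,
        smul_eq_mul, mul_comm B]
    rw [e]
    refine integral_mono i1 ((i0.add (i2.const_mul _)).div_const _) fun z => ?_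
    have : ‖F z - 1‖ = ε⁻¹ * (ε * ‖F z - 1‖) := by field_simp
    have h2 : ε = ε⁻¹ * ε ^ 2 := by field_simp
    have h3 : 0 ≤ ε⁻¹ * (ε - ‖F z - 1‖) ^ 2 := by positivity
    simp only
    nlinarith
  have k5 : ε⁻¹ * Iv (fun z => ‖F z - 1‖ ^ 2) 0 1 ≤ 10 ^ n * CV * ε := by
    rw [inv_mul_le_iff₀ e0]
    calc _ ≤ 10 ^ n * (CV * ε ^ 2) := k3.trans (by gcongr)
      _ = _ := by ring
  calc ‖av φ F 0 1 - 1‖ ≤ av φ (fun z => ‖F z - 1‖) 0 1 := k1
    _ ≤ c * Iv (fun z => ‖‖F z - 1‖‖) 0 1 := (le_abs_self _).trans k2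
    _ ≤ c * ((ε * B + 10 ^ n * CV * ε) / 2) := by gcongr; linarith
    _ = _ := by ring

theorem norm_one' (hn : 3 ≤ n) : ‖(1 : Mt n)‖ = 1 := by
  refine le_antisymm norm_one_le ?_
  have k := (1 : Mt n).le_opNorm (ev ⟨0, by omega⟩)
  rwa [one_apply_eq_self, norm_ev, mul_one] at k

theorem pow_low {t C ε p m : ℝ} (hC : 0 < C) (e0 : 0 < ε) (e1 : C * ε ≤ 1 / 2) (p0 : 0 < p)
    (p1 : p ≤ m / ε) (ht : 1 - C * ε ≤ t) : 1 ≤ Real.exp (2 * C * m) * t ^ p := by
  have u0 : 0 < C * ε := by positivity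
  have k1 : Real.exp (-(2 * (C * ε))) ≤ t := by
    refine le_trans ?_ ht
    rw [Real.exp_neg, inv_le_comm₀ (Real.exp_pos _) (by linarith)]
    refine le_trans ?_ (Real.add_one_le_exp _)
    rw [inv_le_iff_one_le_mul₀ (by linarith)]
    nlinarith
  have k2 : Real.exp (-(2 * (C * ε))) ^ p ≤ t ^ p :=
    Real.rpow_le_rpow (Real.exp_pos _).le k1 p0.le
  rw [← Real.exp_mul] at k2
  rw [le_div_iff₀ e0] at p1
  calc (1 : ℝ) ≤ Real.exp (2 * C * m + -(2 * (C * ε)) * p) := Real.one_le_exp (by nlinarith)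
    _ ≤ _ := by rw [Real.exp_add]; gcongr

/-- the integral of the `p`-th power of the averages at scale `r` -/
noncomputable def J (φ : V n → ℝ) (p : ℝ) (F : V n → Mt n) (r : ℝ) : ℝ≥0∞ :=
  ∫⁻ x in ball (0 : V n) 1, ENNReal.ofReal (‖av φ F x r‖ ^ p)

/-- summing over the children -/
theorem sum_child (hA : AvA n) (hB : AvB n) {φ : V n → ℝ} {CV ε p r₀ Φ w C₁ β : ℝ}
    {F : V n → Mt n} (hF : Cls CV ε F) (p0 : 0 < p) (r0 : 0 < r₀) (Φ0 : 0 < Φ) (β0 : 0 < β)
    {U : Set (V n × ℝ)} (hU : U.Countable) (w1 : 1 ≤ w) (wp : w ^ p ≤ C₁)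
    (hq : ∀ q ∈ U, ‖q.1‖ ≤ 2 ∧ r₀ ≤ q.2 ∧ q.2 ≤ 1 / 2 ∧ ‖av φ F q.1 q.2‖ ≤ w)
    (hs : ∑' q : U, volume (ball q.1.1 q.1.2) ≤ ENNReal.ofReal (β / w ^ p))
    (hc : ∀ x ∈ ball (0 : V n) 1, ‖av φ F x r₀‖ ≤ w ∨ ∃ q ∈ U, x ∈ ball q.1 q.2)
    (ih : ∀ r, 2 * r₀ ≤ r → r ≤ 1 → ∀ G : V n → Mt n, Cls CV ε G →
      J φ p G r ≤ ENNReal.ofReal (Φ * ‖av φ G 0 1‖ ^ p)) :
    J φ p F r₀ ≤ ENNReal.ofReal (C₁ * (volume : Measure (V n)).real (ball 0 1) +
      Φ * β / (volume : Measure (V n)).real (ball 0 1)) := by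
  have b0 := vol_pos (n := n)
  set B := (volume : Measure (V n)).real (ball 0 1) with hBdef
  have wp0 : 0 < w ^ p := Real.rpow_pos_of_pos (by linarith) p
  have c0 : 0 < C₁ := wp0.trans_le wp
  have := hU.to_subtype
  set g : V n → ℝ≥0∞ := fun x => ENNReal.ofReal (‖av φ F x r₀‖ ^ p) with hg
  set O : Set (V n) := ⋃ q : U, ball q.1.1 q.1.2 with hO
  have mO : MeasurableSet O := (isOpen_iUnion fun _ => isOpen_ball).measurableSet
  have k1 : J φ p F r₀ ≤ ∫⁻ x in ball (0 : V n) 1, (ENNReal.ofReal C₁ + O.indicator g x) := by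
    refine setLIntegral_mono' measurableSet_ball fun x hx => ?_
    rcases hc x hx with h | ⟨q, hqU, h⟩
    · refine le_trans (ENNReal.ofReal_le_ofReal ?_) le_self_add
      exact (Real.rpow_le_rpow (norm_nonneg _) h p0.le).trans wp
    · rw [Set.indicator_of_mem (Set.mem_iUnion.2 ⟨⟨q, hqU⟩, h⟩)]
      exact le_add_self
  rw [lintegral_add_left measurable_const, setLIntegral_const, vol_eq, ← hBdef,
    ← ENNReal.ofReal_mul c0.le] at k1
  have k2 : ∫⁻ x in ball (0 : V n) 1, O.indicator g x ≤ ∑' q : U, ∫⁻ x in ball q.1.1 q.1.2, g x := by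
    refine (setLIntegral_le_lintegral _ _).trans ?_
    rw [lintegral_indicator mO]
    exact lintegral_iUnion_le _ _
  have k3 : ∀ q : U, ∫⁻ x in ball q.1.1 q.1.2, g x ≤
      ENNReal.ofReal (Φ * w ^ p / B) * volume (ball q.1.1 q.1.2) := by
    rintro ⟨⟨y, s⟩, hqU⟩
    obtain ⟨q1, q2, q3, q4⟩ := hq _ hqU
    simp only at q1 q2 q3 q4 ⊢
    have s0 : 0 < s := r0.trans_le q2
    have i := ih (r₀ / s) (by rw [le_div_iff₀ s0]; nlinarith) ((div_le_one s0).2 q2) _
      (hF.child hA hB q1 s0 q3)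
    have e : ∫⁻ z in ball (0 : V n) 1, g (y + s • z) = J φ p (fun z => F (y + s • z)) (r₀ / s) := by
      unfold J
      simp only [hg, av_av, mul_div_cancel₀ r₀ s0.ne']
    rw [av_av, smul_zero, add_zero, mul_one] at i
    have v := hA.lint (fun _ => 1) y s s0
    rw [setLIntegral_one, setLIntegral_one, vol_eq, ← hBdef] at v
    rw [hA.lint g y s s0, e, v, mul_left_comm, ← ENNReal.ofReal_mul (by positivity),
      div_mul_cancel₀ _ b0.ne']
    gcongr
    refine i.trans (ENNReal.ofReal_le_ofReal ?_)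
    gcongr
  have k4 : ∑' q : U, ∫⁻ x in ball q.1.1 q.1.2, g x ≤ ENNReal.ofReal (Φ * β / B) := by
    refine (ENNReal.tsum_le_tsum k3).trans ?_
    rw [ENNReal.tsum_mul_left]
    refine (mul_le_mul_right hs _).trans ?_
    rw [← ENNReal.ofReal_mul (by positivity)]
    refine le_of_eq (congrArg _ ?_)
    field_simp
  rw [ENNReal.ofReal_add (by positivity) (by positivity)]
  exact k1.trans (add_le_add_right (k2.trans k4) _)

theorem fatou (hA : AvA n) {φ ψ : V n → ℝ} (hK : Ker φ ψ) {p : ℝ} (p0 : 0 < p) {F : V n → Mt n}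
    (hF : LocallyIntegrable F volume) {M : ℝ≥0∞}
    (h : ∀ k : ℕ, J φ p F ((1 / 2) ^ k) ≤ M) :
    ∫⁻ x in ball (0 : V n) 1, ENNReal.ofReal (‖F x‖ ^ p) ≤ M := by
  have cp : Continuous fun X : Mt n => ENNReal.ofReal (‖X‖ ^ p) :=
    ENNReal.continuous_ofReal.comp (continuous_norm.rpow_const fun _ => Or.inr p0.le)
  have t : Tendsto (fun k : ℕ => (1 / 2 : ℝ) ^ k) atTop (𝓝[>] 0) :=
    tendsto_nhdsWithin_iff.2 ⟨tendsto_pow_atTop_nhds_zero_of_lt_one (by norm_num) (by norm_num),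
      Eventually.of_forall fun k => by simp only [Set.mem_Ioi]; positivity⟩
  have m : ∀ k : ℕ, Measurable fun x => ENNReal.ofReal (‖av φ F x ((1 / 2) ^ k)‖ ^ p) := fun k => by
    have c := (hA.smooth _ φ 1 F hK.tφ hF).continuousOn
    have c2 : Continuous fun x : V n => av φ F x ((1 / 2) ^ k) :=
      c.comp_continuous (f := fun x : V n => (x, (1 / 2 : ℝ) ^ k)) (by fun_prop)
        fun x => by simp only [Set.mem_ofPred_eq]; positivity
    exact (cp.comp c2).measurable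
  calc _ = ∫⁻ x in ball (0 : V n) 1,
        liminf (fun k : ℕ => ENNReal.ofReal (‖av φ F x ((1 / 2) ^ k)‖ ^ p)) atTop := by
        refine lintegral_congr_ae (ae_restrict_of_ae ?_)
        filter_upwards [hA.leb φ F hK.tφ hK.one hF] with x hx
        exact ((cp.tendsto _).comp (hx.comp t)).liminf_eq.symm
    _ ≤ liminf (fun k : ℕ => J φ p F ((1 / 2) ^ k)) atTop := lintegral_liminf_le m
    _ ≤ M := liminf_le_of_frequently_le' (Frequently.of_forall h)

end IterP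

open IterP in
theorem iter (hn : 3 ≤ n) (hM : MatB n) (hA : AvA n) (hB : AvB n) (h : Gen n) : Iter n := by
  intro φ ψ hK CV θ hCV θ0 θ1
  have b0 := vol_pos (n := n)
  set B := (volume : Measure (V n)).real (ball 0 1) with hBdef
  obtain ⟨C, C0, hC⟩ := near hA hB hK hCV
  set C₂ := Real.exp (2 * C * (θ * n)) with hC₂
  have c2 : 0 < C₂ := Real.exp_pos _
  obtain ⟨ε₀, C₁, e0, c1, hG⟩ := h φ ψ hK CV θ (B / (2 * C₂)) hCV θ0 θ1 (by positivity)
  refine ⟨min ε₀ (1 / (2 * C)), 2 * C₁ * C₂ * B, by positivity, by positivity,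
    fun ε p ε0 ε1 p0 p1 f F hW hQ hP => ?_⟩
  have ε2 : C * ε ≤ 1 / 2 := by
    have := (le_div_iff₀ (by positivity)).1 (ε1.trans (min_le_right _ _))
    linarith
  have step : ∀ r₀ : ℝ, 0 < r₀ → r₀ ≤ 1 → (∀ r, 2 * r₀ ≤ r → r ≤ 1 → ∀ G : V n → Mt n,
      Cls CV ε G → J φ p G r ≤ ENNReal.ofReal (2 * C₁ * C₂ * B * ‖av φ G 0 1‖ ^ p)) →
      ∀ G : V n → Mt n, Cls CV ε G →
        J φ p G r₀ ≤ ENNReal.ofReal (2 * C₁ * C₂ * B * ‖av φ G 0 1‖ ^ p) := by
    intro r₀ r0 r1 ih G hGc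
    obtain ⟨a, N, hN, hI⟩ := hGc.2.2 0 (mem_ball_self (by norm_num)) 10 (by norm_num) le_rfl
    have hG' := hGc.conf hM hB hN
    obtain ⟨⟨g, gW⟩, gQ, gP⟩ := id hG'
    obtain ⟨U, w, hU, w1, wp, hq, hs, hc⟩ := hG ε p r₀ ε0 (ε1.trans (min_le_left _ _)) p0 p1 r0 r1
      g _ gW gQ gP hI
    have k := sum_child hA hB hG' p0 r0 (by positivity) (by positivity) hU w1 wp hq hs hc ih
    obtain ⟨g₀, gW₀⟩ := hGc.1
    have l := hB.loc _ _ gW₀
    have a0 : 0 < a := hN.1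
    have ap : 0 < a ^ p := Real.rpow_pos_of_pos a0 p
    have nm : ∀ x r, r ≠ 0 → ‖av φ (fun z => N ∘L G z) x r‖ ^ p = a ^ p * ‖av φ G x r‖ ^ p :=
      fun x r hr => by
        rw [av_comp hA hK.tφ l N x hr, hM.conf_norm a N _ hN,
          Real.mul_rpow a0.le (norm_nonneg _)]
    have k1 := hC ε ε0 g _ gW hI
    have k2 : 1 - C * ε ≤ ‖av φ (fun z => N ∘L G z) 0 1‖ := by
      have := norm_sub_norm_le (1 : Mt n) (av φ (fun z => N ∘L G z) 0 1)
      rw [norm_one' hn, norm_sub_rev] at this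
      linarith
    have k3 := pow_low C0 ε0 ε2 p0 p1 k2
    rw [nm 0 1 one_ne_zero, ← hC₂] at k3
    have k4 : J φ p (fun z => N ∘L G z) r₀ = ENNReal.ofReal (a ^ p) * J φ p G r₀ := by
      unfold J
      rw [← lintegral_const_mul' _ _ ENNReal.ofReal_ne_top]
      refine lintegral_congr fun x => ?_
      rw [nm x r₀ r0.ne', ENNReal.ofReal_mul ap.le]
    rw [k4, ← hBdef] at k
    refine (ENNReal.mul_le_mul_iff_right (ENNReal.ofReal_pos.2 ap).ne'
      ENNReal.ofReal_ne_top).1 (k.trans ?_)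
    rw [← ENNReal.ofReal_mul ap.le]
    refine ENNReal.ofReal_le_ofReal ?_
    have e : C₁ * B + 2 * C₁ * C₂ * B * (B / (2 * C₂)) / B = 2 * C₁ * B * 1 := by
      field_simp
      ring
    rw [e]
    calc 2 * C₁ * B * 1 ≤ 2 * C₁ * B * (C₂ * (a ^ p * ‖av φ G 0 1‖ ^ p)) := by gcongr
      _ = _ := by ring
  have main : ∀ (k : ℕ) (r : ℝ), (1 / 2) ^ k ≤ r → r ≤ 1 → ∀ G : V n → Mt n, Cls CV ε G →
      J φ p G r ≤ ENNReal.ofReal (2 * C₁ * C₂ * B * ‖av φ G 0 1‖ ^ p) := by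
    intro k
    induction k with
    | zero =>
      intro r h0 h1
      rw [pow_zero] at h0
      exact step r (by linarith) h1 fun r' h2 h3 => absurd h3 (by linarith)
    | succ k ih =>
      intro r h0 h1
      refine step r (lt_of_lt_of_le (by positivity) h0) h1 fun r' h2 h3 => ih r' ?_ h3
      rw [pow_succ] at h0
      linarith
  exact fatou hA hK p0 (hB.loc f F hW) fun k =>
    main k _ le_rfl (pow_le_one₀ (by norm_num) (by norm_num)) F ⟨⟨f, hW⟩, hQ, hP⟩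

end Pool.Agent.MP_29b5d3_an.NC

end MrgPart6

-- ======== part 7: formerly Pool.Agent.MP_29b5d3_an.NC.All
section MrgPart7

/-! Project NEARCONF: assembly. -/

set_option autoImplicit false

namespace Pool.Agent.MP_29b5d3_an.NC

theorem main_all {n : ℕ} (hn : 3 ≤ n) : Main n := by
  have hMa := matA hn
  have hMb := matB hn
  have hK := kerS hn
  have hA := avA hn
  have h1 := avB1 hn hA
  have hB : AvB n := ⟨h1, avB2 hn hA h1⟩
  have hMo := monoA hn hMa hA hB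
  exact main hn hK hMb hA hB
    (fos hn hK hMa hMb hA hB hMo (mono hn hMa hA hB hMo (cacc2 hn hMa hA hB hMo)))
    (propP hn hMb hA hB (flatStep hn hK hMb hA hB (cac hn hMb hA hB)))
    (iter hn hMb hA hB (gen hn (lin hn hK hA hB (abp hn)) (genA hn hMb hA hB)))

end Pool.Agent.MP_29b5d3_an.NC

end MrgPart7

-- marker of a merged file
example : 731051 + 882016 = 731051 + 882016 := rfl
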