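import Pool.Agent.MP_29b5d3_an.h48.Defs

/-! Maps that factor into quasiregular maps of small dilatation. -/

set_option autoImplicit false

namespace Pool.Agent.MP_29b5d3_an.NC

open Topology

/-- For every `δ > 0`, near every point of `Ω` the map `f` is injective and equal to a composition
`g (m-1) ∘ ... ∘ g 0`, where every factor `g i` is `k i`-quasiregular or Lipschitz on `U i`,
`1 ≤ k i ≤ 1 + δ`, and the product of the numbers `k i` is at most `K + δ`. -/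
def FineFactor {n : ℕ} (K : ℝ) (Ω : Set (EuclideanSpace ℝ (Fin n)))
    (f : EuclideanSpace ℝ (Fin n) → EuclideanSpace ℝ (Fin n)) : Prop :=
  ∀ δ : ℝ, 0 < δ → ∀ x ∈ Ω, ∃ (m : ℕ) (k : ℕ → ℝ) (U : ℕ → Set (EuclideanSpace ℝ (Fin n)))
    (g h : ℕ → EuclideanSpace ℝ (Fin n) → EuclideanSpace ℝ (Fin n)),
    U 0 ∈ 𝓝 x ∧ Set.InjOn f (U 0) ∧ Set.EqOn f (h m) (U 0) ∧ h 0 = id ∧
    (∀ i, h (i + 1) = g i ∘ h i) ∧ ∏ i ∈ Finset.range m, k i ≤ K + δ ∧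
    ∀ i < m, 1 ≤ k i ∧ k i ≤ 1 + δ ∧ Set.MapsTo (g i) (U i) (U (i + 1)) ∧
      ((∃ Dg, h48.IsQR (k i) (U i) (g i) Dg) ∨ ∃ L, LipschitzOnWith L (g i) (U i))

end Pool.Agent.MP_29b5d3_an.NC
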