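import Mathlib.Analysis.SpecialFunctions.ImproperIntegrals
import Pool.Agent.MP_29b5d3_an.NC.Final
import Pool.Agent.MP_29b5d3_an.NC.FacDefs

-- ======== part 0: formerly Pool.Agent.MP_29b5d3_an.NC.FacA
section MrgPart0

/-! Volume distortion under a continuous map with weak derivative of class `L^p`, `p > n`. -/

set_option autoImplicit false

namespace Pool.Agent.MP_29b5d3_an.NC

open MeasureTheory Metric Filter Topology Module
open scoped RealInnerProductSpace ContDiff ENNReal

variable {n : ℕ}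

namespace Fac

/-- the derivative of the average in the scale -/
theorem dav_r (hB : AvB n) {φ ψ : V n → ℝ} (kr : Ker φ ψ) {f : V n → V n} {F : V n → Mt n}
    (h : W f F) (x : V n) {r : ℝ} (r0 : 0 < r) : HasDerivAt (av φ f x) (Bv φ F x r) r := by
  have k := (hB.dav φ ψ f F kr h x r r0).comp_hasDerivAt r
    ((hasDerivAt_const r x).prodMk (hasDerivAt_id r))
  refine k.congr_deriv ?_
  simp

/-- the derivative of the average in the point -/
theorem dav_x (hB : AvB n) {φ ψ : V n → ℝ} (kr : Ker φ ψ) {f : V n → V n} {F : V n → Mt n}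
    (h : W f F) (x : V n) {r : ℝ} (r0 : 0 < r) :
    HasFDerivAt (fun x => av φ f x r) (av φ F x r) x := by
  have k := HasFDerivAt.comp (f := fun x : V n => (x, r)) x (hB.dav φ ψ f F kr h x r r0)
    ((hasFDerivAt_id x).prodMk (hasFDerivAt_const r x))
  refine k.congr_fderiv ?_
  ext1 v
  simp

theorem phi_le (hA : AvA n) (hB : AvB n) {φ : V n → ℝ} (hφ : Test φ 1) (φ0 : ∀ y, 0 ≤ φ y) {C : ℝ}
    (hC : ∀ y, |φ y| ≤ C) {f : V n → V n} {F : V n → Mt n} (h : W f F) (M : Mt n) (x : V n)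
    {r : ℝ} (r0 : 0 < r) :
    ∫ y, φ y * ‖F (x + r • y) - M‖ ≤ C * Iv (fun z => ‖F z - M‖) x r := by
  have l : LocallyIntegrable (fun z => ‖F z - M‖) volume := fun z =>
    (((hB.loc f F h).sub (locallyIntegrable_const M)) z).norm
  have k := hA.av_le ℝ φ (fun z => ‖F z - M‖) C hφ hC l x r r0
  simp only [norm_norm] at k
  exact (le_abs_self _).trans k

/-- difference between a map and its average from a bound for the derivative in the scale -/
theorem sub_av_le (hA : AvA n) (hB : AvB n) {φ ψ : V n → ℝ} (kr : Ker φ ψ) {f : V n → V n}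
    {F : V n → Mt n} (h : W f F) (x : V n) {r c α : ℝ} (r0 : 0 < r) (c0 : 0 ≤ c) (α0 : 0 < α)
    (hb : ∀ s, 0 < s → s ≤ r → ‖Bv φ F x s‖ ≤ c * (α * s ^ (α - 1))) :
    ‖av φ f x r - f x‖ ≤ c * r ^ α := by
  refine le_of_forall_pos_le_add fun δ δ0 => ?_
  obtain ⟨r₀, p0, hr⟩ := hA.unif φ f kr.tφ kr.φ0 kr.one h.cont ‖x‖ δ δ0
  have s0 : 0 < min r₀ r := lt_min p0 r0
  have k1 := hr x le_rfl _ s0 (min_le_left _ _)
  have k2 := image_norm_le_of_norm_deriv_right_le_deriv_boundary'
    (f := fun s => av φ f x s - av φ f x (min r₀ r)) (f' := Bv φ F x) (a := min r₀ r) (b := r)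
    (B := fun s => c * s ^ α) (B' := fun s => c * (α * s ^ (α - 1)))
    (fun s hs => ((dav_r hB kr h x (s0.trans_le hs.1)).sub_const _).continuousAt.continuousWithinAt)
    (fun s hs => ((dav_r hB kr h x (s0.trans_le hs.1)).sub_const _).hasDerivWithinAt)
    (by simp only [sub_self, norm_zero]; positivity)
    (fun s hs => ((Real.hasDerivAt_rpow_const (Or.inl (s0.trans_le hs.1).ne')).const_mul
      c).continuousAt.continuousWithinAt)
    (fun s hs => ((Real.hasDerivAt_rpow_const (Or.inl (s0.trans_le hs.1).ne')).const_mul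
      c).hasDerivWithinAt)
    (fun s hs => hb s (s0.trans_le hs.1) hs.2.le) ⟨min_le_right _ _, le_rfl⟩
  calc _ = ‖(av φ f x r - av φ f x (min r₀ r)) + (av φ f x (min r₀ r) - f x)‖ := by
        rw [sub_add_sub_cancel]
    _ ≤ _ := (norm_add_le _ _).trans (add_le_add k2 k1)

theorem Iv_le_rpow (hA : AvA n) (hB : AvB n) {f : V n → V n} {F : V n → Mt n} (h : W f F)
    {p : ℝ} (p1 : 1 ≤ p) {x z : V n} {R s a : ℝ} (s0 : 0 < s) (a0 : 0 < a)
    (hs : ball z s ⊆ ball x R) (hi : IntegrableOn (fun y => ‖F y‖ ^ p) (ball x R) volume) :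
    Iv (fun y => ‖F y‖) z s ≤ a * (volume : Measure (V n)).real (ball 0 1) +
      (s ^ n)⁻¹ * (∫ y in ball x R, ‖F y‖ ^ p) / a ^ (p - 1) := by
  have i1 : IntegrableOn (fun y => ‖F y‖) (ball z s) volume :=
    (((hB.loc f F h).integrableOn_isCompact (isCompact_closedBall z s)).mono_set
      ball_subset_closedBall).norm
  have i2 := hi.mono_set hs
  have i3 : IntegrableOn (fun _ : V n => a) (ball z s) volume :=
    integrableOn_const measure_ball_lt_top.ne
  have k1 : ∫ y in ball z s, ‖F y‖ ≤ ∫ y in ball z s, (a + ‖F y‖ ^ p / a ^ (p - 1)) := by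
    refine integral_mono i1 (i3.add (i2.div_const _)) fun y => ?_
    simp only
    generalize ‖F y‖ = t, norm_nonneg (F y) = t0
    rcases le_total t a with c | c
    · have : 0 ≤ t ^ p / a ^ (p - 1) := by positivity
      linarith
    · have k : t ≤ t ^ p / a ^ (p - 1) := by
        rw [le_div_iff₀ (by positivity)]
        calc t * a ^ (p - 1) ≤ t * t ^ (p - 1) := by gcongr
          _ = t ^ p := by rw [Real.rpow_sub_one (a0.trans_le c).ne', mul_div_cancel₀ _ (a0.trans_le c).ne']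
      linarith
  have k2 : ∫ y in ball z s, ‖F y‖ ^ p ≤ ∫ y in ball x R, ‖F y‖ ^ p :=
    setIntegral_mono_set hi (Eventually.of_forall fun y => by positivity) hs.eventuallyLE
  have k3 : (volume : Measure (V n)).real (ball z s) =
      s ^ n * (volume : Measure (V n)).real (ball 0 1) := by
    rw [measureReal_def, Measure.addHaar_ball_of_pos volume z s0, fr, ENNReal.toReal_mul,
      ENNReal.toReal_ofReal (by positivity), measureReal_def]
  rw [integral_add i3 (i2.div_const _), setIntegral_const, integral_div, k3, smul_eq_mul] at k1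
  rw [hA.Iv_eq _ z s s0]
  calc _ ≤ (s ^ n)⁻¹ * (s ^ n * (volume : Measure (V n)).real (ball 0 1) * a +
        (∫ y in ball x R, ‖F y‖ ^ p) / a ^ (p - 1)) := by
        gcongr
        exact k1.trans (by gcongr)
    _ = _ := by field_simp

/-- the inequality of Morrey -/
theorem morrey (hA : AvA n) (hB : AvB n) {φ ψ : V n → ℝ} (kr : Ker φ ψ) {p : ℝ} (hn : 1 ≤ n)
    (hp : n < p) : ∃ C : ℝ, 0 < C ∧ ∀ (f : V n → V n) (F : V n → Mt n), W f F →
      ∀ (x : V n) (r a : ℝ), 0 < r → 0 < a →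
      IntegrableOn (fun y => ‖F y‖ ^ p) (ball x (2 * r)) volume →
      ∫ y in ball x (2 * r), ‖F y‖ ^ p ≤ a ^ p * r ^ n → ∀ y ∈ ball x r, ‖f y - f x‖ ≤ C * a * r := by
  obtain ⟨Cφ, C0, hC⟩ := kr.tφ.bdd
  have n1 : (1 : ℝ) ≤ n := by exact_mod_cast hn
  have p0 : 0 < p := by linarith
  set B := (volume : Measure (V n)).real (ball 0 1)
  have B0 : 0 ≤ B := measureReal_nonneg
  set α := 1 - n / p with hα
  have α0 : 0 < α := by rw [hα, sub_pos, div_lt_one p0]; exact hp
  refine ⟨Cφ * (B + 1) * (2 / α + 1), by positivity, fun f F h x r a r0 a0 hi hI y hy => ?_⟩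
  have k : ∀ z ∈ ball x r, ∀ s, 0 < s → s ≤ r →
      ∫ w, φ w * ‖F (z + s • w) - 0‖ ≤ Cφ * (B + 1) * a * (r / s) ^ ((n : ℝ) / p) :=
    fun z hz s s0 s1 => by
    refine (phi_le hA hB kr.tφ kr.φ0 hC h 0 z s0).trans ?_
    simp only [sub_zero]
    have b0 : 0 < a * (r / s) ^ ((n : ℝ) / p) := by positivity
    have k1 := Iv_le_rpow hA hB h (by linarith) s0 b0
      (ball_subset_ball' (by rw [mem_ball] at hz; linarith)) hi
    have k2 : (s ^ n)⁻¹ * (a ^ p * r ^ n) / (a * (r / s) ^ ((n : ℝ) / p)) ^ (p - 1) =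
        a * (r / s) ^ ((n : ℝ) / p) := by
      rw [Real.rpow_sub_one b0.ne', Real.mul_rpow a0.le (by positivity),
        ← Real.rpow_mul (by positivity), div_mul_cancel₀ _ p0.ne', Real.rpow_natCast, div_pow]
      field_simp
    rw [mul_assoc, mul_assoc]
    refine mul_le_mul_of_nonneg_left (k1.trans ?_) C0.le
    calc _ ≤ a * (r / s) ^ ((n : ℝ) / p) * B + (s ^ n)⁻¹ * (a ^ p * r ^ n) /
          (a * (r / s) ^ ((n : ℝ) / p)) ^ (p - 1) := by gcongr
      _ = _ := by rw [k2]; ring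
  have k1 : ∀ z ∈ ball x r, ‖av φ f z r - f z‖ ≤ Cφ * (B + 1) * a * r / α := fun z hz => by
    have := sub_av_le hA hB kr h z r0 (c := Cφ * (B + 1) * a * r ^ ((n : ℝ) / p) / α)
      (by positivity) α0 fun s s0 s1 => by
        refine ((hB.Bv_le φ ψ F 0 kr (hB.loc f F h) z s s0).1.trans (k z hz s s0 s1)).trans_eq ?_
        rw [hα, sub_sub_cancel_left, Real.rpow_neg s0.le, Real.div_rpow r0.le s0.le, ← hα]
        field_simp
    refine this.trans_eq ?_
    rw [hα, Real.rpow_sub r0, Real.rpow_one, ← hα]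
    field_simp
  have k2 : ‖av φ f y r - av φ f x r‖ ≤ Cφ * (B + 1) * a * ‖y - x‖ :=
    (convex_ball x r).norm_image_sub_le_of_norm_hasFDerivWithin_le
      (fun z _ => (dav_x hB kr h z r0).hasFDerivWithinAt) (fun z hz => by
        have := ((hB.Bv_le φ ψ F 0 kr (hB.loc f F h) z r r0).2.trans (k z hz r r0 le_rfl))
        rwa [sub_zero, div_self r0.ne', Real.one_rpow, mul_one] at this)
      (mem_ball_self r0) hy
  have k3 : ‖y - x‖ ≤ r := by rw [← dist_eq_norm]; exact le_of_lt hy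
  calc _ = ‖(av φ f y r - av φ f x r) - (av φ f y r - f y) + (av φ f x r - f x)‖ := by
        congr 1; abel
    _ ≤ Cφ * (B + 1) * a * r + Cφ * (B + 1) * a * r / α + Cφ * (B + 1) * a * r / α :=
        (norm_add_le _ _).trans (add_le_add ((norm_sub_le _ _).trans
          (add_le_add (k2.trans (by gcongr)) (k1 y hy))) (k1 x (mem_ball_self r0)))
    _ = _ := by ring

/-- there are arbitrarily small doubling scales -/
theorem doubling {g : ℝ → ℝ} (hg : ∀ r, 0 < r → r ^ n ≤ g r) {R : ℝ} (R0 : 0 < R) :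
    ∃ r, 0 < r ∧ 10 * r ≤ R ∧ g (10 * r) ≤ 2 * 10 ^ n * g r := by
  by_contra! hc
  have k : ∀ j : ℕ, (2 * 10 ^ n) ^ j * g (R / 10 ^ j) ≤ g R := fun j => by
    induction j with
    | zero => simp
    | succ j ih =>
      have e : 10 * (R / 10 ^ (j + 1)) = R / 10 ^ j := by rw [pow_succ]; field_simp
      have := hc (R / 10 ^ (j + 1)) (by positivity)
        (by rw [e]; exact div_le_self R0.le (one_le_pow₀ (by norm_num)))
      rw [e] at this
      refine le_trans ?_ ih
      rw [pow_succ, mul_assoc]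
      gcongr
  obtain ⟨j, hj⟩ := pow_unbounded_of_one_lt (g R / R ^ n) (one_lt_two (α := ℝ))
  have k2 := (mul_le_mul_of_nonneg_left (hg (R / 10 ^ j) (by positivity))
    (by positivity : (0 : ℝ) ≤ (2 * 10 ^ n) ^ j)).trans (k j)
  rw [div_lt_iff₀ (by positivity)] at hj
  have e : (2 * 10 ^ n : ℝ) ^ j * (R / 10 ^ j) ^ n = 2 ^ j * R ^ n := by
    rw [mul_pow, div_pow, ← pow_mul, ← pow_mul, mul_comm n j]
    field_simp
  linarith

theorem cover {m : Set (V n) → ℝ≥0∞} (m1 : ∀ A B, A ⊆ B → m A ≤ m B)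
    (m2 : ∀ (u : Set (V n × ℝ)) (s : V n × ℝ → Set (V n)), u.Countable →
      m (⋃ q ∈ u, s q) ≤ ∑' q : u, m (s q))
    {ν : Measure (V n)} {E O : Set (V n)} {R : ℝ}
    (h : ∀ x ∈ E, ∃ r, 0 < r ∧ r ≤ R ∧ ball x r ⊆ O ∧ m (ball x (5 * r)) ≤ ν (ball x r)) :
    m E ≤ ν O := by
  set T : Set (V n × ℝ) := {q | 0 < q.2 ∧ q.2 ≤ R ∧ ball q.1 q.2 ⊆ O ∧
    m (ball q.1 (5 * q.2)) ≤ ν (ball q.1 q.2)} with hT
  obtain ⟨u, u1, u2, u3⟩ := Vitali.exists_disjoint_subfamily_covering_enlargement_ball T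
    Prod.fst Prod.snd R (fun q hq => hq.2.1) 5 (by norm_num)
  have uc : u.Countable := u2.countable_of_isOpen (fun _ _ => isOpen_ball)
    fun q hq => nonempty_ball.2 (u1 hq).1
  calc _ ≤ m (⋃ q ∈ u, ball q.1 (5 * q.2)) := m1 _ _ fun x hx => by
        obtain ⟨r, k⟩ := h x hx
        obtain ⟨b, b1, b2⟩ := u3 (x, r) k
        exact Set.mem_biUnion b1 (b2 (mem_ball_self k.1))
    _ ≤ ∑' q : u, m (ball q.1.1 (5 * q.1.2)) := m2 u _ uc
    _ ≤ ∑' q : u, ν (ball q.1.1 q.1.2) := ENNReal.tsum_le_tsum fun q => (u1 q.2).2.2.2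
    _ = ν (⋃ q ∈ u, ball q.1 q.2) := (measure_biUnion uc u2 fun _ _ => measurableSet_ball).symm
    _ ≤ _ := measure_mono (Set.iUnion₂_subset fun q hq => (u1 hq).2.2.1)

theorem young {a b l θ : ℝ} (a0 : 0 ≤ a) (b0 : 0 ≤ b) (l0 : 0 < l) (θ0 : 0 ≤ θ) (θ1 : θ ≤ 1) :
    a ^ (1 - θ) * b ^ θ ≤ l ^ (-θ) * a + l ^ (1 - θ) * b := by
  have k := Real.geom_mean_le_arith_mean2_weighted (w₁ := 1 - θ) (w₂ := θ) (p₁ := a) (p₂ := l * b)
    (by linarith) θ0 a0 (by positivity) (by ring)
  have k2 : a ^ (1 - θ) * (l * b) ^ θ ≤ a + l * b := k.trans (by nlinarith [mul_nonneg l0.le b0])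
  have k3 := mul_le_mul_of_nonneg_left k2 (Real.rpow_nonneg l0.le (-θ))
  rw [Real.mul_rpow l0.le b0] at k3
  have e1 : l ^ (-θ) * l ^ θ = 1 := by rw [← Real.rpow_add l0]; simp
  have e2 : l ^ (1 - θ) = l ^ (-θ) * l := by rw [← Real.rpow_add_one l0.ne']; congr 1; ring
  rw [e2]
  calc _ = l ^ (-θ) * l ^ θ * (a ^ (1 - θ) * b ^ θ) := by rw [e1, one_mul]
    _ ≤ _ := by linarith

/-- volume distortion for a map of the whole space -/
theorem vol_glob (hK : KerS n) (hA : AvA n) (hB : AvB n) (hn : 1 ≤ n) {p : ℝ} (hp : n < p)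
    {f : V n → V n} {F : V n → Mt n} (h : W f F) {C S : Set (V n)} {R : ℝ} (R0 : 0 < R)
    (mS : MeasurableSet S) (hS : ∀ x ∈ C, ball x R ⊆ S)
    (hi : IntegrableOn (fun y => ‖F y‖ ^ p) S volume) :
    ∃ M : ℝ, 0 < M ∧ ∀ E ⊆ C, ∀ t : ℝ, 0 < t → t ≤ 1 → volume E < ENNReal.ofReal t →
      volume (f '' E) ≤ ENNReal.ofReal (M * t ^ (1 - n / p)) := by
  obtain ⟨φ, ψ, kr⟩ := hK.ker
  obtain ⟨c, c0, hc⟩ := morrey hA hB kr hn hp
  have n0 : (0 : ℝ) < n := by exact_mod_cast hn
  have p0 : 0 < p := by linarith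
  set θ := (n : ℝ) / p with hθ
  have θ0 : 0 < θ := by positivity
  have θ1 : θ < 1 := (div_lt_one p0).2 hp
  set B := (volume : Measure (V n)).real (ball 0 1) with hBd
  have B0 : 0 < B := ENNReal.toReal_pos (measure_ball_pos _ _ one_pos).ne' measure_ball_lt_top.ne
  have vb : ∀ (x : V n) (r : ℝ), 0 < r → volume (ball x r) = ENNReal.ofReal (r ^ n * B) :=
    fun x r r0 => by
      rw [Measure.addHaar_ball_of_pos volume x r0, fr, ENNReal.ofReal_mul (by positivity), hBd,
        ofReal_measureReal measure_ball_lt_top.ne]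
  set N := ∫ y in S, ‖F y‖ ^ p with hN
  have N0 : 0 ≤ N := integral_nonneg fun y => by positivity
  set D : ℝ := (10 * c) ^ n * (2 * 10 ^ n) ^ θ * B with hD
  have D0 : 0 < D := by positivity
  refine ⟨D * (2 / B + N), by positivity, fun E hE t t0 t1 ht => ?_⟩
  obtain ⟨O, o1, o2, o3⟩ := Set.exists_isOpen_lt_of_lt E _ ht
  set ν₁ : Measure (V n) := (volume.restrict S).withDensity fun y => ENNReal.ofReal (‖F y‖ ^ p)
  have ν1 : ∀ A, MeasurableSet A → A ⊆ S → ν₁ A = ENNReal.ofReal (∫ y in A, ‖F y‖ ^ p) :=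
    fun A mA hA => by
      rw [withDensity_apply _ mA, Measure.restrict_restrict mA, Set.inter_eq_left.2 hA,
        ofReal_integral_eq_lintegral_ofReal (hi.mono_set hA)
          (Eventually.of_forall fun y => by positivity)]
  have ν2 : ν₁ O ≤ ENNReal.ofReal N := by
    refine (measure_mono (Set.subset_univ O)).trans_eq ?_
    rw [withDensity_apply _ MeasurableSet.univ, Measure.restrict_univ, hN,
      ofReal_integral_eq_lintegral_ofReal hi (Eventually.of_forall fun y => by positivity)]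
  refine (cover (m := fun A => volume (f '' A)) (fun A A' hA => measure_mono (Set.image_mono hA))
    (fun u s hu => by rw [Set.image_iUnion₂]; exact measure_biUnion_le _ hu _)
    (ν := ENNReal.ofReal (D * (t ^ (-θ) + t ^ (1 - θ)) / B) • volume +
      ENNReal.ofReal (D * t ^ (1 - θ)) • ν₁) (O := O) (R := R) fun x hx => ?_).trans ?_
  · obtain ⟨ρ, ρ0, hρ⟩ := Metric.isOpen_iff.1 o2 x (o1 hx)
    obtain ⟨r, r0, r1, r2⟩ := doubling (n := n) (g := fun r => r ^ n + ∫ y in ball x r, ‖F y‖ ^ p)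
      (fun r _ => le_add_of_nonneg_right (integral_nonneg fun y => by positivity))
      (lt_min R0 ρ0)
    have r3 := min_le_left R ρ
    have r4 := min_le_right R ρ
    have s1 : ball x (10 * r) ⊆ S := (ball_subset_ball (by linarith)).trans (hS x (hE hx))
    have s2 : ball x r ⊆ S := (ball_subset_ball (by linarith)).trans s1
    set I := ∫ y in ball x r, ‖F y‖ ^ p with hI
    have I0 : 0 ≤ I := integral_nonneg fun y => by positivity
    refine ⟨r, r0, by linarith, (ball_subset_ball (by linarith)).trans hρ, ?_⟩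
    set a := (2 * 10 ^ n * (r ^ n + I) / r ^ n) ^ (1 / p) with ha
    have a0 : 0 < a := by positivity
    have a1 : a ^ p = 2 * 10 ^ n * (r ^ n + I) / r ^ n := by
      rw [ha, ← Real.rpow_mul (by positivity), one_div_mul_cancel p0.ne', Real.rpow_one]
    have a2 : a ^ n = (2 * 10 ^ n * (r ^ n + I) / r ^ n) ^ θ := by
      rw [ha, ← Real.rpow_natCast, ← Real.rpow_mul (by positivity), hθ]
      congr 1
      ring
    have k := hc f F h x (5 * r) a (by positivity) a0
      (by rw [show 2 * (5 * r) = 10 * r by ring]; exact hi.mono_set s1) (by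
        rw [show 2 * (5 * r) = 10 * r by ring, a1]
        have : (0 : ℝ) ≤ (10 * r) ^ n := by positivity
        calc _ ≤ 2 * 10 ^ n * (r ^ n + I) := by linarith
          _ = 2 * 10 ^ n * (r ^ n + I) / r ^ n * r ^ n := by field_simp
          _ ≤ _ := by gcongr; linarith)
    have k1 : f '' ball x (5 * r) ⊆ ball (f x) (10 * c * (a * r)) := by
      rintro _ ⟨y, hy, rfl⟩
      rw [mem_ball, dist_eq_norm]
      have : 0 < c * a * r := by positivity
      linarith [k y hy]
    refine (measure_mono k1).trans ?_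
    rw [vb _ _ (by positivity), Measure.add_apply, Measure.smul_apply, Measure.smul_apply,
      ν1 _ measurableSet_ball s2, vb _ _ r0, smul_eq_mul, smul_eq_mul,
      ← ENNReal.ofReal_mul (by positivity), ← ENNReal.ofReal_mul (by positivity),
      ← ENNReal.ofReal_add (by positivity) (by positivity), ← hI]
    refine ENNReal.ofReal_le_ofReal ?_
    have y1 := young (a := r ^ n) (b := r ^ n + I) (by positivity) (by positivity) t0 θ0.le θ1.le
    have e : (10 * c * (a * r)) ^ n * B = D * ((r ^ n) ^ (1 - θ) * (r ^ n + I) ^ θ) := by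
      rw [mul_pow, mul_pow a, a2, Real.div_rpow (by positivity) (by positivity),
        Real.mul_rpow (by positivity) (by positivity), Real.rpow_sub (by positivity),
        Real.rpow_one, hD]
      field_simp
    rw [e]
    refine (mul_le_mul_of_nonneg_left y1 D0.le).trans_eq ?_
    field_simp
    ring
  · rw [Measure.add_apply, Measure.smul_apply, Measure.smul_apply, smul_eq_mul, smul_eq_mul]
    calc _ ≤ ENNReal.ofReal (D * (t ^ (-θ) + t ^ (1 - θ)) / B) * ENNReal.ofReal t +
          ENNReal.ofReal (D * t ^ (1 - θ)) * ENNReal.ofReal N := by gcongr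
      _ ≤ _ := by
          rw [← ENNReal.ofReal_mul (by positivity), ← ENNReal.ofReal_mul (by positivity),
            ← ENNReal.ofReal_add (by positivity) (by positivity)]
          refine ENNReal.ofReal_le_ofReal ?_
          have e2 : t ^ (1 - θ) = t ^ (-θ) * t := by
            rw [← Real.rpow_add_one t0.ne']; congr 1; ring
          have q0 : 0 < t ^ (1 - θ) := by positivity
          calc _ = D * (t ^ (1 - θ) * (1 + t) / B + t ^ (1 - θ) * N) := by rw [e2]; ring
            _ ≤ D * (t ^ (1 - θ) * 2 / B + t ^ (1 - θ) * N) := by gcongr; linarith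
            _ = _ := by ring

/-- replacing a quasiregular map near a compact set by a map of the whole space -/
theorem localize (hn : 1 ≤ n) {K : ℝ} {Ω C : Set (V n)} {f : V n → V n} {Df : V n → Mt n}
    (h : h48.IsQR K Ω f Df) (hC : IsCompact C) (hCΩ : C ⊆ Ω) :
    ∃ (R : ℝ) (F : V n → V n) (G : V n → Mt n), 0 < R ∧ cthickening R C ⊆ Ω ∧ W F G ∧
      (∀ x ∈ cthickening R C, F x = f x) ∧ ∀ᵐ x, x ∈ cthickening R C → G x = Df x := by
  obtain ⟨R, R0, hR⟩ := hC.exists_cthickening_subset_open h.1 hCΩ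
  obtain ⟨F, G, hs, hFG⟩ := h48.globalize (by rw [fr]; omega) h.sobOn.1 hC.cthickening hR
  have m := hs.loc.aestronglyMeasurable
  have ae := m.ae_eq_mk
  have i := hs.int
  rw [fr] at i
  refine ⟨R, F, m.mk G, R0, hR, ⟨hs.cont, m.stronglyMeasurable_mk, (i.congr ?_).locallyIntegrable,
    fun φ h1 h2 v => (hs.weak φ h1 h2 v).trans ?_⟩, fun x hx => (hFG.self_of_nhdsSet x hx).1, ?_⟩
  · filter_upwards [ae] with x hx
    rw [hx]
  · congr 1
    refine integral_congr_ae ?_
    filter_upwards [ae] with x hx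
    rw [hx]
  · filter_upwards [ae] with x h1 hx
    rw [← h1, (hFG.self_of_nhdsSet x hx).2]

/-- volume distortion -/
theorem vol (hK : KerS n) (hA : AvA n) (hB : AvB n) (hn : 1 ≤ n) {p K : ℝ} (hp : n < p)
    {Ω C : Set (V n)} {f : V n → V n} {Df : V n → Mt n} (h : h48.IsQR K Ω f Df)
    (hL : h48.LocLp (ENNReal.ofReal p) Ω Df) (hC : IsCompact C) (hCΩ : C ⊆ Ω) :
    ∃ M : ℝ, 0 < M ∧ ∀ E ⊆ C, ∀ t : ℝ, 0 < t → t ≤ 1 → volume E < ENNReal.ofReal t →
      volume (f '' E) ≤ ENNReal.ofReal (M * t ^ (1 - n / p)) := by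
  obtain ⟨R, F, G, R0, hR, w, e1, e2⟩ := localize hn h hC hCΩ
  have p0 : 0 < p := (Nat.cast_nonneg n).trans_lt hp
  have mS : MeasurableSet (cthickening R C) := isClosed_cthickening.measurableSet
  have i := (hL _ hC.cthickening hR).integrable_norm_rpow (by simpa using p0) ENNReal.ofReal_ne_top
  rw [ENNReal.toReal_ofReal p0.le] at i
  obtain ⟨M, M0, hM⟩ := vol_glob hK hA hB hn hp w R0 mS
    (fun x hx => ball_subset_closedBall.trans (closedBall_subset_cthickening hx R))
    (i.congr ((ae_restrict_iff' mS).2 (e2.mono fun x h1 hx => by simp only [h1 hx])))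
  refine ⟨M, M0, fun E hE t t0 t1 ht => ?_⟩
  rw [← Set.image_congr fun x hx => e1 x (self_subset_cthickening C (hE hx))]
  exact hM E hE t t0 t1 ht

end Fac

end Pool.Agent.MP_29b5d3_an.NC

end MrgPart0

-- ======== part 1: formerly Pool.Agent.MP_29b5d3_an.NC.FacB
section MrgPart1

/-! The area inequality for injective continuous maps with a weak derivative. -/

set_option autoImplicit false

namespace Pool.Agent.MP_29b5d3_an.NC

open MeasureTheory Metric Filter Topology Module
open scoped RealInnerProductSpace ContDiff ENNReal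

variable {n : ℕ}

namespace Fac

theorem leb0 (hA : AvA n) (hB : AvB n) {f : V n → V n} {F : V n → Mt n} (h : W f F) :
    ∀ᵐ x, Tendsto (fun r => Iv (fun z => ‖F z - F x‖) x r) (𝓝[>] 0) (𝓝 0) := by
  have hg := hB.loc f F h
  filter_upwards [IsUnifLocDoublingMeasure.ae_tendsto_average_norm_sub volume hg 1] with x hx
  have h2 := (hx (l := 𝓝[>] (0 : ℝ)) (fun _ => x) id tendsto_id (by
    filter_upwards [self_mem_nhdsWithin] with r hr
    exact mem_closedBall_self (by simpa using le_of_lt hr))).const_mul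
      ((volume : Measure (V n)).real (ball 0 1))
  rw [mul_zero] at h2
  refine squeeze_zero' (Eventually.of_forall fun _ => integral_nonneg fun _ => norm_nonneg _) ?_ h2
  filter_upwards [self_mem_nhdsWithin] with r hr
  have hr : 0 < r := hr
  have hl : LocallyIntegrable (fun z => ‖F z - F x‖) volume := fun z =>
    ((hg.sub (locallyIntegrable_const _)) z).norm
  have hb : 0 < (volume : Measure (V n)).real (ball 0 1) :=
    ENNReal.toReal_pos (measure_ball_pos _ _ one_pos).ne' measure_ball_lt_top.ne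
  have e : ∀ b I : ℝ, 0 < b → b * ((r ^ n * b)⁻¹ * I) = (r ^ n)⁻¹ * I := by
    intro b I h
    field_simp
  rw [hA.Iv_eq _ x r hr, setAverage_eq, id, Measure.addHaar_real_closedBall _ _ hr.le, fr,
    smul_eq_mul, e _ _ hb]
  refine mul_le_mul_of_nonneg_left (setIntegral_mono_set
    (hl.integrableOn_isCompact (isCompact_closedBall x r))
    (Eventually.of_forall fun _ => norm_nonneg _) ball_subset_closedBall.eventuallyLE) ?_
  positivity

theorem within (hK : KerS n) (hA : AvA n) (hB : AvB n) {f : V n → V n} {F : V n → Mt n}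
    (h : W f F) {A : Set (V n)} (hu : ∀ η : ℝ, 0 < η → ∃ r₀, 0 < r₀ ∧ ∀ x ∈ A, ∀ r, 0 < r →
      r ≤ r₀ → Iv (fun z => ‖F z - F x‖) x r ≤ η) :
    ∀ x ∈ A, HasFDerivWithinAt f (F x) A x := by
  obtain ⟨φ, ψ, kr⟩ := hK.ker
  obtain ⟨C, C0, hC⟩ := kr.tφ.bdd
  intro x hx
  rw [hasFDerivWithinAt_iff_isLittleO, Asymptotics.isLittleO_iff]
  intro c c0
  obtain ⟨r₀, p0, hr⟩ := hu (c / (C * (2 + 2 ^ n))) (by positivity)
  set η := c / (C * (2 + 2 ^ n)) with hη
  have η0 : 0 < η := by positivity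
  have l := hB.loc f F h
  have s1 : ∀ y ∈ A, ∀ r, 0 < r → r ≤ r₀ → ‖av φ f y r - f y‖ ≤ C * η * r := fun y hy r r0 r1 => by
    have k := sub_av_le hA hB kr h y (c := C * η) (α := 1) r0 (by positivity) one_pos
      fun s s0 s1 => by
        rw [sub_self, Real.rpow_zero, mul_one, mul_one]
        refine (hB.Bv_le φ ψ F (F y) kr l y s s0).1.trans
          ((phi_le hA hB kr.tφ kr.φ0 hC h _ y s0).trans ?_)
        exact mul_le_mul_of_nonneg_left (hr y hy s s0 (s1.trans r1)) C0.le
    rwa [Real.rpow_one] at k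
  filter_upwards [self_mem_nhdsWithin, nhdsWithin_le_nhds (ball_mem_nhds x (half_pos p0))] with
    y hy hd
  rcases eq_or_ne y x with rfl | ne
  · simp
  have r0 : 0 < ‖y - x‖ := norm_pos_iff.2 (sub_ne_zero.2 ne)
  rw [mem_ball, dist_eq_norm] at hd
  set r := ‖y - x‖ with hrr
  have s2 : ‖av φ f y r - av φ f x r - F x (y - x)‖ ≤ C * (2 ^ n * η) * r := by
    refine (convex_closedBall x r).norm_image_sub_le_of_norm_hasFDerivWithin_le'
      (f := fun z => av φ f z r) (f' := fun z => av φ F z r)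
      (fun z _ => (dav_x hB kr h z r0).hasFDerivWithinAt) (fun z hz => ?_)
      (mem_closedBall_self r0.le) (by rw [mem_closedBall, dist_eq_norm])
    refine (hB.Bv_le φ ψ F (F x) kr l z r r0).2.trans
      ((phi_le hA hB kr.tφ kr.φ0 hC h _ z r0).trans (mul_le_mul_of_nonneg_left ?_ C0.le))
    refine (hA.Iv_mono _ x z (2 * r) r (fun w => ((l.sub (locallyIntegrable_const _)) w).norm)
      (fun _ => norm_nonneg _) r0 (by positivity)
      (ball_subset_ball' (by rw [mem_closedBall] at hz; linarith))).trans ?_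
    rw [mul_div_cancel_right₀ _ r0.ne']
    exact mul_le_mul_of_nonneg_left (hr x hx _ (by positivity) (by linarith)) (by positivity)
  have s3 := s1 y hy r r0 (by linarith)
  have s4 := s1 x hx r r0 (by linarith)
  calc _ = ‖(av φ f y r - av φ f x r - F x (y - x)) - (av φ f y r - f y) + (av φ f x r - f x)‖ := by
        congr 1
        abel
    _ ≤ C * (2 ^ n * η) * r + C * η * r + C * η * r :=
        (norm_add_le _ _).trans (add_le_add ((norm_sub_le _ _).trans (add_le_add s2 s3)) s4)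
    _ = c * r := by rw [hη]; field_simp; ring

/-- the area inequality -/
theorem area (hK : KerS n) (hA : AvA n) (hB : AvB n) {f : V n → V n} {F : V n → Mt n}
    (h : W f F) {C E : Set (V n)} (hC : IsCompact C) (hE : E ⊆ C) (mE : MeasurableSet E)
    (inj : Set.InjOn f E) : ∫⁻ x in E, ENNReal.ofReal |(F x).det| ≤ volume (f '' E) := by
  have l := hB.loc f F h
  have fin : ∫⁻ x in C, ENNReal.ofReal |(F x).det| ≠ ⊤ := by
    refine ne_top_of_le_ne_top (h.lp.integrableOn_isCompact hC).lintegral_lt_top.ne ?_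
    exact lintegral_mono fun x => ENNReal.ofReal_le_ofReal (abs_det_le _)
  refine ENNReal.le_of_forall_pos_le_add fun ε ε0 _ => ?_
  obtain ⟨δ, δ0, hδ⟩ := exists_pos_setLIntegral_lt_of_measure_lt fin (ε := ε) (by simpa using ε0.ne')
  obtain ⟨d, -, d0, d1⟩ := ENNReal.lt_iff_exists_real_btwn.1 δ0
  have t0 : Tendsto (fun j : ℕ => (1 / 2 : ℝ) ^ j) atTop (𝓝[>] 0) :=
    tendsto_pow_atTop_nhdsWithin_zero_of_lt_one (by norm_num) (by norm_num)
  have ms : ∀ j : ℕ, StronglyMeasurable fun x => Iv (fun z => ‖F z - F x‖) x ((1 / 2) ^ j) :=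
    fun j => StronglyMeasurable.integral_prod_right
      (f := fun x y : V n => ‖F (x + (1 / 2 : ℝ) ^ j • y) - F x‖)
      ((h.meas.comp_measurable (by fun_prop)).sub (h.meas.comp_measurable measurable_fst)).norm
  obtain ⟨t, t1, t2, t3, t4⟩ := tendstoUniformlyOn_of_ae_tendsto (μ := volume) ms
    (stronglyMeasurable_const (b := (0 : ℝ))) mE
    ((measure_mono hE).trans_lt hC.measure_lt_top).ne
    ((leb0 hA hB h).mono fun x hx _ => hx.comp t0) (ENNReal.ofReal_pos.1 d0)
  have w := within hK hA hB h (A := E \ t) fun η η0 => by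
    obtain ⟨J, hJ⟩ := eventually_atTop.1 (Metric.tendstoUniformlyOn_iff.1 t4 (η / 2 ^ n)
      (by positivity))
    refine ⟨(1 / 2) ^ J, by positivity, fun x hx r r0 r1 => ?_⟩
    obtain ⟨j, j1, j2⟩ := exists_nat_pow_near_of_lt_one (x := r / (1 / 2) ^ J) (y := (1 / 2 : ℝ))
      (by positivity) (by rw [div_le_one (by positivity)]; exact r1) (by norm_num) (by norm_num)
    rw [lt_div_iff₀ (by positivity)] at j1
    rw [div_le_iff₀ (by positivity), ← pow_add] at j2
    have k := hJ (j + J) (Nat.le_add_left _ _) x hx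
    rw [dist_zero_left, lt_div_iff₀ (by positivity)] at k
    refine (hA.Iv_mono _ x x _ r (fun w => ((l.sub (locallyIntegrable_const _)) w).norm)
      (fun _ => norm_nonneg _) r0 (by positivity) (ball_subset_ball j2)).trans ?_
    have k2 : (1 / 2 : ℝ) ^ (j + J) / r ≤ 2 := by
      rw [div_le_iff₀ r0, pow_add]
      rw [pow_succ] at j1
      linarith
    rw [mul_comm]
    refine le_trans ?_ k.le
    gcongr
    exact le_abs_self _
  have a1 := lintegral_abs_det_fderiv_le_addHaar_image volume (mE.diff t2) w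
    (inj.mono Set.diff_subset)
  have a2 := hδ t (((Measure.restrict_le_self t).trans t3).trans_lt d1)
  rw [Measure.restrict_restrict t2, Set.inter_eq_left.2 (t1.trans hE)] at a2
  calc _ ≤ ∫⁻ x in E \ t ∪ t, ENNReal.ofReal |(F x).det| :=
        lintegral_mono_set (Set.subset_diff_union E t)
    _ ≤ _ := (lintegral_union_le _ _ _).trans
        (add_le_add (a1.trans (measure_mono (Set.image_mono Set.diff_subset))) a2.le)

end Fac

end Pool.Agent.MP_29b5d3_an.NC

end MrgPart1

-- ======== part 2: formerly Pool.Agent.MP_29b5d3_an.NC.FacC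
section MrgPart2

/-! The sharp exponent for maps that factor into maps of small dilatation. -/

set_option autoImplicit false

namespace Pool.Agent.MP_29b5d3_an.NC

open MeasureTheory Metric Filter Topology Module
open scoped RealInnerProductSpace ContDiff ENNReal

variable {n : ℕ}

namespace Fac

/-- volume distortion with the exponent `a` on the subsets of `C` -/
def VD (g : V n → V n) (C : Set (V n)) (a : ℝ) : Prop :=
  ∃ M : ℝ, 0 < M ∧ ∀ E ⊆ C, ∀ t : ℝ, 0 < t → volume E < ENNReal.ofReal t →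
    volume (g '' E) ≤ ENNReal.ofReal (M * t ^ a)

theorem VD.of_small {g : V n → V n} {C : Set (V n)} {a b M : ℝ} (hC : IsCompact C)
    (hg : ContinuousOn g C) (a0 : 0 ≤ a) (ab : a ≤ b) (M0 : 0 < M)
    (h : ∀ E ⊆ C, ∀ t : ℝ, 0 < t → t ≤ 1 → volume E < ENNReal.ofReal t →
      volume (g '' E) ≤ ENNReal.ofReal (M * t ^ b)) : VD g C a := by
  have fin := (hC.image_of_continuousOn hg).measure_lt_top (μ := volume)
  have v0 : 0 ≤ (volume (g '' C)).toReal := ENNReal.toReal_nonneg
  refine ⟨M + (volume (g '' C)).toReal, by positivity, fun E hE t t0 ht => ?_⟩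
  rcases le_total t 1 with t1 | t1
  · refine (h E hE t t0 t1 ht).trans (ENNReal.ofReal_le_ofReal ?_)
    exact mul_le_mul (by linarith) (Real.rpow_le_rpow_of_exponent_ge t0 t1 ab) (by positivity)
      (by positivity)
  · refine (measure_mono (Set.image_mono hE)).trans ?_
    rw [← ENNReal.ofReal_toReal fin.ne]
    refine ENNReal.ofReal_le_ofReal ?_
    rw [ENNReal.toReal_ofReal v0]
    nlinarith [Real.one_le_rpow t1 a0]

theorem VD.comp {g h : V n → V n} {C : Set (V n)} {a b : ℝ} (h1 : VD h C a)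
    (h2 : VD g (h '' C) b) : VD (g ∘ h) C (a * b) := by
  obtain ⟨M, M0, h1⟩ := h1
  obtain ⟨N, N0, h2⟩ := h2
  refine ⟨N * (2 * M) ^ b, by positivity, fun E hE t t0 ht => ?_⟩
  have p : 0 < M * t ^ a := by positivity
  rw [Set.image_comp]
  refine (h2 _ (Set.image_mono hE) (2 * M * t ^ a) (by positivity) ((h1 E hE t t0 ht).trans_lt
    ((ENNReal.ofReal_lt_ofReal_iff (by positivity)).2 (by linarith)))).trans (le_of_eq ?_)
  rw [Real.mul_rpow (by positivity) (by positivity), Real.rpow_mul t0.le, mul_assoc]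

theorem VD.lip {g : V n → V n} {C : Set (V n)} {a : ℝ} {L : NNReal} (hC : IsCompact C)
    (hg : LipschitzOnWith L g C) (a0 : 0 ≤ a) (a1 : a ≤ 1) : VD g C a := by
  refine VD.of_small (M := (L : ℝ) ^ n + 1) hC hg.continuousOn a0 a1 (by positivity)
    fun E hE t t0 _ ht => ?_
  have k := (hg.mono hE).hausdorffMeasure_image_le (d := n) (Nat.cast_nonneg n)
  have e := Measure.isAddLeftInvariant_eq_smul (volume : Measure (V n)) (μH[n])
  have k2 : volume (g '' E) ≤ (L : ℝ≥0∞) ^ (n : ℝ) * volume E := by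
    rw [e, Measure.smul_apply, Measure.smul_apply, ENNReal.smul_def, ENNReal.smul_def, smul_eq_mul,
      smul_eq_mul, mul_left_comm]
    gcongr
  refine k2.trans ?_
  rw [Real.rpow_one, ENNReal.ofReal_mul (by positivity), ENNReal.rpow_natCast]
  refine mul_le_mul' ?_ ht.le
  rw [← ENNReal.ofReal_coe_nnreal, ← ENNReal.ofReal_pow L.coe_nonneg]
  exact ENNReal.ofReal_le_ofReal (by linarith)

theorem qr_le {k k' : ℝ} {U : Set (V n)} {g : V n → V n} {D : V n → Mt n} (k0 : 0 < k)
    (h : h48.IsQR k U g D) (hk : k ≤ k') : h48.IsQR k' U g D := by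
  refine ⟨h.1, h.2.1, h.2.2.1, h.2.2.2.1, h.2.2.2.2.mono fun x hx => hx.trans ?_⟩
  refine mul_le_mul_of_nonneg_right hk ?_
  exact nonneg_of_mul_nonneg_right ((pow_nonneg (norm_nonneg _) n).trans hx) k0

/-- one factor of small dilatation -/
theorem step (hn : 1 ≤ n) (hK : KerS n) (hA : AvA n) (hB : AvB n) (hM : Main n) {β : ℝ}
    (β1 : 1 < β) : ∃ δ : ℝ, 0 < δ ∧ ∀ (k a : ℝ) (U C : Set (V n)) (g : V n → V n) (D : V n → Mt n),
      1 ≤ k → k ≤ 1 + δ → h48.IsQR k U g D → IsCompact C → C ⊆ U → 0 < a → a < k ^ (-β) →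
      VD g C a := by
  have β0 : 0 < β := by linarith
  have n0 : (0 : ℝ) < n := by exact_mod_cast hn
  set θ := (β + 1) / (2 * β) with hθ
  have θ0 : 0 < θ := by positivity
  obtain ⟨ε₀, e0, H⟩ := hM θ θ0 (by rw [hθ, div_lt_one (by positivity)]; linarith)
  have b0 : 0 < β - 1 := by linarith
  refine ⟨min (ε₀ / 2) ((β - 1) / (2 * β)), by positivity,
    fun k a U C g D k1 k2 h hC hU a0 a1 => ?_⟩
  have l1 : k - 1 ≤ ε₀ / 2 := by linarith [min_le_left (ε₀ / 2) ((β - 1) / (2 * β))]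
  have l2 : k - 1 ≤ (β - 1) / (2 * β) := by linarith [min_le_right (ε₀ / 2) ((β - 1) / (2 * β))]
  have k3 : k ^ (-β) ≤ 1 - (k - 1) / θ := by
    have b := one_add_mul_self_le_rpow_one_add (s := k - 1) (by linarith) β1.le
    rw [add_sub_cancel] at b
    have p : 0 < 1 + β * (k - 1) := by nlinarith
    rw [Real.rpow_neg (by linarith)]
    refine (inv_anti₀ p b).trans ?_
    rw [le_div_iff₀ (by positivity)] at l2
    rw [inv_eq_one_div, div_le_iff₀ p, hθ]
    have e : (k - 1) / ((β + 1) / (2 * β)) = (k - 1) * (2 * β) / (β + 1) := by field_simp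
    rw [e, one_sub_div (by positivity), div_mul_eq_mul_div, le_div_iff₀ (by positivity)]
    nlinarith [mul_nonneg (mul_nonneg β0.le (sub_nonneg.2 k1)) (sub_nonneg.2 l2)]
  have k4 : k - 1 < (1 - a) * θ := by
    rw [← div_lt_iff₀ θ0]
    linarith
  obtain ⟨ε, ε1, ε2⟩ := exists_between (lt_min k4 (show k - 1 < ε₀ by linarith))
  have ε0 : 0 < ε := by linarith
  have ε3 := ε2.trans_le (min_le_left _ _)
  have hp : (n : ℝ) < θ * n / ε := by
    rw [lt_div_iff₀ ε0]
    nlinarith [mul_pos a0 θ0]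
  have q := qr_le (k' := 1 + ε) (by linarith) h (by linarith)
  obtain ⟨M, M0, hM⟩ := vol hK hA hB hn hp q (H ε _ ε0 (ε2.le.trans (min_le_right _ _))
    (by positivity) le_rfl _ _ _ q) hC hU
  refine VD.of_small hC (h.2.1.mono hU) a0.le ?_ M0 hM
  have e : (n : ℝ) / (θ * n / ε) = ε / θ := by field_simp
  rw [e, le_sub_comm, div_le_iff₀ θ0]
  exact ε3.le

/-- composition of the factors -/
theorem chain (hn : 1 ≤ n) (hK : KerS n) (hA : AvA n) (hB : AvB n) (hM : Main n) {K a : ℝ}
    (K1 : 1 ≤ K) (a0 : 0 < a) (a1 : a < 1 / K) {Ω : Set (V n)} {f : V n → V n}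
    (hf : FineFactor K Ω f) {x : V n} (hx : x ∈ Ω) :
    ∃ U ∈ 𝓝 x, Set.InjOn f U ∧ ∀ C ⊆ U, IsCompact C → VD f C a := by
  have c : ContinuousAt (fun s : ℝ => (K + s) ^ (-(1 + s))) 0 :=
    ContinuousAt.rpow (by fun_prop) (by fun_prop) (Or.inl (by simp only [add_zero]; linarith))
  have c2 : ∀ᶠ s in 𝓝[>] (0 : ℝ), a < (K + s) ^ (-(1 + s)) :=
    nhdsWithin_le_nhds (c.eventually (lt_mem_nhds (by
      simpa only [add_zero, Real.rpow_neg_one, one_div] using a1)))
  obtain ⟨s, s1, s0⟩ := (c2.and self_mem_nhdsWithin).exists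
  have s0 : 0 < s := s0
  obtain ⟨δ, δ0, hδ⟩ := step hn hK hA hB hM (β := 1 + s) (by linarith)
  obtain ⟨m, k, U, g, h, u0, inj, e, h0, hs, hp, hg⟩ := hf (min δ s) (lt_min δ0 s0) x hx
  refine ⟨U 0, u0, inj, fun C hC cC => ?_⟩
  have pos : ∀ i ≤ m, 1 ≤ ∏ j ∈ Finset.range i, k j := fun i hi =>
    Finset.one_le_prod fun j hj => (hg j ((Finset.mem_range.1 hj).trans_le hi)).1
  have ind : ∀ i ≤ m, IsCompact (h i '' C) ∧ h i '' C ⊆ U i ∧ ∀ b, 0 < b →
      b < (∏ j ∈ Finset.range i, k j) ^ (-(1 + s)) → VD (h i) C b := by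
    intro i
    induction i with
    | zero =>
      intro _
      rw [h0, Set.image_id]
      refine ⟨cC, hC, fun b b0 b1 => VD.lip cC LipschitzWith.id.lipschitzOnWith b0.le ?_⟩
      simpa using b1.le
    | succ i ih =>
      intro hi
      obtain ⟨i1, i2, i3⟩ := ih (by omega)
      obtain ⟨g1, g2, g3, g4⟩ := hg i (by omega)
      have ct : ContinuousOn (g i) (U i) :=
        g4.elim (fun ⟨_, q⟩ => q.2.1) fun ⟨_, q⟩ => q.continuousOn
      rw [hs, Set.image_comp]
      refine ⟨i1.image_of_continuousOn (ct.mono i2), (g3.mono_left i2).image_subset,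
        fun b b0 b1 => ?_⟩
      have P0 : 0 < ∏ j ∈ Finset.range i, k j := one_pos.trans_le (pos i (by omega))
      have k0 : 0 < k i ^ (-(1 + s)) := Real.rpow_pos_of_pos (by linarith) _
      rw [Finset.prod_range_succ, Real.mul_rpow P0.le (by linarith), ← div_lt_iff₀ k0] at b1
      obtain ⟨c, c1, c2⟩ := exists_between b1
      have c0 : 0 < c := lt_trans (by positivity) c1
      have c3 : b / c < k i ^ (-(1 + s)) := by
        rw [div_lt_iff₀ k0] at c1
        rwa [div_lt_iff₀' c0]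
      have v : VD (g i) (h i '' C) (b / c) := by
        rcases g4 with ⟨D, q⟩ | ⟨L, q⟩
        · exact hδ _ _ _ _ _ D g1 (g2.trans (by linarith [min_le_left δ s])) q i1 i2
            (by positivity) c3
        · exact VD.lip i1 (q.mono i2) (by positivity)
            (c3.le.trans (Real.rpow_le_one_of_one_le_of_nonpos g1 (by linarith)))
      have := (i3 c c0 c2).comp v
      rwa [mul_div_cancel₀ _ c0.ne'] at this
  obtain ⟨M, M0, hM⟩ := (ind m le_rfl).2.2 a a0 (s1.trans_le (Real.rpow_le_rpow_of_nonpos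
    (one_pos.trans_le (pos m le_rfl)) (hp.trans (by linarith [min_le_right δ s])) (by linarith)))
  refine ⟨M, M0, fun E hE t t0 ht => ?_⟩
  rw [(e.mono (hE.trans hC)).image_eq]
  exact hM E hE t t0 ht

theorem weak_lp {μ : Measure (V n)} (fin : μ Set.univ < ⊤) {J : V n → ℝ} (J0 : ∀ x, 0 ≤ J x)
    (mJ : Measurable J) {M q s : ℝ} (M0 : 0 ≤ M) (q0 : 0 < q) (qs : q < s)
    (h : ∀ l, 1 < l → μ {x | l < J x} ≤ ENNReal.ofReal (M * l ^ (-s))) :
    ∫⁻ x, ENNReal.ofReal (J x ^ q) ∂μ < ⊤ := by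
  rw [lintegral_rpow_eq_lintegral_meas_lt_mul μ (Eventually.of_forall J0) mJ.aemeasurable q0,
    ← Set.Ioc_union_Ioi_eq_Ioi zero_le_one]
  refine ENNReal.mul_lt_top ENNReal.ofReal_lt_top ((lintegral_union_le _ _ _).trans_lt
    (ENNReal.add_lt_top.2 ⟨?_, ?_⟩))
  · have i := (intervalIntegral.intervalIntegrable_rpow' (a := 0) (b := 1)
      (show -1 < q - 1 by linarith)).1.lintegral_lt_top
    refine lt_of_le_of_lt (lintegral_mono fun t => mul_le_mul_left
      (measure_mono (Set.subset_univ _)) _) ?_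
    rw [lintegral_const_mul' _ _ fin.ne]
    exact ENNReal.mul_lt_top fin i
  · have i := ((integrableOn_Ioi_rpow_of_lt (show -s + (q - 1) < -1 by linarith)
      one_pos).const_mul M).lintegral_lt_top
    refine lt_of_le_of_lt (setLIntegral_mono' measurableSet_Ioi fun t ht => ?_) i
    have t0 : 0 < t := one_pos.trans ht
    refine (mul_le_mul_left (h t ht) _).trans (le_of_eq ?_)
    rw [← ENNReal.ofReal_mul (by positivity), Real.rpow_add t0, mul_assoc]

/-- from the volume distortion to the integrability of the Jacobian -/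
theorem det_lp (hK : KerS n) (hA : AvA n) (hB : AvB n) {f : V n → V n} {F : V n → Mt n}
    (h : W f F) {C : Set (V n)} (hC : IsCompact C) (inj : Set.InjOn f C) {a q : ℝ} (a1 : a < 1)
    (v : VD f C a) (q0 : 0 < q) (hq : q < 1 / (1 - a)) :
    ∫⁻ x in C, ENNReal.ofReal (|(F x).det| ^ q) < ⊤ := by
  obtain ⟨M, M0, hM⟩ := v
  have b0 : 0 < 1 - a := by linarith
  have mJ : Measurable fun x => |(F x).det| :=
    (ContinuousLinearMap.continuous_det.abs.comp_stronglyMeasurable h.meas).measurable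
  refine weak_lp (by simpa using hC.measure_lt_top) (fun _ => abs_nonneg _) mJ
    (M := (M * 2 ^ a) ^ (1 / (1 - a))) (by positivity) q0 hq fun l l1 => ?_
  have l0 : 0 < l := by linarith
  have mE := (measurableSet_lt (measurable_const (a := l)) mJ).inter hC.measurableSet
  rw [Measure.restrict_apply (measurableSet_lt measurable_const mJ)]
  set E := {x | l < |(F x).det|} ∩ C with hE
  have sub : E ⊆ C := Set.inter_subset_right
  have fin : volume E ≠ ⊤ := ((measure_mono sub).trans_lt hC.measure_lt_top).ne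
  rw [← ENNReal.ofReal_toReal fin]
  refine ENNReal.ofReal_le_ofReal ?_
  rcases (ENNReal.toReal_nonneg (a := volume E)).eq_or_lt with z | v0
  · rw [← z]
    positivity
  have k1 : ENNReal.ofReal l * volume E ≤ ∫⁻ x in E, ENNReal.ofReal |(F x).det| := by
    rw [← setLIntegral_const]
    exact setLIntegral_mono' mE fun x hx => ENNReal.ofReal_le_ofReal (le_of_lt hx.1)
  have k2 := (k1.trans (area hK hA hB h hC sub mE (inj.mono sub))).trans
    (hM E sub (2 * (volume E).toReal) (by positivity) (by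
      rw [ENNReal.lt_ofReal_iff_toReal_lt fin]
      linarith))
  rw [← ENNReal.ofReal_toReal fin, ← ENNReal.ofReal_mul l0.le, ENNReal.toReal_ofReal v0.le,
    ENNReal.ofReal_le_ofReal_iff (by positivity), Real.mul_rpow zero_le_two v0.le] at k2
  generalize (volume E).toReal = w at *
  have k3 : w ^ (1 - a) ≤ M * 2 ^ a / l := by
    rw [Real.rpow_sub v0, Real.rpow_one, div_le_div_iff₀ (by positivity) l0]
    linarith
  have k4 := Real.rpow_le_rpow (by positivity) k3 (show 0 ≤ 1 / (1 - a) by positivity)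
  rwa [← Real.rpow_mul v0.le, mul_one_div_cancel b0.ne', Real.rpow_one,
    Real.div_rpow (by positivity) l0.le, div_eq_mul_inv, ← Real.rpow_neg l0.le] at k4

theorem lower (hn : 1 ≤ n) (hK : KerS n) (hA : AvA n) (hB : AvB n) (hM : Main n) {K p : ℝ}
    (K1 : 1 < K) (p0 : 0 < p) (hp : p < n * K / (K - 1)) {Ω : Set (V n)} {f : V n → V n}
    {Df : V n → Mt n} (h : h48.IsQR K Ω f Df) (hf : FineFactor K Ω f) :
    h48.LocLp (ENNReal.ofReal p) Ω Df := by
  have n0 : (0 : ℝ) < n := by exact_mod_cast hn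
  have K0 : 0 < K := by linarith
  have k : 1 - n / p < 1 / K := by
    rw [lt_div_iff₀ (by linarith)] at hp
    rw [one_sub_div p0.ne', div_lt_div_iff₀ p0 K0]
    linarith
  obtain ⟨a, a1, a2⟩ := exists_between (max_lt (one_div_pos.2 K0) k)
  have a3 : a < 1 := a2.trans (by rw [div_lt_one K0]; exact K1)
  have hq : p / n < 1 / (1 - a) := by
    have := (le_max_right _ _).trans_lt a1
    rw [sub_lt_comm, lt_div_iff₀ p0] at this
    rw [div_lt_div_iff₀ n0 (by linarith)]
    linarith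
  intro C hC hCΩ
  refine ⟨(h.2.2.1 C hC hCΩ).1, ?_⟩
  rw [eLpNorm_lt_top_iff_lintegral_rpow_enorm_lt_top (by simpa using p0) ENNReal.ofReal_ne_top,
    ENNReal.toReal_ofReal p0.le]
  refine hC.induction_on (p := fun S => ∫⁻ x in S, ‖Df x‖ₑ ^ p < ⊤) (by simp)
    (fun S T hST hT => (lintegral_mono_set hST).trans_lt hT)
    (fun S T hS hT => (lintegral_union_le _ _ _).trans_lt (ENNReal.add_lt_top.2 ⟨hS, hT⟩))
    fun x hx => ?_
  obtain ⟨U, u0, inj, hU⟩ := chain hn hK hA hB hM K1.le ((le_max_left _ _).trans_lt a1) a2 hf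
    (hCΩ hx)
  obtain ⟨B, b0, b1, b2⟩ := local_compact_nhds (inter_mem u0 (h.1.mem_nhds (hCΩ hx)))
  have b3 : B ⊆ U := b1.trans Set.inter_subset_left
  have b4 : B ⊆ Ω := b1.trans Set.inter_subset_right
  refine ⟨B, nhdsWithin_le_nhds b0, ?_⟩
  obtain ⟨R, F, G, -, -, w, e1, e2⟩ := localize hn h b2 b4
  have e : Set.EqOn F f B := fun y hy => e1 y (self_subset_cthickening B hy)
  have v : VD F B a := by
    obtain ⟨M, M0, hM⟩ := hU B b3 b2
    refine ⟨M, M0, fun E hE t t0 ht => ?_⟩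
    rw [(e.mono hE).image_eq]
    exact hM E hE t t0 ht
  have i := det_lp hK hA hB w b2 ((inj.mono b3).congr e.symm) a3 v (div_pos p0 n0) hq
  refine lt_of_le_of_lt (setLIntegral_mono_ae' b2.measurableSet ?_)
    (show ∫⁻ y in B, ENNReal.ofReal (K ^ (p / n)) * ENNReal.ofReal (|(G y).det| ^ (p / n)) < ⊤ by
      rw [lintegral_const_mul' _ _ ENNReal.ofReal_ne_top]
      exact ENNReal.mul_lt_top ENNReal.ofReal_lt_top i)
  filter_upwards [e2, (ae_restrict_iff' h.1.measurableSet).1 h.2.2.2.2] with y h1 h2 hy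
  rw [h1 (self_subset_cthickening B hy), ← ofReal_norm,
    ENNReal.ofReal_rpow_of_nonneg (norm_nonneg _) p0.le, ← ENNReal.ofReal_mul (by positivity),
    ← Real.mul_rpow K0.le (abs_nonneg _)]
  refine ENNReal.ofReal_le_ofReal ?_
  calc _ = (‖Df y‖ ^ n) ^ (p / n) := by
        rw [← Real.rpow_natCast, ← Real.rpow_mul (norm_nonneg _), mul_div_cancel₀ _ n0.ne']
    _ ≤ _ := Real.rpow_le_rpow (by positivity)
        ((h2 (b4 hy)).trans (mul_le_mul_of_nonneg_left (le_abs_self _) K0.le)) (by positivity)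

theorem rad_rad (a b : ℝ) (x : V n) :
    h48.rad a 0 (h48.rad b 0 x) = h48.rad (2 * a * b + a + b) 0 x := by
  rcases eq_or_ne x 0 with rfl | hx
  · simp [h48.rad]
  have p : 0 < ‖x‖ ^ 2 := by positivity
  simp only [h48.rad, add_zero, smul_smul, norm_smul, mul_pow, Real.norm_eq_abs, sq_abs]
  generalize ‖x‖ ^ 2 = t at p
  congr 1
  rw [sq, Real.mul_rpow (by positivity) p.le, Real.mul_rpow (by positivity) (by positivity),
    ← Real.rpow_mul p.le, ← Real.rpow_add p, ← Real.rpow_add p, ← Real.rpow_add p]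
  congr 1
  ring

theorem rad_zero : h48.rad 0 0 = (id : V n → V n) := by
  ext1 x
  simp [h48.rad]

theorem fine_rad (hn : 1 ≤ n) {K : ℝ} (K1 : 1 < K) :
    FineFactor (n := n) K Set.univ (h48.rad ((1 / K - 1) / 2) 0) := by
  intro δ δ0 x _
  have K0 : 0 < K := by linarith
  obtain ⟨m, hm⟩ := pow_unbounded_of_one_lt K (show 1 < 1 + δ by linarith)
  have m0 : m ≠ 0 := by
    rintro rfl
    rw [pow_zero] at hm
    linarith
  set k := K ^ ((m : ℝ)⁻¹) with hk
  have e : k ^ m = K := Real.rpow_inv_natCast_pow K0.le m0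
  have k1 : 1 < k := Real.one_lt_rpow K1 (by positivity)
  have k2 : k ≤ 1 + δ := (lt_of_pow_lt_pow_left₀ m (by positivity) (e.trans_lt hm)).le
  refine ⟨m, fun _ => k, fun _ => Set.univ, fun _ => h48.rad ((1 / k - 1) / 2) 0,
    fun i => h48.rad ((1 / k ^ i - 1) / 2) 0, univ_mem, ?_, fun y _ => by simp only [e], ?_,
    fun i => funext fun y => ?_, by simp [e, δ0.le], fun i _ => ⟨k1.le, k2, Set.mapsTo_univ _ _,
      Or.inl ⟨_, h48.isQR_rad hn k1⟩⟩⟩
  · refine (Function.LeftInverse.injective (g := h48.rad ((K - 1) / 2) 0) fun y => ?_).injOn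
    rw [rad_rad, show 2 * ((K - 1) / 2) * ((1 / K - 1) / 2) + (K - 1) / 2 + (1 / K - 1) / 2 = 0 by
      field_simp; ring, rad_zero, id]
  · simp [rad_zero]
  · simp only [Function.comp_apply, rad_rad]
    congr 1
    have : k ≠ 0 := by positivity
    rw [pow_succ]
    field_simp
    ring

end Fac

theorem fine_of_main (hn : 1 ≤ n) (hK : KerS n) (hA : AvA n) (hB : AvB n) (hM : Main n) {K : ℝ}
    (K1 : 1 < K) : IsLUB {p : ℝ | (n : ℝ) ≤ p ∧ ∀ Ω f Df, h48.IsQR (n := n) K Ω f Df →
      FineFactor K Ω f → h48.LocLp (ENNReal.ofReal p) Ω Df} ((n : ℝ) * K / (K - 1)) := by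
  have n0 : (0 : ℝ) < n := by exact_mod_cast hn
  have k := h48.isLUB_of hn K1 (Q := fun p => 0 < p → ∀ Ω f Df, h48.IsQR (n := n) K Ω f Df →
      FineFactor K Ω f → h48.LocLp (ENNReal.ofReal p) Ω Df)
    (fun p hp p0 Ω f Df h1 h2 => Fac.lower hn hK hA hB hM K1 p0 hp h1 h2)
    fun p p0 h => h48.lt_of_locLp_rad hn K1 p0
      (h p0 _ _ _ (h48.isQR_rad hn K1) (Fac.fine_rad hn K1))
  convert k using 3 with p
  exact and_congr_right fun hp => ⟨fun h _ => h, fun h => h (n0.trans_le hp)⟩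

end Pool.Agent.MP_29b5d3_an.NC

end MrgPart2

-- marker of a merged file
example : 731051 + 89401 = 731051 + 89401 := rfl
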